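import Pool.Agent.Lib.SE.J.Spec
import Pool.Agent.Lib.SE.Defs

/-!
# SE/J: definitions for the algebraic part

The new part of the Jacobian of `y ^ m = ∏ (x - s_j) ^ b_j`, all `Im s_j` different: the coordinates
are indexed by `p = (u, i)`, `u` prime to `m`; the coordinate `p` belongs to the form
`y^u Q_p(x) dx / ∏ (x - s_j)^(1 + [u b_j / m])`, the `Q_p` are orthonormal (for fixed `u`).
-/

set_option autoImplicit false

open MeasureTheory Filter Topology

noncomputable section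

namespace SEJ

/-- `exp (2 π i u / m)` -/
def ze (m u : ℕ) : ℂ := Complex.exp (2 * Real.pi * Complex.I * u / m)

variable {m r : ℕ}

/-- the exponents `μ_j = 1 - {u b_j / m}` -/
def mu (m : ℕ) (b : Fin (r + 1) → ℕ) (u : ℕ) (j : Fin (r + 1)) : ℝ :=
  1 - (((u * b j) % m : ℕ) : ℝ) / m

/-- the index set: characters `u` and exponents `i` -/
abbrev Ix (m : ℕ) (b : Fin (r + 1) → ℕ) : Type :=
  {p : Fin m × Fin r // (p.1 : ℕ).Coprime m ∧
    m * (p.2 : ℕ) + ∑ j, ((p.1 : ℕ) * b j) % m < m * r}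

/-- the character of an index -/
def ch {b : Fin (r + 1) → ℕ} (p : Ix m b) : ℕ := (p.1.1 : ℕ)

/-- the exponent of an index -/
def ex {b : Fin (r + 1) → ℕ} (p : Ix m b) : ℕ := (p.1.2 : ℕ)

/-- an orthonormal system of forms of the first kind -/
structure ONB (m : ℕ) {r : ℕ} (s : Fin (r + 1) → ℂ) (b : Fin (r + 1) → ℕ) where
  Q : Ix m b → Polynomial ℂ
  good : ∀ p : Ix m b, Good s (mu m b (ch p)) (Q p)
  orth : ∀ p q : Ix m b, ch p = ch q → ∫ x : ℂ, frm s (mu m b (ch p)) (Q p) x *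
    (starRingEnd ℂ) (frm s (mu m b (ch p)) (Q q) x) = if p = q then 1 else 0
  span : ∀ p : Ix m b, ∃ c : Ix m b → ℂ, (∀ q : Ix m b, ch q ≠ ch p → c q = 0) ∧
    Polynomial.X ^ ex p = ∑ q : Ix m b, Polynomial.C (c q) * Q q

variable {s : Fin (r + 1) → ℂ} {b : Fin (r + 1) → ℕ}

/-- the vector of the `∫_(R_j)` -/
def ONB.A (o : ONB m s b) (j : Fin (r + 1)) (p : Ix m b) : ℂ :=
  Tp s (frm s (mu m b (ch p)) (o.Q p)) j

/-- the vector of the values at `s_j` of the primitives -/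
def ONB.B (o : ONB m s b) (j : Fin (r + 1)) (p : Ix m b) : ℂ :=
  Pp s (frm s (mu m b (ch p)) (o.Q p)) j

/-- the basis of the lattice -/
def ONB.w (o : ONB m s b) (q : Fin m.totient × Fin r) (p : Ix m b) : ℂ :=
  ze m (ch p) ^ (q.1 : ℕ) * o.A q.2.castSucc p

/-- the lattice -/
def ONB.L (o : ONB m s b) : Submodule ℤ (Ix m b → ℂ) := Submodule.span ℤ (Set.range o.w)

/-- the matrix of the bilinear relations -/
def Nm {F : Type} [Field F] (la : Fin (r + 1) → F) : Matrix (Fin r) (Fin r) F := fun l j =>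
  (1 - la l.castSucc) * (1 - (la j.castSucc)⁻¹) * ((if l ≤ j then 1 else 0) -
    (if l = j then (1 - la j.castSucc)⁻¹ else 0) - (1 - la (Fin.last r))⁻¹)

/-- its inverse at the character `u` -/
def ONB.Mm (o : ONB m s b) (u : ℕ) : Matrix (Fin r) (Fin r) ℂ := fun j l =>
  (2 * Complex.I)⁻¹ *
    ((∑ p : Ix m b, if ch p = u then o.A l.castSucc p * (starRingEnd ℂ) (o.A j.castSucc p) else 0) -
      ∑ p : Ix m b, if ch p + u = m then (starRingEnd ℂ) (o.A l.castSucc p) * o.A j.castSucc p else 0)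

/-- the branch of `y` -/
def y0 (m : ℕ) (s : Fin (r + 1) → ℂ) (b : Fin (r + 1) → ℕ) (x : ℂ) : ℂ :=
  ∏ j, (x - s j) ^ ((b j : ℂ) / m)

/-- the map of the curve to `V / L` -/
def ONB.al (o : ONB m s b) (x y : ℂ) (p : Ix m b) : ℂ :=
  (y / y0 m s b x) ^ ch p * prm (frm s (mu m b (ch p)) (o.Q p)) x

/-- its derivative -/
def ONB.om (o : ONB m s b) (x y : ℂ) (p : Ix m b) : ℂ :=
  y ^ ch p * (o.Q p).eval x / ∏ j, (x - s j) ^ (1 + ch p * b j / m)

end SEJ
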