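import Pool.Agent.Lib.SE.J.Spec

/-! # SE/J, A2: majorant on all horizontal lines -/

set_option autoImplicit false

open MeasureTheory Filter Topology

noncomputable section

namespace SEJ

/-- separation of finitely many different real numbers -/
private theorem A2_sep {k : ℕ} (β : Fin k → ℝ) (hβ : Function.Injective β) :
    ∃ r : ℝ, 0 < r ∧ r ≤ 1 ∧ ∀ (b : ℝ) (j l : Fin k), |b - β j| < r → |b - β l| < r → j = l := by
  classical
  rcases (Finset.univ : Finset (Fin k)).offDiag.eq_empty_or_nonempty with h | h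
  · refine ⟨1, one_pos, le_refl 1, fun b j l _ _ => ?_⟩
    by_contra hjl
    have h1 : (j, l) ∈ (Finset.univ : Finset (Fin k)).offDiag := by
      rw [Finset.mem_offDiag]
      exact ⟨Finset.mem_univ _, Finset.mem_univ _, hjl⟩
    rw [h] at h1
    exact absurd h1 (Finset.notMem_empty _)
  · obtain ⟨p, hp, hmin⟩ := Finset.exists_min_image _ (fun p : Fin k × Fin k => |β p.1 - β p.2|) h
    have h0 : 0 < |β p.1 - β p.2| := by
      rw [Finset.mem_offDiag] at hp
      rw [abs_pos, sub_ne_zero]
      exact fun h2 => hp.2.2 (hβ h2)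
    refine ⟨min 1 (|β p.1 - β p.2| / 2), by positivity, min_le_left _ _, ?_⟩
    intro b j l hj hl
    by_contra hjl
    have h1 : (j, l) ∈ (Finset.univ : Finset (Fin k)).offDiag := by
      rw [Finset.mem_offDiag]
      exact ⟨Finset.mem_univ _, Finset.mem_univ _, hjl⟩
    have h2 := hmin _ h1
    have h3 : min 1 (|β p.1 - β p.2| / 2) ≤ |β p.1 - β p.2| / 2 := min_le_right _ _
    have h4 : |β j - β l| ≤ |b - β l| + |b - β j| := by
      have h5 : β j - β l = (b - β l) - (b - β j) := by ring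
      rw [h5]
      exact abs_sub _ _
    dsimp only at h2
    linarith

/-- the singular function -/
private def A2_g (ν : ℝ) : ℝ → ℝ := Set.indicator (Set.Ioc 0 1) (fun t => t ^ (-ν))

private theorem A2_g_nonneg (ν t : ℝ) : 0 ≤ A2_g ν t := by
  unfold A2_g
  refine Set.indicator_nonneg (fun t ht => ?_) t
  exact Real.rpow_nonneg ht.1.le _

private theorem A2_g_int (ν : ℝ) (h : ν < 1) : Integrable (A2_g ν) := by
  unfold A2_g
  refine IntegrableOn.integrable_indicator ?_ measurableSet_Ioc
  rw [← intervalIntegrable_iff_integrableOn_Ioc_of_le zero_le_one]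
  exact intervalIntegral.intervalIntegrable_rpow' (by linarith)

/-- the singular function near `α` -/
private theorem A2_near (ν a α : ℝ) (h : a ≠ α) (h1 : |a - α| ≤ 1) :
    |a - α| ^ (-ν) ≤ A2_g ν (a - α) + A2_g ν (α - a) := by
  have h0 : 0 < |a - α| := abs_pos.2 (sub_ne_zero.2 h)
  have h2 : A2_g ν |a - α| = |a - α| ^ (-ν) := by
    unfold A2_g
    rw [Set.indicator_of_mem]
    exact ⟨h0, h1⟩
  rw [← h2]
  rcases abs_cases (a - α) with ⟨h3, -⟩ | ⟨h3, -⟩
  · rw [h3]
    have := A2_g_nonneg ν (α - a)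
    linarith
  · rw [h3, neg_sub]
    have := A2_g_nonneg ν (a - α)
    linarith

/-- a factor with a lower bound -/
private theorem A2_fac (K u y ν : ℝ) (hK : 0 < K) (hu : 0 < u) (hν : 0 ≤ ν) (h : u ≤ K * y) :
    y ^ (-ν) ≤ (u / K) ^ (-ν) := by
  refine Real.rpow_le_rpow_of_nonpos (div_pos hu hK) ?_ (by linarith)
  rw [div_le_iff₀ hK]
  linarith [mul_comm K y]

private theorem A2_div (K u t : ℝ) (hK : 0 < K) (hu : 0 < u) :
    (u / K) ^ (-t) = K ^ t * u ^ (-t) := by
  rw [Real.div_rpow hu.le hK.le, Real.rpow_neg hK.le t, div_inv_eq_mul, mul_comm]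

theorem tA2 : S_A2 := by
  intro k s ν d hs hd hν hν1 hN
  classical
  obtain ⟨r, hr, hr1, hsep⟩ := A2_sep (fun j => (s j).im) hs.injective
  set N : ℝ := ∑ j, ν j with hNdef
  set K : ℝ := 2 + (∑ j, (1 + ‖s j‖)) / r with hKdef
  have hsum : 0 ≤ ∑ j, (1 + ‖s j‖) := Finset.sum_nonneg fun j _ => by positivity
  have hK2 : 2 ≤ K := by
    rw [hKdef]
    have : 0 ≤ (∑ j, (1 + ‖s j‖)) / r := div_nonneg hsum hr.le
    linarith
  have hK0 : 0 < K := by linarith
  have hK1 : 1 ≤ K := by linarith
  have hsj : ∀ j, 1 + (1 + ‖s j‖) / r ≤ K := by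
    intro j
    have h1 : 1 + ‖s j‖ ≤ ∑ j, (1 + ‖s j‖) :=
      Finset.single_le_sum (f := fun j => 1 + ‖s j‖) (fun i _ => by positivity) (Finset.mem_univ j)
    have h2 : (1 + ‖s j‖) / r ≤ (∑ j, (1 + ‖s j‖)) / r := div_le_div_of_nonneg_right h1 hr.le
    rw [hKdef]
    linarith
  have hsj' : ∀ j, 2 + ‖s j‖ ≤ K := by
    intro j
    have h1 : 1 + ‖s j‖ ≤ (1 + ‖s j‖) / r := by
      rw [le_div_iff₀ hr]
      have : 0 ≤ 1 + ‖s j‖ := by positivity
      nlinarith
    linarith [hsj j]
  refine ⟨fun a => K ^ N * K * (1 + ‖a‖) ^ (-(N - d)) +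
    K ^ N * ∑ j, (A2_g (ν j) (a - (s j).re) + A2_g (ν j) ((s j).re - a)), ?_, ?_⟩
  · refine Integrable.add ?_ ?_
    · refine Integrable.const_mul ?_ _
      refine integrable_one_add_norm ?_
      rw [Module.finrank_self]
      push_cast
      linarith
    · refine Integrable.const_mul ?_ _
      refine integrable_finsetSum _ fun j _ => ?_
      exact ((A2_g_int (ν j) (hν1 j)).comp_sub_right _).add
        ((A2_g_int (ν j) (hν1 j)).comp_sub_left _)
  · intro a b hab
    set x : ℂ := pt a b with hx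
    have hre : x.re = a := by simp [hx, pt]
    have him : x.im = b := by simp [hx, pt]
    set u : ℝ := 1 + ‖x‖ with hu
    have hu1 : 1 ≤ u := by
      have := norm_nonneg x
      linarith
    have hu0 : 0 < u := by linarith
    have hva : 1 + ‖a‖ ≤ u := by
      have h1 := Complex.abs_re_le_norm x
      rw [hre] at h1
      rw [Real.norm_eq_abs]
      linarith
    have hv1 : 1 ≤ 1 + ‖a‖ := by
      have := norm_nonneg a
      linarith
    have hv0 : 0 < 1 + ‖a‖ := by linarith
    have hG : 0 ≤ ∑ j, (A2_g (ν j) (a - (s j).re) + A2_g (ν j) ((s j).re - a)) :=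
      Finset.sum_nonneg fun j _ => add_nonneg (A2_g_nonneg _ _) (A2_g_nonneg _ _)
    have hKN : 0 < K ^ N := Real.rpow_pos_of_pos hK0 N
    have hP : 0 ≤ (1 + ‖a‖) ^ (-(N - d)) := Real.rpow_nonneg hv0.le _
    -- the far factors
    have hfar : ∀ l, r ≤ |b - (s l).im| → u ≤ K * ‖x - s l‖ := by
      intro l hl
      have h1 : r ≤ ‖x - s l‖ := by
        refine hl.trans ?_
        have h2 := Complex.abs_im_le_norm (x - s l)
        rwa [Complex.sub_im, him] at h2
      have h2 : ‖x‖ ≤ ‖s l‖ + ‖x - s l‖ := by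
        have h3 : x = s l + (x - s l) := by ring
        calc ‖x‖ = ‖s l + (x - s l)‖ := by rw [← h3]
          _ ≤ _ := norm_add_le _ _
      have h3 : 1 + ‖s l‖ ≤ (1 + ‖s l‖) / r * ‖x - s l‖ := by
        rw [div_mul_eq_mul_div, le_div_iff₀ hr]
        exact mul_le_mul_of_nonneg_left h1 (by positivity)
      have h4 := mul_le_mul_of_nonneg_right (hsj l) (norm_nonneg (x - s l))
      nlinarith
    unfold maj
    rw [← hu]
    dsimp only
    by_cases hnear : ∃ j, |b - (s j).im| < r
    · obtain ⟨j, hj⟩ := hnear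
      have h1 : ∏ l, ‖x - s l‖ ^ (-(ν l)) ≤
          |a - (s j).re| ^ (-(ν j)) * (u / K) ^ (-(N - ν j)) := by
        rw [← Finset.mul_prod_erase Finset.univ _ (Finset.mem_univ j)]
        have h2 : ‖x - s j‖ ^ (-(ν j)) ≤ |a - (s j).re| ^ (-(ν j)) := by
          refine Real.rpow_le_rpow_of_nonpos (abs_pos.2 (sub_ne_zero.2 (hab j))) ?_
            (by linarith [hν j])
          have h3 := Complex.abs_re_le_norm (x - s j)
          rwa [Complex.sub_re, hre] at h3
        have h3 : ∏ l ∈ Finset.univ.erase j, ‖x - s l‖ ^ (-(ν l)) ≤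
            (u / K) ^ (-(N - ν j)) := by
          have h4 : -(N - ν j) = ∑ l ∈ Finset.univ.erase j, (-(ν l)) := by
            rw [Finset.sum_neg_distrib, hNdef,
              ← Finset.add_sum_erase Finset.univ ν (Finset.mem_univ j)]
            ring
          rw [h4, Real.rpow_sum_of_pos (div_pos hu0 hK0)]
          refine Finset.prod_le_prod (fun l _ => Real.rpow_nonneg (norm_nonneg _) _) ?_
          intro l hl
          refine A2_fac K u _ _ hK0 hu0 (hν l) (hfar l ?_)
          by_contra h5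
          exact (Finset.mem_erase.1 hl).1 (hsep b l j (not_le.1 h5) hj)
        exact mul_le_mul h2 h3 (Finset.prod_nonneg fun l _ => Real.rpow_nonneg (norm_nonneg _) _)
          (Real.rpow_nonneg (abs_nonneg _) _)
      have h2 : u ^ d * ∏ l, ‖x - s l‖ ^ (-(ν l)) ≤
          K ^ N * (|a - (s j).re| ^ (-(ν j)) * (1 + ‖a‖) ^ (-(N - d - ν j))) := by
        refine (mul_le_mul_of_nonneg_left h1 (Real.rpow_nonneg hu0.le d)).trans ?_
        rw [A2_div K u _ hK0 hu0]
        have h3 : u ^ d * (|a - (s j).re| ^ (-(ν j)) * (K ^ (N - ν j) * u ^ (-(N - ν j)))) =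
            K ^ (N - ν j) * (|a - (s j).re| ^ (-(ν j)) * u ^ (-(N - d - ν j))) := by
          have h4 : u ^ (-(N - d - ν j)) = u ^ d * u ^ (-(N - ν j)) := by
            rw [← Real.rpow_add hu0]
            congr 1
            ring
          rw [h4]
          ring
        rw [h3]
        refine mul_le_mul ?_ ?_ ?_ hKN.le
        · exact Real.rpow_le_rpow_of_exponent_le hK1 (by linarith [hν j])
        · refine mul_le_mul_of_nonneg_left ?_ (Real.rpow_nonneg (abs_nonneg _) _)
          exact Real.rpow_le_rpow_of_nonpos hv0 hva (by linarith [hν1 j])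
        · exact mul_nonneg (Real.rpow_nonneg (abs_nonneg _) _) (Real.rpow_nonneg hu0.le _)
      refine h2.trans ?_
      by_cases h3 : |a - (s j).re| ≤ 1
      · have h4 : (1 + ‖a‖) ^ (-(N - d - ν j)) ≤ 1 :=
          Real.rpow_le_one_of_one_le_of_nonpos hv1 (by linarith [hν1 j])
        have h5 := A2_near (ν j) a (s j).re (hab j) h3
        have h6 : A2_g (ν j) (a - (s j).re) + A2_g (ν j) ((s j).re - a) ≤
            ∑ j, (A2_g (ν j) (a - (s j).re) + A2_g (ν j) ((s j).re - a)) :=
          Finset.single_le_sum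
            (f := fun j => A2_g (ν j) (a - (s j).re) + A2_g (ν j) ((s j).re - a))
            (fun i _ => add_nonneg (A2_g_nonneg _ _) (A2_g_nonneg _ _)) (Finset.mem_univ j)
        have h7 : |a - (s j).re| ^ (-(ν j)) * (1 + ‖a‖) ^ (-(N - d - ν j)) ≤
            |a - (s j).re| ^ (-(ν j)) := by
          have h8 : 0 ≤ |a - (s j).re| ^ (-(ν j)) := Real.rpow_nonneg (abs_nonneg _) _
          nlinarith
        have h8 := mul_le_mul_of_nonneg_left (h7.trans (h5.trans h6)) hKN.le
        have h9 : 0 ≤ K ^ N * K * (1 + ‖a‖) ^ (-(N - d)) := by positivity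
        linarith
      · have h3' : 1 < |a - (s j).re| := not_le.1 h3
        have h4 : 1 + ‖a‖ ≤ K * |a - (s j).re| := by
          have h5 : |(s j).re| ≤ ‖s j‖ := Complex.abs_re_le_norm _
          have h6 : ‖a‖ ≤ |(s j).re| + |a - (s j).re| := by
            rw [Real.norm_eq_abs]
            have h7 : a = (s j).re + (a - (s j).re) := by ring
            calc |a| = |(s j).re + (a - (s j).re)| := by rw [← h7]
              _ ≤ _ := abs_add_le _ _
          have h7 := mul_le_mul_of_nonneg_right (hsj' j) (abs_nonneg (a - (s j).re))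
          have h8 : 1 + ‖s j‖ ≤ (1 + ‖s j‖) * |a - (s j).re| :=
            le_mul_of_one_le_right (by positivity) h3'.le
          nlinarith
        have h5 : |a - (s j).re| ^ (-(ν j)) ≤ K * (1 + ‖a‖) ^ (-(ν j)) := by
          refine (A2_fac K (1 + ‖a‖) _ _ hK0 hv0 (hν j) h4).trans ?_
          rw [A2_div K _ _ hK0 hv0]
          refine mul_le_mul_of_nonneg_right ?_ (Real.rpow_nonneg hv0.le _)
          calc K ^ (ν j) ≤ K ^ (1 : ℝ) :=
                Real.rpow_le_rpow_of_exponent_le hK1 (hν1 j).le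
            _ = K := Real.rpow_one K
        have h6 : |a - (s j).re| ^ (-(ν j)) * (1 + ‖a‖) ^ (-(N - d - ν j)) ≤
            K * (1 + ‖a‖) ^ (-(N - d)) := by
          refine (mul_le_mul_of_nonneg_right h5 (Real.rpow_nonneg hv0.le _)).trans
            (le_of_eq ?_)
          rw [mul_assoc, ← Real.rpow_add hv0]
          congr 2
          ring
        have h7 := mul_le_mul_of_nonneg_left h6 hKN.le
        have h8 : 0 ≤ K ^ N *
            ∑ j, (A2_g (ν j) (a - (s j).re) + A2_g (ν j) ((s j).re - a)) :=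
          mul_nonneg hKN.le hG
        linarith
    · have hall : ∀ l, r ≤ |b - (s l).im| := fun l => not_lt.1 fun h => hnear ⟨l, h⟩
      have h1 : ∏ l, ‖x - s l‖ ^ (-(ν l)) ≤ (u / K) ^ (-N) := by
        have h4 : -N = ∑ l, (-(ν l)) := by
          rw [Finset.sum_neg_distrib]
        rw [h4, Real.rpow_sum_of_pos (div_pos hu0 hK0)]
        refine Finset.prod_le_prod (fun l _ => Real.rpow_nonneg (norm_nonneg _) _) ?_
        intro l _
        exact A2_fac K u _ _ hK0 hu0 (hν l) (hfar l (hall l))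
      have h2 : u ^ d * ∏ l, ‖x - s l‖ ^ (-(ν l)) ≤ K ^ N * (1 + ‖a‖) ^ (-(N - d)) := by
        refine (mul_le_mul_of_nonneg_left h1 (Real.rpow_nonneg hu0.le d)).trans ?_
        rw [A2_div K u _ hK0 hu0]
        have h3 : u ^ d * (K ^ N * u ^ (-N)) = K ^ N * u ^ (-(N - d)) := by
          have h4 : u ^ (-(N - d)) = u ^ d * u ^ (-N) := by
            rw [← Real.rpow_add hu0]
            congr 1
            ring
          rw [h4]
          ring
        rw [h3]
        exact mul_le_mul_of_nonneg_left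
          (Real.rpow_le_rpow_of_nonpos hv0 hva (by linarith)) hKN.le
      have h3 : K ^ N * (1 + ‖a‖) ^ (-(N - d)) ≤ K ^ N * K * (1 + ‖a‖) ^ (-(N - d)) := by
        refine mul_le_mul_of_nonneg_right ?_ hP
        exact le_mul_of_one_le_right hKN.le hK1
      have h4 : 0 ≤ K ^ N *
          ∑ j, (A2_g (ν j) (a - (s j).re) + A2_g (ν j) ((s j).re - a)) :=
        mul_nonneg hKN.le hG
      linarith

end SEJ
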