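import Pool.Agent.Lib.SE.J.Spec

/-! # SE/J, module B1: the fundamental theorem of calculus with finitely many jumps -/

set_option autoImplicit false

open MeasureTheory Filter Topology

noncomputable section

namespace SEJ

/-- the left part -/
private theorem B1_left (k : ℕ) : ∀ (β : Fin k → ℝ) (f f' : ℝ → ℂ) (u l : Fin k → ℂ) (c : ℝ)
    (L : ℂ), StrictMono β → (∀ j, β j < c) →
    (∀ b, b < c → (∀ j, b ≠ β j) → HasDerivAt f (f' b) b) → IntegrableOn f' (Set.Iic c) →
    (∀ j, Tendsto f (𝓝[>] (β j)) (𝓝 (u j))) → (∀ j, Tendsto f (𝓝[<] (β j)) (𝓝 (l j))) →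
    Tendsto f atBot (𝓝 0) → Tendsto f (𝓝[<] c) (𝓝 L) →
    ∫ b in Set.Iic c, f' b = L + ∑ j, (l j - u j) := by
  induction k with
  | zero =>
    intro β f f' u l c L _ _ hd hi _ _ hbot hL
    have h := integral_Iic_of_hasDerivAt_of_tendsto (f := Function.update f c L) (f' := f')
      (a := c) (m := 0) ?_ ?_ hi ?_
    · rw [h, Function.update_self, sub_zero, Finset.univ_eq_empty, Finset.sum_empty, add_zero]
    · rw [continuousWithinAt_update_same, Set.Iic_diff_right]
      exact hL
    · intro x hx
      refine (hd x hx (fun j => j.elim0)).congr_of_eventuallyEq ?_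
      filter_upwards [Iio_mem_nhds hx] with y hy
      exact Function.update_of_ne (ne_of_lt hy) _ _
    · refine hbot.congr' ?_
      filter_upwards [Iio_mem_atBot c] with y hy
      exact (Function.update_of_ne (ne_of_lt hy) _ _).symm
  | succ k ih =>
    intro β f f' u l c L hβ hc hd hi hu hl hbot hL
    have hdc : β (Fin.last k) < c := hc _
    have h1 := ih (fun j => β j.castSucc) f f' (fun j => u j.castSucc) (fun j => l j.castSucc)
      (β (Fin.last k)) (l (Fin.last k)) (fun i j hij => hβ (Fin.castSucc_lt_castSucc_iff.2 hij))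
      (fun j => hβ (Fin.castSucc_lt_last j))
      (fun b hb hbj => hd b (hb.trans hdc) (fun j => by
        refine Fin.lastCases ?_ (fun j => ?_) j
        · exact ne_of_lt hb
        · exact hbj j))
      (hi.mono_set (Set.Iic_subset_Iic.2 hdc.le)) (fun j => hu _) (fun j => hl _) hbot (hl _)
    have h2 : ∫ b in (β (Fin.last k))..c, f' b = L - u (Fin.last k) := by
      refine intervalIntegral.integral_eq_sub_of_hasDerivAt_of_tendsto hdc ?_ ?_ (hu _) hL
      · intro x hx
        refine hd x hx.2 (fun j => ?_)
        have : β j ≤ β (Fin.last k) := hβ.monotone (Fin.le_last j)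
        exact ne_of_gt (lt_of_le_of_lt this hx.1)
      · rw [intervalIntegrable_iff_integrableOn_Ioc_of_le hdc.le]
        exact hi.mono_set Set.Ioc_subset_Iic_self
    have h3 : ∫ b in Set.Iic c, f' b =
        (∫ b in Set.Iic (β (Fin.last k)), f' b) + ∫ b in (β (Fin.last k))..c, f' b := by
      rw [intervalIntegral.integral_of_le hdc.le, ← setIntegral_union
        (Set.Iic_disjoint_Ioc le_rfl) measurableSet_Ioc
        (hi.mono_set (Set.Iic_subset_Iic.2 hdc.le)) (hi.mono_set Set.Ioc_subset_Iic_self),
        Set.Iic_union_Ioc_eq_Iic hdc.le]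
    rw [h3, h1, h2, Fin.sum_univ_castSucc]
    ring

/-- B1: the fundamental theorem of calculus on the line with finitely many jumps. -/
theorem tB1 : S_B1 := by
  intro k β f f' u l hβ hd hi hu hl hbot htop
  cases k with
  | zero =>
    rw [integral_of_hasDerivAt_of_tendsto (fun x => hd x (fun j => j.elim0)) hi hbot htop]
    simp
  | succ k =>
    obtain ⟨d, hdd⟩ : ∃ d, d = β (Fin.last k) := ⟨_, rfl⟩
    have h1 := B1_left k (fun j => β j.castSucc) f f' (fun j => u j.castSucc)
      (fun j => l j.castSucc) (β (Fin.last k)) (l (Fin.last k))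
      (fun i j hij => hβ (Fin.castSucc_lt_castSucc_iff.2 hij))
      (fun j => hβ (Fin.castSucc_lt_last j))
      (fun b hb hbj => hd b (fun j => by
        refine Fin.lastCases ?_ (fun j => ?_) j
        · exact ne_of_lt hb
        · exact hbj j))
      hi.integrableOn (fun j => hu _) (fun j => hl _) hbot (hl _)
    have h2 : ∫ b in Set.Ioi (β (Fin.last k)), f' b = 0 - u (Fin.last k) := by
      have h := integral_Ioi_of_hasDerivAt_of_tendsto
        (f := Function.update f (β (Fin.last k)) (u (Fin.last k))) (f' := f')
        (a := β (Fin.last k)) (m := 0) ?_ ?_ hi.integrableOn ?_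
      · rw [h, Function.update_self]
      · rw [continuousWithinAt_update_same, Set.Ici_sdiff_left]
        exact hu _
      · intro x hx
        refine (hd x (fun j => ?_)).congr_of_eventuallyEq ?_
        · have : β j ≤ β (Fin.last k) := hβ.monotone (Fin.le_last j)
          exact ne_of_gt (lt_of_le_of_lt this hx)
        · filter_upwards [Ioi_mem_nhds hx] with y hy
          exact Function.update_of_ne (ne_of_gt hy) _ _
      · refine htop.congr' ?_
        filter_upwards [Ioi_mem_atTop (β (Fin.last k))] with y hy
        exact (Function.update_of_ne (ne_of_gt hy) _ _).symm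
    rw [← setIntegral_univ, ← Set.Iic_union_Ioi (a := β (Fin.last k)),
      setIntegral_union (Set.Iic_disjoint_Ioi le_rfl) measurableSet_Ioi hi.integrableOn
      hi.integrableOn, h1, h2, Fin.sum_univ_castSucc]
    ring

end SEJ
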