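import Pool.Agent.Lib.SE.J.Spec

/-! # SE/J, module B2: Stokes on the plane with jumps along horizontal lines -/

set_option autoImplicit false

open MeasureTheory Filter Topology

noncomputable section

namespace SEJ

private theorem B2_ae_ne {k : ℕ} (β : Fin k → ℝ) : ∀ᵐ b : ℝ, ∀ j, b ≠ β j := by
  rw [ae_all_iff]
  intro j
  have h := (Set.countable_singleton (β j)).ae_notMem (volume : Measure ℝ)
  filter_upwards [h] with b hb hbj
  exact hb (by rw [hbj]; exact Set.mem_singleton _)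

private theorem B2_ae_notMem (ρ : Finset ℝ) : ∀ᵐ a : ℝ, a ∉ ρ := by
  have h := (ρ.finite_toSet.countable).ae_notMem (volume : Measure ℝ)
  filter_upwards [h] with a ha haρ
  exact ha (Finset.mem_coe.mpr haρ)

private theorem B2_ae_prod {k : ℕ} (β : Fin k → ℝ) : ∀ᵐ p : ℝ × ℝ, ∀ j, p.2 ≠ β j := by
  have h : Measure.QuasiMeasurePreserving (Prod.snd : ℝ × ℝ → ℝ) (volume : Measure (ℝ × ℝ))
      (volume : Measure ℝ) := Measure.quasiMeasurePreserving_snd
  exact h.ae (B2_ae_ne β)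

theorem tB2 : S_B2 := by
  intro B1 k β ρ H Ha Hb K c e u l hβ hdb hda hHb hHai hKi hu hl hbot htop hbot' htop'
  have hHb_ae : (fun p : ℝ × ℝ => c * K p.1 p.2 + e * Ha p.1 p.2)
      =ᵐ[volume] fun p : ℝ × ℝ => Hb p.1 p.2 := by
    filter_upwards [B2_ae_prod β] with p hp
    exact (hHb p.1 p.2 hp).symm
  have hsum : Integrable (fun p : ℝ × ℝ => c * K p.1 p.2 + e * Ha p.1 p.2) :=
    (hKi.const_mul c).add (hHai.const_mul e)
  have hHbi : Integrable (fun p : ℝ × ℝ => Hb p.1 p.2) := hsum.congr hHb_ae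
  -- the integral of `Hb`
  have h1 : ∫ p : ℝ × ℝ, Hb p.1 p.2 = ∫ a, ∑ j, (l j a - u j a) := by
    have h2 : ∫ p : ℝ × ℝ, Hb p.1 p.2 = ∫ a, ∫ b, Hb a b :=
      integral_prod (μ := (volume : Measure ℝ)) (ν := (volume : Measure ℝ))
        (fun p : ℝ × ℝ => Hb p.1 p.2) hHbi
    rw [h2]
    apply integral_congr_ae
    have h3 : ∀ᵐ a : ℝ, Integrable (fun b => Hb a b) :=
      Integrable.prod_right_ae (μ := (volume : Measure ℝ)) (ν := (volume : Measure ℝ))
        (f := fun p : ℝ × ℝ => Hb p.1 p.2) hHbi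
    filter_upwards [h3, B2_ae_notMem ρ] with a ha haρ
    exact B1 β (fun b => H a b) (fun b => Hb a b) (fun j => u j a) (fun j => l j a) hβ
      (hdb a haρ) ha (hu a haρ) (hl a haρ) (hbot a haρ) (htop a haρ)
  -- the integral of `Ha`
  have h4 : ∫ p : ℝ × ℝ, Ha p.1 p.2 = 0 := by
    have h5 : ∫ p : ℝ × ℝ, Ha p.1 p.2 = ∫ b, ∫ a, Ha a b :=
      integral_prod_symm (μ := (volume : Measure ℝ)) (ν := (volume : Measure ℝ))
        (fun p : ℝ × ℝ => Ha p.1 p.2) hHai
    rw [h5]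
    apply integral_eq_zero_of_ae
    have h6 : ∀ᵐ b : ℝ, Integrable (fun a => Ha a b) :=
      Integrable.prod_left_ae (μ := (volume : Measure ℝ)) (ν := (volume : Measure ℝ))
        (f := fun p : ℝ × ℝ => Ha p.1 p.2) hHai
    filter_upwards [h6, B2_ae_ne β] with b hb hbβ
    have h7 := integral_of_hasDerivAt_of_tendsto (hda b hbβ) hb (hbot' b hbβ) (htop' b hbβ)
    rw [h7, sub_zero]
    rfl
  have h8 : ∫ p : ℝ × ℝ, Hb p.1 p.2 = c * ∫ p : ℝ × ℝ, K p.1 p.2 := by
    rw [← integral_congr_ae hHb_ae, integral_add (hKi.const_mul c) (hHai.const_mul e),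
      integral_const_mul, integral_const_mul, h4, mul_zero, add_zero]
  rw [← h8, h1]

end SEJ
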