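import Pool.Agent.Lib.SE.J.Spec

/-!
# SE/J, C1: the derivative of `P ∏ (x - s_j) ^ (-μ_j)`
-/

set_option autoImplicit false

open MeasureTheory Filter Topology

noncomputable section

namespace SEJ

/-- derivative of one factor -/
private theorem C1_factor (a : ℂ) (m : ℝ) (x : ℂ) (h : x - a ∈ Complex.slitPlane) :
    HasDerivAt (fun x : ℂ => (x - a) ^ (-(m : ℂ)))
      ((x - a) ^ (-(m : ℂ)) * (-((m : ℂ) / (x - a)))) x := by
  have h0 : x - a ≠ 0 := Complex.slitPlane_ne_zero h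
  have h1 : HasDerivAt (fun x : ℂ => x - a) 1 x := (hasDerivAt_id x).sub_const a
  have h2 := h1.cpow_const (c := -(m : ℂ)) h
  have h3 : (x - a) ^ (-(m : ℂ) - 1) = (x - a) ^ (-(m : ℂ)) / (x - a) := by
    rw [Complex.cpow_sub _ _ h0, Complex.cpow_one]
  convert h2 using 1
  rw [h3]
  field_simp

/-- derivative of the product -/
private theorem C1_xi {k : ℕ} (s : Fin k → ℂ) (μ : Fin k → ℝ) (x : ℂ)
    (h : ∀ j, x - s j ∈ Complex.slitPlane) :
    HasDerivAt (xi s μ) (xi s μ x * (-∑ j, (μ j : ℂ) / (x - s j))) x := by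
  have h1 := HasDerivAt.fun_finsetProd (u := Finset.univ)
    (f := fun (j : Fin k) (x : ℂ) => (x - s j) ^ (-(μ j : ℂ)))
    (f' := fun j => (x - s j) ^ (-(μ j : ℂ)) * (-((μ j : ℂ) / (x - s j)))) (x := x)
    (fun j _ => C1_factor (s j) (μ j) x (h j))
  have h2 : (∑ i, (∏ j ∈ Finset.univ.erase i, (x - s j) ^ (-(μ j : ℂ))) •
      ((x - s i) ^ (-(μ i : ℂ)) * (-((μ i : ℂ) / (x - s i))))) =
      xi s μ x * (-∑ j, (μ j : ℂ) / (x - s j)) := by
    rw [← Finset.sum_neg_distrib, Finset.mul_sum]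
    refine Finset.sum_congr rfl fun i _ => ?_
    rw [smul_eq_mul, ← mul_assoc, Finset.prod_erase_mul _ _ (Finset.mem_univ i)]
    rfl
  rw [h2] at h1
  exact h1

theorem tC1 : S_C1 := by
  intro k s μ P x h
  have h1 : HasDerivAt (fun x => P.eval x) (P.derivative.eval x) x := P.hasDerivAt x
  have h2 := h1.mul (C1_xi s μ x h)
  have h3 : P.derivative.eval x * xi s μ x +
      P.eval x * (xi s μ x * (-∑ j, (μ j : ℂ) / (x - s j))) = dfrm s μ P x := by
    unfold dfrm
    ring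
  rw [h3] at h2
  exact h2

end SEJ
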