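import Pool.Agent.Lib.SE.J.Spec

/-! # SE/J, C2: bounds for the form and its derivative -/

set_option autoImplicit false

open MeasureTheory Filter Topology

noncomputable section

namespace SEJ

private theorem C2_poly (Q : Polynomial ℂ) (d : ℕ) (h : Q.natDegree ≤ d) :
    ∃ C : ℝ, 0 ≤ C ∧ ∀ x : ℂ, ‖Q.eval x‖ ≤ C * (1 + ‖x‖) ^ d := by
  refine ⟨∑ i ∈ Finset.range (d + 1), ‖Q.coeff i‖, Finset.sum_nonneg fun i _ => norm_nonneg _,
    fun x => ?_⟩
  rw [Polynomial.eval_eq_sum_range' (Nat.lt_succ_of_le h), Finset.sum_mul]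
  refine (norm_sum_le _ _).trans (Finset.sum_le_sum fun i hi => ?_)
  rw [norm_mul, norm_pow]
  refine mul_le_mul_of_nonneg_left ?_ (norm_nonneg _)
  have h1 : ‖x‖ ^ i ≤ (1 + ‖x‖) ^ i :=
    pow_le_pow_left₀ (norm_nonneg _) (by linarith [norm_nonneg x]) i
  have h2 : (1 + ‖x‖) ^ i ≤ (1 + ‖x‖) ^ d :=
    pow_le_pow_right₀ (by linarith [norm_nonneg x])
      (Nat.lt_succ_iff.1 (Finset.mem_range.1 hi))
  exact h1.trans h2

private theorem C2_der (Q : Polynomial ℂ) :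
    ∃ C : ℝ, 0 ≤ C ∧ ∀ x : ℂ, ‖Q.derivative.eval x‖ * (1 + ‖x‖) ≤
      C * (1 + ‖x‖) ^ Q.natDegree := by
  rcases Nat.eq_zero_or_pos Q.natDegree with h | h
  · refine ⟨0, le_rfl, fun x => ?_⟩
    rw [Polynomial.derivative_of_natDegree_zero h]
    simp
  · obtain ⟨C, hC, h1⟩ := C2_poly Q.derivative (Q.natDegree - 1)
      (Polynomial.natDegree_derivative_le Q)
    refine ⟨C, hC, fun x => ?_⟩
    have h2 : (1 + ‖x‖) ^ Q.natDegree = (1 + ‖x‖) ^ (Q.natDegree - 1) * (1 + ‖x‖) := by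
      rw [← pow_succ]
      congr 1
      omega
    rw [h2, ← mul_assoc]
    exact mul_le_mul_of_nonneg_right (h1 x) (by linarith [norm_nonneg x])

private theorem C2_xi {k : ℕ} (s : Fin k → ℂ) (μ : Fin k → ℝ) (x : ℂ) :
    ‖xi s μ x‖ = ∏ j, ‖x - s j‖ ^ (-(μ j)) := by
  unfold xi
  rw [norm_prod]
  refine Finset.prod_congr rfl fun j _ => ?_
  have h : (-(μ j : ℂ)) = ((-(μ j) : ℝ) : ℂ) := by push_cast; rfl
  rw [h, Complex.norm_cpow_real]

private theorem C2_maj {k : ℕ} (s : Fin k → ℂ) (μ : Fin k → ℝ) (d : ℕ) (l : Fin k) (x : ℂ)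
    (hx : ∀ j, x ≠ s j) :
    maj s (fun j => μ j + if j = l then 1 else 0) (d : ℝ) x =
      (1 + ‖x‖) ^ d * ‖xi s μ x‖ * ‖x - s l‖⁻¹ := by
  unfold maj
  rw [C2_xi, Real.rpow_natCast, mul_assoc]
  congr 1
  have h : ∀ j, ‖x - s j‖ ^ (-(μ j + if j = l then (1 : ℝ) else 0)) =
      ‖x - s j‖ ^ (-(μ j)) * (if j = l then ‖x - s l‖⁻¹ else 1) := by
    intro j
    by_cases hj : j = l
    · subst hj
      rw [if_pos rfl, if_pos rfl, neg_add,
        Real.rpow_add (norm_pos_iff.2 (sub_ne_zero.2 (hx j))), Real.rpow_neg_one]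
    · rw [if_neg hj, if_neg hj, add_zero, mul_one]
  simp only [h]
  rw [Finset.prod_mul_distrib, Finset.prod_ite_eq']
  simp

theorem tC2 : S_C2 := by
  intro k s μ P hG hP
  have h0 : P.coeff P.natDegree ≠ 0 := by
    rw [Polynomial.coeff_natDegree]
    exact Polynomial.leadingCoeff_ne_zero.2 hP
  have hd := hG.deg _ h0
  obtain ⟨C1, hC1, h1⟩ := C2_poly P P.natDegree le_rfl
  obtain ⟨C2, hC2, h2⟩ := C2_der P
  have hk : ∃ l0 : Fin k, True := by
    by_contra h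
    push Not at h
    have h3 : ∑ j, μ j = 0 := Finset.sum_eq_zero fun j _ => (h j).elim
    rw [h3] at hd
    have : (0 : ℝ) ≤ (P.natDegree : ℝ) := Nat.cast_nonneg _
    linarith
  obtain ⟨l0, -⟩ := hk
  refine ⟨C1 + C2 * (1 + ‖s l0‖), P.natDegree, Nat.cast_nonneg _, hd, by positivity, ?_, ?_⟩
  · intro x
    unfold frm maj
    rw [norm_mul, C2_xi, Real.rpow_natCast, ← mul_assoc]
    refine mul_le_mul_of_nonneg_right ?_
      (Finset.prod_nonneg fun j _ => Real.rpow_nonneg (norm_nonneg _) _)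
    refine (h1 x).trans (mul_le_mul_of_nonneg_right ?_ (by positivity))
    have : 0 ≤ C2 * (1 + ‖s l0‖) := by positivity
    linarith
  · intro x hx
    simp only [C2_maj s μ P.natDegree _ x hx]
    unfold dfrm
    rw [norm_mul]
    have hpos : ∀ l, 0 < ‖x - s l‖ := fun l => norm_pos_iff.2 (sub_ne_zero.2 (hx l))
    have hX : 0 ≤ ‖xi s μ x‖ := norm_nonneg _
    have hY : 0 ≤ (1 + ‖x‖) ^ P.natDegree := by positivity
    have h3 : ‖P.derivative.eval x‖ ≤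
        C2 * (1 + ‖s l0‖) * (1 + ‖x‖) ^ P.natDegree * ∑ l, ‖x - s l‖⁻¹ := by
      have h4 : ‖x - s l0‖ ≤ (1 + ‖s l0‖) * (1 + ‖x‖) := by
        have := norm_sub_le x (s l0)
        nlinarith [norm_nonneg x, norm_nonneg (s l0), mul_nonneg (norm_nonneg x) (norm_nonneg (s l0))]
      have h5 : ‖x - s l0‖⁻¹ ≤ ∑ l, ‖x - s l‖⁻¹ :=
        Finset.single_le_sum (f := fun l => ‖x - s l‖⁻¹)
          (fun l _ => inv_nonneg.2 (norm_nonneg _)) (Finset.mem_univ l0)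
      have h6 : ‖P.derivative.eval x‖ * ‖x - s l0‖ ≤
          C2 * (1 + ‖s l0‖) * (1 + ‖x‖) ^ P.natDegree := by
        calc ‖P.derivative.eval x‖ * ‖x - s l0‖
            ≤ ‖P.derivative.eval x‖ * ((1 + ‖s l0‖) * (1 + ‖x‖)) :=
              mul_le_mul_of_nonneg_left h4 (norm_nonneg _)
          _ = (‖P.derivative.eval x‖ * (1 + ‖x‖)) * (1 + ‖s l0‖) := by ring
          _ ≤ (C2 * (1 + ‖x‖) ^ P.natDegree) * (1 + ‖s l0‖) :=
              mul_le_mul_of_nonneg_right (h2 x) (by positivity)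
          _ = _ := by ring
      have h7 : ‖P.derivative.eval x‖ ≤
          C2 * (1 + ‖s l0‖) * (1 + ‖x‖) ^ P.natDegree * ‖x - s l0‖⁻¹ := by
        rw [← div_eq_mul_inv, le_div_iff₀ (hpos l0)]
        exact h6
      exact h7.trans (mul_le_mul_of_nonneg_left h5 (by positivity))
    have h8 : ‖∑ j, (μ j : ℂ) / (x - s j)‖ ≤ ∑ l, ‖x - s l‖⁻¹ := by
      refine (norm_sum_le _ _).trans (Finset.sum_le_sum fun j _ => ?_)
      rw [norm_div, Complex.norm_real, Real.norm_eq_abs, abs_of_pos (hG.pos j), div_eq_mul_inv]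
      exact mul_le_of_le_one_left (inv_nonneg.2 (norm_nonneg _)) (hG.lt j).le
    have hS : 0 ≤ ∑ l, ‖x - s l‖⁻¹ := Finset.sum_nonneg fun l _ => inv_nonneg.2 (norm_nonneg _)
    have h9 : ‖P.derivative.eval x - P.eval x * ∑ j, (μ j : ℂ) / (x - s j)‖ ≤
        (C1 + C2 * (1 + ‖s l0‖)) * (1 + ‖x‖) ^ P.natDegree * ∑ l, ‖x - s l‖⁻¹ := by
      refine (norm_sub_le _ _).trans ?_
      rw [norm_mul]
      have h10 : ‖P.eval x‖ * ‖∑ j, (μ j : ℂ) / (x - s j)‖ ≤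
          C1 * (1 + ‖x‖) ^ P.natDegree * ∑ l, ‖x - s l‖⁻¹ :=
        mul_le_mul (h1 x) h8 (norm_nonneg _) (by positivity)
      calc _ ≤ C2 * (1 + ‖s l0‖) * (1 + ‖x‖) ^ P.natDegree * ∑ l, ‖x - s l‖⁻¹ +
            C1 * (1 + ‖x‖) ^ P.natDegree * ∑ l, ‖x - s l‖⁻¹ := add_le_add h3 h10
        _ = _ := by ring
    calc _ ≤ (C1 + C2 * (1 + ‖s l0‖)) * (1 + ‖x‖) ^ P.natDegree * (∑ l, ‖x - s l‖⁻¹) *
          ‖xi s μ x‖ := mul_le_mul_of_nonneg_right h9 hX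
      _ = _ := by
        rw [← Finset.mul_sum]
        ring

end SEJ
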