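import Pool.Agent.Lib.SE.J.Spec

/-! # SE/J: values of the form from above at the rays -/

set_option autoImplicit false

open MeasureTheory Filter Topology

noncomputable section

namespace SEJ

private theorem C3_re (a b : ℝ) : (pt a b).re = a := by simp [pt]

private theorem C3_im (a b : ℝ) : (pt a b).im = b := by simp [pt]

private theorem C3_cont (a : ℝ) : Continuous fun b : ℝ => pt a b := by
  unfold pt
  fun_prop

theorem tC3 : S_C3 := by
  intro k s μ P hG j a ha
  have hc : ∀ w : ℂ, Tendsto (fun b => pt a b - w) (𝓝[>] (s j).im) (𝓝 (pt a (s j).im - w)) := fun w =>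
    (((C3_cont a).sub continuous_const).tendsto _).mono_left nhdsWithin_le_nhds
  have hP : Tendsto (fun b => P.eval (pt a b)) (𝓝[>] (s j).im) (𝓝 (P.eval (pt a (s j).im))) :=
    ((P.continuous.comp (C3_cont a)).tendsto _).mono_left nhdsWithin_le_nhds
  have hsl : ∀ l : Fin k, pt a (s j).im - s l ∈ Complex.slitPlane →
      Tendsto (fun b => (pt a b - s l) ^ (-(μ l : ℂ))) (𝓝[>] (s j).im)
        (𝓝 ((pt a (s j).im - s l) ^ (-(μ l : ℂ)))) := fun l hl =>
    (continuousAt_cpow_const hl).tendsto.comp (hc (s l))
  have hf : ∀ l : Fin k, Tendsto (fun b => (pt a b - s l) ^ (-(μ l : ℂ))) (𝓝[>] (s j).im)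
      (𝓝 ((pt a (s j).im - s l) ^ (-(μ l : ℂ)))) := by
    intro l
    by_cases hl : l = j
    · subst hl
      rcases lt_or_gt_of_ne ha with h | h
      · have hre : (pt a (s l).im - s l).re < 0 := by
          rw [Complex.sub_re, C3_re]
          linarith
        have him : (pt a (s l).im - s l).im = 0 := by
          rw [Complex.sub_im, C3_im, sub_self]
        have h1 : Tendsto (fun b => pt a b - s l) (𝓝[>] (s l).im)
            (𝓝[{z : ℂ | 0 ≤ z.im}] (pt a (s l).im - s l)) := by
          refine tendsto_nhdsWithin_iff.2 ⟨hc (s l), ?_⟩
          filter_upwards [self_mem_nhdsWithin] with b hb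
          have hb' : (s l).im < b := hb
          show 0 ≤ (pt a b - s l).im
          rw [Complex.sub_im, C3_im]
          linarith
        have h2 := (Complex.continuousWithinAt_log_of_re_neg_of_im_zero hre him).tendsto.comp h1
        have h3 := (Complex.continuous_exp.tendsto _).comp (h2.mul_const (-(μ l : ℂ)))
        have hne : pt a (s l).im - s l ≠ 0 := by
          intro h0
          rw [h0] at hre
          simp at hre
        rw [Complex.cpow_def_of_ne_zero hne]
        refine h3.congr' ?_
        filter_upwards [self_mem_nhdsWithin] with b hb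
        have hb' : (s l).im < b := hb
        have hne' : pt a b - s l ≠ 0 := by
          intro h0
          have h4 : (pt a b - s l).im = 0 := by rw [h0]; rfl
          rw [Complex.sub_im, C3_im] at h4
          linarith
        rw [Complex.cpow_def_of_ne_zero hne']
        rfl
      · refine hsl l (Or.inl ?_)
        rw [Complex.sub_re, C3_re]
        linarith
    · refine hsl l (Or.inr ?_)
      rw [Complex.sub_im, C3_im]
      intro h0
      exact hl (hG.im.injective (by
        show (s l).im = (s j).im
        linarith))
  exact hP.mul (tendsto_finset_prod _ fun l _ => hf l)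

end SEJ
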