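import Pool.Agent.Lib.SE.J.Spec

/-! # SE/J: values of the form from below at the rays -/

set_option autoImplicit false

open MeasureTheory Filter Topology

noncomputable section

namespace SEJ

private theorem C4_re (a b : ℝ) : (pt a b).re = a := by simp [pt]

private theorem C4_im (a b : ℝ) : (pt a b).im = b := by simp [pt]

private theorem C4_cont (a : ℝ) : Continuous fun b : ℝ => pt a b := by
  unfold pt
  fun_prop

/-- the jump of `z ^ (-m)` at the negative real axis -/
private theorem C4_jump (z : ℂ) (m : ℝ) (hre : z.re < 0) (him : z.im = 0) :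
    Complex.exp (((Real.log ‖z‖ : ℂ) - Real.pi * Complex.I) * (-(m : ℂ))) =
      Complex.exp (2 * Real.pi * Complex.I * m) * z ^ (-(m : ℂ)) := by
  have hne : z ≠ 0 := by
    intro h0
    rw [h0] at hre
    simp at hre
  have harg : Complex.arg z = Real.pi := Complex.arg_eq_pi_iff.2 ⟨hre, him⟩
  rw [Complex.cpow_def_of_ne_zero hne, ← Complex.exp_add]
  congr 1
  have hlog : Complex.log z = (Real.log ‖z‖ : ℂ) + Real.pi * Complex.I := by
    rw [Complex.log, harg]
  rw [hlog]
  ring

theorem tC4 : S_C4 := by
  intro k s μ P hG j a ha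
  have hc : ∀ w : ℂ, Tendsto (fun b => pt a b - w) (𝓝[<] (s j).im) (𝓝 (pt a (s j).im - w)) := fun w =>
    (((C4_cont a).sub continuous_const).tendsto _).mono_left nhdsWithin_le_nhds
  have hP : Tendsto (fun b => P.eval (pt a b)) (𝓝[<] (s j).im) (𝓝 (P.eval (pt a (s j).im))) :=
    ((P.continuous.comp (C4_cont a)).tendsto _).mono_left nhdsWithin_le_nhds
  have hsl : ∀ l : Fin k, pt a (s j).im - s l ∈ Complex.slitPlane →
      Tendsto (fun b => (pt a b - s l) ^ (-(μ l : ℂ))) (𝓝[<] (s j).im)
        (𝓝 ((pt a (s j).im - s l) ^ (-(μ l : ℂ)))) := fun l hl =>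
    (continuousAt_cpow_const hl).tendsto.comp (hc (s l))
  have hf : ∀ l : Fin k, Tendsto (fun b => (pt a b - s l) ^ (-(μ l : ℂ))) (𝓝[<] (s j).im)
      (𝓝 ((if l = j then (if a < (s j).re then lam μ j else 1) else 1) *
        (pt a (s j).im - s l) ^ (-(μ l : ℂ)))) := by
    intro l
    by_cases hl : l = j
    · subst hl
      rw [if_pos rfl]
      rcases lt_or_gt_of_ne ha with h | h
      · rw [if_pos h]
        have hre : (pt a (s l).im - s l).re < 0 := by
          rw [Complex.sub_re, C4_re]
          linarith
        have him : (pt a (s l).im - s l).im = 0 := by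
          rw [Complex.sub_im, C4_im, sub_self]
        have h1 : Tendsto (fun b => pt a b - s l) (𝓝[<] (s l).im)
            (𝓝[{z : ℂ | z.im < 0}] (pt a (s l).im - s l)) := by
          refine tendsto_nhdsWithin_iff.2 ⟨hc (s l), ?_⟩
          filter_upwards [self_mem_nhdsWithin] with b hb
          have hb' : b < (s l).im := hb
          show (pt a b - s l).im < 0
          rw [Complex.sub_im, C4_im]
          linarith
        have h2 := (Complex.tendsto_log_nhdsWithin_im_neg_of_re_neg_of_im_zero hre him).comp h1
        have h3 := (Complex.continuous_exp.tendsto _).comp (h2.mul_const (-(μ l : ℂ)))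
        have h5 := C4_jump (pt a (s l).im - s l) (μ l) hre him
        have h6 : lam μ l * (pt a (s l).im - s l) ^ (-(μ l : ℂ)) =
            Complex.exp (((Real.log ‖pt a (s l).im - s l‖ : ℂ) - Real.pi * Complex.I) *
              (-(μ l : ℂ))) := h5.symm
        rw [h6]
        refine h3.congr' ?_
        filter_upwards [self_mem_nhdsWithin] with b hb
        have hb' : b < (s l).im := hb
        have hne' : pt a b - s l ≠ 0 := by
          intro h0
          have h4 : (pt a b - s l).im = 0 := by rw [h0]; rfl
          rw [Complex.sub_im, C4_im] at h4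
          linarith
        rw [Complex.cpow_def_of_ne_zero hne']
        rfl
      · rw [if_neg (not_lt.2 h.le), one_mul]
        refine hsl l (Or.inl ?_)
        rw [Complex.sub_re, C4_re]
        linarith
    · rw [if_neg hl, one_mul]
      refine hsl l (Or.inr ?_)
      rw [Complex.sub_im, C4_im]
      intro h0
      exact hl (hG.im.injective (by
        show (s l).im = (s j).im
        linarith))
  have hprod := tendsto_finset_prod Finset.univ fun l _ => hf l
  rw [Finset.prod_mul_distrib, Finset.prod_ite_eq' Finset.univ j] at hprod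
  rw [if_pos (Finset.mem_univ j)] at hprod
  have h7 := hP.mul hprod
  have h8 : P.eval (pt a (s j).im) * ((if a < (s j).re then lam μ j else 1) *
      ∏ l, (pt a (s j).im - s l) ^ (-(μ l : ℂ))) =
      (if a < (s j).re then lam μ j else 1) * frm s μ P (pt a (s j).im) := by
    rw [frm, xi]
    ring
  rw [h8] at h7
  exact h7

end SEJ
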