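import Pool.Agent.Lib.SE.J.Spec

/-! # SE/J/C5: decay of the forms at infinity -/

set_option autoImplicit false

open MeasureTheory Filter Topology

noncomputable section

namespace SEJ

private theorem C5_maj_le {k : ℕ} (s : Fin k → ℂ) (μ : Fin k → ℝ) (d : ℝ) (hμ : ∀ j, 0 < μ j)
    (x : ℂ) (hx : 2 * (∑ j, ‖s j‖) + 1 ≤ ‖x‖) :
    maj s μ d x ≤ (4 : ℝ) ^ (∑ j, μ j) * (1 + ‖x‖) ^ (d - ∑ j, μ j) := by
  have hx1 : 1 ≤ ‖x‖ := by
    have : 0 ≤ ∑ j, ‖s j‖ := Finset.sum_nonneg fun _ _ => norm_nonneg _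
    linarith
  have hpos : 0 < 1 + ‖x‖ := by linarith
  have h1 : ∀ j, ‖x - s j‖ ^ (-(μ j)) ≤ ((1 + ‖x‖) / 4) ^ (-(μ j)) := by
    intro j
    have hj : ‖s j‖ ≤ ∑ j, ‖s j‖ :=
      Finset.single_le_sum (f := fun j => ‖s j‖) (fun _ _ => norm_nonneg _) (Finset.mem_univ j)
    have h2 : ‖x‖ - ‖s j‖ ≤ ‖x - s j‖ := norm_sub_norm_le x (s j)
    have h3 : 0 ≤ ∑ j, ‖s j‖ := Finset.sum_nonneg fun _ _ => norm_nonneg _
    have h4 : (1 + ‖x‖) / 4 ≤ ‖x - s j‖ := by linarith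
    exact Real.rpow_le_rpow_of_nonpos (by positivity) h4 (by linarith [hμ j])
  have h5 : ∏ j, ‖x - s j‖ ^ (-(μ j)) ≤ ∏ j, ((1 + ‖x‖) / 4) ^ (-(μ j)) :=
    Finset.prod_le_prod (fun j _ => Real.rpow_nonneg (norm_nonneg _) _) fun j _ => h1 j
  have h6 : ∏ j, ((1 + ‖x‖) / 4) ^ (-(μ j)) = ((1 + ‖x‖) / 4) ^ (-(∑ j, μ j)) := by
    rw [← Finset.sum_neg_distrib, Real.rpow_sum_of_pos (by positivity)]
  unfold maj
  calc (1 + ‖x‖) ^ d * ∏ j, ‖x - s j‖ ^ (-(μ j))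
      ≤ (1 + ‖x‖) ^ d * ((1 + ‖x‖) / 4) ^ (-(∑ j, μ j)) := by
        rw [← h6]
        exact mul_le_mul_of_nonneg_left h5 (Real.rpow_nonneg hpos.le _)
    _ = (4 : ℝ) ^ (∑ j, μ j) * (1 + ‖x‖) ^ (d - ∑ j, μ j) := by
        rw [Real.div_rpow hpos.le (by norm_num), Real.rpow_neg (by norm_num : (0 : ℝ) ≤ 4),
          div_inv_eq_mul, sub_eq_add_neg, Real.rpow_add hpos]
        ring

private theorem C5_maj {k : ℕ} (s : Fin k → ℂ) (μ : Fin k → ℝ) (d : ℝ) (hμ : ∀ j, 0 < μ j)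
    (hd : d < ∑ j, μ j) : Tendsto (maj s μ d) (Bornology.cobounded ℂ) (𝓝 0) := by
  have h1 : Tendsto (fun x : ℂ => (4 : ℝ) ^ (∑ j, μ j) * (1 + ‖x‖) ^ (d - ∑ j, μ j))
      (Bornology.cobounded ℂ) (𝓝 0) := by
    have h2 : Tendsto (fun x : ℂ => 1 + ‖x‖) (Bornology.cobounded ℂ) atTop :=
      tendsto_atTop_add_const_left _ _ tendsto_norm_cobounded_atTop
    have h3 : Tendsto (fun t : ℝ => t ^ (d - ∑ j, μ j)) atTop (𝓝 0) := by
      have h4 := tendsto_rpow_neg_atTop (y := (∑ j, μ j) - d) (by linarith)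
      simpa using h4
    have h5 := (h3.comp h2).const_mul ((4 : ℝ) ^ (∑ j, μ j))
    simpa using h5
  refine squeeze_zero' (Eventually.of_forall fun x => ?_) ?_ h1
  · unfold maj
    exact mul_nonneg (Real.rpow_nonneg (by positivity) _)
      (Finset.prod_nonneg fun j _ => Real.rpow_nonneg (norm_nonneg _) _)
  · filter_upwards [tendsto_norm_cobounded_atTop.eventually_ge_atTop (2 * (∑ j, ‖s j‖) + 1)] with x hx
    exact C5_maj_le s μ d hμ x hx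

theorem tC5 : S_C5 := by
  intro hC2 k s μ P hG
  by_cases hP : P = 0
  · have : frm s μ P = fun _ => 0 := by
      funext x
      simp [frm, hP]
    rw [this]
    exact tendsto_const_nhds
  · obtain ⟨C, d, hd0, hd, hC, hb, -⟩ := hC2 s μ P hG hP
    have h1 : Tendsto (fun x => C * maj s μ d x) (Bornology.cobounded ℂ) (𝓝 0) := by
      have := (C5_maj s μ d hG.pos (by linarith)).const_mul C
      simpa using this
    exact squeeze_zero_norm hb h1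

end SEJ
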