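import Pool.Agent.Lib.SE.J.Spec

/-! # SE/J D1: the derivative of the primitive -/

set_option autoImplicit false

open MeasureTheory Filter Topology

noncomputable section

namespace SEJ

private lemma D1_low (w : ℂ) (hw : w ∈ Complex.slitPlane) :
    ∃ c : ℝ, 0 < c ∧ ∀ᶠ z in 𝓝 w, ∀ t : ℝ, 0 ≤ t →
      z + (t : ℂ) ∈ Complex.slitPlane ∧ c * (1 + t) ≤ ‖z + (t : ℂ)‖ := by
  -- first the lower bound `m`
  have key : ∃ m : ℝ, 0 < m ∧ ∀ᶠ z in 𝓝 w, ∀ t : ℝ, 0 ≤ t →
      z + (t : ℂ) ∈ Complex.slitPlane ∧ m ≤ ‖z + (t : ℂ)‖ := by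
    by_cases h : w.im = 0
    · have hre : 0 < w.re := by
        rcases Complex.mem_slitPlane_iff.1 hw with h1 | h1
        · exact h1
        · exact absurd h h1
      refine ⟨w.re / 2, by positivity, ?_⟩
      have h1 : ∀ᶠ z : ℂ in 𝓝 w, w.re / 2 < z.re :=
        Complex.continuous_re.continuousAt.eventually_const_lt (by linarith)
      filter_upwards [h1] with z hz t ht
      have h2 : (z + (t : ℂ)).re = z.re + t := by simp
      refine ⟨Complex.mem_slitPlane_iff.2 (Or.inl (by rw [h2]; linarith)), ?_⟩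
      have h3 := Complex.re_le_norm (z + (t : ℂ))
      rw [h2] at h3
      linarith
    · have him : 0 < |w.im| := abs_pos.2 h
      refine ⟨|w.im| / 2, by positivity, ?_⟩
      have h1 : ∀ᶠ z : ℂ in 𝓝 w, |w.im| / 2 < |z.im| :=
        (Complex.continuous_im.abs).continuousAt.eventually_const_lt (by linarith)
      filter_upwards [h1] with z hz t ht
      have h2 : (z + (t : ℂ)).im = z.im := by simp
      have h4 : 0 < |z.im| := by linarith
      refine ⟨Complex.mem_slitPlane_iff.2 (Or.inr (by rw [h2]; exact abs_pos.1 h4)), ?_⟩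
      have h3 := Complex.abs_im_le_norm (z + (t : ℂ))
      rw [h2] at h3
      linarith
  obtain ⟨m, hm, hev⟩ := key
  set M : ℝ := ‖w‖ + 1 with hM
  have hM0 : 0 < M := by positivity
  refine ⟨m / (m + M + 1), by positivity, ?_⟩
  have h1 : ∀ᶠ z : ℂ in 𝓝 w, ‖z‖ < M :=
    continuous_norm.continuousAt.eventually_lt_const (by rw [hM]; linarith)
  filter_upwards [hev, h1] with z hz hzM t ht
  obtain ⟨h2, h3⟩ := hz t ht
  refine ⟨h2, ?_⟩
  have h4 : t - M ≤ ‖z + (t : ℂ)‖ := by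
    have h5 : ‖(t : ℂ)‖ ≤ ‖z + (t : ℂ)‖ + ‖z‖ := by
      have := norm_sub_le (z + (t : ℂ)) z
      simpa using this
    rw [Complex.norm_real, Real.norm_of_nonneg ht] at h5
    linarith
  rw [div_mul_eq_mul_div, div_le_iff₀ (by positivity)]
  by_cases h6 : t ≤ M + m
  · have : m * (m + M + 1) ≤ ‖z + (t : ℂ)‖ * (m + M + 1) :=
      mul_le_mul_of_nonneg_right h3 (by positivity)
    nlinarith
  · have h6' : M + m < t := not_le.1 h6
    have : (t - M) * (m + M + 1) ≤ ‖z + (t : ℂ)‖ * (m + M + 1) :=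
      mul_le_mul_of_nonneg_right h4 (by positivity)
    nlinarith [mul_pos hM0 (sub_pos.2 h6')]

variable {k : ℕ}

private lemma D1_slit (s : Fin k → ℂ) (x : ℂ) (hx : ∀ j, x.im = (s j).im → (s j).re < x.re) (j : Fin k) :
    x - s j ∈ Complex.slitPlane := by
  rw [Complex.mem_slitPlane_iff]
  by_cases h : x.im = (s j).im
  · left
    have := hx j h
    rw [Complex.sub_re]
    linarith
  · right
    rw [Complex.sub_im]
    exact sub_ne_zero.2 h

private lemma D1_ev (s : Fin k → ℂ) (x : ℂ) (hx : ∀ j, x - s j ∈ Complex.slitPlane) :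
    ∃ c : Fin k → ℝ, (∀ j, 0 < c j) ∧ ∀ᶠ y in 𝓝 x, ∀ t : ℝ, 0 ≤ t → ∀ j,
      y + (t : ℂ) - s j ∈ Complex.slitPlane ∧ c j * (1 + t) ≤ ‖y + (t : ℂ) - s j‖ := by
  choose c hc hev using fun j => D1_low (x - s j) (hx j)
  refine ⟨c, hc, ?_⟩
  have h1 : ∀ᶠ y in 𝓝 x, ∀ j, ∀ t : ℝ, 0 ≤ t →
      y - s j + (t : ℂ) ∈ Complex.slitPlane ∧ c j * (1 + t) ≤ ‖y - s j + (t : ℂ)‖ := by
    rw [eventually_all]
    intro j
    have h2 : Tendsto (fun y : ℂ => y - s j) (𝓝 x) (𝓝 (x - s j)) :=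
      (continuous_id.sub continuous_const).tendsto x
    exact h2.eventually (hev j)
  filter_upwards [h1] with y hy t ht j
  have h3 := hy j t ht
  have h4 : y + (t : ℂ) - s j = y - s j + (t : ℂ) := by ring
  rw [h4]
  exact h3

private lemma D1_maj (s : Fin k → ℂ) (ν : Fin k → ℝ) (d : ℝ) (hν : ∀ j, 0 ≤ ν j) (hd : 0 ≤ d)
    (c : Fin k → ℝ) (hc : ∀ j, 0 < c j) (R : ℝ) (hR : 0 ≤ R) (y : ℂ) (hy : ‖y‖ ≤ R) (t : ℝ) (ht : 0 ≤ t)
    (hj : ∀ j, c j * (1 + t) ≤ ‖y + (t : ℂ) - s j‖) :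
    maj s ν d (y + (t : ℂ)) ≤ ((R + 1) ^ d * ∏ j, (c j) ^ (-(ν j))) * (t + 1) ^ (d - ∑ j, ν j) := by
  have h1t : 0 < 1 + t := by linarith
  have h1 : (1 + ‖y + (t : ℂ)‖) ^ d ≤ (R + 1) ^ d * (t + 1) ^ d := by
    rw [← Real.mul_rpow (by linarith) (by linarith)]
    refine Real.rpow_le_rpow (by positivity) ?_ hd
    have h2 : ‖y + (t : ℂ)‖ ≤ ‖y‖ + t := by
      have := norm_add_le y (t : ℂ)
      rwa [Complex.norm_real, Real.norm_of_nonneg ht] at this
    nlinarith [mul_nonneg hR ht]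
  have h2 : ∏ j, ‖y + (t : ℂ) - s j‖ ^ (-(ν j)) ≤ ∏ j, ((c j) ^ (-(ν j)) * (t + 1) ^ (-(ν j))) := by
    refine Finset.prod_le_prod (fun j _ => by positivity) fun j _ => ?_
    rw [← Real.mul_rpow (hc j).le (by linarith), add_comm t 1]
    exact Real.rpow_le_rpow_of_nonpos (mul_pos (hc j) h1t) (hj j) (by have := hν j; linarith)
  have h3 : ∏ j, ((c j) ^ (-(ν j)) * (t + 1) ^ (-(ν j))) =
      (∏ j, (c j) ^ (-(ν j))) * (t + 1) ^ (-∑ j, ν j) := by
    rw [Finset.prod_mul_distrib, ← Finset.sum_neg_distrib, Real.rpow_sum_of_pos (by linarith)]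
  rw [maj]
  calc (1 + ‖y + (t : ℂ)‖) ^ d * ∏ j, ‖y + (t : ℂ) - s j‖ ^ (-(ν j))
      ≤ ((R + 1) ^ d * (t + 1) ^ d) * ((∏ j, (c j) ^ (-(ν j))) * (t + 1) ^ (-∑ j, ν j)) := by
        rw [← h3]
        exact mul_le_mul h1 h2 (Finset.prod_nonneg fun j _ => by positivity)
          (mul_nonneg (Real.rpow_nonneg (by linarith) _) (Real.rpow_nonneg (by linarith) _))
    _ = ((R + 1) ^ d * ∏ j, (c j) ^ (-(ν j))) * (t + 1) ^ (d - ∑ j, ν j) := by
        rw [sub_eq_add_neg, Real.rpow_add (by linarith)]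
        ring

theorem tD1 : S_D1 := by
  intro hC1 hC2 hC5 k s μ P hG x hx
  have hsl := D1_slit s x hx
  by_cases hP : P = 0
  · have h1 : prm (frm s μ P) = fun _ => 0 := by
      funext y
      simp [prm, frm, hP]
    have h2 : frm s μ P x = 0 := by simp [frm, hP]
    rw [h1, h2]
    exact hasDerivAt_const x 0
  obtain ⟨C, d, hd, hd1, hC, hb, hb'⟩ := hC2 s μ P hG hP
  obtain ⟨c, hc, hev⟩ := D1_ev s x hsl
  have hnorm : ∀ᶠ y : ℂ in 𝓝 x, ‖y‖ < ‖x‖ + 1 :=
    continuous_norm.continuousAt.eventually_lt_const (by linarith)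
  have hall := hev.and hnorm
  obtain ⟨S, hS, hSall⟩ := hall.exists_mem
  have hxS : x ∈ S := mem_of_mem_nhds hS
  have hR : 0 ≤ ‖x‖ + 1 := by positivity
  -- the derivative along
  have hder : ∀ y ∈ S, ∀ t : ℝ, 0 ≤ t → HasDerivAt (frm s μ P) (dfrm s μ P (y + (t : ℂ))) (y + (t : ℂ)) :=
    fun y hy t ht => hC1 s μ P _ fun j => ((hSall y hy).1 t ht j).1
  -- bounds
  have hfb : ∀ y ∈ S, ∀ t : ℝ, 0 ≤ t → ‖frm s μ P (y + (t : ℂ))‖ ≤
      C * (((‖x‖ + 1 + 1) ^ d * ∏ j, (c j) ^ (-(μ j))) * (t + 1) ^ (d - ∑ j, μ j)) := by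
    intro y hy t ht
    refine (hb _).trans (mul_le_mul_of_nonneg_left ?_ hC)
    exact D1_maj s μ d (fun j => (hG.pos j).le) hd c hc _ hR y (hSall y hy).2.le t ht
      fun j => ((hSall y hy).1 t ht j).2
  have hdb : ∀ y ∈ S, ∀ t : ℝ, 0 ≤ t → ‖dfrm s μ P (y + (t : ℂ))‖ ≤
      C * ∑ l, (((‖x‖ + 1 + 1) ^ d * ∏ j, (c j) ^ (-(μ j + if j = l then 1 else 0))) *
        (t + 1) ^ (d - ∑ j, (μ j + if j = l then 1 else 0))) := by
    intro y hy t ht
    refine (hb' _ fun j h => ?_).trans (mul_le_mul_of_nonneg_left ?_ hC)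
    · have h1 := ((hSall y hy).1 t ht j).1
      rw [h, sub_self] at h1
      exact Complex.zero_notMem_slitPlane h1
    · refine Finset.sum_le_sum fun l _ => ?_
      refine D1_maj s _ d (fun j => ?_) hd c hc _ hR y (hSall y hy).2.le t ht
        fun j => ((hSall y hy).1 t ht j).2
      have := (hG.pos j).le
      split_ifs <;> linarith
  -- integrability of the bounds
  have hi1 : IntegrableOn (fun t : ℝ => C * (((‖x‖ + 1 + 1) ^ d * ∏ j, (c j) ^ (-(μ j))) *
      (t + 1) ^ (d - ∑ j, μ j))) (Set.Ioi 0) :=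
    ((integrableOn_add_rpow_Ioi_of_lt (by linarith) (by norm_num)).const_mul _).const_mul _
  have hi2 : IntegrableOn (fun t : ℝ => C * ∑ l, (((‖x‖ + 1 + 1) ^ d *
      ∏ j, (c j) ^ (-(μ j + if j = l then 1 else 0))) *
        (t + 1) ^ (d - ∑ j, (μ j + if j = l then 1 else 0)))) (Set.Ioi 0) := by
    refine Integrable.const_mul ?_ _
    refine integrable_finsetSum _ fun l _ => Integrable.const_mul ?_ _
    refine integrableOn_add_rpow_Ioi_of_lt ?_ (by norm_num)
    rw [Finset.sum_add_distrib, Finset.sum_ite_eq' Finset.univ l, if_pos (Finset.mem_univ l)]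
    linarith
  -- continuity
  have hadd : ∀ y : ℂ, Continuous fun t : ℝ => y + (t : ℂ) := fun y =>
    continuous_const.add Complex.continuous_ofReal
  have hfc : ∀ y ∈ S, ContinuousOn (fun t : ℝ => frm s μ P (y + (t : ℂ))) (Set.Ioi 0) := by
    intro y hy t ht
    have h1 := (hder y hy t (le_of_lt ht)).continuousAt
    exact (ContinuousAt.comp (f := fun t : ℝ => y + (t : ℂ)) h1 (hadd y).continuousAt).continuousWithinAt
  have hdc : ContinuousOn (fun t : ℝ => dfrm s μ P (x + (t : ℂ))) (Set.Ioi 0) := by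
    intro t ht
    have ht' : 0 ≤ t := le_of_lt ht
    have hne : ∀ j, x + (t : ℂ) - s j ≠ 0 := by
      intro j h
      have h1 := ((hSall x hxS).1 t ht' j).1
      rw [h] at h1
      exact Complex.zero_notMem_slitPlane h1
    have hxi : ContinuousAt (xi s μ) (x + (t : ℂ)) := by
      have h1 := (hC1 s μ 1 (x + (t : ℂ)) fun j => ((hSall x hxS).1 t ht' j).1).continuousAt
      have h2 : frm s μ 1 = xi s μ := by
        funext z
        simp [frm]
      rwa [h2] at h1
    have h1 : ContinuousAt (dfrm s μ P) (x + (t : ℂ)) := by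
      unfold dfrm
      refine ContinuousAt.mul (ContinuousAt.sub P.derivative.continuous.continuousAt
        (ContinuousAt.mul P.continuous.continuousAt ?_)) hxi
      refine tendsto_finsetSum _ fun j _ => ?_
      exact ContinuousAt.div continuousAt_const (continuous_id.sub continuous_const).continuousAt (hne j)
    exact (ContinuousAt.comp (f := fun t : ℝ => x + (t : ℂ)) h1 (hadd x).continuousAt).continuousWithinAt
  have hmain := hasDerivAt_integral_of_dominated_loc_of_deriv_le (𝕜 := ℂ) (μ := volume.restrict (Set.Ioi (0 : ℝ)))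
    (F := fun (y : ℂ) (t : ℝ) => frm s μ P (y + (t : ℂ))) (F' := fun (y : ℂ) (t : ℝ) => dfrm s μ P (y + (t : ℂ)))
    (x₀ := x) (s := S) (bound := fun t : ℝ => C * ∑ l, (((‖x‖ + 1 + 1) ^ d *
      ∏ j, (c j) ^ (-(μ j + if j = l then 1 else 0))) *
        (t + 1) ^ (d - ∑ j, (μ j + if j = l then 1 else 0)))) hS
    (by
      filter_upwards [hS] with y hy
      exact (hfc y hy).aestronglyMeasurable measurableSet_Ioi)
    (by
      refine Integrable.mono' hi1 ((hfc x hxS).aestronglyMeasurable measurableSet_Ioi) ?_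
      filter_upwards [ae_restrict_mem measurableSet_Ioi] with t ht
      exact hfb x hxS t (le_of_lt ht))
    (hdc.aestronglyMeasurable measurableSet_Ioi)
    (by
      filter_upwards [ae_restrict_mem measurableSet_Ioi] with t ht y hy
      exact hdb y hy t (le_of_lt ht))
    hi2
    (by
      filter_upwards [ae_restrict_mem measurableSet_Ioi] with t ht y hy
      exact (hder y hy t (le_of_lt ht)).comp_add_const y (t : ℂ))
  obtain ⟨hint, hD⟩ := hmain
  -- the value of the integral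
  have hval : ∫ t in Set.Ioi (0 : ℝ), dfrm s μ P (x + (t : ℂ)) = 0 - frm s μ P x := by
    have h1 := integral_Ioi_of_hasDerivAt_of_tendsto' (a := (0 : ℝ)) (m := 0)
      (f := fun t : ℝ => frm s μ P (x + (t : ℂ))) (f' := fun t : ℝ => dfrm s μ P (x + (t : ℂ)))
      (fun t ht => by
        have h2 := (hder x hxS t ht).comp_const_add x (t : ℂ)
        exact h2.comp_ofReal)
      hint
      (by
        refine (hC5 hC2 s μ P hG).comp ?_
        rw [← tendsto_norm_atTop_iff_cobounded]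
        refine tendsto_atTop_mono (f := fun t : ℝ => t - ‖x‖) (fun t => ?_) ?_
        · have h5 := norm_sub_le (x + (t : ℂ)) x
          rw [add_sub_cancel_left, Complex.norm_real] at h5
          have h6 := le_abs_self t
          rw [← Real.norm_eq_abs] at h6
          linarith
        · exact tendsto_atTop_add_const_right _ (-‖x‖) tendsto_id)
    simpa using h1
  have h9 := hD.neg
  rw [hval, zero_sub, neg_neg] at h9
  exact h9

end SEJ
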