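import Pool.Agent.Lib.SE.J.Spec

/-! # SE/J D2: the primitive is bounded -/

set_option autoImplicit false

open MeasureTheory Filter Topology

noncomputable section

namespace SEJ

theorem tD2 : S_D2 := by
  intro hA2 hC2 k s μ P hG
  by_cases hP : P = 0
  · refine ⟨0, fun x => ?_⟩
    have : prm (frm s μ P) x = 0 := by
      simp [prm, frm, hP]
    simp [this]
  obtain ⟨C, d, hd, hd1, hC, hb, -⟩ := hC2 s μ P hG hP
  obtain ⟨F, hF, hFb⟩ := hA2 s μ d hG.im hd (fun j => (hG.pos j).le) hG.lt hd1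
  refine ⟨C * ∫ a, ‖F a‖, fun x => ?_⟩
  have hint : Integrable (fun t : ℝ => C * ‖F (x.re + t)‖) :=
    (hF.comp_add_left x.re).norm.const_mul C
  have hfin : ∀ᵐ t : ℝ, ∀ j, x.re + t ≠ (s j).re := by
    rw [ae_all_iff]
    intro j
    have : ∀ᵐ t : ℝ, t ≠ (s j).re - x.re := by
      simp [ae_iff]
    filter_upwards [this] with t ht h
    exact ht (by linarith)
  have hbd : ∀ᵐ t : ℝ, ‖frm s μ P (x + (t : ℂ))‖ ≤ C * ‖F (x.re + t)‖ := by
    filter_upwards [hfin] with t ht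
    have h1 : x + (t : ℂ) = pt (x.re + t) x.im := by
      apply Complex.ext <;> simp [pt]
    rw [h1]
    refine (hb _).trans (mul_le_mul_of_nonneg_left ?_ hC)
    exact (hFb _ _ ht).trans (le_abs_self _)
  have h2 : ‖∫ t in Set.Ioi (0 : ℝ), frm s μ P (x + (t : ℂ))‖ ≤
      ∫ t in Set.Ioi (0 : ℝ), C * ‖F (x.re + t)‖ :=
    norm_integral_le_of_norm_le hint.integrableOn (ae_restrict_of_ae hbd)
  have h3 : ∫ t in Set.Ioi (0 : ℝ), C * ‖F (x.re + t)‖ ≤ ∫ t : ℝ, C * ‖F (x.re + t)‖ :=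
    setIntegral_le_integral hint (Eventually.of_forall fun t => mul_nonneg hC (norm_nonneg _))
  have h4 : ∫ t : ℝ, C * ‖F (x.re + t)‖ = C * ∫ a, ‖F a‖ := by
    rw [integral_const_mul]
    congr 1
    exact integral_add_left_eq_self (fun t => ‖F t‖) x.re
  rw [prm, norm_neg]
  linarith

end SEJ
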