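import Pool.Agent.Lib.SE.J.Spec

/-! # SE/J, module D3: limits of the primitive from above -/

set_option autoImplicit false

open MeasureTheory Filter Topology

noncomputable section

namespace SEJ

theorem D3_pt_add (a b t : ℝ) : pt a b + (t : ℂ) = pt (a + t) b := by
  unfold pt
  push_cast
  ring

theorem D3_meas {k : ℕ} (s : Fin k → ℂ) (μ : Fin k → ℝ) (P : Polynomial ℂ) :
    Measurable (frm s μ P) := by
  unfold frm xi
  refine (P.continuous.measurable).mul ?_
  refine Finset.measurable_fun_prod _ fun j _ => ?_
  exact (measurable_id.sub_const (s j)).pow_const _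

theorem D3_ae {k : ℕ} (s : Fin k → ℂ) (a : ℝ) :
    ∀ᵐ t : ℝ ∂(volume.restrict (Set.Ioi (0 : ℝ))), ∀ j, a + t ≠ (s j).re := by
  refine ae_restrict_of_ae ?_
  rw [ae_all_iff]
  intro j
  filter_upwards [(Set.countable_singleton ((s j).re - a)).ae_notMem volume] with t ht h
  exact ht (by rw [Set.mem_singleton_iff]; linarith)

theorem tD3 : S_D3 := by
  intro hA2 hC2 hC3 k s μ P hG j a ha
  by_cases hP : P = 0
  · subst hP
    have h : ∀ x, prm (frm s μ 0) x = 0 := by
      intro x
      simp [prm, frm]
    simp only [h]
    exact tendsto_const_nhds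
  · obtain ⟨C, d, hd, hd1, hC, hb, -⟩ := hC2 s μ P hG hP
    obtain ⟨F, hF, hFb⟩ := hA2 s μ d hG.im hd (fun j => (hG.pos j).le) hG.lt hd1
    unfold prm
    refine Tendsto.neg ?_
    refine tendsto_integral_filter_of_dominated_convergence (fun t => C * F (a + t)) ?_ ?_ ?_ ?_
    · refine Eventually.of_forall fun b => ?_
      refine Measurable.aestronglyMeasurable ?_
      exact (D3_meas s μ P).comp (measurable_const.add Complex.measurable_ofReal)
    · refine Eventually.of_forall fun b => ?_
      filter_upwards [D3_ae s a] with t ht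
      rw [D3_pt_add]
      exact (hb _).trans (mul_le_mul_of_nonneg_left (hFb _ _ ht) hC)
    · exact ((hF.comp_add_left a).const_mul C).integrableOn
    · filter_upwards [D3_ae s a] with t ht
      simp only [D3_pt_add]
      exact hC3 s μ P hG j (a + t) (ht j)

end SEJ
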