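import Pool.Agent.Lib.SE.J.Spec

/-! # SE/J D4: limits of the primitive from below -/

set_option autoImplicit false

open MeasureTheory Filter Topology

noncomputable section

namespace SEJ

private theorem D4_shift (h : ℝ → ℂ) (a : ℝ) :
    ∫ t in Set.Ioi (0 : ℝ), h (a + t) = ∫ x in Set.Ioi a, h x := by
  rw [← integral_indicator measurableSet_Ioi, ← integral_indicator measurableSet_Ioi,
    ← integral_add_left_eq_self (fun x => (Set.Ioi a).indicator h x) a]
  refine integral_congr_ae (Eventually.of_forall fun t => ?_)
  by_cases ht : 0 < t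
  · have h1 : t ∈ Set.Ioi (0 : ℝ) := ht
    have h2 : a + t ∈ Set.Ioi a := by
      simp only [Set.mem_Ioi]
      linarith
    simp only [Set.indicator_of_mem h1, Set.indicator_of_mem h2]
  · have h1 : t ∉ Set.Ioi (0 : ℝ) := ht
    have h2 : a + t ∉ Set.Ioi a := by
      simp only [Set.mem_Ioi]
      intro h3
      exact ht (by linarith)
    simp only [Set.indicator_of_notMem h1, Set.indicator_of_notMem h2]

private theorem D4_prm (f : ℂ → ℂ) (a b : ℝ) :
    prm f (pt a b) = - ∫ x in Set.Ioi a, f (pt x b) := by
  rw [← D4_shift (fun x => f (pt x b)) a]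
  unfold prm
  refine congrArg Neg.neg (integral_congr_ae (Eventually.of_forall fun t => ?_))
  refine congrArg f ?_
  unfold pt
  push_cast
  ring

private theorem D4_meas {k : ℕ} (s : Fin k → ℂ) (μ : Fin k → ℝ) (P : Polynomial ℂ) :
    Measurable (frm s μ P) := by
  unfold frm xi
  refine P.continuous.measurable.mul (Finset.measurable_prod _ fun j _ => ?_)
  exact (measurable_id.sub_const (s j)).pow_const _

private theorem D4_pt (b : ℝ) : Measurable (fun x : ℝ => pt x b) := by
  unfold pt
  exact (Complex.measurable_ofReal).add_const _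

private theorem D4_ne {k : ℕ} (s : Fin k → ℂ) : ∀ᵐ x : ℝ, ∀ j, x ≠ (s j).re := by
  rw [ae_all_iff]
  intro j
  rw [ae_iff]
  simp

private theorem D4_split (G : ℝ → ℂ) (hG : Integrable G) (a r : ℝ) (har : a ≠ r) (c : ℂ) :
    ∫ x in Set.Ioi a, (if x < r then c else 1) * G x =
      if a < r then c * (∫ x in Set.Ioi a, G x) + (1 - c) * ∫ x in Set.Ioi r, G x
      else ∫ x in Set.Ioi a, G x := by
  split_ifs with h
  · have h1 : (fun x : ℝ => (if x < r then c else 1) * G x) =
        fun x => c * G x + (1 - c) * (Set.Ici r).indicator G x := by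
      funext x
      by_cases hx : x < r
      · have h2 : x ∉ Set.Ici r := by
          simpa using hx
        rw [if_pos hx, Set.indicator_of_notMem h2]
        ring
      · have h2 : x ∈ Set.Ici r := by
          simpa using hx
        rw [if_neg hx, Set.indicator_of_mem h2]
        ring
    rw [h1, integral_add, integral_const_mul, integral_const_mul,
      setIntegral_indicator measurableSet_Ici]
    · have h2 : Set.Ioi a ∩ Set.Ici r = Set.Ici r := by
        refine Set.inter_eq_self_of_subset_right fun x hx => ?_
        simp only [Set.mem_Ioi, Set.mem_Ici] at hx ⊢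
        linarith
      rw [h2, integral_Ici_eq_integral_Ioi]
    · exact (hG.const_mul c).integrableOn
    · exact ((hG.indicator measurableSet_Ici).const_mul (1 - c)).integrableOn
  · refine setIntegral_congr_fun measurableSet_Ioi fun x hx => ?_
    have h2 : ¬ x < r := by
      simp only [Set.mem_Ioi] at hx
      rcases lt_or_gt_of_ne har with h3 | h3
      · exact absurd h3 h
      · linarith
    simp only [if_neg h2, one_mul]

theorem tD4 : S_D4 := by
  intro hA2 hC2 hC4 k s μ P hg j a ha
  by_cases hP : P = 0
  · have h0 : frm s μ P = fun _ => 0 := by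
      funext x
      simp [frm, hP]
    have h1 : ∀ x, prm (frm s μ P) x = 0 := by
      intro x
      simp [prm, h0]
    have h2 : Pp s (frm s μ P) j = 0 := by
      simp [Pp, h0]
    simp only [h1, h2, mul_zero, add_zero, ite_self]
    exact tendsto_const_nhds
  obtain ⟨C, d, hd, hdm, hC, hb, -⟩ := hC2 s μ P hg hP
  obtain ⟨F, hF, hFb⟩ := hA2 s μ d hg.im hd (fun j => (hg.pos j).le) hg.lt hdm
  have hbound : ∀ b : ℝ, ∀ᵐ x : ℝ, ‖frm s μ P (pt x b)‖ ≤ C * F x := by
    intro b
    filter_upwards [D4_ne s] with x hx
    exact (hb _).trans (mul_le_mul_of_nonneg_left (hFb x b hx) hC)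
  have hmeas : ∀ b : ℝ, AEStronglyMeasurable (fun x : ℝ => frm s μ P (pt x b)) volume :=
    fun b => ((D4_meas s μ P).comp (D4_pt b)).aestronglyMeasurable
  have hG : Integrable (fun x : ℝ => frm s μ P (pt x (s j).im)) :=
    (hF.const_mul C).mono' (hmeas _) (hbound _)
  have key : Tendsto (fun b => ∫ x in Set.Ioi a, frm s μ P (pt x b)) (𝓝[<] (s j).im)
      (𝓝 (∫ x in Set.Ioi a, (if x < (s j).re then lam μ j else 1) *
        frm s μ P (pt x (s j).im))) := by
    refine tendsto_integral_filter_of_dominated_convergence (fun x => C * F x) ?_ ?_ ?_ ?_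
    · exact Eventually.of_forall fun b => (hmeas b).restrict
    · exact Eventually.of_forall fun b => ae_restrict_of_ae (hbound b)
    · exact (hF.const_mul C).integrableOn
    · refine ae_restrict_of_ae ?_
      filter_upwards [D4_ne s] with x hx
      exact hC4 s μ P hg j x (hx j)
  rw [D4_split _ hG a (s j).re ha (lam μ j)] at key
  have key2 := key.neg
  have e1 : (fun b => prm (frm s μ P) (pt a b)) =
      fun b => - ∫ x in Set.Ioi a, frm s μ P (pt x b) := by
    funext b
    exact D4_prm _ a b
  rw [e1]
  have e2 : (if a < (s j).re then lam μ j * prm (frm s μ P) (pt a (s j).im) +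
      (1 - lam μ j) * Pp s (frm s μ P) j else prm (frm s μ P) (pt a (s j).im)) =
      - (if a < (s j).re then lam μ j * (∫ x in Set.Ioi a, frm s μ P (pt x (s j).im)) +
        (1 - lam μ j) * ∫ x in Set.Ioi (s j).re, frm s μ P (pt x (s j).im)
      else ∫ x in Set.Ioi a, frm s μ P (pt x (s j).im)) := by
    rw [D4_prm]
    unfold Pp
    split_ifs
    · ring
    · rfl
  rw [e2]
  exact key2

end SEJ
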