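import Pool.Agent.Lib.SE.J.Spec

/-! # SE/J, module E1: the relation `∑ (1 - λ_j) T_j = 0` -/

set_option autoImplicit false

open MeasureTheory Filter Topology

noncomputable section

namespace SEJ

private lemma E1_pt_re (a b : ℝ) : (pt a b).re = a := by simp [pt]

private lemma E1_pt_im (a b : ℝ) : (pt a b).im = b := by simp [pt]

private lemma E1_meas_pt_left (b : ℝ) : Measurable fun a : ℝ => pt a b := by
  unfold pt
  fun_prop

private lemma E1_deriv_im (a b : ℝ) : HasDerivAt (fun b : ℝ => pt a b) Complex.I b := by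
  have h := ((Complex.ofRealCLM.hasDerivAt (x := b)).mul_const Complex.I).const_add (a : ℂ)
  simpa [pt] using h

private lemma E1_deriv_re (a b : ℝ) : HasDerivAt (fun a : ℝ => pt a b) 1 a := by
  have h := (Complex.ofRealCLM.hasDerivAt (x := a)).add_const ((b : ℂ) * Complex.I)
  simpa [pt] using h

private lemma E1_meas_frm {k : ℕ} (s : Fin k → ℂ) (μ : Fin k → ℝ) (P : Polynomial ℂ) :
    Measurable (frm s μ P) := by
  unfold frm xi
  refine Measurable.mul P.continuous.measurable ?_
  refine Finset.measurable_prod _ fun j _ => ?_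
  exact (measurable_id.sub_const _).pow_const _

private lemma E1_meas_dfrm {k : ℕ} (s : Fin k → ℂ) (μ : Fin k → ℝ) (P : Polynomial ℂ) :
    Measurable (dfrm s μ P) := by
  unfold dfrm xi
  refine Measurable.mul (Measurable.sub P.derivative.continuous.measurable
    (Measurable.mul P.continuous.measurable ?_)) ?_
  · refine Finset.measurable_sum _ fun j _ => ?_
    exact (measurable_const).div (measurable_id.sub_const _)
  · refine Finset.measurable_prod _ fun j _ => ?_
    exact (measurable_id.sub_const _).pow_const _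

private lemma E1_cob_im (a : ℝ) (F : Filter ℝ) (hF : Tendsto (fun b : ℝ => |b|) F atTop) :
    Tendsto (fun b : ℝ => pt a b) F (Bornology.cobounded ℂ) := by
  rw [← tendsto_norm_atTop_iff_cobounded]
  refine tendsto_atTop_mono (fun b => ?_) hF
  have h := Complex.abs_im_le_norm (pt a b)
  rwa [E1_pt_im] at h

private lemma E1_cob_re (b : ℝ) (F : Filter ℝ) (hF : Tendsto (fun a : ℝ => |a|) F atTop) :
    Tendsto (fun a : ℝ => pt a b) F (Bornology.cobounded ℂ) := by
  rw [← tendsto_norm_atTop_iff_cobounded]
  refine tendsto_atTop_mono (fun a => ?_) hF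
  have h := Complex.abs_re_le_norm (pt a b)
  rwa [E1_pt_re] at h

/-- the derivative is integrable on the plane -/
private lemma E1_int (hA1 : S_A1) {k : ℕ} (s : Fin k → ℂ) (μ : Fin k → ℝ) (P : Polynomial ℂ)
    (hG : Good s μ P) (C d : ℝ) (hd : 0 ≤ d) (hdm : d + 1 < ∑ j, μ j)
    (hb : ∀ x, (∀ j, x ≠ s j) →
      ‖dfrm s μ P x‖ ≤ C * ∑ l, maj s (fun j => μ j + if j = l then 1 else 0) d x) :
    Integrable (fun p : ℝ × ℝ => dfrm s μ P (pt p.1 p.2)) := by
  have hinj : Function.Injective s := fun i j hij => hG.im.injective (by simp only [hij])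
  have h1 : Integrable (fun x : ℂ => C * ∑ l, maj s (fun j => μ j + if j = l then 1 else 0) d x) := by
    refine Integrable.const_mul ?_ C
    refine integrable_finsetSum _ fun l _ => ?_
    refine hA1 s _ d hinj hd (fun j => ?_) (fun j => ?_) ?_
    · have := hG.pos j
      split_ifs <;> linarith
    · have := hG.lt j
      split_ifs <;> linarith
    · rw [Finset.sum_add_distrib]
      simp only [Finset.sum_ite_eq', Finset.mem_univ, if_true]
      linarith
  have h2 : Integrable (dfrm s μ P) := by
    refine h1.mono' (E1_meas_dfrm s μ P).aestronglyMeasurable ?_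
    have h3 : (Set.range s).Finite := Set.finite_range s
    have h4 : volume (Set.range s) = 0 := h3.measure_zero _
    filter_upwards [measure_eq_zero_iff_ae_notMem.1 h4] with x hx
    exact hb x fun j hj => hx ⟨j, hj.symm⟩
  have h5 := Complex.volume_preserving_equiv_real_prod
  rw [← h5.integrable_comp_emb Complex.measurableEquivRealProd.measurableEmbedding]
  refine h2.congr (Filter.Eventually.of_forall fun z => ?_)
  change dfrm s μ P z = dfrm s μ P (pt z.re z.im)
  congr 1
  exact (Complex.re_add_im z).symm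

private lemma E1_int_line (hA2 : S_A2) {k : ℕ} (s : Fin k → ℂ) (μ : Fin k → ℝ) (P : Polynomial ℂ)
    (hG : Good s μ P) (C d : ℝ) (hd : 0 ≤ d) (hdm : d + 1 < ∑ j, μ j) (hC : 0 ≤ C)
    (hb : ∀ x, ‖frm s μ P x‖ ≤ C * maj s μ d x) (b : ℝ) :
    Integrable (fun a : ℝ => frm s μ P (pt a b)) := by
  obtain ⟨F, hF, hFb⟩ := hA2 s μ d hG.im hd (fun j => (hG.pos j).le) hG.lt hdm
  refine (hF.const_mul C).mono'
    ((E1_meas_frm s μ P).comp (E1_meas_pt_left b)).aestronglyMeasurable ?_
  have h3 : (Set.range fun j => (s j).re).Finite := Set.finite_range _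
  have h4 : volume (Set.range fun j => (s j).re) = 0 := h3.measure_zero _
  filter_upwards [measure_eq_zero_iff_ae_notMem.1 h4] with a ha
  exact (hb _).trans (mul_le_mul_of_nonneg_left (hFb a b fun j hj => ha ⟨j, hj.symm⟩) hC)

theorem tE1 : S_E1 := by
  intro hA1 hA2 hB1 hB2 hC1 hC2 hC3 hC4 hC5 k s μ P hG
  rcases eq_or_ne P 0 with hP | hP
  · subst hP
    simp [Tp, frm]
  obtain ⟨C, d, hd, hdm, hC, hb1, hb2⟩ := hC2 s μ P hG hP
  have hslit : ∀ a b : ℝ, (∀ j, b ≠ (s j).im) → ∀ j, pt a b - s j ∈ Complex.slitPlane := by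
    intro a b hb j
    refine Complex.mem_slitPlane_iff.2 (Or.inr ?_)
    rw [Complex.sub_im, E1_pt_im]
    exact sub_ne_zero.2 (hb j)
  have hdec := hC5 hC2 s μ P hG
  have hρ : ∀ a ∉ (Finset.univ.image fun j => (s j).re), ∀ j, a ≠ (s j).re := by
    intro a ha j hj
    exact ha (Finset.mem_image.2 ⟨j, Finset.mem_univ _, hj.symm⟩)
  have key := hB2 hB1 (fun j => (s j).im) (Finset.univ.image fun j => (s j).re)
    (fun a b => frm s μ P (pt a b)) (fun a b => dfrm s μ P (pt a b))
    (fun a b => Complex.I * dfrm s μ P (pt a b)) (fun _ _ => 0) 0 Complex.I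
    (fun j a => frm s μ P (pt a (s j).im))
    (fun j a => (if a < (s j).re then lam μ j else 1) * frm s μ P (pt a (s j).im))
    hG.im
    (fun a _ b hb => by
      have h := (hC1 s μ P (pt a b) (hslit a b hb)).scomp b (E1_deriv_im a b)
      simpa [Function.comp_def, smul_eq_mul] using h)
    (fun b hb a => by
      have h := (hC1 s μ P (pt a b) (hslit a b hb)).scomp a (E1_deriv_re a b)
      simpa [Function.comp_def, smul_eq_mul] using h)
    (fun a b _ => by ring)
    (E1_int hA1 s μ P hG C d hd hdm hb2)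
    (integrable_zero _ _ _)
    (fun a ha j => hC3 s μ P hG j a (hρ a ha j))
    (fun a ha j => hC4 s μ P hG j a (hρ a ha j))
    (fun a _ => hdec.comp (E1_cob_im a atBot tendsto_abs_atBot_atTop))
    (fun a _ => hdec.comp (E1_cob_im a atTop tendsto_abs_atTop_atTop))
    (fun b _ => hdec.comp (E1_cob_re b atBot tendsto_abs_atBot_atTop))
    (fun b _ => hdec.comp (E1_cob_re b atTop tendsto_abs_atTop_atTop))
  rw [zero_mul] at key
  have hline := E1_int_line hA2 s μ P hG C d hd hdm hC hb1
  have hterm : ∀ j, (fun a : ℝ => (if a < (s j).re then lam μ j else 1) *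
      frm s μ P (pt a (s j).im) - frm s μ P (pt a (s j).im)) =
      (Set.Iio (s j).re).indicator
        (fun a : ℝ => (lam μ j - 1) * frm s μ P (pt a (s j).im)) := by
    intro j
    funext a
    by_cases h : a < (s j).re
    · rw [Set.indicator_of_mem (Set.mem_Iio.2 h), if_pos h]
      ring
    · rw [Set.indicator_of_notMem (fun h' => h (Set.mem_Iio.1 h')), if_neg h]
      ring
  have hint : ∀ j, Integrable (fun a : ℝ => (if a < (s j).re then lam μ j else 1) *
      frm s μ P (pt a (s j).im) - frm s μ P (pt a (s j).im)) := by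
    intro j
    rw [hterm j]
    exact ((hline _).const_mul _).indicator measurableSet_Iio
  have hval : ∀ j, ∫ a : ℝ, ((if a < (s j).re then lam μ j else 1) *
      frm s μ P (pt a (s j).im) - frm s μ P (pt a (s j).im)) =
      (lam μ j - 1) * Tp s (frm s μ P) j := by
    intro j
    rw [hterm j, integral_indicator measurableSet_Iio, integral_const_mul, Tp,
      integral_Iic_eq_integral_Iio]
  rw [integral_finsetSum _ fun j _ => hint j, Finset.sum_congr rfl fun j _ => hval j] at key
  have h6 : ∑ j, (1 - lam μ j) * Tp s (frm s μ P) j =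
      -∑ j, (lam μ j - 1) * Tp s (frm s μ P) j := by
    rw [← Finset.sum_neg_distrib]
    exact Finset.sum_congr rfl fun j _ => by ring
  rw [h6, ← key, neg_zero]

end SEJ
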