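import Pool.Agent.Lib.SE.J.Spec

/-! # SE/J, module E3: the bilinear relation between `P` and the conjugate of `Q` -/

set_option autoImplicit false

open MeasureTheory Filter Topology

noncomputable section

namespace SEJ

private theorem E3_pt_im (a b : ℝ) : (pt a b).im = b := by simp [pt]

private theorem E3_pt_re (a b : ℝ) : (pt a b).re = a := by simp [pt]

private theorem E3_int_pt {f : ℂ → ℝ} (hf : Integrable f) :
    Integrable (fun p : ℝ × ℝ => f (pt p.1 p.2)) := by
  have h := (Complex.volume_preserving_equiv_real_prod.symm).integrable_comp_emb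
    (Complex.measurableEquivRealProd.symm.measurableEmbedding) (g := f)
  have h2 := h.2 hf
  refine h2.congr (Eventually.of_forall fun p => ?_)
  change f (Complex.measurableEquivRealProd.symm p) = f (pt p.1 p.2)
  congr 1
  rw [Complex.measurableEquivRealProd_symm_apply]
  exact Complex.mk_eq_add_mul_I _ _

private theorem E3_cont_pt : Continuous (fun p : ℝ × ℝ => pt p.1 p.2) := by
  unfold pt
  fun_prop

private theorem E3_meas_frm {k : ℕ} (s : Fin k → ℂ) (μ : Fin k → ℝ) (P : Polynomial ℂ) :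
    Measurable (frm s μ P) := by
  unfold frm xi
  refine Measurable.mul P.continuous.measurable ?_
  refine Finset.measurable_prod _ fun j _ => ?_
  exact (measurable_id.sub_const _).pow_const _

private theorem E3_meas_dfrm {k : ℕ} (s : Fin k → ℂ) (μ : Fin k → ℝ) (P : Polynomial ℂ) :
    Measurable (dfrm s μ P) := by
  unfold dfrm xi
  refine Measurable.mul (Measurable.sub P.derivative.continuous.measurable
    (Measurable.mul P.continuous.measurable ?_)) ?_
  · refine Finset.measurable_sum _ fun j _ => ?_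
    exact (measurable_id.sub_const _).const_div _
  · refine Finset.measurable_prod _ fun j _ => ?_
    exact (measurable_id.sub_const _).pow_const _

private theorem E3_meas_prm {f : ℂ → ℂ} (hf : Measurable f) : Measurable (prm f) := by
  unfold prm
  refine Measurable.neg ?_
  have h : StronglyMeasurable (fun q : ℂ × ℝ => f (q.1 + (q.2 : ℂ))) :=
    (hf.comp (by fun_prop)).stronglyMeasurable
  exact (h.integral_prod_right' (ν := volume.restrict (Set.Ioi (0 : ℝ)))).measurable

private theorem E3_hasDerivAt_snd (a b : ℝ) :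
    HasDerivAt (fun b : ℝ => pt a b) Complex.I b := by
  unfold pt
  have h : HasDerivAt (fun b : ℝ => (b : ℂ)) 1 b := Complex.ofRealCLM.hasDerivAt
  simpa using (h.mul_const Complex.I).const_add (a : ℂ)

private theorem E3_hasDerivAt_fst (a b : ℝ) :
    HasDerivAt (fun a : ℝ => pt a b) 1 a := by
  unfold pt
  have h : HasDerivAt (fun a : ℝ => (a : ℂ)) 1 a := Complex.ofRealCLM.hasDerivAt
  simpa using h.add_const ((b : ℂ) * Complex.I)

private theorem E3_cob {l : Filter ℝ} {h : ℝ → ℂ} (f : ℝ → ℝ) (hf : Tendsto (fun x => |f x|) l atTop)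
    (hh : ∀ x, |f x| ≤ ‖h x‖) : Tendsto h l (Bornology.cobounded ℂ) := by
  rw [← tendsto_norm_atTop_iff_cobounded]
  exact tendsto_atTop_mono hh hf

private theorem E3_cob_snd_top (a : ℝ) :
    Tendsto (fun b : ℝ => pt a b) atTop (Bornology.cobounded ℂ) :=
  E3_cob (fun b => b) tendsto_abs_atTop_atTop fun b => by
    have := Complex.abs_im_le_norm (pt a b)
    rwa [E3_pt_im] at this

private theorem E3_cob_snd_bot (a : ℝ) :
    Tendsto (fun b : ℝ => pt a b) atBot (Bornology.cobounded ℂ) :=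
  E3_cob (fun b => b) tendsto_abs_atBot_atTop fun b => by
    have := Complex.abs_im_le_norm (pt a b)
    rwa [E3_pt_im] at this

private theorem E3_cob_fst_top (b : ℝ) :
    Tendsto (fun a : ℝ => pt a b) atTop (Bornology.cobounded ℂ) :=
  E3_cob (fun a => a) tendsto_abs_atTop_atTop fun a => by
    have := Complex.abs_re_le_norm (pt a b)
    rwa [E3_pt_re] at this

private theorem E3_cob_fst_bot (b : ℝ) :
    Tendsto (fun a : ℝ => pt a b) atBot (Bornology.cobounded ℂ) :=
  E3_cob (fun a => a) tendsto_abs_atBot_atTop fun a => by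
    have := Complex.abs_re_le_norm (pt a b)
    rwa [E3_pt_re] at this

/-- bounded times tending to zero -/
private theorem E3_bdd_mul {F g : ℂ → ℂ} {C : ℝ} (hF : ∀ x, ‖F x‖ ≤ C)
    (hg : Tendsto g (Bornology.cobounded ℂ) (𝓝 0)) {l : Filter ℝ} {h : ℝ → ℂ}
    (hh : Tendsto h l (Bornology.cobounded ℂ)) : Tendsto (fun b => F (h b) * g (h b)) l (𝓝 0) := by
  have h1 : Tendsto (fun b => g (h b)) l (𝓝 0) := hg.comp hh
  refine squeeze_zero_norm (a := fun b => C * ‖g (h b)‖) (fun b => ?_) ?_
  · rw [norm_mul]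
    exact mul_le_mul_of_nonneg_right (hF _) (norm_nonneg _)
  · have h2 : Tendsto (fun b => ‖g (h b)‖) l (𝓝 0) := by simpa using h1.norm
    simpa using h2.const_mul C

/-- the exponents of the two majorants add up -/
private theorem E3_maj_mul {k : ℕ} (s : Fin k → ℂ) (μ : Fin k → ℝ) (d d' : ℝ) (x : ℂ)
    (hx : ∀ j, x ≠ s j) :
    maj s μ d x * maj s μ d' x = maj s (fun j => 2 * μ j) (d + d') x := by
  unfold maj
  have h1 : (1 + ‖x‖) ^ (d + d') = (1 + ‖x‖) ^ d * (1 + ‖x‖) ^ d' :=
    Real.rpow_add (by positivity) _ _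
  have h2 : ∏ j, ‖x - s j‖ ^ (-(2 * μ j)) =
      (∏ j, ‖x - s j‖ ^ (-(μ j))) * ∏ j, ‖x - s j‖ ^ (-(μ j)) := by
    rw [← Finset.prod_mul_distrib]
    refine Finset.prod_congr rfl fun j _ => ?_
    rw [← Real.rpow_add (norm_pos_iff.2 (sub_ne_zero.2 (hx j)))]
    congr 1
    ring
  rw [h1, h2]
  ring

private theorem E3_maj_nonneg {k : ℕ} (s : Fin k → ℂ) (ν : Fin k → ℝ) (d : ℝ) (x : ℂ) :
    0 ≤ maj s ν d x := by
  unfold maj
  positivity

/-- almost every point of the plane is none of the `s_j` -/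
private theorem E3_ae_ne {k : ℕ} (s : Fin k → ℂ) :
    ∀ᵐ p : ℝ × ℝ, ∀ j, pt p.1 p.2 ≠ s j := by
  rw [ae_all_iff]
  intro j
  have h : ({((s j).re, (s j).im)} : Set (ℝ × ℝ))ᶜ ∈ ae (volume : Measure (ℝ × ℝ)) :=
    compl_mem_ae_iff.2 (measure_singleton _)
  filter_upwards [h] with p hp he
  apply hp
  rw [Set.mem_singleton_iff, ← he, E3_pt_re, E3_pt_im]

/-- almost every real number is none of the `Re s_j` -/
private theorem E3_ae_ne' {k : ℕ} (s : Fin k → ℂ) : ∀ᵐ a : ℝ, ∀ j, a ≠ (s j).re := by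
  rw [ae_all_iff]
  intro j
  have h : ({(s j).re} : Set ℝ)ᶜ ∈ ae (volume : Measure ℝ) :=
    compl_mem_ae_iff.2 (measure_singleton _)
  filter_upwards [h] with a ha he
  exact ha he

private theorem E3_inj {k : ℕ} {s : Fin k → ℂ} (h : StrictMono fun j => (s j).im) :
    Function.Injective s := fun _ _ hij => h.injective (congrArg Complex.im hij)

/-- the monodromy has absolute value `1` -/
private theorem E3_lam {k : ℕ} (μ : Fin k → ℝ) (j : Fin k) :
    (starRingEnd ℂ) (lam μ j) = (lam μ j)⁻¹ := by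
  unfold lam
  rw [← Complex.exp_neg, ← Complex.exp_conj]
  congr 1
  simp only [map_mul, Complex.conj_I, Complex.conj_ofReal, map_ofNat]
  ring

/-- the integral over the plane -/
private theorem E3_int_eq (h : ℂ → ℂ) : ∫ x : ℂ, h x = ∫ p : ℝ × ℝ, h (pt p.1 p.2) := by
  have h1 := (Complex.volume_preserving_equiv_real_prod.symm).integral_comp
    (Complex.measurableEquivRealProd.symm.measurableEmbedding) h
  rw [← h1]
  refine integral_congr_ae (Eventually.of_forall fun p => ?_)
  change h (Complex.measurableEquivRealProd.symm p) = h (pt p.1 p.2)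
  congr 1
  rw [Complex.measurableEquivRealProd_symm_apply]
  exact Complex.mk_eq_add_mul_I _ _

/-- integrability along the horizontal lines -/
private theorem E3_int_line (hA2 : S_A2) (hC2 : S_C2) {k : ℕ} (s : Fin k → ℂ) (μ : Fin k → ℝ)
    (P : Polynomial ℂ) (hP : Good s μ P) (b : ℝ) : Integrable (fun a : ℝ => frm s μ P (pt a b)) := by
  by_cases h0 : P = 0
  · have : (fun a : ℝ => frm s μ P (pt a b)) = fun _ => 0 := by
      funext a
      simp [frm, h0]
    rw [this]
    exact integrable_zero _ _ _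
  · obtain ⟨C, d, hd0, hd1, hC, hb, -⟩ := hC2 s μ P hP h0
    obtain ⟨F, hF, hF2⟩ := hA2 s μ d hP.im hd0 (fun j => (hP.pos j).le) hP.lt hd1
    refine (hF.const_mul C).mono' ?_ ?_
    · exact ((E3_meas_frm s μ P).comp (by unfold pt; fun_prop)).aestronglyMeasurable
    · filter_upwards [E3_ae_ne' s] with a ha
      exact (hb _).trans (mul_le_mul_of_nonneg_left (hF2 a b ha) hC)

/-- integrability of the product on the plane -/
private theorem E3_int_prod (hA1 : S_A1) (hC2 : S_C2) {k : ℕ} (s : Fin k → ℂ) (μ : Fin k → ℝ)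
    (P Q : Polynomial ℂ) (hP : Good s μ P) (hQ : Good s μ Q) (hP0 : P ≠ 0) (hQ0 : Q ≠ 0) :
    Integrable (fun p : ℝ × ℝ =>
      frm s μ P (pt p.1 p.2) * (starRingEnd ℂ) (frm s μ Q (pt p.1 p.2))) := by
  obtain ⟨C, d, hd0, hd1, hC, hb, -⟩ := hC2 s μ P hP hP0
  obtain ⟨C', d', hd0', hd1', hC', hb', -⟩ := hC2 s μ Q hQ hQ0
  have hinj := E3_inj hP.im
  have hI1 : Integrable (maj s (fun j => 2 * μ j) (d + d')) := by
    refine hA1 s _ _ hinj (by linarith) (fun j => ?_) (fun j => ?_) ?_
    · have := hP.pos j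
      linarith
    · have := hP.lt j
      linarith
    · rw [← Finset.mul_sum]
      linarith
  have hI3 : Integrable (fun p : ℝ × ℝ =>
      (C * C') * maj s (fun j => 2 * μ j) (d + d') (pt p.1 p.2)) := (E3_int_pt hI1).const_mul _
  refine hI3.mono' ?_ ?_
  · have hm : Measurable (fun p : ℝ × ℝ => pt p.1 p.2) := E3_cont_pt.measurable
    have h1 := (E3_meas_frm s μ P).comp hm
    have h2 := (E3_meas_frm s μ Q).comp hm
    exact (h1.mul (Complex.continuous_conj.measurable.comp h2)).aestronglyMeasurable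
  · filter_upwards [E3_ae_ne s] with p hp
    rw [norm_mul, RCLike.norm_conj, ← E3_maj_mul s μ d d' _ hp]
    calc _ ≤ (C * maj s μ d (pt p.1 p.2)) * (C' * maj s μ d' (pt p.1 p.2)) :=
          mul_le_mul (hb _) (hb' _) (norm_nonneg _) (mul_nonneg hC (E3_maj_nonneg _ _ _ _))
      _ = _ := by ring

/-- integrability of the second term of the derivative on the plane -/
private theorem E3_int_der (hA1 : S_A1) (hC2 : S_C2) {k : ℕ} (s : Fin k → ℂ) (μ : Fin k → ℝ)
    (P Q : Polynomial ℂ) (hQ : Good s μ Q) (B : ℝ)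
    (hB : ∀ x, ‖prm (frm s μ P) x‖ ≤ B) (hQ0 : Q ≠ 0) :
    Integrable (fun p : ℝ × ℝ =>
      prm (frm s μ P) (pt p.1 p.2) * (starRingEnd ℂ) (dfrm s μ Q (pt p.1 p.2))) := by
  obtain ⟨C', d', hd0', hd1', hC', hb', hc'⟩ := hC2 s _ Q hQ hQ0
  have hinj := E3_inj hQ.im
  have hI2 : ∀ l : Fin k, Integrable
      (maj s (fun j => μ j + if j = l then 1 else 0) d') := by
    intro l
    refine hA1 s _ _ hinj hd0' (fun j => ?_) (fun j => ?_) ?_
    · have := hQ.pos j
      split_ifs <;> linarith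
    · have := hQ.lt j
      split_ifs <;> linarith
    · rw [Finset.sum_add_distrib]
      have : ∑ j : Fin k, (if j = l then (1 : ℝ) else 0) = 1 := by simp
      rw [this]
      linarith
  have hB0 : 0 ≤ B := (norm_nonneg _).trans (hB 0)
  have hI3 : Integrable (fun p : ℝ × ℝ =>
      B * (C' * ∑ l, maj s (fun j => μ j + if j = l then 1 else 0) d' (pt p.1 p.2))) := by
    refine Integrable.const_mul ?_ _
    refine Integrable.const_mul ?_ _
    exact integrable_finsetSum _ fun l _ => E3_int_pt (hI2 l)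
  refine hI3.mono' ?_ ?_
  · have hm : Measurable (fun p : ℝ × ℝ => pt p.1 p.2) := E3_cont_pt.measurable
    have h3 := (E3_meas_prm (E3_meas_frm s μ P)).comp hm
    have h4 := (E3_meas_dfrm s μ Q).comp hm
    exact (h3.mul (Complex.continuous_conj.measurable.comp h4)).aestronglyMeasurable
  · filter_upwards [E3_ae_ne s] with p hp
    rw [norm_mul, RCLike.norm_conj]
    exact mul_le_mul (hB _) (hc' _ hp) (norm_nonneg _) hB0

theorem tE3 : S_E3 := by
  intro hA1 hA2 hB1 hB2 hC1 hC2 hC3 hC4 hC5 hD1 hD2 hD3 hD4 k s μ P Q hP hQ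
  by_cases hP0 : P = 0
  · have h1 : (∫ x : ℂ, frm s μ P x * (starRingEnd ℂ) (frm s μ Q x)) = 0 := by
      simp [frm, hP0]
    have h2 : ∀ j, Pp s (frm s μ P) j = 0 := fun j => by simp [Pp, frm, hP0]
    rw [h1, mul_zero, Finset.sum_eq_zero, neg_zero]
    intro j _
    rw [h2 j]
    ring
  by_cases hQ0 : Q = 0
  · have h1 : (∫ x : ℂ, frm s μ P x * (starRingEnd ℂ) (frm s μ Q x)) = 0 := by
      simp [frm, hQ0]
    have h2 : ∀ j, Tp s (frm s μ Q) j = 0 := fun j => by simp [Tp, frm, hQ0]
    rw [h1, mul_zero, Finset.sum_eq_zero, neg_zero]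
    intro j _
    rw [h2 j, map_zero]
    ring
  obtain ⟨B, hB⟩ := hD2 hA2 hC2 s μ P hP
  rw [E3_int_eq]
  set f := frm s μ P with hf
  set g := frm s μ Q with hg
  set F := prm f with hF
  have hg0 : Tendsto (fun x => (starRingEnd ℂ) (g x)) (Bornology.cobounded ℂ) (𝓝 0) := by
    have h := (Complex.continuous_conj.tendsto 0).comp (hC5 hC2 s _ Q hQ)
    rw [map_zero] at h
    exact h
  have hslit : ∀ a b : ℝ, (∀ j, b ≠ (s j).im) → ∀ j, pt a b - s j ∈ Complex.slitPlane := by
    intro a b hb j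
    right
    rw [Complex.sub_im, E3_pt_im]
    exact sub_ne_zero.2 (hb j)
  have hgd : ∀ a b : ℝ, (∀ j, b ≠ (s j).im) →
      HasDerivAt g (dfrm s μ Q (pt a b)) (pt a b) :=
    fun a b hb => hC1 s _ Q _ (hslit a b hb)
  have hFd : ∀ a b : ℝ, (∀ j, b ≠ (s j).im) → HasDerivAt F (f (pt a b)) (pt a b) := by
    intro a b hb
    refine hD1 hC1 hC2 hC5 s μ P hP _ fun j hj => ?_
    rw [E3_pt_im] at hj
    exact absurd hj (hb j)
  have hIp := E3_int_prod hA1 hC2 s μ P Q hP hQ hP0 hQ0
  have hId := E3_int_der hA1 hC2 s μ P Q hQ B hB hQ0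
  have key := hB2 hB1 (fun j => (s j).im) (Finset.univ.image fun j => (s j).re)
    (fun a b => F (pt a b) * (starRingEnd ℂ) (g (pt a b)))
    (fun a b => f (pt a b) * (starRingEnd ℂ) (g (pt a b)) +
      F (pt a b) * (starRingEnd ℂ) (dfrm s μ Q (pt a b)))
    (fun a b => f (pt a b) * Complex.I * (starRingEnd ℂ) (g (pt a b)) +
      F (pt a b) * (starRingEnd ℂ) (dfrm s μ Q (pt a b) * Complex.I))
    (fun a b => f (pt a b) * (starRingEnd ℂ) (g (pt a b))) (2 * Complex.I) (-Complex.I)
    (fun j a => F (pt a (s j).im) * (starRingEnd ℂ) (g (pt a (s j).im)))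
    (fun j a => (if a < (s j).re then lam μ j * F (pt a (s j).im) + (1 - lam μ j) * Pp s f j
      else F (pt a (s j).im)) *
      (starRingEnd ℂ) ((if a < (s j).re then lam μ j else 1) * g (pt a (s j).im)))
    hP.im
    (fun a _ b hb => ((hFd a b hb).comp b (E3_hasDerivAt_snd a b)).mul
      (((hgd a b hb).comp b (E3_hasDerivAt_snd a b)).star))
    (fun b hb a => by
      have h := ((hFd a b hb).comp a (E3_hasDerivAt_fst a b)).mul
        (((hgd a b hb).comp a (E3_hasDerivAt_fst a b)).star)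
      exact h.congr_deriv (by rw [mul_one, mul_one]; rfl))
    (fun a b _ => by
      rw [map_mul, Complex.conj_I]
      ring)
    (hIp.add hId)
    hIp
    (fun a ha j => by
      have ha' : a ≠ (s j).re := fun h => ha (Finset.mem_image.2 ⟨j, Finset.mem_univ _, h.symm⟩)
      exact (hD3 hA2 hC2 hC3 s μ P hP j a ha').mul
        ((Complex.continuous_conj.tendsto _).comp (hC3 s _ Q hQ j a ha')))
    (fun a ha j => by
      have ha' : a ≠ (s j).re := fun h => ha (Finset.mem_image.2 ⟨j, Finset.mem_univ _, h.symm⟩)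
      exact (hD4 hA2 hC2 hC4 s μ P hP j a ha').mul
        ((Complex.continuous_conj.tendsto _).comp (hC4 s _ Q hQ j a ha')))
    (fun a _ => E3_bdd_mul (g := fun x => (starRingEnd ℂ) (g x)) hB hg0 (E3_cob_snd_bot a))
    (fun a _ => E3_bdd_mul (g := fun x => (starRingEnd ℂ) (g x)) hB hg0 (E3_cob_snd_top a))
    (fun b _ => E3_bdd_mul (g := fun x => (starRingEnd ℂ) (g x)) hB hg0 (E3_cob_fst_bot b))
    (fun b _ => E3_bdd_mul (g := fun x => (starRingEnd ℂ) (g x)) hB hg0 (E3_cob_fst_top b))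
  rw [key]
  have hlam : ∀ j, lam μ j ≠ 0 := fun j => Complex.exp_ne_zero _
  have hline : ∀ b : ℝ, Integrable (fun a : ℝ => (starRingEnd ℂ) (g (pt a b))) := fun b => by
    have h := E3_int_line hA2 hC2 s _ Q hQ b
    exact (LinearIsometryEquiv.integrable_comp_iff Complex.conjLIE).2 h
  have hint : ∀ j : Fin k, Integrable (fun a : ℝ =>
      (Set.Iio (s j).re).indicator (fun a => ((lam μ j)⁻¹ - 1) * Pp s f j *
        (starRingEnd ℂ) (g (pt a (s j).im))) a) :=
    fun j => ((hline (s j).im).const_mul _).indicator measurableSet_Iio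
  have hpt : ∀ a : ℝ, (∑ j, ((if a < (s j).re then lam μ j * F (pt a (s j).im) +
      (1 - lam μ j) * Pp s f j else F (pt a (s j).im)) *
      (starRingEnd ℂ) ((if a < (s j).re then lam μ j else 1) * g (pt a (s j).im)) -
      F (pt a (s j).im) * (starRingEnd ℂ) (g (pt a (s j).im)))) = ∑ j, (Set.Iio (s j).re).indicator
        (fun a => ((lam μ j)⁻¹ - 1) * Pp s f j * (starRingEnd ℂ) (g (pt a (s j).im))) a := by
    intro a
    refine Finset.sum_congr rfl fun j _ => ?_
    by_cases h : a < (s j).re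
    · rw [if_pos h, if_pos h, Set.indicator_of_mem (Set.mem_Iio.2 h), map_mul, E3_lam]
      field_simp [hlam j]
      ring
    · rw [if_neg h, if_neg h, Set.indicator_of_notMem (by simpa using h), one_mul]
      ring
  simp only [hpt]
  rw [integral_finsetSum _ fun j _ => hint j, ← Finset.sum_neg_distrib]
  refine Finset.sum_congr rfl fun j _ => ?_
  rw [integral_indicator measurableSet_Iio, integral_const_mul, Tp, integral_Iic_eq_integral_Iio,
    integral_conj]
  ring

end SEJ
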