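import Pool.Agent.Lib.SE.J.Spec

/-! # SE/J, module E4: the bilinear relation between `P` and `Q` (exponents `μ` and `1 - μ`) -/

set_option autoImplicit false

open MeasureTheory Filter Topology

noncomputable section

namespace SEJ

private theorem E4_pt_im (a b : ℝ) : (pt a b).im = b := by simp [pt]

private theorem E4_pt_re (a b : ℝ) : (pt a b).re = a := by simp [pt]

private theorem E4_int_pt {f : ℂ → ℝ} (hf : Integrable f) :
    Integrable (fun p : ℝ × ℝ => f (pt p.1 p.2)) := by
  have h := (Complex.volume_preserving_equiv_real_prod.symm).integrable_comp_emb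
    (Complex.measurableEquivRealProd.symm.measurableEmbedding) (g := f)
  have h2 := h.2 hf
  refine h2.congr (Eventually.of_forall fun p => ?_)
  change f (Complex.measurableEquivRealProd.symm p) = f (pt p.1 p.2)
  congr 1
  rw [Complex.measurableEquivRealProd_symm_apply]
  exact Complex.mk_eq_add_mul_I _ _

private theorem E4_cont_pt : Continuous (fun p : ℝ × ℝ => pt p.1 p.2) := by
  unfold pt
  fun_prop

private theorem E4_meas_frm {k : ℕ} (s : Fin k → ℂ) (μ : Fin k → ℝ) (P : Polynomial ℂ) :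
    Measurable (frm s μ P) := by
  unfold frm xi
  refine Measurable.mul P.continuous.measurable ?_
  refine Finset.measurable_prod _ fun j _ => ?_
  exact (measurable_id.sub_const _).pow_const _

private theorem E4_meas_dfrm {k : ℕ} (s : Fin k → ℂ) (μ : Fin k → ℝ) (P : Polynomial ℂ) :
    Measurable (dfrm s μ P) := by
  unfold dfrm xi
  refine Measurable.mul (Measurable.sub P.derivative.continuous.measurable
    (Measurable.mul P.continuous.measurable ?_)) ?_
  · refine Finset.measurable_sum _ fun j _ => ?_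
    exact (measurable_id.sub_const _).const_div _
  · refine Finset.measurable_prod _ fun j _ => ?_
    exact (measurable_id.sub_const _).pow_const _

private theorem E4_meas_prm {f : ℂ → ℂ} (hf : Measurable f) : Measurable (prm f) := by
  unfold prm
  refine Measurable.neg ?_
  have h : StronglyMeasurable (fun q : ℂ × ℝ => f (q.1 + (q.2 : ℂ))) :=
    (hf.comp (by fun_prop)).stronglyMeasurable
  exact (h.integral_prod_right' (ν := volume.restrict (Set.Ioi (0 : ℝ)))).measurable

private theorem E4_hasDerivAt_snd (a b : ℝ) :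
    HasDerivAt (fun b : ℝ => pt a b) Complex.I b := by
  unfold pt
  have h : HasDerivAt (fun b : ℝ => (b : ℂ)) 1 b := Complex.ofRealCLM.hasDerivAt
  simpa using (h.mul_const Complex.I).const_add (a : ℂ)

private theorem E4_hasDerivAt_fst (a b : ℝ) :
    HasDerivAt (fun a : ℝ => pt a b) 1 a := by
  unfold pt
  have h : HasDerivAt (fun a : ℝ => (a : ℂ)) 1 a := Complex.ofRealCLM.hasDerivAt
  simpa using h.add_const ((b : ℂ) * Complex.I)

private theorem E4_cob {l : Filter ℝ} {h : ℝ → ℂ} (f : ℝ → ℝ) (hf : Tendsto (fun x => |f x|) l atTop)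
    (hh : ∀ x, |f x| ≤ ‖h x‖) : Tendsto h l (Bornology.cobounded ℂ) := by
  rw [← tendsto_norm_atTop_iff_cobounded]
  exact tendsto_atTop_mono hh hf

private theorem E4_cob_snd_top (a : ℝ) :
    Tendsto (fun b : ℝ => pt a b) atTop (Bornology.cobounded ℂ) :=
  E4_cob (fun b => b) tendsto_abs_atTop_atTop fun b => by
    have := Complex.abs_im_le_norm (pt a b)
    rwa [E4_pt_im] at this

private theorem E4_cob_snd_bot (a : ℝ) :
    Tendsto (fun b : ℝ => pt a b) atBot (Bornology.cobounded ℂ) :=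
  E4_cob (fun b => b) tendsto_abs_atBot_atTop fun b => by
    have := Complex.abs_im_le_norm (pt a b)
    rwa [E4_pt_im] at this

private theorem E4_cob_fst_top (b : ℝ) :
    Tendsto (fun a : ℝ => pt a b) atTop (Bornology.cobounded ℂ) :=
  E4_cob (fun a => a) tendsto_abs_atTop_atTop fun a => by
    have := Complex.abs_re_le_norm (pt a b)
    rwa [E4_pt_re] at this

private theorem E4_cob_fst_bot (b : ℝ) :
    Tendsto (fun a : ℝ => pt a b) atBot (Bornology.cobounded ℂ) :=
  E4_cob (fun a => a) tendsto_abs_atBot_atTop fun a => by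
    have := Complex.abs_re_le_norm (pt a b)
    rwa [E4_pt_re] at this

/-- bounded times tending to zero -/
private theorem E4_bdd_mul {F g : ℂ → ℂ} {C : ℝ} (hF : ∀ x, ‖F x‖ ≤ C)
    (hg : Tendsto g (Bornology.cobounded ℂ) (𝓝 0)) {l : Filter ℝ} {h : ℝ → ℂ}
    (hh : Tendsto h l (Bornology.cobounded ℂ)) : Tendsto (fun b => F (h b) * g (h b)) l (𝓝 0) := by
  have h1 : Tendsto (fun b => g (h b)) l (𝓝 0) := hg.comp hh
  refine squeeze_zero_norm (a := fun b => C * ‖g (h b)‖) (fun b => ?_) ?_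
  · rw [norm_mul]
    exact mul_le_mul_of_nonneg_right (hF _) (norm_nonneg _)
  · have h2 : Tendsto (fun b => ‖g (h b)‖) l (𝓝 0) := by simpa using h1.norm
    simpa using h2.const_mul C

/-- the exponents of the two majorants add up to `1` -/
private theorem E4_maj_mul {k : ℕ} (s : Fin k → ℂ) (μ : Fin k → ℝ) (d d' : ℝ) (x : ℂ)
    (hx : ∀ j, x ≠ s j) :
    maj s μ d x * maj s (fun j => 1 - μ j) d' x = maj s (fun _ => 1) (d + d') x := by
  unfold maj
  have h1 : (1 + ‖x‖) ^ (d + d') = (1 + ‖x‖) ^ d * (1 + ‖x‖) ^ d' :=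
    Real.rpow_add (by positivity) _ _
  have h2 : ∏ j, ‖x - s j‖ ^ (-(1 : ℝ)) =
      (∏ j, ‖x - s j‖ ^ (-(μ j))) * ∏ j, ‖x - s j‖ ^ (-(1 - μ j)) := by
    rw [← Finset.prod_mul_distrib]
    refine Finset.prod_congr rfl fun j _ => ?_
    rw [← Real.rpow_add (norm_pos_iff.2 (sub_ne_zero.2 (hx j)))]
    congr 1
    ring
  rw [h1, h2]
  ring

private theorem E4_maj_nonneg {k : ℕ} (s : Fin k → ℂ) (ν : Fin k → ℝ) (d : ℝ) (x : ℂ) :
    0 ≤ maj s ν d x := by
  unfold maj
  positivity

/-- almost every point of the plane is none of the `s_j` -/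
private theorem E4_ae_ne {k : ℕ} (s : Fin k → ℂ) :
    ∀ᵐ p : ℝ × ℝ, ∀ j, pt p.1 p.2 ≠ s j := by
  rw [ae_all_iff]
  intro j
  have h : ({((s j).re, (s j).im)} : Set (ℝ × ℝ))ᶜ ∈ ae (volume : Measure (ℝ × ℝ)) :=
    compl_mem_ae_iff.2 (measure_singleton _)
  filter_upwards [h] with p hp he
  apply hp
  rw [Set.mem_singleton_iff, ← he, E4_pt_re, E4_pt_im]

/-- almost every real number is none of the `Re s_j` -/
private theorem E4_ae_ne' {k : ℕ} (s : Fin k → ℂ) : ∀ᵐ a : ℝ, ∀ j, a ≠ (s j).re := by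
  rw [ae_all_iff]
  intro j
  have h : ({(s j).re} : Set ℝ)ᶜ ∈ ae (volume : Measure ℝ) :=
    compl_mem_ae_iff.2 (measure_singleton _)
  filter_upwards [h] with a ha he
  exact ha he

private theorem E4_inj {k : ℕ} {s : Fin k → ℂ} (h : StrictMono fun j => (s j).im) :
    Function.Injective s := fun _ _ hij => h.injective (congrArg Complex.im hij)

/-- the monodromies are inverse to each other -/
private theorem E4_lam {k : ℕ} (μ : Fin k → ℝ) (j : Fin k) :
    lam (fun j => 1 - μ j) j = (lam μ j)⁻¹ := by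
  unfold lam
  rw [← Complex.exp_neg]
  have h : 2 * (Real.pi : ℂ) * Complex.I * ((1 - μ j : ℝ) : ℂ) =
      -(2 * (Real.pi : ℂ) * Complex.I * (μ j : ℂ)) + 2 * Real.pi * Complex.I := by
    push_cast
    ring
  rw [h, Complex.exp_add, Complex.exp_two_pi_mul_I, mul_one]

/-- integrability along the horizontal lines -/
private theorem E4_int_line (hA2 : S_A2) (hC2 : S_C2) {k : ℕ} (s : Fin k → ℂ) (μ : Fin k → ℝ)
    (P : Polynomial ℂ) (hP : Good s μ P) (b : ℝ) : Integrable (fun a : ℝ => frm s μ P (pt a b)) := by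
  by_cases h0 : P = 0
  · have : (fun a : ℝ => frm s μ P (pt a b)) = fun _ => 0 := by
      funext a
      simp [frm, h0]
    rw [this]
    exact integrable_zero _ _ _
  · obtain ⟨C, d, hd0, hd1, hC, hb, -⟩ := hC2 s μ P hP h0
    obtain ⟨F, hF, hF2⟩ := hA2 s μ d hP.im hd0 (fun j => (hP.pos j).le) hP.lt hd1
    refine (hF.const_mul C).mono' ?_ ?_
    · exact ((E4_meas_frm s μ P).comp (by unfold pt; fun_prop)).aestronglyMeasurable
    · filter_upwards [E4_ae_ne' s] with a ha
      exact (hb _).trans (mul_le_mul_of_nonneg_left (hF2 a b ha) hC)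

/-- integrability of the derivative on the plane -/
private theorem E4_int_plane (hA1 : S_A1) (hC2 : S_C2) {k : ℕ} (s : Fin k → ℂ) (μ : Fin k → ℝ)
    (P Q : Polynomial ℂ) (hP : Good s μ P) (hQ : Good s (fun j => 1 - μ j) Q) (B : ℝ)
    (hB : ∀ x, ‖prm (frm s μ P) x‖ ≤ B) (hP0 : P ≠ 0) (hQ0 : Q ≠ 0) :
    Integrable (fun p : ℝ × ℝ => frm s μ P (pt p.1 p.2) * frm s (fun j => 1 - μ j) Q (pt p.1 p.2) +
      prm (frm s μ P) (pt p.1 p.2) * dfrm s (fun j => 1 - μ j) Q (pt p.1 p.2)) := by
  obtain ⟨C, d, hd0, hd1, hC, hb, -⟩ := hC2 s μ P hP hP0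
  obtain ⟨C', d', hd0', hd1', hC', hb', hc'⟩ := hC2 s _ Q hQ hQ0
  have hinj := E4_inj hP.im
  have hsum : ∑ j, (1 - μ j) = k - ∑ j, μ j := by
    rw [Finset.sum_sub_distrib]
    simp
  have hI1 : Integrable (maj s (fun _ => 1) (d + d')) := by
    refine hA1 s _ _ hinj (by linarith) (fun _ => zero_le_one) (fun _ => by norm_num) ?_
    have : ∑ _j : Fin k, (1 : ℝ) = k := by simp
    rw [this]
    linarith
  have hI2 : ∀ l : Fin k, Integrable
      (maj s (fun j => (1 - μ j) + if j = l then 1 else 0) d') := by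
    intro l
    refine hA1 s _ _ hinj hd0' (fun j => ?_) (fun j => ?_) ?_
    · have := hP.lt j
      split_ifs <;> linarith
    · have := hP.pos j
      split_ifs <;> linarith
    · rw [Finset.sum_add_distrib]
      have : ∑ j : Fin k, (if j = l then (1 : ℝ) else 0) = 1 := by simp
      rw [this]
      linarith
  have hB0 : 0 ≤ B := (norm_nonneg _).trans (hB 0)
  have hI3 : Integrable (fun p : ℝ × ℝ => (C * C') * maj s (fun _ => 1) (d + d') (pt p.1 p.2) +
      B * (C' * ∑ l, maj s (fun j => (1 - μ j) + if j = l then 1 else 0) d' (pt p.1 p.2))) := by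
    refine Integrable.add ((E4_int_pt hI1).const_mul _) (Integrable.const_mul ?_ _)
    refine Integrable.const_mul ?_ _
    exact integrable_finsetSum _ fun l _ => E4_int_pt (hI2 l)
  refine hI3.mono' ?_ ?_
  · have hm : Measurable (fun p : ℝ × ℝ => pt p.1 p.2) := E4_cont_pt.measurable
    have h1 := (E4_meas_frm s μ P).comp hm
    have h2 := (E4_meas_frm s (fun j => 1 - μ j) Q).comp hm
    have h3 := (E4_meas_prm (E4_meas_frm s μ P)).comp hm
    have h4 := (E4_meas_dfrm s (fun j => 1 - μ j) Q).comp hm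
    exact ((h1.mul h2).add (h3.mul h4)).aestronglyMeasurable
  · filter_upwards [E4_ae_ne s] with p hp
    refine (norm_add_le _ _).trans (add_le_add ?_ ?_)
    · rw [norm_mul, ← E4_maj_mul s μ d d' _ hp]
      calc _ ≤ (C * maj s μ d (pt p.1 p.2)) * (C' * maj s (fun j => 1 - μ j) d' (pt p.1 p.2)) :=
            mul_le_mul (hb _) (hb' _) (norm_nonneg _) (mul_nonneg hC (E4_maj_nonneg _ _ _ _))
        _ = _ := by ring
    · rw [norm_mul]
      exact mul_le_mul (hB _) (hc' _ hp) (norm_nonneg _) hB0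

theorem tE4 : S_E4 := by
  intro hA1 hA2 hB1 hB2 hC1 hC2 hC3 hC4 hC5 hD1 hD2 hD3 hD4 k s μ P Q hP hQ
  by_cases hP0 : P = 0
  · symm
    refine Finset.sum_eq_zero fun j _ => ?_
    have : Pp s (frm s μ P) j = 0 := by simp [Pp, frm, hP0]
    rw [this]
    ring
  by_cases hQ0 : Q = 0
  · symm
    refine Finset.sum_eq_zero fun j _ => ?_
    have : Tp s (frm s (fun j => 1 - μ j) Q) j = 0 := by simp [Tp, frm, hQ0]
    rw [this]
    ring
  obtain ⟨B, hB⟩ := hD2 hA2 hC2 s μ P hP
  set f := frm s μ P with hf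
  set g := frm s (fun j => 1 - μ j) Q with hg
  set F := prm f with hF
  have hg0 : Tendsto g (Bornology.cobounded ℂ) (𝓝 0) := hC5 hC2 s _ Q hQ
  have hslit : ∀ a b : ℝ, (∀ j, b ≠ (s j).im) → ∀ j, pt a b - s j ∈ Complex.slitPlane := by
    intro a b hb j
    right
    rw [Complex.sub_im, E4_pt_im]
    exact sub_ne_zero.2 (hb j)
  have hgd : ∀ a b : ℝ, (∀ j, b ≠ (s j).im) →
      HasDerivAt g (dfrm s (fun j => 1 - μ j) Q (pt a b)) (pt a b) :=
    fun a b hb => hC1 s _ Q _ (hslit a b hb)
  have hFd : ∀ a b : ℝ, (∀ j, b ≠ (s j).im) → HasDerivAt F (f (pt a b)) (pt a b) := by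
    intro a b hb
    refine hD1 hC1 hC2 hC5 s μ P hP _ fun j hj => ?_
    rw [E4_pt_im] at hj
    exact absurd hj (hb j)
  have key := hB2 hB1 (fun j => (s j).im) (Finset.univ.image fun j => (s j).re)
    (fun a b => F (pt a b) * g (pt a b))
    (fun a b => f (pt a b) * g (pt a b) +
      F (pt a b) * dfrm s (fun j => 1 - μ j) Q (pt a b))
    (fun a b => f (pt a b) * Complex.I * g (pt a b) +
      F (pt a b) * (dfrm s (fun j => 1 - μ j) Q (pt a b) * Complex.I))
    (fun _ _ => 0) 0 Complex.I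
    (fun j a => F (pt a (s j).im) * g (pt a (s j).im))
    (fun j a => (if a < (s j).re then lam μ j * F (pt a (s j).im) + (1 - lam μ j) * Pp s f j
      else F (pt a (s j).im)) *
      ((if a < (s j).re then lam (fun j => 1 - μ j) j else 1) * g (pt a (s j).im)))
    hP.im
    (fun a _ b hb => ((hFd a b hb).comp b (E4_hasDerivAt_snd a b)).mul
      ((hgd a b hb).comp b (E4_hasDerivAt_snd a b)))
    (fun b hb a => by
      have h := ((hFd a b hb).comp a (E4_hasDerivAt_fst a b)).mul
        ((hgd a b hb).comp a (E4_hasDerivAt_fst a b))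
      exact h.congr_deriv (by rw [mul_one, mul_one]; rfl))
    (fun a b _ => by ring)
    (E4_int_plane hA1 hC2 s μ P Q hP hQ B hB hP0 hQ0)
    (integrable_zero _ _ _)
    (fun a ha j => by
      have ha' : a ≠ (s j).re := fun h => ha (Finset.mem_image.2 ⟨j, Finset.mem_univ _, h.symm⟩)
      exact (hD3 hA2 hC2 hC3 s μ P hP j a ha').mul (hC3 s _ Q hQ j a ha'))
    (fun a ha j => by
      have ha' : a ≠ (s j).re := fun h => ha (Finset.mem_image.2 ⟨j, Finset.mem_univ _, h.symm⟩)
      exact (hD4 hA2 hC2 hC4 s μ P hP j a ha').mul (hC4 s _ Q hQ j a ha'))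
    (fun a _ => E4_bdd_mul hB hg0 (E4_cob_snd_bot a))
    (fun a _ => E4_bdd_mul hB hg0 (E4_cob_snd_top a))
    (fun b _ => E4_bdd_mul hB hg0 (E4_cob_fst_bot b))
    (fun b _ => E4_bdd_mul hB hg0 (E4_cob_fst_top b))
  rw [zero_mul] at key
  have hlam : ∀ j, lam μ j ≠ 0 := fun j => Complex.exp_ne_zero _
  have hint : ∀ j : Fin k, Integrable (fun a : ℝ =>
      (Set.Iio (s j).re).indicator (fun a => ((lam μ j)⁻¹ - 1) * Pp s f j * g (pt a (s j).im)) a) :=
    fun j => ((E4_int_line hA2 hC2 s _ Q hQ (s j).im).const_mul _).indicator measurableSet_Iio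
  have hpt : ∀ a : ℝ, (∑ j, ((if a < (s j).re then lam μ j * F (pt a (s j).im) +
      (1 - lam μ j) * Pp s f j else F (pt a (s j).im)) *
      ((if a < (s j).re then lam (fun j => 1 - μ j) j else 1) * g (pt a (s j).im)) -
      F (pt a (s j).im) * g (pt a (s j).im))) = ∑ j, (Set.Iio (s j).re).indicator
        (fun a => ((lam μ j)⁻¹ - 1) * Pp s f j * g (pt a (s j).im)) a := by
    intro a
    refine Finset.sum_congr rfl fun j _ => ?_
    by_cases h : a < (s j).re
    · rw [if_pos h, if_pos h, Set.indicator_of_mem (Set.mem_Iio.2 h), E4_lam]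
      field_simp [hlam j]
      ring
    · rw [if_neg h, if_neg h, Set.indicator_of_notMem (by simpa using h)]
      ring
  simp only [hpt] at key
  rw [integral_finsetSum _ fun j _ => hint j] at key
  have h3 : ∀ j : Fin k, (∫ a : ℝ, (Set.Iio (s j).re).indicator
      (fun a => ((lam μ j)⁻¹ - 1) * Pp s f j * g (pt a (s j).im)) a) =
      -((1 - (lam μ j)⁻¹) * Pp s f j * Tp s g j) := by
    intro j
    rw [integral_indicator measurableSet_Iio, integral_const_mul, Tp, integral_Iic_eq_integral_Iio]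
    ring
  rw [Finset.sum_congr rfl fun j _ => h3 j, Finset.sum_neg_distrib] at key
  exact (neg_eq_zero.1 key.symm).symm

end SEJ
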