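import Pool.Agent.Lib.SE.J.Spec

/-! # SE/J, module E5: positivity of the norm -/

set_option autoImplicit false

open MeasureTheory Filter Topology

noncomputable section

namespace SEJ

private lemma E5_meas {k : ℕ} (s : Fin k → ℂ) (μ : Fin k → ℝ) (P : Polynomial ℂ) :
    Measurable (frm s μ P) := by
  unfold frm xi
  refine (P.continuous.measurable).mul ?_
  refine Finset.measurable_fun_prod _ fun j _ => ?_
  exact (measurable_id.sub_const (s j)).pow_const _

private lemma E5_ne {k : ℕ} (s : Fin k → ℂ) (μ : Fin k → ℝ) (P : Polynomial ℂ) (x : ℂ)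
    (hP : P.eval x ≠ 0) (hx : ∀ j, x ≠ s j) : frm s μ P x ≠ 0 := by
  unfold frm xi
  refine mul_ne_zero hP (Finset.prod_ne_zero_iff.mpr fun j _ => ?_)
  rw [Complex.cpow_def_of_ne_zero (sub_ne_zero.mpr (hx j))]
  exact Complex.exp_ne_zero _

private lemma E5_maj {k : ℕ} (s : Fin k → ℂ) (μ : Fin k → ℝ) (d : ℝ) (x : ℂ) :
    maj s μ d x ^ 2 = maj s (fun j => 2 * μ j) (2 * d) x := by
  unfold maj
  rw [mul_pow, ← Finset.prod_pow]
  congr 1
  · rw [mul_comm 2 d, Real.rpow_mul (by positivity)]
    exact_mod_cast rfl
  · refine Finset.prod_congr rfl fun j _ => ?_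
    rw [show -(2 * μ j) = -(μ j) * 2 by ring, Real.rpow_mul (norm_nonneg _)]
    exact_mod_cast rfl

/-- E5: positivity. -/
theorem tE5 : S_E5 := by
  intro hA1 _ hC2 k s μ P hG
  have hint : Integrable (fun x => ‖frm s μ P x‖ ^ 2) := by
    by_cases hP : P = 0
    · subst hP
      have : (fun x => ‖frm s μ 0 x‖ ^ 2) = fun _ : ℂ => (0 : ℝ) := by
        funext x
        simp [frm]
      rw [this]
      exact integrable_zero _ _ _
    · obtain ⟨C, d, hd, hd1, hC, hb, -⟩ := hC2 s μ P hG hP
      have hinj : Function.Injective s := by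
        intro i j hij
        exact hG.im.injective (by simp [hij])
      have h1 : Integrable (maj s (fun j => 2 * μ j) (2 * d)) := by
        refine hA1 s _ _ hinj (by positivity) (fun j => ?_) (fun j => ?_) ?_
        · have := (hG.pos j).le
          positivity
        · have := hG.lt j
          show 2 * μ j < 2
          linarith
        · rw [← Finset.mul_sum]
          linarith
      refine Integrable.mono' (h1.const_mul (C ^ 2)) ?_ ?_
      · exact ((E5_meas s μ P).norm.pow_const 2).aestronglyMeasurable
      · refine Eventually.of_forall fun x => ?_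
        rw [Real.norm_of_nonneg (by positivity), ← E5_maj, ← mul_pow]
        exact pow_le_pow_left₀ (norm_nonneg _) (hb x) 2
  refine ⟨hint, fun hP => ?_⟩
  rw [integral_pos_iff_support_of_nonneg (fun x => by positivity) hint]
  have hfin : ((P.rootSet ℂ) ∪ Set.range s).Finite :=
    (Polynomial.rootSet_finite P ℂ).union (Set.finite_range s)
  have hopen : IsOpen ((P.rootSet ℂ) ∪ Set.range s)ᶜ := hfin.isClosed.isOpen_compl
  have hne : (((P.rootSet ℂ) ∪ Set.range s)ᶜ).Nonempty := hfin.infinite_compl.nonempty
  refine lt_of_lt_of_le (hopen.measure_pos volume hne) (measure_mono ?_)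
  intro x hx
  rw [Set.mem_compl_iff, Set.mem_union, not_or] at hx
  obtain ⟨h1, h2⟩ := hx
  rw [Function.mem_support]
  have h3 : frm s μ P x ≠ 0 := by
    refine E5_ne s μ P x ?_ ?_
    · intro h0
      apply h1
      rw [Polynomial.mem_rootSet]
      refine ⟨hP, ?_⟩
      simpa [Polynomial.aeval_def] using h0
    · intro j hj
      exact h2 ⟨j, hj.symm⟩
  positivity

end SEJ
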