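import Pool.Agent.Lib.SE.J.Spec2

set_option autoImplicit false

open MeasureTheory Filter Topology HC HC.SE

noncomputable section

namespace SEJ

theorem N0_rho {m r : ℕ} {s : Fin (r + 1) → ℂ} {b : Fin (r + 1) → ℕ} (h : IsCov m s b) {u : ℕ}
    (hu : u.Coprime m) (j : Fin (r + 1)) : 0 < (u * b j) % m := by
  rw [Nat.pos_iff_ne_zero]
  intro h0
  have h1 : m ∣ u * b j := Nat.dvd_of_mod_eq_zero h0
  exact h.2.2.1 j (Nat.Coprime.dvd_of_dvd_mul_left hu.symm h1)

theorem N0_ze {m : ℕ} (hm : m ≠ 0) (u n : ℕ) :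
    ze m u ^ n = Complex.exp (2 * Real.pi * Complex.I * (((u * n) % m : ℕ) : ℂ) / m) := by
  have hmc : (m : ℂ) ≠ 0 := Nat.cast_ne_zero.2 hm
  rw [ze, ← Complex.exp_nat_mul]
  have e1 : (u * n : ℕ) = m * ((u * n) / m) + (u * n) % m := (Nat.div_add_mod _ _).symm
  have e2 : (n : ℂ) * (2 * Real.pi * Complex.I * u / m) =
      (((u * n) / m : ℕ) : ℂ) * (2 * Real.pi * Complex.I) +
        2 * Real.pi * Complex.I * (((u * n) % m : ℕ) : ℂ) / m := by
    have e3 : ((u : ℂ) * n) = (m : ℂ) * (((u * n) / m : ℕ) : ℂ) + (((u * n) % m : ℕ) : ℂ) := by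
      exact_mod_cast e1
    field_simp
    linear_combination e3
  rw [e2, Complex.exp_add, Complex.exp_nat_mul_two_pi_mul_I, one_mul]

theorem tN0 : S_N0 := by
  intro m r s b h u hum hu
  have hm3 := h.1
  have hm : m ≠ 0 := by omega
  have hmp : 0 < m := by omega
  have hmr : (0 : ℝ) < m := Nat.cast_pos.2 hmp
  have hmc : (m : ℂ) ≠ 0 := Nat.cast_ne_zero.2 hm
  have hu0 : u ≠ 0 := by
    rintro rfl
    rw [Nat.coprime_zero_left] at hu
    omega
  have hmu : ∀ j, 0 < mu m b u j ∧ mu m b u j < 1 := by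
    intro j
    have h1 : 0 < (u * b j) % m := N0_rho h hu j
    have h2 : (u * b j) % m < m := Nat.mod_lt _ hmp
    have h1' : (0 : ℝ) < (((u * b j) % m : ℕ) : ℝ) := Nat.cast_pos.2 h1
    have h2' : (((u * b j) % m : ℕ) : ℝ) < m := Nat.cast_lt.2 h2
    have h3 : (((u * b j) % m : ℕ) : ℝ) / m < 1 := (div_lt_one hmr).2 h2'
    have h4 : 0 < (((u * b j) % m : ℕ) : ℝ) / m := div_pos h1' hmr
    unfold mu
    constructor <;> linarith
  have hexp1 : Complex.exp (2 * Real.pi * Complex.I) = 1 := Complex.exp_two_pi_mul_I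
  have hmusub : ∀ j, mu m b (m - u) j = 1 - mu m b u j := by
    intro j
    have h1 : 0 < (u * b j) % m := N0_rho h hu j
    have h2 : (u * b j) % m < m := Nat.mod_lt _ hmp
    have h3 : ((m - u) * b j) % m = m - (u * b j) % m := by
      have e1 : ((m - u) * b j + u * b j) % m = 0 := by
        rw [← Nat.add_mul, Nat.sub_add_cancel hum.le]
        exact Nat.mul_mod_right m (b j)
      have e2 : (((m - u) * b j) % m + (u * b j) % m) % m = 0 := by
        rw [← Nat.add_mod]
        exact e1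
      have e3 : ((m - u) * b j) % m < m := Nat.mod_lt _ hmp
      have e4 : m ∣ ((m - u) * b j) % m + (u * b j) % m := Nat.dvd_of_mod_eq_zero e2
      obtain ⟨k, hk⟩ := e4
      have hk1 : k = 1 := by
        have k1 : k < 2 := by
          by_contra hcon
          have : m * 2 ≤ m * k := Nat.mul_le_mul_left m (by omega)
          omega
        have k2 : k ≠ 0 := by
          rintro rfl
          omega
        omega
      rw [hk1] at hk
      omega
    unfold mu
    rw [h3, Nat.cast_sub h2.le]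
    field_simp
  have hconj : ∀ j, (starRingEnd ℂ) (lam (mu m b u) j) = (lam (mu m b u) j)⁻¹ := by
    intro j
    unfold lam
    rw [← Complex.exp_conj, ← Complex.exp_neg]
    congr 1
    simp only [map_mul, Complex.conj_ofReal, Complex.conj_I, map_ofNat]
    ring
  refine ⟨hmu, ?_, ?_, ?_, ?_, hmusub, ?_, ?_, hconj, ?_⟩
  · intro j
    rw [N0_ze hm, lam, ← Complex.exp_neg]
    have e : 2 * (Real.pi : ℂ) * Complex.I * ((mu m b u j : ℝ) : ℂ) =
        2 * Real.pi * Complex.I + -(2 * Real.pi * Complex.I * (((u * b j) % m : ℕ) : ℂ) / m) := by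
      unfold mu
      push_cast
      field_simp
      ring
    rw [e, Complex.exp_add, hexp1, one_mul]
  · intro j hj
    unfold lam at hj
    rw [Complex.exp_eq_one_iff] at hj
    obtain ⟨n, hn⟩ := hj
    have e : ((mu m b u j : ℝ) : ℂ) = ((n : ℝ) : ℂ) := by
      have h2 : (2 * (Real.pi : ℂ) * Complex.I) ≠ 0 := Complex.two_pi_I_ne_zero
      apply mul_left_cancel₀ h2
      rw [hn]
      push_cast
      ring
    have e' : mu m b u j = (n : ℝ) := Complex.ofReal_injective e
    obtain ⟨h1, h2⟩ := hmu j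
    rw [e'] at h1 h2
    have h3 : (0 : ℤ) < n := by exact_mod_cast h1
    have h4 : n < (1 : ℤ) := by exact_mod_cast h2
    omega
  · exact (Nat.coprime_self_sub_left hum.le).2 hu
  · omega
  · unfold ze
    rw [← Complex.exp_conj]
    have e : 2 * (Real.pi : ℂ) * Complex.I * ((m - u : ℕ) : ℂ) / m =
        2 * Real.pi * Complex.I + (starRingEnd ℂ) (2 * Real.pi * Complex.I * u / m) := by
      rw [Nat.cast_sub hum.le]
      simp only [map_div₀, map_mul, Complex.conj_ofReal, Complex.conj_I, map_ofNat, map_natCast]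
      field_simp
      ring
    rw [e, Complex.exp_add, hexp1, one_mul]
  · intro j
    unfold lam
    rw [← Complex.exp_neg, hmusub j]
    have e : 2 * (Real.pi : ℂ) * Complex.I * ((1 - mu m b u j : ℝ) : ℂ) =
        2 * Real.pi * Complex.I + -(2 * Real.pi * Complex.I * ((mu m b u j : ℝ) : ℂ)) := by
      push_cast
      ring
    rw [e, Complex.exp_add, hexp1, one_mul]
  · intro him i hi
    refine ⟨him, fun j => (hmu j).1, fun j => (hmu j).2, ?_⟩
    intro i' hi'
    rw [Polynomial.coeff_X_pow] at hi'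
    have hii : i' = i := by
      by_contra hne
      exact hi' (if_neg hne)
    subst hii
    have e1 : ∑ j, mu m b u j = ((r : ℝ) + 1) - (((∑ j, (u * b j) % m : ℕ) : ℕ) : ℝ) / m := by
      unfold mu
      rw [Finset.sum_sub_distrib, Finset.sum_const, Finset.card_univ, Fintype.card_fin,
        ← Finset.sum_div]
      push_cast
      simp
    rw [e1]
    have e2 : ((m * i' + ∑ j, (u * b j) % m : ℕ) : ℝ) < ((m * r : ℕ) : ℝ) := Nat.cast_lt.2 hi
    push_cast at e2
    have e3 : (i' : ℝ) + (((∑ j, (u * b j) % m : ℕ) : ℕ) : ℝ) / m < r := by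
      rw [← lt_sub_iff_add_lt', div_lt_iff₀ hmr]
      push_cast
      nlinarith
    linarith

end SEJ
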