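import Pool.Agent.Lib.SE.J.Spec2

set_option autoImplicit false

open MeasureTheory Filter Topology HC HC.SE

noncomputable section

namespace SEJ

/-- the indices of one character -/
def N1_equiv {m r : ℕ} (b : Fin (r + 1) → ℕ) (hm : 0 < m) (v : ℕ) (hv : v < m)
    (hc : v.Coprime m) :
    {p : Ix m b // ch p = v} ≃ Fin (r - (∑ j, (v * b j) % m) / m) where
  toFun p := ⟨(p.1.1.2 : ℕ), by
    have h1 := p.1.2.2
    have h2 := p.2
    unfold ch at h2
    rw [h2] at h1
    have h3 : ∑ j, (v * b j) % m < (r - (p.1.1.2 : ℕ)) * m := by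
      rw [Nat.sub_mul, mul_comm r m, mul_comm _ m]
      omega
    have h4 := (Nat.div_lt_iff_lt_mul hm).2 h3
    omega⟩
  invFun i := ⟨⟨(⟨v, hv⟩, ⟨(i : ℕ), lt_of_lt_of_le i.2 (Nat.sub_le _ _)⟩), hc, by
    have h0 := i.2
    have h4 : (∑ j, (v * b j) % m) / m < r - (i : ℕ) := by omega
    have h3 := (Nat.div_lt_iff_lt_mul hm).1 h4
    rw [Nat.sub_mul, mul_comm r m, mul_comm _ m] at h3
    show m * (i : ℕ) + ∑ j, (v * b j) % m < m * r
    omega⟩, rfl⟩
  left_inv := by
    rintro ⟨⟨⟨a, i⟩, h1, h2⟩, h3⟩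
    have h4 : a = ⟨v, hv⟩ := Fin.ext h3
    subst h4
    rfl
  right_inv := by
    intro i
    rfl

theorem tN1 : S_N1 := by
  intro m r s b h u hum hu
  have hm3 := h.1
  have hmp : 0 < m := by omega
  have hu0 : u ≠ 0 := by
    rintro rfl
    rw [Nat.coprime_zero_left] at hu
    omega
  have hcm : (m - u).Coprime m := (Nat.coprime_self_sub_left hum.le).2 hu
  have hrho : ∀ j, 0 < (u * b j) % m := by
    intro j
    rw [Nat.pos_iff_ne_zero]
    intro h0
    exact h.2.2.1 j (Nat.Coprime.dvd_of_dvd_mul_left hu.symm (Nat.dvd_of_mod_eq_zero h0))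
  have hsub : ∀ j, ((m - u) * b j) % m + (u * b j) % m = m := by
    intro j
    have h1 := hrho j
    have h2 : (u * b j) % m < m := Nat.mod_lt _ hmp
    have e1 : ((m - u) * b j + u * b j) % m = 0 := by
      rw [← Nat.add_mul, Nat.sub_add_cancel hum.le]
      exact Nat.mul_mod_right m (b j)
    have e2 : (((m - u) * b j) % m + (u * b j) % m) % m = 0 := by
      rw [← Nat.add_mod]
      exact e1
    have e3 : ((m - u) * b j) % m < m := Nat.mod_lt _ hmp
    obtain ⟨k, hk⟩ := Nat.dvd_of_mod_eq_zero e2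
    have k1 : k < 2 := by
      by_contra hcon
      have : m * 2 ≤ m * k := Nat.mul_le_mul_left m (by omega)
      omega
    have k2 : k ≠ 0 := by
      rintro rfl
      omega
    have hk1 : k = 1 := by omega
    rw [hk1] at hk
    omega
  have hsum : ∑ j, ((m - u) * b j) % m + ∑ j, (u * b j) % m = m * (r + 1) := by
    rw [← Finset.sum_add_distrib, Finset.sum_congr rfl (fun j _ => hsub j), Finset.sum_const,
      Finset.card_univ, Fintype.card_fin, smul_eq_mul, mul_comm]
  have hnd : (∑ j, (u * b j) % m) % m ≠ 0 := by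
    intro h0
    have e1 : (∑ j, (u * b j) % m) % m = (u * ∑ j, b j) % m := by
      rw [Finset.mul_sum, ← Finset.sum_nat_mod]
    rw [e1] at h0
    exact h.2.2.2.1 (Nat.Coprime.dvd_of_dvd_mul_left hu.symm (Nat.dvd_of_mod_eq_zero h0))
  have c1 : Fintype.card {p : Ix m b // ch p = u} = r - (∑ j, (u * b j) % m) / m := by
    rw [Fintype.card_congr (N1_equiv b hmp u hum hu), Fintype.card_fin]
  have c2 : Fintype.card {p : Ix m b // ch p + u = m} =
      r - (∑ j, ((m - u) * b j) % m) / m := by
    have e : ∀ p : Ix m b, ch p + u = m ↔ ch p = m - u := by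
      intro p
      omega
    rw [Fintype.card_congr ((Equiv.subtypeEquivRight e).trans
      (N1_equiv b hmp (m - u) (by omega) hcm)), Fintype.card_fin]
  rw [c1, c2]
  generalize ∑ j, (u * b j) % m = S at hsum hnd
  generalize ∑ j, ((m - u) * b j) % m = S' at hsum
  have d1 : m * (S / m) + S % m = S := Nat.div_add_mod S m
  have d2 : S % m < m := Nat.mod_lt _ hmp
  have hq : S / m ≤ r := by
    by_contra hcon
    have : m * (r + 1) ≤ m * (S / m) := Nat.mul_le_mul_left m (by omega)
    omega
  have d3 : S' / m = r - S / m := by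
    rw [Nat.div_eq_iff hmp]
    have e1 : (r - S / m) * m = m * r - m * (S / m) := by
      rw [Nat.sub_mul, mul_comm r m, mul_comm _ m]
    have e2 : m * (S / m) ≤ m * r := Nat.mul_le_mul_left m hq
    have e3 : m * (r + 1) = m * r + m := by ring
    constructor <;> omega
  rw [d3]
  generalize S / m = g at hq
  omega

end SEJ
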