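import Pool.Agent.Lib.SE.J.Spec2

/-!
# SE/J, N11: the local structure of one primitive at a point of a ray
-/

set_option autoImplicit false

open MeasureTheory Filter Topology HC HC.SE

noncomputable section

namespace SEJ

/-- on an open convex set a function with derivative zero has the value of each of its limits -/
private theorem N11_lim {U : Set ℂ} (hU : IsOpen U) (hc : Convex ℝ U) {h : ℂ → ℂ}
    (hd : ∀ x ∈ U, HasDerivAt h 0 x) {l : Filter ℝ} [l.NeBot] {γ : ℝ → ℂ}
    (hγ : ∀ᶠ b in l, γ b ∈ U) {L : ℂ} (hL : Tendsto (fun b => h (γ b)) l (𝓝 L)) {x : ℂ}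
    (hx : x ∈ U) : h x = L := by
  have h1 : Tendsto (fun b => h (γ b)) l (𝓝 (h x)) := by
    refine Tendsto.congr' ?_ tendsto_const_nhds
    refine hγ.mono fun b hb => ?_
    exact hU.is_const_of_deriv_eq_zero hc.isPreconnected
      (fun z hz => (hd z hz).differentiableAt.differentiableWithinAt)
      (fun z hz => (hd z hz).deriv) hx hb
  exact tendsto_nhds_unique h1 hL

private theorem N11_up {z : ℂ} (hre : z.re < 0) (him : 0 ≤ z.im) (m : ℝ) :
    (-z) ^ (-(m : ℂ)) * Complex.exp (-(Real.pi * Complex.I * m)) = z ^ (-(m : ℂ)) := by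
  have h0 : z ≠ 0 := by
    rintro rfl
    exact lt_irrefl _ hre
  have h1 : (-z).arg = z.arg - Real.pi := by
    rw [Complex.arg_neg_eq_arg_sub_pi_iff]
    rcases him.eq_or_lt with h | h
    · exact Or.inr ⟨h.symm, hre⟩
    · exact Or.inl h
  rw [Complex.cpow_def_of_ne_zero (neg_ne_zero.2 h0), Complex.cpow_def_of_ne_zero h0,
    ← Complex.exp_add]
  congr 1
  unfold Complex.log
  rw [norm_neg, h1]
  push_cast
  ring

private theorem N11_dn {z : ℂ} (hre : z.re < 0) (him : z.im < 0) (m : ℝ) :
    Complex.exp (2 * Real.pi * Complex.I * m) *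
      ((-z) ^ (-(m : ℂ)) * Complex.exp (-(Real.pi * Complex.I * m))) = z ^ (-(m : ℂ)) := by
  have h0 : z ≠ 0 := by
    rintro rfl
    exact lt_irrefl _ hre
  have h1 : (-z).arg = z.arg + Real.pi := by
    rw [Complex.arg_neg_eq_arg_add_pi_iff]
    exact Or.inl him
  rw [Complex.cpow_def_of_ne_zero (neg_ne_zero.2 h0), Complex.cpow_def_of_ne_zero h0,
    ← Complex.exp_add, ← Complex.exp_add]
  congr 1
  unfold Complex.log
  rw [norm_neg, h1]
  push_cast
  ring

/-- the continuation of the form across the ray -/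
private def N11_f {k : ℕ} (s : Fin k → ℂ) (μ : Fin k → ℝ) (P : Polynomial ℂ) (j : Fin k)
    (x : ℂ) : ℂ :=
  P.eval x * ((∏ l ∈ Finset.univ.erase j, (x - s l) ^ (-(μ l : ℂ))) *
    ((-(x - s j)) ^ (-(μ j : ℂ)) * Complex.exp (-(Real.pi * Complex.I * μ j))))

private theorem N11_frm {k : ℕ} (s : Fin k → ℂ) (μ : Fin k → ℝ) (P : Polynomial ℂ) (j : Fin k)
    (x : ℂ) : frm s μ P x = P.eval x *
      ((∏ l ∈ Finset.univ.erase j, (x - s l) ^ (-(μ l : ℂ))) * (x - s j) ^ (-(μ j : ℂ))) := by
  unfold frm xi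
  rw [Finset.prod_erase_mul _ _ (Finset.mem_univ j)]

private theorem N11_f_up {k : ℕ} (s : Fin k → ℂ) (μ : Fin k → ℝ) (P : Polynomial ℂ) (j : Fin k)
    {x : ℂ} (hre : x.re < (s j).re) (him : (s j).im ≤ x.im) : N11_f s μ P j x = frm s μ P x := by
  rw [N11_frm s μ P j, N11_f, N11_up]
  · rw [Complex.sub_re]; linarith
  · rw [Complex.sub_im]; linarith

private theorem N11_f_dn {k : ℕ} (s : Fin k → ℂ) (μ : Fin k → ℝ) (P : Polynomial ℂ) (j : Fin k)
    {x : ℂ} (hre : x.re < (s j).re) (him : x.im < (s j).im) :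
    lam μ j * N11_f s μ P j x = frm s μ P x := by
  rw [N11_frm s μ P j, N11_f, lam, ← N11_dn (z := x - s j) _ _ (μ j)]
  · ring
  · rw [Complex.sub_re]; linarith
  · rw [Complex.sub_im]; linarith

private theorem N11_diff {k : ℕ} (s : Fin k → ℂ) (μ : Fin k → ℝ) (P : Polynomial ℂ) (j : Fin k)
    {x : ℂ} (hre : x.re < (s j).re) (him : ∀ l, l ≠ j → x.im ≠ (s l).im) :
    DifferentiableAt ℂ (N11_f s μ P j) x := by
  unfold N11_f
  refine (P.differentiable x).mul (DifferentiableAt.mul ?_
    (DifferentiableAt.mul_const ?_ _))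
  · refine DifferentiableAt.fun_finsetProd fun l hl => ?_
    refine DifferentiableAt.cpow_const (differentiableAt_id.sub_const _) (Or.inr ?_)
    rw [Complex.sub_im]
    exact sub_ne_zero.2 (him l (Finset.ne_of_mem_erase hl))
  · refine DifferentiableAt.cpow_const (differentiableAt_id.sub_const _).neg (Or.inl ?_)
    rw [Complex.neg_re, Complex.sub_re]
    linarith

private theorem N11_pt (a : ℝ) (β : ℝ) : Tendsto (fun b => pt a b) (𝓝 β) (𝓝 (pt a β)) := by
  have h : Continuous fun b : ℝ => pt a b := by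
    unfold pt
    fun_prop
  exact h.tendsto β

private theorem N11_pt_re (a b : ℝ) : (pt a b).re = a := by simp [pt]
private theorem N11_pt_im (a b : ℝ) : (pt a b).im = b := by simp [pt]
private theorem N11_pt_eta (x : ℂ) : pt x.re x.im = x := Complex.re_add_im x

theorem tN11 : S_N11 := by
  intro hC1 hC2 hC5 hD1 hD3 hD4 k s μ P hg j x₀ him hre
  have hD := hD1 hC1 hC2 hC5 s μ P hg
  have hopen : IsOpen {x : ℂ | x.re < (s j).re ∧ ∀ l, l ≠ j → x.im ≠ (s l).im} := by
    refine (isOpen_lt Complex.continuous_re continuous_const).and ?_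
    have h1 : {x : ℂ | ∀ l, l ≠ j → x.im ≠ (s l).im} =
        ⋂ l : Fin k, {x : ℂ | l ≠ j → x.im ≠ (s l).im} := by
      ext x
      simp
    change IsOpen {x : ℂ | ∀ l, l ≠ j → x.im ≠ (s l).im}
    rw [h1]
    refine isOpen_iInter_of_finite fun l => ?_
    by_cases hl : l = j
    · have h2 : {x : ℂ | l ≠ j → x.im ≠ (s l).im} = Set.univ := by
        ext x
        simp [hl]
      rw [h2]
      exact isOpen_univ
    · have h2 : {x : ℂ | l ≠ j → x.im ≠ (s l).im} = {x : ℂ | x.im ≠ (s l).im} := by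
        ext x
        simp [hl]
      rw [h2]
      exact isOpen_ne_fun Complex.continuous_im continuous_const
  have hx₀ : x₀ ∈ {x : ℂ | x.re < (s j).re ∧ ∀ l, l ≠ j → x.im ≠ (s l).im} :=
    ⟨hre, fun l hl h => hl (hg.im.injective (h.symm.trans him))⟩
  obtain ⟨ρ, hρ, hball⟩ := Metric.isOpen_iff.1 hopen x₀ hx₀
  have hdiff : DifferentiableOn ℂ (N11_f s μ P j) (Metric.ball x₀ ρ) := fun x hx =>
    (N11_diff s μ P j (hball hx).1 (hball hx).2).differentiableWithinAt
  obtain ⟨G, hG0, hG⟩ := hdiff.isExactOn_ball.with_val_at x₀ (prm (frm s μ P) x₀)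
  -- the upper half
  have hup : ∀ x ∈ Metric.ball x₀ ρ ∩ {x : ℂ | (s j).im < x.im}, ∀ a : ℝ,
      pt a (s j).im ∈ Metric.ball x₀ ρ → a ≠ (s j).re →
      G x - prm (frm s μ P) x = G (pt a (s j).im) - prm (frm s μ P) (pt a (s j).im) := by
    intro x hx a ha ha'
    refine N11_lim (Metric.isOpen_ball.inter (isOpen_lt continuous_const Complex.continuous_im))
      ((convex_ball _ _).inter (convex_halfSpace_im_gt _))
      (h := fun x => G x - prm (frm s μ P) x) ?_ (l := 𝓝[>] (s j).im) (γ := fun b => pt a b)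
      ?_ ?_ hx
    · rintro z ⟨hz, hz'⟩
      have h1 := hG z hz
      rw [N11_f_up s μ P j (hball hz).1 (le_of_lt hz')] at h1
      have h2 := hD z (fun l hl => by
        by_cases hlj : l = j
        · rw [hlj] at hl
          exact absurd hl (ne_of_gt hz')
        · exact absurd hl ((hball hz).2 l hlj))
      have h3 := h1.sub h2
      rw [sub_self] at h3
      exact h3
    · refine Filter.Eventually.and ?_ ?_
      · exact (N11_pt a (s j).im).mono_left nhdsWithin_le_nhds
          (Metric.isOpen_ball.mem_nhds ha)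
      · filter_upwards [self_mem_nhdsWithin] with b hb
        change (s j).im < (pt a b).im
        rw [N11_pt_im]
        exact hb
    · refine Tendsto.sub ?_ (hD3 s μ P hg j a ha')
      exact (((hG _ ha).continuousAt.tendsto.comp (N11_pt a (s j).im))).mono_left
        nhdsWithin_le_nhds
  have hpt : pt x₀.re (s j).im = x₀ := by rw [← him, N11_pt_eta]
  have hmem : pt x₀.re (s j).im ∈ Metric.ball x₀ ρ := by
    rw [hpt]
    exact Metric.mem_ball_self hρ
  have hup' : ∀ x ∈ Metric.ball x₀ ρ ∩ {x : ℂ | (s j).im < x.im}, G x = prm (frm s μ P) x := by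
    intro x hx
    have h1 := hup x hx x₀.re hmem hre.ne
    rw [hpt, hG0, sub_self] at h1
    exact sub_eq_zero.1 h1
  -- the lower half
  have hdn : ∀ x ∈ Metric.ball x₀ ρ ∩ {x : ℂ | x.im < (s j).im},
      lam μ j * G x - prm (frm s μ P) x = - ((1 - lam μ j) * Pp s (frm s μ P) j) := by
    intro x hx
    refine N11_lim (Metric.isOpen_ball.inter (isOpen_lt Complex.continuous_im continuous_const))
      ((convex_ball _ _).inter (convex_halfSpace_im_lt _))
      (h := fun x => lam μ j * G x - prm (frm s μ P) x) ?_ (l := 𝓝[<] (s j).im)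
      (γ := fun b => pt x₀.re b) ?_ ?_ hx
    · rintro z ⟨hz, hz'⟩
      have h1 := (hG z hz).const_mul (lam μ j)
      rw [N11_f_dn s μ P j (hball hz).1 hz'] at h1
      have h2 := hD z (fun l hl => by
        by_cases hlj : l = j
        · rw [hlj] at hl
          exact absurd hl (ne_of_lt hz')
        · exact absurd hl ((hball hz).2 l hlj))
      have h3 := h1.sub h2
      rw [sub_self] at h3
      exact h3
    · refine Filter.Eventually.and ?_ ?_
      · exact (N11_pt x₀.re (s j).im).mono_left nhdsWithin_le_nhds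
          (Metric.isOpen_ball.mem_nhds hmem)
      · filter_upwards [self_mem_nhdsWithin] with b hb
        change (pt x₀.re b).im < (s j).im
        rw [N11_pt_im]
        exact hb
    · have h1 := hD4 s μ P hg j x₀.re hre.ne
      rw [if_pos hre, hpt] at h1
      have h2 : Tendsto (fun b => G (pt x₀.re b)) (𝓝[<] (s j).im)
          (𝓝 (prm (frm s μ P) x₀)) := by
        have h3 := ((hG _ hmem).continuousAt.tendsto.comp (N11_pt x₀.re (s j).im)).mono_left
          (nhdsWithin_le_nhds (s := Set.Iio (s j).im))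
        rw [hpt, hG0] at h3
        exact h3
      have h3 := (h2.const_mul (lam μ j)).sub h1
      have h4 : lam μ j * prm (frm s μ P) x₀ - (lam μ j * prm (frm s μ P) x₀ +
          (1 - lam μ j) * Pp s (frm s μ P) j) = - ((1 - lam μ j) * Pp s (frm s μ P) j) := by
        ring
      rw [h4] at h3
      exact h3
  refine ⟨G, ?_⟩
  filter_upwards [Metric.ball_mem_nhds x₀ hρ] with x hx
  have hGx := hG x hx
  split_ifs with hx'
  · rw [N11_f_up s μ P j (hball hx).1 hx'] at hGx
    refine ⟨?_, hGx⟩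
    rcases hx'.eq_or_lt with h | h
    · -- on the ray
      have hxpt : pt x.re (s j).im = x := by rw [h, N11_pt_eta]
      -- a point of the upper half
      have hne : (Metric.ball x₀ ρ ∩ {x : ℂ | (s j).im < x.im}).Nonempty := by
        have h1 : ∀ᶠ b in 𝓝[>] (s j).im, pt x₀.re b ∈ Metric.ball x₀ ρ ∧
            b ∈ Set.Ioi (s j).im :=
          Filter.Eventually.and
            ((N11_pt x₀.re (s j).im).mono_left nhdsWithin_le_nhds
              (Metric.isOpen_ball.mem_nhds hmem)) self_mem_nhdsWithin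
        obtain ⟨b, hb, hb'⟩ := h1.exists
        refine ⟨pt x₀.re b, hb, ?_⟩
        change (s j).im < (pt x₀.re b).im
        rw [N11_pt_im]
        exact hb'
      obtain ⟨y, hy⟩ := hne
      have h1 := hup y hy x.re (by rw [hxpt]; exact hx) (hball hx).1.ne
      rw [hup' y hy, sub_self, hxpt] at h1
      exact sub_eq_zero.1 h1.symm
    · exact hup' x ⟨hx, h⟩
  · have hx'' : x.im < (s j).im := not_le.1 hx'
    refine ⟨?_, ?_⟩
    · have h1 := hdn x ⟨hx, hx''⟩
      linear_combination h1
    · rw [← N11_f_dn s μ P j (hball hx).1 hx'', ← mul_assoc, inv_mul_cancel₀, one_mul]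
      · exact hGx
      · exact Complex.exp_ne_zero _

end SEJ
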