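import Pool.Agent.Lib.SE.J.Spec2

set_option autoImplicit false

open MeasureTheory Filter Topology HC HC.SE

noncomputable section

namespace SEJ

private lemma N12_ze_pow (m u : ℕ) : ze m u = ze m 1 ^ u := by
  unfold ze
  rw [← Complex.exp_nat_mul]
  congr 1
  push_cast
  ring

private lemma N12_ze_pow_m {m : ℕ} (hm : m ≠ 0) : ze m 1 ^ m = 1 := by
  unfold ze
  rw [← Complex.exp_nat_mul]
  have hm' : (m : ℂ) ≠ 0 := Nat.cast_ne_zero.mpr hm
  have h : (m : ℂ) * (2 * Real.pi * Complex.I * (1 : ℕ) / m) = 2 * Real.pi * Complex.I := by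
    field_simp
    simp
  rw [h, Complex.exp_two_pi_mul_I]

private lemma N12_root {m : ℕ} (hm : m ≠ 0) {ε : ℂ} (hε : ε ^ m = 1) : ∃ a : ℕ, ε = ze m 1 ^ a := by
  have hp : IsPrimitiveRoot (ze m 1) m := by
    have h := Complex.isPrimitiveRoot_exp m hm
    have h2 : ze m 1 = Complex.exp (2 * Real.pi * Complex.I / m) := by
      unfold ze
      congr 1
      push_cast
      ring
    rw [h2]
    exact h
  have : NeZero m := ⟨hm⟩
  obtain ⟨a, _, ha⟩ := hp.eq_pow_of_pow_eq_one hε
  exact ⟨a, ha.symm⟩

/-- the factor of `y0` -/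
private lemma N12_cpow_pow {m : ℕ} (hm : m ≠ 0) (z : ℂ) (b : ℕ) :
    (z ^ ((b : ℂ) / m)) ^ m = z ^ b := by
  rw [← Complex.cpow_nat_mul]
  have hm' : (m : ℂ) ≠ 0 := Nat.cast_ne_zero.mpr hm
  rw [mul_div_cancel₀ _ hm', Complex.cpow_natCast]

private lemma N12_y0_pow {m r : ℕ} (hm : m ≠ 0) (s : Fin (r + 1) → ℂ) (b : Fin (r + 1) → ℕ)
    (x : ℂ) : y0 m s b x ^ m = ∏ j, (x - s j) ^ b j := by
  unfold y0
  rw [← Finset.prod_pow]
  exact Finset.prod_congr rfl fun j _ => N12_cpow_pow hm _ _

private lemma N12_y0_ne {m r : ℕ} (s : Fin (r + 1) → ℂ) (b : Fin (r + 1) → ℕ) {x : ℂ}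
    (hx : x ∉ Set.range s) : y0 m s b x ≠ 0 := by
  unfold y0
  rw [Finset.prod_ne_zero_iff]
  intro j _ h
  rw [Complex.cpow_eq_zero_iff] at h
  exact hx ⟨j, (sub_eq_zero.mp h.1).symm⟩

/-- above the cut -/
private lemma N12_up {z c : ℂ} (hre : z.re < 0) (him : 0 ≤ z.im) :
    z ^ c = (-z) ^ c * Complex.exp (Real.pi * Complex.I * c) := by
  have hz : z ≠ 0 := by
    intro h
    rw [h] at hre
    simp at hre
  have ha : Complex.arg (-z) = Complex.arg z - Real.pi := by
    rw [Complex.arg_neg_eq_arg_sub_pi_iff]
    rcases him.lt_or_eq with h | h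
    · exact Or.inl h
    · exact Or.inr ⟨h.symm, hre⟩
  rw [Complex.cpow_def_of_ne_zero hz, Complex.cpow_def_of_ne_zero (neg_ne_zero.mpr hz),
    ← Complex.exp_add]
  congr 1
  rw [Complex.log, Complex.log, norm_neg, ha]
  push_cast
  ring

/-- below the cut -/
private lemma N12_dn {z c : ℂ} (him : z.im < 0) :
    z ^ c = (-z) ^ c * Complex.exp (-(Real.pi * Complex.I * c)) := by
  have hz : z ≠ 0 := by
    intro h
    rw [h] at him
    simp at him
  have ha : Complex.arg (-z) = Complex.arg z + Real.pi := by
    rw [Complex.arg_neg_eq_arg_add_pi_iff]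
    exact Or.inl him
  rw [Complex.cpow_def_of_ne_zero hz, Complex.cpow_def_of_ne_zero (neg_ne_zero.mpr hz),
    ← Complex.exp_add]
  congr 1
  rw [Complex.log, Complex.log, norm_neg, ha]
  push_cast
  ring

private lemma N12_away {r : ℕ} (s : Fin (r + 1) → ℂ) {x₀ : ℂ} (hx : x₀ ∉ Set.range s) :
    ∀ᶠ x in 𝓝 x₀, x ∉ Set.range s :=
  (Set.finite_range s).isClosed.isOpen_compl.mem_nhds hx

private lemma N12_slit {z : ℂ} (h : z.im = 0 → 0 < z.re) : z ∈ Complex.slitPlane := by
  rw [Complex.mem_slitPlane_iff]
  by_cases h0 : z.im = 0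
  · exact Or.inl (h h0)
  · exact Or.inr h0

private lemma N12_cont {z s c : ℂ} (h : (z - s).im = 0 → 0 < (z - s).re) :
    ContinuousAt (fun x : ℂ => (x - s) ^ c) z :=
  ContinuousAt.cpow (continuousAt_id.sub continuousAt_const) continuousAt_const (N12_slit h)

theorem tN12 : S_N12 := by
  intro hN0 hN10 hD1 hN11 m r s b hcov hmono o hL x₀ hx₀ y₀ hy₀
  have hm : m ≠ 0 := by
    have := hcov.1
    omega
  set ε : ℂ := y₀ / y0 m s b x₀ with hεd
  have hy0 := N12_y0_ne (m := m) s b hx₀
  have hεm : ε ^ m = 1 := by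
    rw [hεd, div_pow, N12_y0_pow hm s b x₀, ← sub_eq_zero.mp hy₀, div_self]
    have h := pow_ne_zero m hy0
    rw [N12_y0_pow hm s b x₀] at h
    rw [sub_eq_zero.mp hy₀]
    exact h
  have hy₀e : ε * y0 m s b x₀ = y₀ := by
    rw [hεd]
    field_simp
  have haway := N12_away s hx₀
  by_cases hray : ∀ j, x₀.im = (s j).im → (s j).re < x₀.re
  · -- no ray
    refine ⟨fun x => ε * y0 m s b x,
      fun x p => ε ^ ch p * prm (frm s (mu m b (ch p)) (o.Q p)) x, hy₀e, ?_, ?_⟩
    · refine ContinuousAt.mul continuousAt_const ?_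
      unfold y0
      refine tendsto_finsetProd _ fun j _ => ?_
      refine N12_cont ?_
      intro h
      have h1 : x₀.im = (s j).im := by
        rw [Complex.sub_im] at h
        linarith
      have h2 := hray j h1
      rw [Complex.sub_re]
      linarith
    · have hopen : ∀ᶠ x in 𝓝 x₀, ∀ j, x.im = (s j).im → (s j).re < x.re := by
        rw [eventually_all]
        intro j
        by_cases h : x₀.im = (s j).im
        · have h2 : ∀ᶠ x : ℂ in 𝓝 x₀, (s j).re < x.re :=
            Complex.continuous_re.continuousAt.eventually (lt_mem_nhds (hray j h))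
          filter_upwards [h2] with x hx _ using hx
        · have h2 : ∀ᶠ x : ℂ in 𝓝 x₀, x.im ≠ (s j).im :=
            Complex.continuous_im.continuousAt.eventually (isOpen_ne.mem_nhds h)
          filter_upwards [h2] with x hx h3
          exact absurd h3 hx
      filter_upwards [haway, hopen] with x hx hxr
      have hyx := N12_y0_ne (m := m) s b hx
      have hdiv : ε * y0 m s b x / y0 m s b x = ε := by
        field_simp
      refine ⟨?_, ?_, ?_⟩
      · rw [mul_pow, hεm, one_mul, N12_y0_pow hm s b x, sub_self]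
      · have h : o.al x (ε * y0 m s b x) -
            (fun p => ε ^ ch p * prm (frm s (mu m b (ch p)) (o.Q p)) x) = 0 := by
          funext p
          simp only [ONB.al, Pi.sub_apply, Pi.zero_apply, hdiv, sub_self]
        rw [h]
        exact o.L.zero_mem
      · rw [hasDerivAt_pi]
        intro p
        rw [hN10 s b hcov o x _ hx p, hdiv]
        exact (hD1 s _ _ (o.good p) x hxr).const_mul _
  · push Not at hray
    obtain ⟨j, hj1, hj2⟩ := hray
    have hj3 : x₀.re < (s j).re := by
      refine lt_of_le_of_ne hj2 ?_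
      intro h
      exact hx₀ ⟨j, (Complex.ext h hj1).symm⟩
    have hoth : ∀ l, l ≠ j → x₀.im ≠ (s l).im := by
      intro l hl h
      exact hl (hmono.injective (by rw [← h, hj1]))
    have hG : ∀ p : Ix m b, ∃ G : ℂ → ℂ, ∀ᶠ x in 𝓝 x₀,
        (if (s j).im ≤ x.im then G x = prm (frm s (mu m b (ch p)) (o.Q p)) x ∧
            HasDerivAt G (frm s (mu m b (ch p)) (o.Q p) x) x
          else lam (mu m b (ch p)) j * G x = prm (frm s (mu m b (ch p)) (o.Q p)) x -
              (1 - lam (mu m b (ch p)) j) * Pp s (frm s (mu m b (ch p)) (o.Q p)) j ∧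
            HasDerivAt G ((lam (mu m b (ch p)) j)⁻¹ * frm s (mu m b (ch p)) (o.Q p) x) x) :=
      fun p => hN11 s _ _ (o.good p) j x₀ hj1 hj3
    choose G hG using hG
    have hGall := eventually_all.mpr hG
    obtain ⟨a, ha⟩ := N12_root hm hεm
    have hεu : ∀ u : ℕ, ε ^ u = ze m u ^ a := by
      intro u
      rw [ha, N12_ze_pow m u, ← pow_mul, ← pow_mul, mul_comm]
    have hzu : ∀ u : ℕ, (ze m 1 ^ b j) ^ u = ze m u ^ b j := by
      intro u
      rw [N12_ze_pow m u, ← pow_mul, ← pow_mul, mul_comm]
    have hze : ∀ u : ℕ, ze m u ≠ 0 := fun u => Complex.exp_ne_zero _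
    have hlam : ∀ p : Ix m b, lam (mu m b (ch p)) j = (ze m (ch p) ^ b j)⁻¹ := fun p =>
      (hN0 s b hcov (ch p) p.1.1.2 p.2.1).2.1 j
    refine ⟨fun x => if (s j).im ≤ x.im then ε * y0 m s b x else ε * ze m 1 ^ b j * y0 m s b x,
      fun x p => ε ^ ch p * G p x, ?_, ?_, ?_⟩
    · simp only [hj1.ge, if_true]
      exact hy₀e
    · -- continuity
      have hc1 : ContinuousAt (fun x : ℂ => ε * (((-(x - s j)) ^ ((b j : ℂ) / m) *
          Complex.exp (Real.pi * Complex.I * ((b j : ℂ) / m))) *
            ∏ l ∈ Finset.univ.erase j, (x - s l) ^ ((b l : ℂ) / m))) x₀ := by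
        refine ContinuousAt.mul continuousAt_const (ContinuousAt.mul (ContinuousAt.mul ?_
          continuousAt_const) ?_)
        · refine ContinuousAt.cpow (continuousAt_id.sub continuousAt_const).neg continuousAt_const
            (N12_slit ?_)
          intro _
          simp only [Complex.neg_re, Complex.sub_re]
          linarith
        · refine tendsto_finsetProd _ fun l hl => ?_
          refine N12_cont ?_
          intro h
          refine absurd ?_ (hoth l (Finset.ne_of_mem_erase hl))
          rw [Complex.sub_im] at h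
          linarith
      refine hc1.congr ?_
      have h2 : ∀ᶠ x : ℂ in 𝓝 x₀, x.re < (s j).re :=
        Complex.continuous_re.continuousAt.eventually (gt_mem_nhds hj3)
      filter_upwards [h2] with x hx
      have hspl : y0 m s b x = (x - s j) ^ ((b j : ℂ) / m) *
          ∏ l ∈ Finset.univ.erase j, (x - s l) ^ ((b l : ℂ) / m) :=
        (Finset.mul_prod_erase _ _ (Finset.mem_univ j)).symm
      split_ifs with him
      · rw [hspl, N12_up (z := x - s j) (by rw [Complex.sub_re]; linarith)
          (by rw [Complex.sub_im]; linarith)]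
      · rw [hspl, N12_dn (z := x - s j) (by rw [Complex.sub_im]; linarith)]
        have he : ze m 1 ^ b j * Complex.exp (-(Real.pi * Complex.I * ((b j : ℂ) / m))) =
            Complex.exp (Real.pi * Complex.I * ((b j : ℂ) / m)) := by
          unfold ze
          rw [← Complex.exp_nat_mul, ← Complex.exp_add]
          congr 1
          push_cast
          ring
        rw [← he]
        ring
    · filter_upwards [haway, hGall] with x hx hGx
      have hyx := N12_y0_ne (m := m) s b hx
      by_cases him : (s j).im ≤ x.im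
      · have hdiv : ε * y0 m s b x / y0 m s b x = ε := by
          field_simp
        simp only [him, if_true]
        refine ⟨?_, ?_, ?_⟩
        · rw [mul_pow, hεm, one_mul, N12_y0_pow hm s b x, sub_self]
        · have h : o.al x (ε * y0 m s b x) - (fun p => ε ^ ch p * G p x) = 0 := by
            funext p
            have h3 := hGx p
            rw [if_pos him] at h3
            simp only [ONB.al, Pi.sub_apply, Pi.zero_apply, hdiv, h3.1, sub_self]
          rw [h]
          exact o.L.zero_mem
        · rw [hasDerivAt_pi]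
          intro p
          have h3 := hGx p
          rw [if_pos him] at h3
          rw [hN10 s b hcov o x _ hx p, hdiv]
          exact h3.2.const_mul _
      · have hdiv : ε * ze m 1 ^ b j * y0 m s b x / y0 m s b x = ε * ze m 1 ^ b j := by
          field_simp
        simp only [him, if_false]
        refine ⟨?_, ?_, ?_⟩
        · rw [mul_pow, mul_pow, hεm, one_mul, ← pow_mul, mul_comm (b j) m, pow_mul,
            N12_ze_pow_m hm, one_pow, one_mul, N12_y0_pow hm s b x, sub_self]
        · have h : o.al x (ε * ze m 1 ^ b j * y0 m s b x) - (fun p => ε ^ ch p * G p x) =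
              fun p => ze m (ch p) ^ a * ((ze m (ch p) ^ b j - 1) * o.B j p) := by
            funext p
            have h3 := hGx p
            rw [if_neg him, hlam p] at h3
            have hz : ze m (ch p) ^ b j ≠ 0 := pow_ne_zero _ (hze _)
            have h4 : prm (frm s (mu m b (ch p)) (o.Q p)) x = (ze m (ch p) ^ b j)⁻¹ * G p x +
                (1 - (ze m (ch p) ^ b j)⁻¹) * o.B j p := by
              rw [h3.1]
              unfold ONB.B
              ring
            simp only [ONB.al, Pi.sub_apply, hdiv]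
            rw [mul_pow, hzu, hεu, h4]
            field_simp
            ring
          rw [h]
          exact hL j a
        · rw [hasDerivAt_pi]
          intro p
          have h3 := hGx p
          rw [if_neg him, hlam p, inv_inv] at h3
          rw [hN10 s b hcov o x _ hx p, hdiv, mul_pow, hzu, mul_assoc]
          exact h3.2.const_mul _

end SEJ
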