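import Pool.Agent.Lib.SE.J.Spec2

/-! # SE/J, module N13: the map of the curve has finite area. -/

set_option autoImplicit false

open MeasureTheory Filter Topology HC HC.SE

noncomputable section

namespace SEJ

private theorem N13_meas {k : ℕ} (s : Fin k → ℂ) (μ : Fin k → ℝ) (P : Polynomial ℂ) :
    Measurable (frm s μ P) := by
  unfold frm xi
  refine (P.continuous.measurable).mul ?_
  refine Finset.measurable_prod _ fun j _ => ?_
  exact (measurable_id.sub_const (s j)).pow_const _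

private theorem N13_y0 {m r : ℕ} (hm : m ≠ 0) (s : Fin (r + 1) → ℂ) (b : Fin (r + 1) → ℕ) (x : ℂ) :
    y0 m s b x ^ m = ∏ j, (x - s j) ^ b j := by
  unfold y0
  rw [← Finset.prod_pow]
  refine Finset.prod_congr rfl fun j _ => ?_
  rw [← Complex.cpow_nat_mul]
  have h : (m : ℂ) * ((b j : ℂ) / m) = ((b j : ℕ) : ℂ) := by
    have : (m : ℂ) ≠ 0 := by exact_mod_cast hm
    field_simp
  rw [h, Complex.cpow_natCast]

private theorem N13_norm {ι : Type} [Fintype ι] (f g : ι → ℂ) (h : ∀ i, ‖f i‖ = ‖g i‖) :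
    ‖f‖ = ‖g‖ := by
  have h' : (fun i => ‖f i‖₊) = fun i => ‖g i‖₊ := funext fun i => NNReal.eq (h i)
  rw [Pi.norm_def, Pi.norm_def]
  simp only [h']

private theorem N13_sq {ι : Type} [Fintype ι] (f : ι → ℂ) : ‖f‖ ^ 2 ≤ ∑ i, ‖f i‖ ^ 2 := by
  have h0 : 0 ≤ ∑ i, ‖f i‖ ^ 2 := Finset.sum_nonneg fun i _ => by positivity
  have h : ‖f‖ ≤ Real.sqrt (∑ i, ‖f i‖ ^ 2) := by
    refine (pi_norm_le_iff_of_nonneg (Real.sqrt_nonneg _)).2 fun i => ?_
    refine Real.le_sqrt_of_sq_le ?_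
    exact Finset.single_le_sum (f := fun i => ‖f i‖ ^ 2) (fun j _ => by positivity)
      (Finset.mem_univ i)
  calc ‖f‖ ^ 2 ≤ Real.sqrt (∑ i, ‖f i‖ ^ 2) ^ 2 := by gcongr
    _ = _ := Real.sq_sqrt h0

theorem tN13 : S_N13 := by
  intro hN10 hE5 m r s b hcov o
  have hm : m ≠ 0 := by have := hcov.1; omega
  set Φ : ℂ → Ix m b → ℂ := fun x p => frm s (mu m b (ch p)) (o.Q p) x with hΦ
  have hmeas : Measurable Φ := measurable_pi_lambda _ fun p => N13_meas _ _ _
  have hint : Integrable (fun x => ‖Φ x‖ ^ 2) := by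
    refine (integrable_finsetSum Finset.univ
      (fun p _ => (hE5 s (mu m b (ch p)) (o.Q p) (o.good p)).1)).mono'
      ((hmeas.norm.pow_const 2).aestronglyMeasurable) ?_
    refine Eventually.of_forall fun x => ?_
    rw [Real.norm_of_nonneg (by positivity)]
    exact N13_sq (Φ x)
  have hfin : ∀ᵐ x : ℂ, x ∉ Set.range s :=
    (Set.finite_range s).countable.ae_notMem volume
  refine ((hint.const_mul (m : ℝ))).congr ?_
  filter_upwards [hfin] with x hx
  have hc : ∏ j, (x - s j) ^ b j ≠ 0 := by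
    refine Finset.prod_ne_zero_iff.2 fun j _ => pow_ne_zero _ ?_
    exact sub_ne_zero.2 fun h => hx ⟨j, h.symm⟩
  have hy0 := N13_y0 hm s b x
  have hprim : IsPrimitiveRoot (Complex.exp (2 * Real.pi * Complex.I / m)) m :=
    Complex.isPrimitiveRoot_exp m hm
  have hset : {y : ℂ | y ^ m - ∏ j, (x - s j) ^ b j = 0} =
      ((Polynomial.nthRoots m (∏ j, (x - s j) ^ b j)).toFinset : Set ℂ) := by
    ext y
    simp only [Set.mem_ofPred_eq, Finset.mem_coe, Multiset.mem_toFinset,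
      Polynomial.mem_nthRoots (Nat.pos_of_ne_zero hm), sub_eq_zero]
  have hcard : (Polynomial.nthRoots m (∏ j, (x - s j) ^ b j)).toFinset.card = m := by
    rw [Multiset.toFinset_card_of_nodup (hprim.nthRoots_nodup hc), hprim.card_nthRoots,
      if_pos ⟨_, hy0⟩]
  have hterm : ∀ y ∈ (Polynomial.nthRoots m (∏ j, (x - s j) ^ b j)).toFinset,
      ‖o.om x y‖ ^ 2 = ‖Φ x‖ ^ 2 := by
    intro y hy
    rw [Multiset.mem_toFinset, Polynomial.mem_nthRoots (Nat.pos_of_ne_zero hm)] at hy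
    have hn : ‖y‖ = ‖y0 m s b x‖ := by
      refine (pow_left_inj₀ (norm_nonneg _) (norm_nonneg _) hm).1 ?_
      rw [← norm_pow, ← norm_pow, hy, hy0]
    have hy0' : y0 m s b x ≠ 0 := fun h => hc (by rw [← hy0, h, zero_pow hm])
    have h1 : ‖y / y0 m s b x‖ = 1 := by
      rw [norm_div, hn, div_self (norm_ne_zero_iff.2 hy0')]
    congr 1
    refine N13_norm _ _ fun p => ?_
    rw [hN10 s b hcov o x y hx p, norm_mul, norm_pow, h1, one_pow, one_mul]
  have key : ∑ᶠ y ∈ ((Polynomial.nthRoots m (∏ j, (x - s j) ^ b j)).toFinset : Set ℂ),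
      ‖o.om x y‖ ^ 2 = (m : ℝ) * ‖Φ x‖ ^ 2 := by
    rw [finsum_mem_coe_finset, Finset.sum_congr rfl hterm, Finset.sum_const, hcard, nsmul_eq_mul]
  rw [← hset] at key
  exact key.symm

end SEJ
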