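import Pool.Agent.Lib.SE.J.Spec2

/-! # SE/J, module N14: assembly for `StrictMono (Im s_j)`. -/

set_option autoImplicit false

open MeasureTheory Filter Topology HC HC.SE

noncomputable section

namespace SEJ

variable {m r : ℕ} {s : Fin (r + 1) → ℂ} {b : Fin (r + 1) → ℕ}

theorem N14_prim (m u : ℕ) (hm : 0 < m) (hu : u.Coprime m) :
    IsPrimitiveRoot (ze m u) m := by
  have h1 := Complex.isPrimitiveRoot_exp_of_coprime u m hm.ne' hu
  have h2 : ze m u = Complex.exp (2 * Real.pi * Complex.I * (u / m)) := by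
    rw [ze, mul_div_assoc]
  rw [h2]
  exact h1

theorem N14_ze_pow (m u : ℕ) :
    Complex.exp (2 * Real.pi * Complex.I / m) ^ u = ze m u := by
  rw [ze, ← Complex.exp_nat_mul]
  congr 1
  ring

theorem N14_ze_norm (m u : ℕ) (hm : 0 < m) (hu : u.Coprime m) : ‖ze m u‖ = 1 :=
  Complex.norm_eq_one_of_pow_eq_one (N14_prim m u hm hu).pow_eq_one hm.ne'

theorem N14_ze_conj (m u : ℕ) (hm : 0 < m) (hu : u.Coprime m) :
    ze m u * (starRingEnd ℂ) (ze m u) = 1 := by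
  rw [Complex.mul_conj, Complex.normSq_eq_norm_sq, N14_ze_norm m u hm hu]
  norm_num

theorem N14_fr (hc : 2 * Fintype.card (Ix m b) = r * m.totient) :
    Fintype.card (Fin m.totient × Fin r) = Module.finrank ℝ (Ix m b → ℂ) := by
  have h : Module.finrank ℝ (Ix m b → ℂ) = 2 * Fintype.card (Ix m b) := by
    rw [Module.finrank_pi_fintype]
    simp [Complex.finrank_real_complex, mul_comm]
  rw [h, hc, Fintype.card_prod, Fintype.card_fin, Fintype.card_fin, mul_comm]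

/-- the basis of the lattice -/
def N14_bas (o : ONB m s b) (hl : LinearIndependent ℝ o.w)
    (hc : 2 * Fintype.card (Ix m b) = r * m.totient) :
    Module.Basis (Fin m.totient × Fin r) ℝ (Ix m b → ℂ) :=
  Module.Basis.mk hl (hl.span_eq_top_of_card_eq_finrank' (N14_fr hc)).ge

theorem N14_L (o : ONB m s b) (hl : LinearIndependent ℝ o.w)
    (hc : 2 * Fintype.card (Ix m b) = r * m.totient) :
    o.L = Submodule.span ℤ (Set.range (N14_bas o hl hc)) := by
  have h : (N14_bas o hl hc : Fin m.totient × Fin r → Ix m b → ℂ) = o.w :=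
    Module.Basis.coe_mk _ _
  rw [h]
  rfl

theorem N14_disc (o : ONB m s b) (hl : LinearIndependent ℝ o.w)
    (hc : 2 * Fintype.card (Ix m b) = r * m.totient) : DiscreteTopology o.L := by
  rw [N14_L o hl hc]
  infer_instance

theorem N14_latt (o : ONB m s b) (hl : LinearIndependent ℝ o.w)
    (hc : 2 * Fintype.card (Ix m b) = r * m.totient) (hd : DiscreteTopology o.L) :
    IsZLattice ℝ o.L := by
  constructor
  have h : (N14_bas o hl hc : Fin m.totient × Fin r → Ix m b → ℂ) = o.w :=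
    Module.Basis.coe_mk _ _
  rw [eq_top_iff, ← (N14_bas o hl hc).span_eq, h]
  exact Submodule.span_mono Submodule.subset_span

theorem N14_smul_l (c : ℝ) (u v : Ix m b → ℂ) :
    ∑ p, ((c • u) p * (starRingEnd ℂ) (v p)).im = c * ∑ p, (u p * (starRingEnd ℂ) (v p)).im := by
  rw [Finset.mul_sum]
  refine Finset.sum_congr rfl fun p _ => ?_
  rw [Pi.smul_apply, smul_mul_assoc, Complex.smul_im, smul_eq_mul]

theorem N14_smul_r (c : ℝ) (u v : Ix m b → ℂ) :
    ∑ p, (u p * (starRingEnd ℂ) ((c • v) p)).im = c * ∑ p, (u p * (starRingEnd ℂ) (v p)).im := by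
  rw [Finset.mul_sum]
  refine Finset.sum_congr rfl fun p _ => ?_
  rw [Pi.smul_apply, Complex.real_smul, map_mul, Complex.conj_ofReal, mul_left_comm,
    Complex.im_ofReal_mul]

theorem N14_add_l (u v w : Ix m b → ℂ) :
    ∑ p, ((u + v) p * (starRingEnd ℂ) (w p)).im =
      ∑ p, (u p * (starRingEnd ℂ) (w p)).im + ∑ p, (v p * (starRingEnd ℂ) (w p)).im := by
  rw [← Finset.sum_add_distrib]
  refine Finset.sum_congr rfl fun p _ => ?_
  rw [Pi.add_apply, add_mul, Complex.add_im]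

theorem N14_add_r (u v w : Ix m b → ℂ) :
    ∑ p, (u p * (starRingEnd ℂ) ((v + w) p)).im =
      ∑ p, (u p * (starRingEnd ℂ) (v p)).im + ∑ p, (u p * (starRingEnd ℂ) (w p)).im := by
  rw [← Finset.sum_add_distrib]
  refine Finset.sum_congr rfl fun p _ => ?_
  rw [Pi.add_apply, map_add, mul_add, Complex.add_im]

/-- the Riemann form -/
def N14_E (m : ℕ) (b : Fin (r + 1) → ℕ) (D : ℝ) :
    (Ix m b → ℂ) →ₗ[ℝ] (Ix m b → ℂ) →ₗ[ℝ] ℝ :=
  LinearMap.mk₂ ℝ (fun v v' => D * ∑ p, (v p * (starRingEnd ℂ) (v' p)).im)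
    (fun u v w => by rw [N14_add_l, mul_add])
    (fun c u v => by rw [N14_smul_l, smul_eq_mul, mul_left_comm])
    (fun u v w => by rw [N14_add_r, mul_add])
    (fun c u v => by rw [N14_smul_r, smul_eq_mul, mul_left_comm])

theorem N14_E_apply (D : ℝ) (u v : Ix m b → ℂ) :
    N14_E m b D u v = D * ∑ p, (u p * (starRingEnd ℂ) (v p)).im := rfl

theorem N14_E_anti (D : ℝ) (u v : Ix m b → ℂ) : N14_E m b D u v = - N14_E m b D v u := by
  rw [N14_E_apply, N14_E_apply, ← mul_neg, ← Finset.sum_neg_distrib]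
  congr 1
  refine Finset.sum_congr rfl fun p _ => ?_
  rw [Complex.mul_im, Complex.mul_im, Complex.conj_re, Complex.conj_im, Complex.conj_re,
    Complex.conj_im]
  ring

theorem N14_E_I (D : ℝ) (u v : Ix m b → ℂ) :
    N14_E m b D (Complex.I • u) (Complex.I • v) = N14_E m b D u v := by
  rw [N14_E_apply, N14_E_apply]
  congr 1
  refine Finset.sum_congr rfl fun p _ => ?_
  rw [Pi.smul_apply, Pi.smul_apply, smul_eq_mul, smul_eq_mul, map_mul, Complex.conj_I]
  congr 1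
  linear_combination (-(u p * (starRingEnd ℂ) (v p))) * Complex.I_mul_I

theorem N14_E_pos (D : ℝ) (hD : 0 < D) (v : Ix m b → ℂ) (hv : v ≠ 0) :
    0 < N14_E m b D (Complex.I • v) v := by
  rw [N14_E_apply]
  refine mul_pos hD ?_
  have h : ∀ p : Ix m b, ((Complex.I • v) p * (starRingEnd ℂ) (v p)).im = Complex.normSq (v p) := by
    intro p
    rw [Pi.smul_apply, smul_eq_mul, mul_assoc, Complex.mul_conj, Complex.I_mul_im,
      Complex.ofReal_re]
  rw [Finset.sum_congr rfl fun p _ => h p]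
  obtain ⟨p, hp⟩ := Function.ne_iff.1 hv
  refine Finset.sum_pos' (fun p _ => Complex.normSq_nonneg _) ⟨p, Finset.mem_univ p, ?_⟩
  exact Complex.normSq_pos.2 hp

/-- the automorphism -/
def N14_Z (m : ℕ) (b : Fin (r + 1) → ℕ) : Module.End ℂ (Ix m b → ℂ) where
  toFun v p := ze m (ch p) * v p
  map_add' u v := funext fun p => mul_add _ _ _
  map_smul' c v := funext fun p => by
    rw [Pi.smul_apply, RingHom.id_apply, Pi.smul_apply, smul_eq_mul, smul_eq_mul, mul_left_comm]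

theorem N14_Z_apply (v : Ix m b → ℂ) (p : Ix m b) : N14_Z m b v p = ze m (ch p) * v p := rfl

theorem N14_Z_pow (n : ℕ) (v : Ix m b → ℂ) (p : Ix m b) :
    (N14_Z m b ^ n) v p = ze m (ch p) ^ n * v p := by
  induction n generalizing v with
  | zero => rw [pow_zero, pow_zero, one_mul]; rfl
  | succ n ih => rw [pow_succ, Module.End.mul_apply, ih, N14_Z_apply, pow_succ, mul_assoc]

theorem N14_Z_aeval (P : Polynomial ℤ) (v : Ix m b → ℂ) (p : Ix m b) :
    (Polynomial.aeval (N14_Z m b) P) v p = Polynomial.aeval (ze m (ch p)) P * v p := by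
  rw [Polynomial.aeval_eq_sum_range, Polynomial.aeval_eq_sum_range, LinearMap.sum_apply,
    Finset.sum_apply, Finset.sum_mul]
  refine Finset.sum_congr rfl fun i _ => ?_
  rw [LinearMap.smul_apply, Pi.smul_apply, N14_Z_pow, smul_mul_assoc]

theorem N14_cyc (hm : 0 < m) :
    Polynomial.aeval (N14_Z m b) (Polynomial.cyclotomic m ℤ) = 0 := by
  refine LinearMap.ext fun v => funext fun p => ?_
  rw [N14_Z_aeval]
  have h1 := (N14_prim m (ch p) hm p.2.1).isRoot_cyclotomic hm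
  have h2 : Polynomial.aeval (ze m (ch p)) (Polynomial.cyclotomic m ℤ) = 0 := by
    rw [Polynomial.IsRoot.def, ← Polynomial.map_cyclotomic_int, Polynomial.eval_map] at h1
    exact h1
  rw [h2, zero_mul]
  rfl

theorem N14_E_Z (hm : 0 < m) (D : ℝ) (u v : Ix m b → ℂ) :
    N14_E m b D (N14_Z m b u) (N14_Z m b v) = N14_E m b D u v := by
  rw [N14_E_apply, N14_E_apply]
  congr 1
  refine Finset.sum_congr rfl fun p _ => ?_
  rw [N14_Z_apply, N14_Z_apply, map_mul]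
  congr 1
  linear_combination (u p * (starRingEnd ℂ) (v p)) * N14_ze_conj m (ch p) hm p.2.1

/-- the polynomial of the curve -/
def N14_P (m : ℕ) (s : Fin (r + 1) → ℂ) (b : Fin (r + 1) → ℕ) (q : ℂ × ℂ) : ℂ :=
  q.2 ^ m - ∏ j, (q.1 - s j) ^ b j

theorem N14_poly (m : ℕ) (s : Fin (r + 1) → ℂ) (b : Fin (r + 1) → ℕ) :
    HC.SE.IsPoly (N14_P m s b) := by
  have h1 : (fun q : ℂ × ℂ => q.1) ∈ Algebra.adjoin ℂ
      (Set.range fun (l : ℂ × ℂ →ₗ[ℂ] ℂ) (v : ℂ × ℂ) => l v) :=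
    Algebra.subset_adjoin ⟨LinearMap.fst ℂ ℂ ℂ, rfl⟩
  have h2 : (fun q : ℂ × ℂ => q.2) ∈ Algebra.adjoin ℂ
      (Set.range fun (l : ℂ × ℂ →ₗ[ℂ] ℂ) (v : ℂ × ℂ) => l v) :=
    Algebra.subset_adjoin ⟨LinearMap.snd ℂ ℂ ℂ, rfl⟩
  have h3 : N14_P m s b = (fun q : ℂ × ℂ => q.2) ^ m -
      ∏ j, ((fun q : ℂ × ℂ => q.1) - algebraMap ℂ (ℂ × ℂ → ℂ) (s j)) ^ b j := by
    funext q
    simp only [N14_P, Pi.sub_apply, Pi.pow_apply, Finset.prod_apply, Pi.algebraMap_apply,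
      Algebra.algebraMap_self, RingHom.id_apply]
  rw [HC.SE.IsPoly, h3]
  exact Subalgebra.sub_mem _ (Subalgebra.pow_mem _ h2 m) (Subalgebra.prod_mem _ fun j _ =>
    Subalgebra.pow_mem _ (Subalgebra.sub_mem _ h1 (Subalgebra.algebraMap_mem _ _)) _)

theorem N14_ne (x : ℂ) (hx : x ∉ Set.range s) : ∏ j, (x - s j) ^ b j ≠ 0 :=
  Finset.prod_ne_zero_iff.2 fun j _ => pow_ne_zero _ (sub_ne_zero.2 fun h => hx ⟨j, h.symm⟩)

theorem N14_et (hm : 0 < m) (x : ℂ) (hx : x ∉ Set.range s) (y : ℂ)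
    (hy : N14_P m s b (x, y) = 0) : deriv (fun y => N14_P m s b (x, y)) y ≠ 0 := by
  have h1 : HasDerivAt (fun y : ℂ => y ^ m - ∏ j, (x - s j) ^ b j) ((m : ℂ) * y ^ (m - 1)) y :=
    (hasDerivAt_pow m y).sub_const _
  have h2 : deriv (fun y => N14_P m s b (x, y)) y = (m : ℂ) * y ^ (m - 1) := h1.deriv
  rw [h2]
  have hy0 : y ≠ 0 := by
    rintro rfl
    have h3 : (0 : ℂ) ^ m - ∏ j, (x - s j) ^ b j = 0 := hy
    rw [zero_pow hm.ne', zero_sub, neg_eq_zero] at h3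
    exact N14_ne x hx h3
  exact mul_ne_zero (Nat.cast_ne_zero.2 hm.ne') (pow_ne_zero _ hy0)

theorem N14_equ (o : ONB m s b) (x y : ℂ) :
    o.om x (Complex.exp (2 * Real.pi * Complex.I / m) * y) = N14_Z m b (o.om x y) := by
  funext p
  rw [N14_Z_apply]
  change (Complex.exp (2 * Real.pi * Complex.I / m) * y) ^ ch p * (o.Q p).eval x /
    ∏ j, (x - s j) ^ (1 + ch p * b j / m) = ze m (ch p) * (y ^ ch p * (o.Q p).eval x /
    ∏ j, (x - s j) ^ (1 + ch p * b j / m))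
  rw [mul_pow, N14_ze_pow]
  ring

theorem N14_dif (o : ONB m s b) (u : ℕ) (hu : u < m) (hc : u.Coprime m) (i : ℕ)
    (hi : m * i + ∑ j, (u * b j) % m < m * r) :
    ∃ B : (Ix m b → ℂ) →ₗ[ℂ] ℂ, ∀ x y : ℂ,
      B (o.om x y) = x ^ i * y ^ u / ∏ j, (x - s j) ^ (1 + u * b j / m) := by
  have hir : i < r := by
    have h1 : m * i < m * r := lt_of_le_of_lt (Nat.le_add_right _ _) hi
    exact lt_of_mul_lt_mul_left h1 (Nat.zero_le _)
  obtain ⟨c, hc0, hc1⟩ := o.span ⟨(⟨u, hu⟩, ⟨i, hir⟩), hc, hi⟩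
  refine ⟨∑ q, c q • LinearMap.proj q, fun x y => ?_⟩
  rw [LinearMap.sum_apply]
  have h2 : ∀ q : Ix m b, (c q • (LinearMap.proj q : (Ix m b → ℂ) →ₗ[ℂ] ℂ)) (o.om x y) =
      (Polynomial.C (c q) * o.Q q).eval x * (y ^ u / ∏ j, (x - s j) ^ (1 + u * b j / m)) := by
    intro q
    rw [LinearMap.smul_apply, LinearMap.proj_apply, smul_eq_mul, Polynomial.eval_mul,
      Polynomial.eval_C]
    by_cases h : ch q = u
    · change c q * (y ^ ch q * (o.Q q).eval x / ∏ j, (x - s j) ^ (1 + ch q * b j / m)) = _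
      rw [h]
      ring
    · rw [hc0 q h, zero_mul, zero_mul, zero_mul]
  rw [Finset.sum_congr rfl fun q _ => h2 q, ← Finset.sum_mul, ← Polynomial.eval_finsetSum, ← hc1,
    Polynomial.eval_pow, Polynomial.eval_X, mul_div_assoc]
  rfl

/-- The explicit form of the new part of the Jacobian: `V = ℂ^Ix`, `L` the span of the vectors
`ζ^a A_j`. -/
structure Jac {m r : ℕ} {s : Fin (r + 1) → ℂ} {b : Fin (r + 1) → ℕ} (o : ONB m s b) where
  T : AV
  D : New T m s b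
  R : T.V →ₗ[ℝ] T.V →ₗ[ℝ] ℝ
  pol : IsPol T D.Z R
  e : T.V ≃ₗ[ℂ] (Ix m b → ℂ)
  lat : ∀ v, v ∈ T.L ↔ e v ∈ o.L
  eZ : ∀ v p, e (D.Z v) p = ze m (ch p) * e v p
  d : ℕ
  d0 : d ≠ 0
  form : ∀ u v, R u v = d * ∑ p, (e u p * (starRingEnd ℂ) (e v p)).im

theorem N14_jac (hcov : IsCov m s b) (o : ONB m s b) (hl : LinearIndependent ℝ o.w)
    (hc : 2 * Fintype.card (Ix m b) = r * m.totient)
    (hZ : ∀ v ∈ o.L, (fun p => ze m (ch p) * v p) ∈ o.L)
    (hD : ∃ D : ℕ, D ≠ 0 ∧ ∀ v ∈ o.L, ∀ v' ∈ o.L, ∃ n : ℤ,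
      (D : ℝ) * ∑ p, (v p * (starRingEnd ℂ) (v' p)).im = n)
    (hmap : ∀ x₀ ∉ Set.range s, ∀ y₀ : ℂ, y₀ ^ m - ∏ j, (x₀ - s j) ^ b j = 0 →
      ∃ (η : ℂ → ℂ) (g : ℂ → Ix m b → ℂ), η x₀ = y₀ ∧ ContinuousAt η x₀ ∧
        ∀ᶠ x in 𝓝 x₀, (η x) ^ m - ∏ j, (x - s j) ^ b j = 0 ∧ o.al x (η x) - g x ∈ o.L ∧
          HasDerivAt g (o.om x (η x)) x)
    (hint : Integrable fun x =>
      ∑ᶠ y ∈ {y : ℂ | y ^ m - ∏ j, (x - s j) ^ b j = 0}, ‖o.om x y‖ ^ 2) :
    Nonempty (Jac o) := by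
  have hm : 0 < m := by have := hcov.1; omega
  obtain ⟨D, hD0, hD1⟩ := hD
  have hDp : (0 : ℝ) < D := by exact_mod_cast Nat.pos_of_ne_zero hD0
  have hd : DiscreteTopology o.L := N14_disc o hl hc
  have hz : IsZLattice ℝ o.L := N14_latt o hl hc hd
  let T : AV :=
    { V := Ix m b → ℂ
      L := o.L
      disc := hd
      latt := hz
      pol := ⟨N14_E m b D, fun u hu v hv => hD1 u hu v hv, N14_E_anti _, N14_E_I _,
        fun v hv => N14_E_pos _ hDp v hv⟩ }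
  let γ : Crv T :=
    { P := N14_P m s b
      S := Set.range s
      α := o.al
      ω := o.om
      poly := N14_poly m s b
      fin := Set.finite_range s
      et := fun x hx y hy => N14_et hm x hx y hy
      map := hmap
      area := hint }
  let N : New T m s b :=
    { Z := N14_Z m b
      γ := γ
      lat := hZ
      cyc := N14_cyc hm
      dim := by
        rw [← hc]
        congr 1
        exact Module.finrank_fintype_fun_eq_card ℂ
      P := fun x y => rfl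
      S := rfl
      equ := fun x _ y _ => N14_equ o x y
      dif := fun u hu hcu i hi => by
        obtain ⟨B, hB⟩ := N14_dif o u hu hcu i hi
        exact ⟨B, fun x _ y _ => hB x y⟩ }
  exact ⟨⟨T, N, N14_E m b D, ⟨fun u hu v hv => hD1 u hu v hv, N14_E_anti _, N14_E_I _,
    fun v hv => N14_E_pos _ hDp v hv, N14_E_Z hm _⟩, LinearEquiv.refl ℂ _, fun v => Iff.rfl,
    fun v p => rfl, D, hD0, fun u v => rfl⟩⟩

theorem tN14 : S_N14 := by
  intro m r s b hcov o hl hc hZ hD hmap hint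
  obtain ⟨J⟩ := N14_jac hcov o hl hc hZ hD hmap hint
  exact ⟨J.T, J.D, J.R, J.pol⟩

end SEJ
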