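import Pool.Agent.Lib.SE.J.Spec2

/-! # SE/J N15: reduction to increasing `Im s_j` -/

set_option autoImplicit false

open MeasureTheory Filter Topology HC HC.SE

noncomputable section

namespace SEJ

/-- A direction in which the imaginary parts are different. -/
private theorem N15_rho {n : ℕ} (s : Fin n → ℂ) (hs : Function.Injective s) :
    ∃ ρ : Circle, Function.Injective fun j => ((ρ : ℂ) * s j).im := by
  classical
  obtain ⟨τ, hτ⟩ := Infinite.exists_notMem_finset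
    ((Finset.univ : Finset (Fin n × Fin n)).image fun p =>
      -(s p.1 - s p.2).im / (s p.1 - s p.2).re)
  have h0 : (1 + (τ : ℂ) * Complex.I) ≠ 0 := by
    intro h
    have := congrArg Complex.re h
    simp at this
  have hn : 0 < ‖1 + (τ : ℂ) * Complex.I‖ := norm_pos_iff.2 h0
  have h1 : (1 + (τ : ℂ) * Complex.I) / (‖1 + (τ : ℂ) * Complex.I‖ : ℂ) ∈
      Submonoid.unitSphere ℂ := by
    refine mem_sphere_zero_iff_norm.2 ?_
    rw [norm_div, Complex.norm_real, norm_norm, div_self hn.ne']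
  refine ⟨⟨_, h1⟩, fun i j hij => ?_⟩
  by_contra hne
  have hd : s i - s j ≠ 0 := sub_ne_zero.2 fun h => hne (hs h)
  simp only at hij
  have h2 : ((1 + (τ : ℂ) * Complex.I) * (s i - s j)).im = 0 := by
    have h3 : ∀ z : ℂ, ((1 + (τ : ℂ) * Complex.I) / (‖1 + (τ : ℂ) * Complex.I‖ : ℂ) * z).im =
        ((1 + (τ : ℂ) * Complex.I) * z).im / ‖1 + (τ : ℂ) * Complex.I‖ := by
      intro z
      rw [div_mul_eq_mul_div, Complex.div_ofReal_im]
    change ((1 + (τ : ℂ) * Complex.I) / (‖1 + (τ : ℂ) * Complex.I‖ : ℂ) * s i).im =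
      ((1 + (τ : ℂ) * Complex.I) / (‖1 + (τ : ℂ) * Complex.I‖ : ℂ) * s j).im at hij
    rw [h3, h3, div_left_inj' hn.ne'] at hij
    rw [mul_sub, Complex.sub_im, hij, sub_self]
  have h4 : (s i - s j).im + τ * (s i - s j).re = 0 := by
    have h5 : ((1 + (τ : ℂ) * Complex.I) * (s i - s j)).im =
        (s i - s j).im + τ * (s i - s j).re := by
      simp only [Complex.mul_im, Complex.add_re, Complex.one_re, Complex.mul_re,
        Complex.ofReal_re, Complex.I_re, Complex.ofReal_im, Complex.I_im, Complex.add_im,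
        Complex.one_im]
      ring
    rw [← h5, h2]
  by_cases hre : (s i - s j).re = 0
  · apply hd
    refine Complex.ext hre ?_
    rw [hre, mul_zero, add_zero] at h4
    exact h4
  · apply hτ
    rw [Finset.mem_image]
    refine ⟨(i, j), Finset.mem_univ _, ?_⟩
    change -(s i - s j).im / (s i - s j).re = τ
    rw [div_eq_iff hre]
    linarith

private theorem N15_const {E : Type} [AddCommGroup E] [Module ℂ E] (c : ℂ) :
    IsPoly (fun _ : E => c) :=
  Subalgebra.algebraMap_mem _ c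

private theorem N15_poly {n : ℕ} (m : ℕ) (s : Fin n → ℂ) (b : Fin n → ℕ) :
    IsPoly (fun p : ℂ × ℂ => p.2 ^ m - ∏ j, (p.1 - s j) ^ b j) := by
  have h1 : IsPoly (fun p : ℂ × ℂ => p.1) :=
    Algebra.subset_adjoin ⟨LinearMap.fst ℂ ℂ ℂ, rfl⟩
  have h2 : IsPoly (fun p : ℂ × ℂ => p.2) :=
    Algebra.subset_adjoin ⟨LinearMap.snd ℂ ℂ ℂ, rfl⟩
  have h3 : IsPoly (fun p : ℂ × ℂ => p.2 ^ m) := Subalgebra.pow_mem _ h2 m
  have h4 : ∀ j, IsPoly (fun p : ℂ × ℂ => (p.1 - s j) ^ b j) := fun j =>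
    Subalgebra.pow_mem _ (Subalgebra.sub_mem _ h1 (N15_const (s j))) (b j)
  have h5 : IsPoly (∏ j, fun p : ℂ × ℂ => (p.1 - s j) ^ b j) :=
    Subalgebra.prod_mem _ fun j _ => h4 j
  have h6 : (∏ j, fun p : ℂ × ℂ => (p.1 - s j) ^ b j) =
      fun p : ℂ × ℂ => ∏ j, (p.1 - s j) ^ b j := by
    funext p
    simp
  rw [h6] at h5
  exact Subalgebra.sub_mem _ h3 h5

/-- the equation of the new curve -/
private theorem N15_eq {n : ℕ} (m : ℕ) (s : Fin n → ℂ) (b : Fin n → ℕ) (π : Equiv.Perm (Fin n))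
    (ρ c : ℂ) (hc : c ^ m = ρ ^ (∑ j, b j)) (x y : ℂ) :
    (c * y) ^ m - ∏ j, (ρ * x - ρ * s (π j)) ^ b (π j) =
      ρ ^ (∑ j, b j) * (y ^ m - ∏ j, (x - s j) ^ b j) := by
  have h1 : ∏ j, (ρ * x - ρ * s (π j)) ^ b (π j) =
      ρ ^ (∑ j, b j) * ∏ j, (x - s j) ^ b j := by
    have h2 : ∀ j, (ρ * x - ρ * s (π j)) ^ b (π j) = ρ ^ b (π j) * (x - s (π j)) ^ b (π j) := by
      intro j
      rw [← mul_sub, mul_pow]
    rw [Finset.prod_congr rfl fun j _ => h2 j, Finset.prod_mul_distrib,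
      Equiv.prod_comp π (fun j => ρ ^ b j), Equiv.prod_comp π (fun j => (x - s j) ^ b j),
      Finset.prod_pow_eq_pow_sum]
  rw [h1, mul_pow, hc]
  ring

theorem tN15 : S_N15 := by
  intro H m r s b hcov
  obtain ⟨hm, hinj, hb, hsum, hgcd⟩ := hcov
  obtain ⟨ρ, hρ⟩ := N15_rho s hinj
  have hρ0 : (ρ : ℂ) ≠ 0 := Circle.coe_ne_zero ρ
  set π : Equiv.Perm (Fin (r + 1)) := Tuple.sort fun j => ((ρ : ℂ) * s j).im with hπ
  have hmono : StrictMono fun j => ((ρ : ℂ) * s (π j)).im := by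
    refine Monotone.strictMono_of_injective (Tuple.monotone_sort fun j => ((ρ : ℂ) * s j).im) ?_
    intro i j hij
    exact π.injective (hρ hij)
  have hcov' : IsCov m (fun j => (ρ : ℂ) * s (π j)) (fun j => b (π j)) := by
    refine ⟨hm, ?_, fun j => hb _, ?_, fun d hd hj => hgcd d hd fun j => ?_⟩
    · intro i j hij
      exact π.injective (hinj (mul_left_cancel₀ hρ0 hij))
    · rw [Equiv.sum_comp π b]
      exact hsum
    · have := hj (π.symm j)
      simpa using this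
  obtain ⟨T, D, E, hE⟩ := H _ _ hcov' hmono
  have hm0 : m ≠ 0 := by omega
  obtain ⟨c, hc⟩ := IsAlgClosed.exists_pow_nat_eq ((ρ : ℂ) ^ (∑ j, b j)) (Nat.pos_of_ne_zero hm0)
  have hc0 : c ≠ 0 := by
    rintro rfl
    rw [zero_pow hm0] at hc
    exact pow_ne_zero _ hρ0 hc.symm
  have hP : ∀ x y, D.γ.P ((ρ : ℂ) * x, c * y) =
      (ρ : ℂ) ^ (∑ j, b j) * (y ^ m - ∏ j, (x - s j) ^ b j) := by
    intro x y
    rw [D.P]
    exact N15_eq m s b π ρ c hc x y
  have hP0 : ∀ x y, D.γ.P ((ρ : ℂ) * x, c * y) = 0 ↔ y ^ m - ∏ j, (x - s j) ^ b j = 0 := by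
    intro x y
    rw [hP, mul_eq_zero]
    constructor
    · rintro (h | h)
      · exact absurd h (pow_ne_zero _ hρ0)
      · exact h
    · exact Or.inr
  have hS : ∀ x, x ∉ Set.range s → (ρ : ℂ) * x ∉ D.γ.S := by
    intro x hx h
    rw [D.S] at h
    obtain ⟨j, hj⟩ := h
    exact hx ⟨π j, mul_left_cancel₀ hρ0 hj⟩
  let γ : Crv T :=
    { P := fun p => p.2 ^ m - ∏ j, (p.1 - s j) ^ b j
      S := Set.range s
      α := fun x y => D.γ.α ((ρ : ℂ) * x) (c * y)
      ω := fun x y => (ρ : ℂ) • D.γ.ω ((ρ : ℂ) * x) (c * y)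
      poly := N15_poly m s b
      fin := Set.finite_range s
      et := by
        intro x hx y hy
        have h1 : HasDerivAt (fun y : ℂ => y ^ m - ∏ j, (x - s j) ^ b j) (m * y ^ (m - 1)) y :=
          (hasDerivAt_pow m y).sub_const _
        have h2 : y ≠ 0 := by
          rintro rfl
          simp only [zero_pow hm0, zero_sub, neg_eq_zero, Finset.prod_eq_zero_iff] at hy
          obtain ⟨j, -, hj⟩ := hy
          have hbj : b j ≠ 0 := fun h => hb j (h ▸ dvd_zero m)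
          exact hx ⟨j, (sub_eq_zero.1 ((pow_eq_zero_iff hbj).1 hj)).symm⟩
        change deriv (fun y : ℂ => y ^ m - ∏ j, (x - s j) ^ b j) y ≠ 0
        rw [h1.deriv]
        exact mul_ne_zero (Nat.cast_ne_zero.2 hm0) (pow_ne_zero _ h2)
      map := by
        intro x₀ hx₀ y₀ hy₀
        obtain ⟨η, g, h1, h2, h3⟩ := D.γ.map ((ρ : ℂ) * x₀) (hS x₀ hx₀) (c * y₀)
          ((hP0 x₀ y₀).2 hy₀)
        have hcont : ContinuousAt (fun x : ℂ => (ρ : ℂ) * x) x₀ :=
          (continuous_const.mul continuous_id).continuousAt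
        refine ⟨fun x => c⁻¹ * η ((ρ : ℂ) * x), fun x => g ((ρ : ℂ) * x), ?_, ?_, ?_⟩
        · change c⁻¹ * η ((ρ : ℂ) * x₀) = y₀
          rw [h1, inv_mul_cancel_left₀ hc0]
        · exact continuousAt_const.mul (ContinuousAt.comp (f := fun x : ℂ => (ρ : ℂ) * x) h2 hcont)
        · have h4 := hcont.eventually h3
          filter_upwards [h4] with x hx
          obtain ⟨h5, h6, h7⟩ := hx
          have h8 : c * (c⁻¹ * η ((ρ : ℂ) * x)) = η ((ρ : ℂ) * x) := mul_inv_cancel_left₀ hc0 _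
          refine ⟨?_, ?_, ?_⟩
          · refine (hP0 x (c⁻¹ * η ((ρ : ℂ) * x))).1 ?_
            rw [h8]
            exact h5
          · change D.γ.α ((ρ : ℂ) * x) (c * (c⁻¹ * η ((ρ : ℂ) * x))) - g ((ρ : ℂ) * x) ∈ T.L
            rw [h8]
            exact h6
          · change HasDerivAt (fun x => g ((ρ : ℂ) * x))
              ((ρ : ℂ) • D.γ.ω ((ρ : ℂ) * x) (c * (c⁻¹ * η ((ρ : ℂ) * x)))) x
            rw [h8]
            have h9 : HasDerivAt (fun x : ℂ => (ρ : ℂ) * x) (ρ : ℂ) x := by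
              simpa using (hasDerivAt_id x).const_mul (ρ : ℂ)
            exact HasDerivAt.scomp x h7 h9
      area := by
        have h1 := (rotation ρ).measurePreserving.integrable_comp_of_integrable D.γ.area
        refine h1.congr (Eventually.of_forall fun x => ?_)
        simp only [Function.comp_apply, rotation_apply, Set.mem_ofPred_eq]
        rw [← finsum_comp_equiv (Equiv.mulLeft₀ c hc0)]
        refine finsum_congr fun y => ?_
        refine finsum_congr_Prop ?_ fun _ => ?_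
        · exact propext (hP0 x y)
        · rw [norm_smul, Circle.norm_coe, one_mul]
          rfl }
  refine ⟨T, ⟨D.Z, γ, D.lat, D.cyc, D.dim, fun x y => rfl, rfl, ?_, ?_⟩, E, hE⟩
  · intro x hx y hy
    have h1 := D.equ ((ρ : ℂ) * x) (hS x hx) (c * y) ((hP0 x y).2 hy)
    change (ρ : ℂ) • D.γ.ω ((ρ : ℂ) * x)
      (c * (Complex.exp (2 * Real.pi * Complex.I / m) * y)) =
      D.Z ((ρ : ℂ) • D.γ.ω ((ρ : ℂ) * x) (c * y))
    rw [map_smul, ← h1]
    congr 2
    ring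
  · intro u hu huc i hi
    obtain ⟨B, hB⟩ := D.dif u hu huc i (by
      rw [Equiv.sum_comp π (fun j => (u * b j) % m)]
      exact hi)
    have hk : (ρ : ℂ) * (ρ : ℂ) ^ i * c ^ u / (ρ : ℂ) ^ (∑ j, (1 + u * b j / m)) ≠ 0 :=
      div_ne_zero (mul_ne_zero (mul_ne_zero hρ0 (pow_ne_zero _ hρ0)) (pow_ne_zero _ hc0))
        (pow_ne_zero _ hρ0)
    refine ⟨((ρ : ℂ) * (ρ : ℂ) ^ i * c ^ u / (ρ : ℂ) ^ (∑ j, (1 + u * b j / m)))⁻¹ • B,
      fun x hx y hy => ?_⟩
    have h1 := hB ((ρ : ℂ) * x) (hS x hx) (c * y) ((hP0 x y).2 hy)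
    have h2 : ∏ j, ((ρ : ℂ) * x - (ρ : ℂ) * s (π j)) ^ (1 + u * b (π j) / m) =
        (ρ : ℂ) ^ (∑ j, (1 + u * b j / m)) * ∏ j, (x - s j) ^ (1 + u * b j / m) := by
      have h3 : ∀ j, ((ρ : ℂ) * x - (ρ : ℂ) * s (π j)) ^ (1 + u * b (π j) / m) =
          (ρ : ℂ) ^ (1 + u * b (π j) / m) * (x - s (π j)) ^ (1 + u * b (π j) / m) := by
        intro j
        rw [← mul_sub, mul_pow]
      rw [Finset.prod_congr rfl fun j _ => h3 j, Finset.prod_mul_distrib,
        Equiv.prod_comp π (fun j => (ρ : ℂ) ^ (1 + u * b j / m)),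
        Equiv.prod_comp π (fun j => (x - s j) ^ (1 + u * b j / m)), Finset.prod_pow_eq_pow_sum]
    have h4 : ∏ j, (x - s j) ^ (1 + u * b j / m) ≠ 0 := by
      refine Finset.prod_ne_zero_iff.2 fun j _ => pow_ne_zero _ (sub_ne_zero.2 ?_)
      rintro rfl
      exact hx ⟨j, rfl⟩
    change (((ρ : ℂ) * (ρ : ℂ) ^ i * c ^ u / (ρ : ℂ) ^ (∑ j, (1 + u * b j / m)))⁻¹ • B)
      ((ρ : ℂ) • D.γ.ω ((ρ : ℂ) * x) (c * y)) = _
    rw [LinearMap.smul_apply, map_smul, h1, h2]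
    have h5 : (ρ : ℂ) ^ (∑ j, (1 + u * b j / m)) ≠ 0 := pow_ne_zero _ hρ0
    have h6 : (ρ : ℂ) ^ i ≠ 0 := pow_ne_zero _ hρ0
    have h7 : c ^ u ≠ 0 := pow_ne_zero _ hc0
    simp only [smul_eq_mul, mul_pow]
    field_simp

end SEJ
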