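import Pool.Agent.Lib.SE.J.Spec2

/-! # SE/J N1b: twice the number of the indices is `r φ(m)`. -/

set_option autoImplicit false

open MeasureTheory Filter Topology HC HC.SE

noncomputable section

namespace SEJ

theorem tN1b : S_N1b := by
  intro hN1 m r s b hcov
  classical
  have hm : 3 ≤ m := hcov.1
  set S : Finset ℕ := (Finset.range m).filter (fun a => m.Coprime a) with hS
  have hlt : ∀ p : Ix m b, ch p < m := fun p => p.1.1.isLt
  have hcop : ∀ p : Ix m b, (ch p).Coprime m := fun p => p.2.1
  have hpos : ∀ p : Ix m b, 0 < ch p := by
    intro p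
    rcases Nat.eq_zero_or_pos (ch p) with h0 | h0
    · have h1 := hcop p
      rw [h0, Nat.coprime_zero_left] at h1
      omega
    · exact h0
  have h1 : Fintype.card (Ix m b) =
      ∑ u ∈ S, Fintype.card {p : Ix m b // ch p = u} := by
    have h := Finset.card_eq_sum_card_fiberwise (s := (Finset.univ : Finset (Ix m b))) (t := S)
      (f := fun p => ch p) (by
        intro p _
        simp only [hS, Finset.coe_filter, Finset.mem_range, Set.mem_setOf_eq]
        exact ⟨hlt p, (hcop p).symm⟩)
    rw [← Finset.card_univ, h]
    refine Finset.sum_congr rfl fun u _ => ?_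
    rw [Fintype.card_subtype]
  have h2 : Fintype.card (Ix m b) =
      ∑ u ∈ S, Fintype.card {p : Ix m b // ch p + u = m} := by
    have h := Finset.card_eq_sum_card_fiberwise (s := (Finset.univ : Finset (Ix m b))) (t := S)
      (f := fun p => m - ch p) (by
        intro p _
        simp only [hS, Finset.coe_filter, Finset.mem_range, Set.mem_setOf_eq]
        have ha := hlt p
        have hb := hpos p
        refine ⟨by omega, ?_⟩
        have hc : (m - ch p).Coprime m := (Nat.coprime_self_sub_left ha.le).mpr (hcop p)
        exact hc.symm)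
    rw [← Finset.card_univ, h]
    refine Finset.sum_congr rfl fun u _ => ?_
    rw [Fintype.card_subtype]
    congr 1
    ext p
    simp only [Finset.mem_filter, Finset.mem_univ, true_and]
    have ha := hlt p
    constructor <;> intro hh <;> omega
  have h3 : ∑ u ∈ S, (Fintype.card {p : Ix m b // ch p = u} +
      Fintype.card {p : Ix m b // ch p + u = m}) = ∑ u ∈ S, r := by
    refine Finset.sum_congr rfl fun u hu => ?_
    rw [hS, Finset.mem_filter, Finset.mem_range] at hu
    exact hN1 s b hcov u hu.1 hu.2.symm
  rw [Finset.sum_add_distrib, ← h1, ← h2, Finset.sum_const, smul_eq_mul] at h3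
  have h4 : S.card = m.totient := rfl
  rw [h4] at h3
  rw [two_mul, h3, mul_comm]

end SEJ
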