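import Pool.Agent.Lib.SE.J.Spec2

/-! # SE/J: module N2, elimination of the last coordinate -/

set_option autoImplicit false

open MeasureTheory Filter Topology HC HC.SE

noncomputable section

namespace SEJ

private lemma N2_Ioi {F : Type} [Field F] {r : ℕ} (X : Fin (r + 1) → F) (hX : ∑ j, X j = 0)
    (j : Fin r) : ∑ l ∈ Finset.Ioi j.castSucc, X l =
      - ∑ l : Fin r, if l ≤ j then X l.castSucc else 0 := by
  have h1 : ∑ l ∈ Finset.Iic j.castSucc, X l + ∑ l ∈ Finset.Ioi j.castSucc, X l = 0 := by
    rw [← hX, ← Finset.sum_union]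
    · refine Finset.sum_congr ?_ fun _ _ => rfl
      ext l
      simp only [Finset.mem_union, Finset.mem_Iic, Finset.mem_Ioi, Finset.mem_univ, iff_true]
      exact le_or_gt l j.castSucc
    · rw [Finset.disjoint_left]
      intro l hl hl'
      exact absurd (Finset.mem_Iic.mp hl) (not_le.mpr (Finset.mem_Ioi.mp hl'))
  have h2 : ∑ l ∈ Finset.Iic j.castSucc, X l = ∑ l : Fin r, if l ≤ j then X l.castSucc else 0 := by
    have e1 : Finset.Iic j.castSucc = Finset.univ.filter fun l => l ≤ j.castSucc := by
      ext l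
      simp
    rw [e1, Finset.sum_filter, Fin.sum_univ_castSucc, if_neg (not_le.mpr (Fin.castSucc_lt_last j)),
      add_zero]
    refine Finset.sum_congr rfl fun l _ => ?_
    simp only [Fin.castSucc_le_castSucc_iff]
  rw [← h2]
  linear_combination h1

theorem tN2 : S_N2 := by
  intro F _ r la x y h0 h1 hx hy
  set X : Fin (r + 1) → F := fun l => (1 - la l) * x l with hX
  set Y : Fin (r + 1) → F := fun j => (1 - (la j)⁻¹) * y j with hY
  have hne : ∀ j, 1 - la j ≠ 0 := fun j => sub_ne_zero.mpr (h1 j).symm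
  have hxX : ∀ j, x j = X j * (1 - la j)⁻¹ := by
    intro j
    rw [hX]
    field_simp [hne j]
  have hXK : X (Fin.last r) = - ∑ l : Fin r, X l.castSucc := by
    have := hx
    rw [Fin.sum_univ_castSucc] at this
    linear_combination this
  have hYK : Y (Fin.last r) = - ∑ j : Fin r, Y j.castSucc := by
    have := hy
    rw [Fin.sum_univ_castSucc] at this
    linear_combination this
  have hL : ∀ j, (1 - (la j)⁻¹) * (x j + ∑ l ∈ Finset.Ioi j, (1 - la l) * x l) * y j =
      Y j * (X j * (1 - la j)⁻¹ + ∑ l ∈ Finset.Ioi j, X l) := by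
    intro j
    rw [hxX j, hY]
    ring
  rw [Finset.sum_congr rfl fun j _ => hL j, Fin.sum_univ_castSucc]
  have hlast : Finset.Ioi (Fin.last r) = ∅ := by
    ext l
    simp only [Finset.mem_Ioi, Finset.notMem_empty, iff_false, not_lt]
    exact Fin.le_last l
  rw [hlast, Finset.sum_empty, add_zero]
  have hR : ∀ l j : Fin r, x l.castSucc * Nm la l j * y j.castSucc =
      Y j.castSucc * (if l ≤ j then X l.castSucc else 0) -
      Y j.castSucc * (if l = j then X l.castSucc * (1 - la j.castSucc)⁻¹ else 0) -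
      Y j.castSucc * X l.castSucc * (1 - la (Fin.last r))⁻¹ := by
    intro l j
    simp only [Nm, hX, hY]
    split_ifs <;> ring
  rw [Finset.sum_comm, Finset.sum_congr rfl fun j _ => Finset.sum_congr rfl fun l _ => hR l j]
  have hj : ∀ j : Fin r, ∑ l : Fin r, (Y j.castSucc * (if l ≤ j then X l.castSucc else 0) -
      Y j.castSucc * (if l = j then X l.castSucc * (1 - la j.castSucc)⁻¹ else 0) -
      Y j.castSucc * X l.castSucc * (1 - la (Fin.last r))⁻¹) =
      - (Y j.castSucc * (X j.castSucc * (1 - la j.castSucc)⁻¹ +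
        ∑ l ∈ Finset.Ioi j.castSucc, X l)) +
      Y j.castSucc * X (Fin.last r) * (1 - la (Fin.last r))⁻¹ := by
    intro j
    rw [Finset.sum_sub_distrib, Finset.sum_sub_distrib, ← Finset.mul_sum, ← Finset.mul_sum,
      Finset.sum_ite_eq' Finset.univ j, if_pos (Finset.mem_univ j), ← Finset.sum_mul,
      ← Finset.mul_sum, N2_Ioi X hx j, hXK]
    ring
  rw [Finset.sum_congr rfl fun j _ => hj j, Finset.sum_add_distrib, Finset.sum_neg_distrib,
    ← Finset.sum_mul, ← Finset.sum_mul, hYK]
  ring

end SEJ
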