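import Pool.Agent.Lib.SE.J.Spec2

/-! # SE/J/N3: the inverse of the matrix of the bilinear relations -/

set_option autoImplicit false

open MeasureTheory Filter Topology HC HC.SE

noncomputable section

namespace SEJ

/-- If `Π N Πᴴ = D` is diagonal with non-zero entries and `Π` is square (up to the names of the
indices), then `N Πᴴ D⁻¹ Π = 1`. -/
theorem N3_lin {ι : Type} [Fintype ι] [DecidableEq ι] {r : ℕ} (hr : Fintype.card ι = r)
    (N : Matrix (Fin r) (Fin r) ℂ) (x : ι → Fin r → ℂ) (d : ι → ℂ) (hd : ∀ k, d k ≠ 0)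
    (h : ∀ k k', ∑ l, ∑ j, x k l * N l j * (starRingEnd ℂ) (x k' j) = if k = k' then d k else 0)
    (M : Matrix (Fin r) (Fin r) ℂ)
    (hM : ∀ j l, M j l = ∑ k, (starRingEnd ℂ) (x k j) * (d k)⁻¹ * x k l) : N * M = 1 := by
  obtain ⟨e⟩ : Nonempty (ι ≃ Fin r) := ⟨Fintype.equivFinOfCardEq hr⟩
  obtain ⟨P, hP⟩ : ∃ P : Matrix (Fin r) (Fin r) ℂ, ∀ i l, P i l = x (e.symm i) l :=
    ⟨Matrix.of fun i l => x (e.symm i) l, fun _ _ => rfl⟩
  obtain ⟨R, hR⟩ : ∃ R : Matrix (Fin r) (Fin r) ℂ, ∀ j i, R j i =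
      (starRingEnd ℂ) (x (e.symm i) j) * (d (e.symm i))⁻¹ :=
    ⟨Matrix.of fun j i => (starRingEnd ℂ) (x (e.symm i) j) * (d (e.symm i))⁻¹, fun _ _ => rfl⟩
  have h1 : P * (N * R) = 1 := by
    ext i i'
    rw [Matrix.mul_apply, Matrix.one_apply]
    have h2 : ∀ l, P i l * (N * R) l i' =
        (∑ j, x (e.symm i) l * N l j * (starRingEnd ℂ) (x (e.symm i') j)) * (d (e.symm i'))⁻¹ := by
      intro l
      rw [Matrix.mul_apply, Finset.mul_sum, Finset.sum_mul]
      refine Finset.sum_congr rfl fun j _ => ?_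
      rw [hP, hR]
      ring
    simp_rw [h2]
    rw [← Finset.sum_mul, h]
    by_cases hi : i = i'
    · subst hi
      rw [if_pos rfl, if_pos rfl, mul_inv_cancel₀ (hd _)]
    · rw [if_neg hi, if_neg fun hh => hi (e.symm.injective hh), zero_mul]
  have h3 : N * R * P = 1 := mul_eq_one_comm.1 h1
  have h4 : R * P = M := by
    ext j l
    rw [Matrix.mul_apply, hM]
    refine Fintype.sum_equiv e.symm _ _ fun i => ?_
    rw [hP, hR]
  rw [← h4, ← mul_assoc, h3]

theorem tN3 : S_N3 := by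
  intro h0 h1 h2 E1 E2 E3 E4 m r s b hc hs o u hum hu
  obtain ⟨-, -, hla1, hu', hum', hmu', -, hla', hconj, -⟩ := h0 s b hc u hum hu
  obtain ⟨la, hla⟩ : ∃ la : Fin (r + 1) → ℂ, la = lam (mu m b u) := ⟨_, rfl⟩
  rw [← hla] at hla1 hla' hconj ⊢
  have hla0 : ∀ j, la j ≠ 0 := by
    intro j
    rw [hla]
    exact Complex.exp_ne_zero _
  -- the characters
  have c1 : ∀ p : Ix m b, ch p = u → lam (mu m b (ch p)) = la := by
    intro p hp
    rw [hp, hla]
  have c2 : ∀ p : Ix m b, ch p + u = m → ∀ j, lam (mu m b (ch p)) j = (la j)⁻¹ := by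
    intro p hp j
    have : ch p = m - u := by omega
    rw [this]
    exact hla' j
  -- E1
  have F1 : ∀ p : Ix m b, ch p = u → ∑ j, (1 - la j) * o.A j p = 0 := by
    intro p hp
    have := E1 s _ _ (o.good p)
    rw [c1 p hp] at this
    exact this
  have F2 : ∀ p : Ix m b, ch p + u = m → ∑ j, (1 - (la j)⁻¹) * o.A j p = 0 := by
    intro p hp
    have := E1 s _ _ (o.good p)
    simp_rw [c2 p hp] at this
    exact this
  -- E2
  have G1 : ∀ p : Ix m b, ch p = u → ∀ j, o.B j p =
      o.A j p + ∑ l ∈ Finset.Ioi j, (1 - la l) * o.A l p := by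
    intro p hp j
    have := E2 s _ _ (o.good p) j
    rw [c1 p hp] at this
    exact this
  have G2 : ∀ p : Ix m b, ch p + u = m → ∀ j, o.B j p =
      o.A j p + ∑ l ∈ Finset.Ioi j, (1 - (la l)⁻¹) * o.A l p := by
    intro p hp j
    have := E2 s _ _ (o.good p) j
    simp_rw [c2 p hp] at this
    exact this
  -- E3
  have H3 : ∀ p q : Ix m b, ch p = ch q → 2 * Complex.I * (if p = q then 1 else 0) =
      - ∑ j, (1 - (lam (mu m b (ch p)) j)⁻¹) * o.B j p * (starRingEnd ℂ) (o.A j q) := by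
    intro p q hpq
    have hq := o.good q
    rw [← hpq] at hq
    have := E3 s _ _ _ (o.good p) hq
    rw [o.orth p q hpq] at this
    rw [this]
    unfold ONB.A ONB.B
    rw [hpq]
  have H4 : ∀ p q : Ix m b, ch p + ch q = m →
      0 = ∑ j, (1 - (lam (mu m b (ch p)) j)⁻¹) * o.B j p * o.A j q := by
    intro p q hpq
    have hq := o.good q
    have hmu : mu m b (ch q) = fun j => 1 - mu m b (ch p) j := by
      have h3 := (h0 s b hc (ch p) p.1.1.2 p.2.1).2.2.2.2.2.1
      have h4 : ch q = m - ch p := by omega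
      rw [h4]
      funext j
      exact h3 j
    rw [hmu] at hq
    have := E4 s _ _ _ (o.good p) hq
    rw [this]
    unfold ONB.A ONB.B
    rw [hmu]
  -- the conjugate
  have hconj' : ∀ j, (starRingEnd ℂ) ((la j)⁻¹) = la j := by
    intro j
    rw [← hconj j, Complex.conj_conj]
  -- the rows
  obtain ⟨X, hX1, hX2⟩ : ∃ X : ({p : Ix m b // ch p = u} ⊕ {p : Ix m b // ch p + u = m}) →
      Fin (r + 1) → ℂ, (∀ p j, X (Sum.inl p) j = o.A j p.1) ∧
        ∀ p j, X (Sum.inr p) j = (starRingEnd ℂ) (o.A j p.1) :=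
    ⟨Sum.elim (fun p j => o.A j p.1) fun p j => (starRingEnd ℂ) (o.A j p.1),
      fun _ _ => rfl, fun _ _ => rfl⟩
  obtain ⟨Y, hY1, hY2⟩ : ∃ Y : ({p : Ix m b // ch p = u} ⊕ {p : Ix m b // ch p + u = m}) →
      Fin (r + 1) → ℂ, (∀ p j, Y (Sum.inl p) j = o.B j p.1) ∧
        ∀ p j, Y (Sum.inr p) j = (starRingEnd ℂ) (o.B j p.1) :=
    ⟨Sum.elim (fun p j => o.B j p.1) fun p j => (starRingEnd ℂ) (o.B j p.1),
      fun _ _ => rfl, fun _ _ => rfl⟩
  have hXs : ∀ k, ∑ j, (1 - la j) * X k j = 0 := by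
    rintro (p | p)
    · simp_rw [hX1]
      exact F1 p.1 p.2
    · simp_rw [hX2]
      have := congrArg (starRingEnd ℂ) (F2 p.1 p.2)
      rw [map_sum, map_zero] at this
      rw [← this]
      refine Finset.sum_congr rfl fun j _ => ?_
      rw [map_mul, map_sub, map_one, hconj']
  have hXs' : ∀ k, ∑ j, (1 - (la j)⁻¹) * (starRingEnd ℂ) (X k j) = 0 := by
    intro k
    have := congrArg (starRingEnd ℂ) (hXs k)
    rw [map_sum, map_zero] at this
    rw [← this]
    refine Finset.sum_congr rfl fun j _ => ?_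
    rw [map_mul, map_sub, map_one, hconj]
  have hY : ∀ k j, X k j + ∑ l ∈ Finset.Ioi j, (1 - la l) * X k l = Y k j := by
    rintro (p | p) j
    · simp_rw [hX1, hY1]
      exact (G1 p.1 p.2 j).symm
    · simp_rw [hX2, hY2]
      rw [G2 p.1 p.2 j, map_add, map_sum]
      congr 1
      refine Finset.sum_congr rfl fun l _ => ?_
      rw [map_mul, map_sub, map_one, hconj']
  obtain ⟨d, hd1, hd2⟩ : ∃ d : ({p : Ix m b // ch p = u} ⊕ {p : Ix m b // ch p + u = m}) → ℂ,
      (∀ p, d (Sum.inl p) = 2 * Complex.I) ∧ ∀ p, d (Sum.inr p) = -(2 * Complex.I) :=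
    ⟨Sum.elim (fun _ => 2 * Complex.I) fun _ => -(2 * Complex.I), fun _ => rfl, fun _ => rfl⟩
  have h2I : (2 * Complex.I) ≠ 0 := mul_ne_zero two_ne_zero Complex.I_ne_zero
  have hcI : (starRingEnd ℂ) (2 * Complex.I) = -(2 * Complex.I) := by
    rw [map_mul, Complex.conj_I, map_ofNat]
    ring
  have hinv : ∀ j, (1 - ((la j)⁻¹)⁻¹) = 1 - la j := fun j => by rw [inv_inv]
  have hD : ∀ k k', - ∑ j, (1 - (la j)⁻¹) * Y k j * (starRingEnd ℂ) (X k' j) =
      if k = k' then d k else 0 := by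
    rintro (p | p) (q | q)
    · have := H3 p.1 q.1 (p.2.trans q.2.symm)
      rw [c1 p.1 p.2] at this
      simp_rw [hX1, hY1]
      rw [← this, hd1]
      by_cases hpq : p = q
      · subst hpq
        simp
      · rw [if_neg fun h => hpq (Subtype.ext h), if_neg fun h => hpq (Sum.inl_injective h),
          mul_zero]
    · have := H4 p.1 q.1 (by rw [p.2, add_comm]; exact q.2)
      rw [c1 p.1 p.2] at this
      simp_rw [hX2, hY1, Complex.conj_conj]
      rw [← this, neg_zero, if_neg (by simp)]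
    · have := congrArg (starRingEnd ℂ) (H4 p.1 q.1 (by rw [q.2]; exact p.2))
      simp_rw [c2 p.1 p.2, hinv] at this
      rw [map_zero, map_sum] at this
      simp_rw [hX1, hY2]
      rw [if_neg (by simp), neg_eq_zero]
      rw [this]
      refine Finset.sum_congr rfl fun j _ => ?_
      rw [map_mul, map_mul, map_sub, map_one, hconj]
    · have hpq' : ch p.1 = ch q.1 := by
        have := p.2
        have := q.2
        omega
      have := congrArg (starRingEnd ℂ) (H3 p.1 q.1 hpq')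
      simp_rw [c2 p.1 p.2, hinv] at this
      rw [map_mul, map_neg, map_sum, hcI] at this
      simp_rw [hX2, hY2]
      have h5 : - ∑ j, (1 - (la j)⁻¹) * (starRingEnd ℂ) (o.B j p.1) *
          (starRingEnd ℂ) ((starRingEnd ℂ) (o.A j q.1)) =
          - ∑ j, (starRingEnd ℂ) ((1 - la j) * o.B j p.1 * (starRingEnd ℂ) (o.A j q.1)) := by
        congr 1
        refine Finset.sum_congr rfl fun j _ => ?_
        rw [map_mul, map_mul, map_sub, map_one, hconj]
      rw [h5, ← this, hd2]
      by_cases hpq : p = q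
      · subst hpq
        simp
      · rw [if_neg fun h => hpq (Subtype.ext h), if_neg fun h => hpq (Sum.inr_injective h),
          map_zero, mul_zero]
  refine N3_lin (ι := {p : Ix m b // ch p = u} ⊕ {p : Ix m b // ch p + u = m}) ?_ (Nm la)
    (fun k l => X k l.castSucc) d ?_ ?_ _ ?_
  · rw [Fintype.card_sum]
    exact h1 s b hc u hum hu
  · rintro (p | p)
    · rw [hd1]
      exact h2I
    · rw [hd2]
      exact neg_ne_zero.2 h2I
  · intro k k'
    rw [← h2 la (X k) (fun j => (starRingEnd ℂ) (X k' j)) hla0 hla1 (hXs k) (hXs' k'), ← hD k k']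
    simp_rw [hY]
  · intro j l
    rw [Fintype.sum_sum_type]
    unfold ONB.Mm
    simp_rw [hX1, hX2, hd1, hd2]
    rw [sub_eq_add_neg, mul_add]
    congr 1
    · rw [← Finset.sum_subtype (Finset.univ.filter fun p : Ix m b => ch p = u) (by simp)
        (fun p => (starRingEnd ℂ) (o.A j.castSucc p) * (2 * Complex.I)⁻¹ * o.A l.castSucc p),
        Finset.sum_filter, Finset.mul_sum]
      refine Finset.sum_congr rfl fun p _ => ?_
      split_ifs
      · ring
      · ring
    · rw [← Finset.sum_subtype (Finset.univ.filter fun p : Ix m b => ch p + u = m) (by simp)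
        (fun p => (starRingEnd ℂ) ((starRingEnd ℂ) (o.A j.castSucc p)) * (-(2 * Complex.I))⁻¹ *
          (starRingEnd ℂ) (o.A l.castSucc p)),
        Finset.sum_filter, ← Finset.sum_neg_distrib, Finset.mul_sum]
      refine Finset.sum_congr rfl fun p _ => ?_
      split_ifs
      · rw [Complex.conj_conj, inv_neg]
        ring
      · ring

end SEJ
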