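import Pool.Agent.Lib.SE.J.Spec2

/-! # SE/J/N4: an orthonormal system of forms exists -/

set_option autoImplicit false

open MeasureTheory Filter Topology HC HC.SE

noncomputable section

namespace SEJ

open scoped ComplexOrder MatrixOrder in
/-- A positive definite matrix is `Bᴴ * B` with `B` invertible. -/
theorem N4_fac {ι : Type} [Fintype ι] [DecidableEq ι] (H : Matrix ι ι ℂ) (hH : H.PosDef) :
    ∃ B C : Matrix ι ι ℂ, B * C = 1 ∧ C * B = 1 ∧ C.conjTranspose * H * C = 1 := by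
  obtain ⟨B, hB⟩ := CStarAlgebra.nonneg_iff_eq_star_mul_self.mp hH.posSemidef.nonneg
  have hB' : H = B.conjTranspose * B := hB
  have hu : IsUnit B.det := by
    have h1 : IsUnit H.det := (Matrix.isUnit_iff_isUnit_det H).1 hH.isUnit
    rw [hB', Matrix.det_mul] at h1
    exact isUnit_of_mul_isUnit_right h1
  refine ⟨B, B⁻¹, Matrix.mul_nonsing_inv _ hu, Matrix.nonsing_inv_mul _ hu, ?_⟩
  have h1 : (B⁻¹).conjTranspose * B.conjTranspose = 1 := by
    rw [← Matrix.conjTranspose_mul, Matrix.mul_nonsing_inv _ hu, Matrix.conjTranspose_one]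
  calc (B⁻¹).conjTranspose * H * B⁻¹ = (B⁻¹).conjTranspose * B.conjTranspose * (B * B⁻¹) := by
        rw [hB']
        simp only [Matrix.mul_assoc]
    _ = 1 := by rw [h1, Matrix.mul_nonsing_inv _ hu, one_mul]

theorem N4_meas {k : ℕ} (s : Fin k → ℂ) (μ : Fin k → ℝ) (P : Polynomial ℂ) :
    Measurable (frm s μ P) := by
  unfold frm xi
  refine Measurable.mul ?_ ?_
  · exact (Polynomial.continuous P).measurable
  · refine Finset.measurable_prod _ fun j _ => ?_
    exact (measurable_id.sub_const _).pow_const _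

theorem N4_int {k : ℕ} (s : Fin k → ℂ) (μ : Fin k → ℝ) (P Q : Polynomial ℂ)
    (hP : Integrable (fun x => ‖frm s μ P x‖ ^ 2)) (hQ : Integrable (fun x => ‖frm s μ Q x‖ ^ 2)) :
    Integrable fun x => frm s μ P x * (starRingEnd ℂ) (frm s μ Q x) := by
  refine Integrable.mono' (hP.add hQ) ?_ ?_
  · exact ((N4_meas s μ P).mul
      (Complex.continuous_conj.measurable.comp (N4_meas s μ Q))).aestronglyMeasurable
  · refine Filter.Eventually.of_forall fun x => ?_
    rw [norm_mul, RCLike.norm_conj]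
    simp only [Pi.add_apply]
    nlinarith [sq_nonneg (‖frm s μ P x‖ - ‖frm s μ Q x‖), norm_nonneg (frm s μ P x),
      norm_nonneg (frm s μ Q x)]

theorem N4_frm_sum {k : ℕ} (s : Fin k → ℂ) (μ : Fin k → ℝ) {ι : Type} [Fintype ι] (e : ι → ℕ)
    (a : ι → ℂ) (x : ℂ) :
    frm s μ (∑ i, Polynomial.C (a i) * Polynomial.X ^ e i) x =
      ∑ i, a i * frm s μ (Polynomial.X ^ e i) x := by
  unfold frm
  rw [Polynomial.eval_finsetSum, Finset.sum_mul]
  refine Finset.sum_congr rfl fun i _ => ?_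
  simp
  ring

theorem N4_form {k : ℕ} (s : Fin k → ℂ) (μ : Fin k → ℝ) {ι : Type} [Fintype ι] (e : ι → ℕ)
    (hi : ∀ i, Integrable (fun x => ‖frm s μ (Polynomial.X ^ e i) x‖ ^ 2)) (a c : ι → ℂ) :
    ∫ x : ℂ, frm s μ (∑ i, Polynomial.C (a i) * Polynomial.X ^ e i) x *
      (starRingEnd ℂ) (frm s μ (∑ i, Polynomial.C (c i) * Polynomial.X ^ e i) x) =
    ∑ j, ∑ i, a i * (starRingEnd ℂ) (c j) * ∫ x : ℂ, frm s μ (Polynomial.X ^ e i) x *
      (starRingEnd ℂ) (frm s μ (Polynomial.X ^ e j) x) := by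
  have h1 : ∀ x : ℂ, frm s μ (∑ i, Polynomial.C (a i) * Polynomial.X ^ e i) x *
      (starRingEnd ℂ) (frm s μ (∑ i, Polynomial.C (c i) * Polynomial.X ^ e i) x) =
      ∑ j, ∑ i, a i * (starRingEnd ℂ) (c j) * (frm s μ (Polynomial.X ^ e i) x *
      (starRingEnd ℂ) (frm s μ (Polynomial.X ^ e j) x)) := by
    intro x
    rw [N4_frm_sum, N4_frm_sum, map_sum, Finset.sum_mul_sum, Finset.sum_comm]
    refine Finset.sum_congr rfl fun j _ => Finset.sum_congr rfl fun i _ => ?_
    rw [map_mul]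
    ring
  simp_rw [h1]
  rw [integral_finsetSum _ fun j _ => integrable_finsetSum _ fun i _ =>
    (N4_int s μ _ _ (hi i) (hi j)).const_mul _]
  refine Finset.sum_congr rfl fun j _ => ?_
  rw [integral_finsetSum _ fun i _ => (N4_int s μ _ _ (hi i) (hi j)).const_mul _]
  refine Finset.sum_congr rfl fun i _ => ?_
  rw [integral_const_mul]

theorem N4_coeff {ι : Type} [Fintype ι] [DecidableEq ι] (e : ι → ℕ)
    (he : Function.Injective e) (a : ι → ℂ) (i : ι) :
    (∑ j, Polynomial.C (a j) * Polynomial.X ^ e j).coeff (e i) = a i := by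
  rw [Polynomial.finsetSum_coeff, Finset.sum_eq_single i]
  · simp
  · intro j _ hj
    rw [Polynomial.coeff_C_mul, Polynomial.coeff_X_pow, if_neg, mul_zero]
    exact fun h => hj (he h).symm
  · intro h
    exact absurd (Finset.mem_univ i) h

/-- a linear combination of good monomials is good -/
theorem N4_good {k : ℕ} (s : Fin k → ℂ) (μ : Fin k → ℝ) {ι : Type} [Fintype ι] (e : ι → ℕ)
    (hg : ∀ i, Good s μ (Polynomial.X ^ e i)) (i₀ : ι) (a : ι → ℂ) :
    Good s μ (∑ i, Polynomial.C (a i) * Polynomial.X ^ e i) := by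
  refine ⟨(hg i₀).im, (hg i₀).pos, (hg i₀).lt, ?_⟩
  intro n hn
  rw [Polynomial.finsetSum_coeff] at hn
  obtain ⟨j, -, hj⟩ := Finset.exists_ne_zero_of_sum_ne_zero hn
  rw [Polynomial.coeff_C_mul, Polynomial.coeff_X_pow] at hj
  by_cases h : n = e j
  · have := (hg j).deg (e j) (by simp)
    rw [h]
    exact this
  · rw [if_neg h, mul_zero] at hj
    exact absurd rfl hj

open scoped ComplexOrder in
/-- Gram-Schmidt for one character. -/
theorem N4_gs {k : ℕ} (s : Fin k → ℂ) (μ : Fin k → ℝ) {ι : Type} [Fintype ι] [DecidableEq ι]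
    (e : ι → ℕ) (he : Function.Injective e) (hg : ∀ i, Good s μ (Polynomial.X ^ e i))
    (E5 : ∀ P : Polynomial ℂ, Good s μ P →
      Integrable (fun x => ‖frm s μ P x‖ ^ 2) ∧ (P ≠ 0 → 0 < ∫ x : ℂ, ‖frm s μ P x‖ ^ 2)) :
    ∃ Q : ι → Polynomial ℂ, (∀ p, Good s μ (Q p)) ∧
      (∀ p q, ∫ x : ℂ, frm s μ (Q p) x * (starRingEnd ℂ) (frm s μ (Q q) x) =
        if p = q then 1 else 0) ∧
      ∀ p, ∃ c : ι → ℂ, Polynomial.X ^ e p = ∑ q, Polynomial.C (c q) * Q q := by
  have hi : ∀ i, Integrable (fun x => ‖frm s μ (Polynomial.X ^ e i) x‖ ^ 2) :=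
    fun i => (E5 _ (hg i)).1
  obtain ⟨H, hH⟩ : ∃ H : Matrix ι ι ℂ, ∀ i j, H i j = ∫ x : ℂ, frm s μ (Polynomial.X ^ e j) x *
      (starRingEnd ℂ) (frm s μ (Polynomial.X ^ e i) x) :=
    ⟨Matrix.of fun i j => ∫ x : ℂ, frm s μ (Polynomial.X ^ e j) x *
      (starRingEnd ℂ) (frm s μ (Polynomial.X ^ e i) x), fun i j => rfl⟩
  have hform : ∀ a c : ι → ℂ, ∫ x : ℂ, frm s μ (∑ i, Polynomial.C (a i) * Polynomial.X ^ e i) x *
      (starRingEnd ℂ) (frm s μ (∑ i, Polynomial.C (c i) * Polynomial.X ^ e i) x) =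
      ∑ j, ∑ i, (starRingEnd ℂ) (c j) * H j i * a i := by
    intro a c
    rw [N4_form s μ e hi]
    refine Finset.sum_congr rfl fun j _ => Finset.sum_congr rfl fun i _ => ?_
    rw [hH]
    ring
  have hherm : H.IsHermitian := by
    ext i j
    rw [Matrix.conjTranspose_apply, hH, hH]
    show (starRingEnd ℂ) _ = _
    rw [← integral_conj]
    congr 1
    funext x
    rw [map_mul, Complex.conj_conj, mul_comm]
  have hpd : H.PosDef := by
    refine Matrix.PosDef.of_dotProduct_mulVec_pos hherm fun a ha => ?_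
    obtain ⟨i₀, hi₀⟩ := Function.ne_iff.1 ha
    have hne : (∑ i, Polynomial.C (a i) * Polynomial.X ^ e i) ≠ 0 := by
      intro h
      have := N4_coeff e he a i₀
      rw [h, Polynomial.coeff_zero] at this
      exact hi₀ this.symm
    have h1 := (E5 _ (N4_good s μ e hg i₀ a)).2 hne
    have h2 : star a ⬝ᵥ H.mulVec a =
        ((∫ x : ℂ, ‖frm s μ (∑ i, Polynomial.C (a i) * Polynomial.X ^ e i) x‖ ^ 2 : ℝ) : ℂ) := by
      have h3 := hform a a
      have h4 : ∀ z : ℂ, z * (starRingEnd ℂ) z = ((‖z‖ ^ 2 : ℝ) : ℂ) := by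
        intro z
        rw [Complex.mul_conj, Complex.normSq_eq_norm_sq]
      simp_rw [h4] at h3
      rw [integral_complex_ofReal] at h3
      rw [h3]
      unfold dotProduct Matrix.mulVec dotProduct
      refine Finset.sum_congr rfl fun j _ => ?_
      rw [Finset.mul_sum]
      refine Finset.sum_congr rfl fun i _ => ?_
      rw [Pi.star_apply]
      show (starRingEnd ℂ) _ * _ = _
      ring
    rw [h2]
    exact_mod_cast h1
  obtain ⟨B, C, -, hCB, hC⟩ := N4_fac H hpd
  refine ⟨fun q => ∑ i, Polynomial.C (C i q) * Polynomial.X ^ e i,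
    fun p => N4_good s μ e hg p _, ?_, ?_⟩
  · intro p q
    rw [hform (fun i => C i p) (fun i => C i q)]
    have h1 := congrFun (congrFun hC q) p
    rw [Matrix.one_apply, Matrix.mul_apply] at h1
    have h2 : (if p = q then (1 : ℂ) else 0) = if q = p then 1 else 0 := by
      simp only [eq_comm]
    rw [h2, ← h1, Finset.sum_comm]
    refine Finset.sum_congr rfl fun i _ => ?_
    rw [Matrix.mul_apply, Finset.sum_mul]
    refine Finset.sum_congr rfl fun j _ => ?_
    rw [Matrix.conjTranspose_apply]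
    rfl
  · intro p
    refine ⟨fun q => B q p, ?_⟩
    simp_rw [Finset.mul_sum]
    rw [Finset.sum_comm]
    have h1 : ∀ i, ∑ q, Polynomial.C (B q p) * (Polynomial.C (C i q) * Polynomial.X ^ e i) =
        Polynomial.C (if i = p then 1 else 0) * Polynomial.X ^ e i := by
      intro i
      have h2 := congrFun (congrFun hCB i) p
      rw [Matrix.one_apply, Matrix.mul_apply] at h2
      rw [← h2, map_sum, Finset.sum_mul]
      refine Finset.sum_congr rfl fun q _ => ?_
      rw [map_mul]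
      ring
    simp_rw [h1]
    rw [Finset.sum_eq_single p]
    · simp
    · intro i _ hi
      rw [if_neg hi, map_zero, zero_mul]
    · intro h
      exact absurd (Finset.mem_univ p) h

theorem tN4 : S_N4 := by
  intro h0 E5 m r s b hc hs
  classical
  have hgood : ∀ p : Ix m b, Good s (mu m b (ch p)) (Polynomial.X ^ ex p) := by
    intro p
    exact (h0 s b hc (ch p) p.1.1.2 p.2.1).2.2.2.2.2.2.2.2.2 hs (ex p) p.2.2
  have key : ∀ u : ℕ, ∃ Q : {p : Ix m b // ch p = u} → Polynomial ℂ,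
      (∀ p, Good s (mu m b u) (Q p)) ∧
      (∀ p q, ∫ x : ℂ, frm s (mu m b u) (Q p) x * (starRingEnd ℂ) (frm s (mu m b u) (Q q) x) =
        if p = q then 1 else 0) ∧
      ∀ p : {p : Ix m b // ch p = u}, ∃ c : {p : Ix m b // ch p = u} → ℂ,
        Polynomial.X ^ ex p.1 = ∑ q, Polynomial.C (c q) * Q q := by
    intro u
    refine N4_gs s (mu m b u) (fun p : {p : Ix m b // ch p = u} => ex p.1) ?_ ?_ ?_
    · rintro ⟨p, hp⟩ ⟨q, hq⟩ h
      apply Subtype.ext
      apply Subtype.ext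
      have h1 : ch p = ch q := hp.trans hq.symm
      exact Prod.ext (Fin.ext h1) (Fin.ext h)
    · rintro ⟨p, hp⟩
      have := hgood p
      rw [hp] at this
      exact this
    · intro P hP
      exact E5 s (mu m b u) P hP
  choose Qf hQ1 hQ2 hQ3 using key
  have hQf : ∀ (p : Ix m b) (u : ℕ) (h : ch p = u), Qf u ⟨p, h⟩ = Qf (ch p) ⟨p, rfl⟩ := by
    intro p u h
    subst h
    rfl
  refine ⟨⟨fun p => Qf (ch p) ⟨p, rfl⟩, fun p => hQ1 _ _, ?_, ?_⟩⟩
  · intro p q hpq
    have h1 := hQ2 (ch p) ⟨p, rfl⟩ ⟨q, hpq.symm⟩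
    rw [hQf q (ch p) hpq.symm] at h1
    rw [h1]
    simp only [Subtype.mk.injEq]
  · intro p
    obtain ⟨c, hc'⟩ := hQ3 (ch p) ⟨p, rfl⟩
    refine ⟨fun q => if h : ch q = ch p then c ⟨q, h⟩ else 0, ?_, ?_⟩
    · intro q hq
      exact dif_neg hq
    · have h2 : ex p = ex (⟨p, rfl⟩ : {q : Ix m b // ch q = ch p}).1 := rfl
      rw [h2, hc']
      have h3 : ∀ q : {q : Ix m b // ch q = ch p}, Polynomial.C (c q) * Qf (ch p) q =
          (fun q : Ix m b => Polynomial.C (if h : ch q = ch p then c ⟨q, h⟩ else 0) *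
            Qf (ch q) ⟨q, rfl⟩) q.1 := by
        rintro ⟨q, hq⟩
        simp only
        rw [dif_pos hq, hQf q (ch p) hq]
      rw [Finset.sum_congr rfl fun q _ => h3 q]
      obtain ⟨F, hF⟩ : ∃ F : Ix m b → Polynomial ℂ, ∀ q, F q =
          Polynomial.C (if h : ch q = ch p then c ⟨q, h⟩ else 0) * Qf (ch q) ⟨q, rfl⟩ :=
        ⟨_, fun q => rfl⟩
      simp only [← hF]
      rw [← Finset.sum_subtype (Finset.univ.filter fun q : Ix m b => ch q = ch p)
        (by simp) F, Finset.sum_filter]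
      refine Finset.sum_congr rfl fun q _ => ?_
      by_cases h : ch q = ch p
      · rw [if_pos h]
      · rw [if_neg h, hF, dif_neg h, map_zero, zero_mul]

end SEJ
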