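import Pool.Agent.Lib.SE.J.Spec2

/-! # SE/J/N5: rationality by the trace from the cyclotomic field -/

set_option autoImplicit false

open MeasureTheory Filter Topology HC HC.SE

noncomputable section

namespace SEJ

theorem N5_prim {m u : ℕ} (hm : m ≠ 0) (hu : u.Coprime m) : IsPrimitiveRoot (ze m u) m := by
  have h := Complex.isPrimitiveRoot_exp_of_coprime u m hm hu
  unfold ze
  rwa [← mul_div_assoc] at h

theorem N5_map {F F' : Type} [Field F] [Field F'] (f : F →+* F') {r : ℕ} (la : Fin (r + 1) → F)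
    (l j : Fin r) : f (Nm la l j) = Nm (fun i => f (la i)) l j := by
  unfold Nm
  split_ifs <;> simp

theorem N5_gen (h0 : S_N0) {m r : ℕ} [NeZero m] (K : Type) [Field K] [NumberField K]
    [IsCyclotomicExtension {m} ℚ K] (s : Fin (r + 1) → ℂ) (b : Fin (r + 1) → ℕ)
    (hc : IsCov m s b) (M : ℕ → Matrix (Fin r) (Fin r) ℂ)
    (hM : ∀ u < m, u.Coprime m → Nm (lam (mu m b u)) * M u = 1) :
    ∃ D : ℕ, D ≠ 0 ∧ ∀ (a c : ℕ) (j l : Fin r), ∃ n : ℤ,
      (D : ℂ) * ∑ u ∈ (Finset.range m).filter (fun u => u.Coprime m),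
        ze m u ^ a * (starRingEnd ℂ) (ze m u ^ c) * M u j l = n := by
  have hm3 : 3 ≤ m := hc.1
  have hm : m ≠ 0 := by omega
  have hζ' : IsPrimitiveRoot (IsCyclotomicExtension.zeta m ℚ K) m :=
    IsCyclotomicExtension.zeta_spec m ℚ K
  obtain ⟨ζ, hζ⟩ : ∃ ζ : K, IsPrimitiveRoot ζ m := ⟨_, hζ'⟩
  have hirr : Irreducible (Polynomial.cyclotomic m ℚ) :=
    Polynomial.cyclotomic.irreducible_rat (by omega)
  obtain ⟨e, he⟩ : ∃ e : (K →ₐ[ℚ] ℂ) ≃ primitiveRoots m ℂ,
      ∀ φ, ((e φ : primitiveRoots m ℂ) : ℂ) = φ ζ :=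
    ⟨hζ.embeddingsEquivPrimitiveRoots ℂ hirr, fun φ => rfl⟩
  have hmem : ∀ u : ℕ, u.Coprime m → ze m u ∈ primitiveRoots m ℂ := fun u hu =>
    (mem_primitiveRoots (by omega)).2 (N5_prim hm hu)
  obtain ⟨sg, hsg⟩ : ∃ sg : (u : ℕ) → u.Coprime m → (K →ₐ[ℚ] ℂ),
      ∀ u hu, e (sg u hu) = ⟨ze m u, hmem u hu⟩ :=
    ⟨fun u hu => e.symm ⟨ze m u, hmem u hu⟩, fun u hu => e.apply_symm_apply _⟩
  have hsgz : ∀ u hu, sg u hu ζ = ze m u := by
    intro u hu
    rw [← he, hsg]
  obtain ⟨NK, hNK⟩ : ∃ NK : Matrix (Fin r) (Fin r) (K),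
      NK = Nm (fun j => (ζ ^ b j)⁻¹) := ⟨_, rfl⟩
  have hmap : ∀ u (hu : u.Coprime m), u < m →
      NK.map (sg u hu) = Nm (lam (mu m b u)) := by
    intro u hu hum
    have h1 := (h0 s b hc u hum hu).2.1
    ext l j
    rw [Matrix.map_apply, hNK]
    have h2 := N5_map (sg u hu : K →+* ℂ) (fun j => (ζ ^ b j)⁻¹) l j
    have h3 : (fun i => (sg u hu : K →+* ℂ) ((fun j => (ζ ^ b j)⁻¹) i)) =
        lam (mu m b u) := by
      funext i
      rw [h1]
      simp [hsgz]
    rw [h3] at h2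
    exact h2
  have h1m : 1 < m := by omega
  have hdet : IsUnit NK.det := by
    have h1 := hM 1 h1m (Nat.coprime_one_left m)
    rw [← hmap 1 (Nat.coprime_one_left m) h1m] at h1
    have h2 : (NK.map (sg 1 (Nat.coprime_one_left m))).det ≠ 0 := by
      intro h
      have := congrArg Matrix.det h1
      rw [Matrix.det_mul, h, zero_mul, Matrix.det_one] at this
      exact zero_ne_one this
    rw [isUnit_iff_ne_zero]
    intro h
    apply h2
    have h3 := (sg 1 (Nat.coprime_one_left m) : K →+* ℂ).map_det NK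
    rw [h, map_zero] at h3
    exact h3.symm
  obtain ⟨G, hG⟩ : ∃ G, G = NK⁻¹ := ⟨_, rfl⟩
  have hGN : G * NK = 1 := by rw [hG]; exact Matrix.nonsing_inv_mul _ hdet
  have hMG : ∀ u (hu : u.Coprime m), u < m → M u = G.map (sg u hu) := by
    intro u hu hum
    have h1 := hM u hum hu
    rw [← hmap u hu hum] at h1
    have h2 : G.map (sg u hu) * NK.map (sg u hu) = 1 := by
      have := congrArg (fun A : Matrix _ _ _ => A.map (sg u hu)) hGN
      rw [Matrix.map_mul] at this
      rw [this]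
      exact Matrix.map_one _ (map_zero _) (map_one _)
    calc M u = (G.map (sg u hu) * NK.map (sg u hu)) * M u := by rw [h2, one_mul]
      _ = G.map (sg u hu) := by rw [mul_assoc, h1, mul_one]
  classical
  obtain ⟨y, hy, hyi⟩ := exists_integral_multiples ℤ ℚ
    (Finset.univ.image fun p : Fin r × Fin r => G p.1 p.2)
  refine ⟨y.natAbs, Int.natAbs_ne_zero.2 hy, ?_⟩
  intro a c j l
  have hGi : IsIntegral ℤ (((y.natAbs : ℕ) : K) * G j l) := by
    have h1 := hyi (G j l) (Finset.mem_image.2 ⟨(j, l), Finset.mem_univ _, rfl⟩)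
    rcases Int.natAbs_eq y with h | h
    · have : ((y.natAbs : ℕ) : K) * G j l = y • G j l := by
        rw [zsmul_eq_mul]
        congr 1
        have := congrArg (Int.cast : ℤ → K) h
        rw [this, Int.cast_natCast]
      rw [this]
      exact h1
    · have : ((y.natAbs : ℕ) : K) * G j l = -(y • G j l) := by
        rw [zsmul_eq_mul, ← neg_mul]
        congr 1
        have := congrArg (Int.cast : ℤ → K) h
        rw [this, Int.cast_neg, Int.cast_natCast, neg_neg]
      rw [this]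
      exact h1.neg
  obtain ⟨x, hx⟩ : ∃ x : K,
      x = ζ ^ a * (ζ⁻¹) ^ c * (((y.natAbs : ℕ) : K) * G j l) := ⟨_, rfl⟩
  have hζi : IsIntegral ℤ ζ := hζ.isIntegral (by omega)
  have hζi' : IsIntegral ℤ ζ⁻¹ := hζ.inv.isIntegral (by omega)
  have hxi : IsIntegral ℤ x := by
    rw [hx]
    exact ((hζi.pow a).mul (hζi'.pow c)).mul hGi
  obtain ⟨n, hn⟩ := IsIntegrallyClosed.isIntegral_iff.1
    (Algebra.isIntegral_trace (L := ℚ) hxi)
  refine ⟨n, ?_⟩
  have htr := trace_eq_sum_embeddings (K := ℚ) (L := K) ℂ (x := x)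
  have hn' : (n : ℂ) = ∑ σ : K →ₐ[ℚ] ℂ, σ x := by
    rw [← htr, ← hn]
    simp
  rw [hn', Finset.mul_sum]
  refine Finset.sum_bij
    (fun u hu => sg u (Finset.mem_filter.1 hu).2) (fun _ _ => Finset.mem_univ _) ?_ ?_ ?_
  · intro u hu v hv huv
    have h1 : ze m u = ze m v := by
      rw [← hsgz u (Finset.mem_filter.1 hu).2, ← hsgz v (Finset.mem_filter.1 hv).2, huv]
    have hum := Finset.mem_range.1 (Finset.mem_filter.1 hu).1
    have hvm := Finset.mem_range.1 (Finset.mem_filter.1 hv).1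
    have hp := N5_prim hm (Nat.coprime_one_left m)
    have hpow : ∀ w : ℕ, ze m w = ze m 1 ^ w := by
      intro w
      unfold ze
      rw [← Complex.exp_nat_mul]
      congr 1
      push_cast
      ring
    rw [hpow u, hpow v] at h1
    exact hp.pow_inj hum hvm h1
  · intro σ _
    have h1 : IsPrimitiveRoot (σ ζ) m := by
      have := (e σ).2
      rw [mem_primitiveRoots (by omega), he] at this
      exact this
    obtain ⟨u, hum, hu, hu'⟩ := (Complex.isPrimitiveRoot_iff _ _ hm).1 h1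
    refine ⟨u, Finset.mem_filter.2 ⟨Finset.mem_range.2 hum, hu⟩, ?_⟩
    apply e.injective
    rw [hsg]
    apply Subtype.ext
    show ze m u = _
    rw [he, ← hu']
    unfold ze
    rw [mul_div_assoc]
  · intro u hu
    have hu1 := (Finset.mem_filter.1 hu).2
    have hum := Finset.mem_range.1 (Finset.mem_filter.1 hu).1
    have hnorm : ‖ze m u‖ = 1 := (N5_prim hm hu1).norm'_eq_one hm
    have hinv : (starRingEnd ℂ) (ze m u) = (ze m u)⁻¹ := (Complex.inv_eq_conj hnorm).symm
    rw [hMG u hu1 hum, hx]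
    simp only [map_mul, map_pow, map_inv₀, hsgz, map_natCast, Matrix.map_apply, hinv]
    ring

theorem tN5 : S_N5 := by
  intro h0 m r s b hc M hM
  have hm3 : 3 ≤ m := hc.1
  have : NeZero m := ⟨by omega⟩
  have : IsCyclotomicExtension {m} ℚ (CyclotomicField m ℚ) :=
    CyclotomicField.isCyclotomicExtension m ℚ
  exact N5_gen h0 (CyclotomicField m ℚ) s b hc M hM

end SEJ
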