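import Pool.Agent.Lib.SE.J.Spec2

/-! # SE/J, module N6: the vectors of the lattice are linearly independent over the reals. -/

set_option autoImplicit false

open MeasureTheory Filter Topology HC HC.SE

noncomputable section

namespace SEJ

private theorem N6_inj {m : ℕ} (hm : m ≠ 0) : Set.InjOn (ze m) {u | u < m} := by
  intro u hu v hv h
  have hp := Complex.isPrimitiveRoot_exp m hm
  have e : ∀ w : ℕ, ze m w = Complex.exp (2 * Real.pi * Complex.I / m) ^ w := by
    intro w
    rw [← Complex.exp_nat_mul]
    unfold ze
    congr 1
    ring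
  rw [e, e] at h
  exact hp.pow_inj hu hv h

/-- the polynomial of the coordinate `l` -/
private def N6_P {m r : ℕ} (g : Fin m.totient × Fin r → ℝ) (l : Fin r) : Polynomial ℂ :=
  ∑ a : Fin m.totient, Polynomial.monomial (a : ℕ) ((g (a, l) : ℝ) : ℂ)

private theorem N6_eval {m r : ℕ} (g : Fin m.totient × Fin r → ℝ) (l : Fin r) (z : ℂ) :
    (N6_P g l).eval z = ∑ a : Fin m.totient, ((g (a, l) : ℝ) : ℂ) * z ^ (a : ℕ) := by
  unfold N6_P
  rw [Polynomial.eval_finset_sum]
  simp only [Polynomial.eval_monomial]

private theorem N6_conj {m r : ℕ} (g : Fin m.totient × Fin r → ℝ) (l : Fin r) (z : ℂ) :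
    (starRingEnd ℂ) ((N6_P g l).eval z) = (N6_P g l).eval ((starRingEnd ℂ) z) := by
  rw [N6_eval, N6_eval, map_sum]
  refine Finset.sum_congr rfl fun a _ => ?_
  rw [map_mul, map_pow, Complex.conj_ofReal]

private theorem N6_coeff {m r : ℕ} (g : Fin m.totient × Fin r → ℝ) (l : Fin r) (a : Fin m.totient) :
    (N6_P g l).coeff (a : ℕ) = ((g (a, l) : ℝ) : ℂ) := by
  unfold N6_P
  rw [Polynomial.finset_sum_coeff, Finset.sum_eq_single a]
  · rw [Polynomial.coeff_monomial, if_pos rfl]
  · intro b _ hb
    rw [Polynomial.coeff_monomial, if_neg]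
    intro h
    exact hb (Fin.ext h)
  · intro h
    exact absurd (Finset.mem_univ _) h

private theorem N6_deg {m r : ℕ} (hm : 0 < m) (g : Fin m.totient × Fin r → ℝ) (l : Fin r) :
    (N6_P g l).natDegree < m.totient := by
  have hpos : 0 < m.totient := Nat.totient_pos.2 hm
  unfold N6_P
  refine lt_of_le_of_lt (Polynomial.natDegree_sum_le_of_forall_le (n := m.totient - 1) _ _ ?_) (by omega)
  intro a _
  refine (Polynomial.natDegree_monomial_le _).trans ?_
  have := a.2
  omega

theorem tN6 : S_N6 := by
  intro hN0 m r s b hcov o hM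
  classical
  have hm3 : 3 ≤ m := hcov.1
  have hm0 : m ≠ 0 := by omega
  rw [Fintype.linearIndependent_iff]
  intro g hg
  -- the relation at each coordinate
  have hrel : ∀ p : Ix m b, ∑ l : Fin r, o.A l.castSucc p * (N6_P g l).eval (ze m (ch p)) = 0 := by
    intro p
    have h1 := congrFun hg p
    rw [Finset.sum_apply, Fintype.sum_prod_type_right] at h1
    rw [Pi.zero_apply] at h1
    rw [← h1]
    refine Finset.sum_congr rfl fun l _ => ?_
    rw [N6_eval, Finset.mul_sum]
    refine Finset.sum_congr rfl fun a _ => ?_
    rw [Pi.smul_apply, Complex.real_smul]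
    unfold ONB.w
    ring
  have hv : ∀ u < m, u.Coprime m → ∀ l : Fin r, (N6_P g l).eval (ze m u) = 0 := by
    intro u hu hc
    obtain ⟨-, -, -, -, hmu, -, hze, -⟩ := hN0 s b hcov u hu hc
    have h1 : (o.Mm u).mulVec (fun l => (N6_P g l).eval (ze m u)) = 0 := by
      funext j
      have h2 : ∑ l : Fin r, (∑ p : Ix m b, if ch p = u then
          o.A l.castSucc p * (starRingEnd ℂ) (o.A j.castSucc p) else 0) *
          (N6_P g l).eval (ze m u) = 0 := by
        simp_rw [Finset.sum_mul]
        rw [Finset.sum_comm]
        refine Finset.sum_eq_zero fun p _ => ?_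
        by_cases hp : ch p = u
        · simp only [if_pos hp]
          have h3 := hrel p
          rw [hp] at h3
          calc ∑ l : Fin r, o.A l.castSucc p * (starRingEnd ℂ) (o.A j.castSucc p) *
                (N6_P g l).eval (ze m u)
              = (starRingEnd ℂ) (o.A j.castSucc p) *
                ∑ l : Fin r, o.A l.castSucc p * (N6_P g l).eval (ze m u) := by
                rw [Finset.mul_sum]
                exact Finset.sum_congr rfl fun l _ => by ring
            _ = 0 := by rw [h3, mul_zero]
        · simp only [if_neg hp, zero_mul, Finset.sum_const_zero]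
      have h3 : ∑ l : Fin r, (∑ p : Ix m b, if ch p + u = m then
          (starRingEnd ℂ) (o.A l.castSucc p) * o.A j.castSucc p else 0) *
          (N6_P g l).eval (ze m u) = 0 := by
        simp_rw [Finset.sum_mul]
        rw [Finset.sum_comm]
        refine Finset.sum_eq_zero fun p _ => ?_
        by_cases hp : ch p + u = m
        · simp only [if_pos hp]
          have hp' : ch p = m - u := by omega
          have h3 := congrArg (starRingEnd ℂ) (hrel p)
          rw [map_sum, map_zero, hp', hze] at h3
          calc ∑ l : Fin r, (starRingEnd ℂ) (o.A l.castSucc p) * o.A j.castSucc p *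
                (N6_P g l).eval (ze m u)
              = o.A j.castSucc p * ∑ l : Fin r, (starRingEnd ℂ) (o.A l.castSucc p *
                  (N6_P g l).eval ((starRingEnd ℂ) (ze m u))) := by
                rw [Finset.mul_sum]
                refine Finset.sum_congr rfl fun l _ => ?_
                rw [map_mul, N6_conj, Complex.conj_conj]
                ring
            _ = 0 := by rw [h3, mul_zero]
        · simp only [if_neg hp, zero_mul, Finset.sum_const_zero]
      rw [Matrix.mulVec, dotProduct, Pi.zero_apply]
      calc ∑ l : Fin r, o.Mm u j l * (N6_P g l).eval (ze m u)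
          = (2 * Complex.I)⁻¹ * (∑ l : Fin r, (∑ p : Ix m b, if ch p = u then
            o.A l.castSucc p * (starRingEnd ℂ) (o.A j.castSucc p) else 0) *
            (N6_P g l).eval (ze m u) - ∑ l : Fin r, (∑ p : Ix m b, if ch p + u = m then
            (starRingEnd ℂ) (o.A l.castSucc p) * o.A j.castSucc p else 0) *
            (N6_P g l).eval (ze m u)) := by
            rw [← Finset.sum_sub_distrib, Finset.mul_sum]
            refine Finset.sum_congr rfl fun l _ => ?_
            unfold ONB.Mm
            ring
        _ = 0 := by rw [h2, h3, sub_zero, mul_zero]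
    have h4 : (fun l => (N6_P g l).eval (ze m u)) = 0 := by
      have h5 := congrArg (Nm (lam (mu m b u))).mulVec h1
      rw [Matrix.mulVec_mulVec, hM u hu hc, Matrix.one_mulVec, Matrix.mulVec_zero] at h5
      exact h5
    exact fun l => congrFun h4 l
  rintro ⟨a, l⟩
  have hP : N6_P g l = 0 := by
    refine Polynomial.eq_zero_of_natDegree_lt_card_of_eval_eq_zero' (N6_P g l)
      (((Finset.range m).filter (fun u => u.Coprime m)).image (ze m)) ?_ ?_
    · intro z hz
      obtain ⟨u, hu, rfl⟩ := Finset.mem_image.1 hz
      rw [Finset.mem_filter, Finset.mem_range] at hu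
      exact hv u hu.1 hu.2 l
    · rw [Finset.card_image_of_injOn]
      · have h6 : ((Finset.range m).filter (fun u => u.Coprime m)).card = m.totient := by
          rw [Nat.totient_eq_card_coprime]
          congr 1
          refine Finset.filter_congr fun u _ => ?_
          exact Nat.coprime_comm
        rw [h6]
        exact N6_deg (by omega) g l
      · intro u hu v hv' h
        rw [Finset.coe_filter, Set.mem_setOf_eq, Finset.mem_range] at hu hv'
        exact N6_inj hm0 hu.1 hv'.1 h
  have h7 := N6_coeff g l a
  rw [hP, Polynomial.coeff_zero] at h7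
  exact_mod_cast h7.symm

end SEJ
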