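import Pool.Agent.Lib.SE.J.Spec2

/-! # SE/J: the lattice is stable under `Z` -/

set_option autoImplicit false

open MeasureTheory Filter Topology HC HC.SE

noncomputable section

namespace SEJ

private theorem N7_prim (m u : ℕ) (hm : 0 < m) (hu : u.Coprime m) : IsPrimitiveRoot (ze m u) m := by
  have h1 := Complex.isPrimitiveRoot_exp_of_coprime u m hm.ne' hu
  have h2 : ze m u = Complex.exp (2 * Real.pi * Complex.I * (u / m)) := by
    rw [ze, mul_div_assoc]
  rw [h2]
  exact h1

private theorem N7_rel (m u : ℕ) (hm : 0 < m) (hu : u.Coprime m) :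
    ze m u ^ m.totient = ∑ i : Fin m.totient,
      ((-(Polynomial.cyclotomic m ℤ).coeff (i : ℕ) : ℤ) : ℂ) * ze m u ^ (i : ℕ) := by
  have h1 := (N7_prim m u hm hu).isRoot_cyclotomic hm
  have h2 : Polynomial.aeval (ze m u) (Polynomial.cyclotomic m ℤ) = 0 := by
    rw [Polynomial.IsRoot.def, ← Polynomial.map_cyclotomic_int, Polynomial.eval_map] at h1
    exact h1
  rw [Polynomial.aeval_eq_sum_range, Polynomial.natDegree_cyclotomic, Finset.sum_range_succ] at h2
  have h3 : (Polynomial.cyclotomic m ℤ).coeff m.totient = 1 := by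
    have h4 := (Polynomial.cyclotomic.monic m ℤ).coeff_natDegree
    rw [Polynomial.natDegree_cyclotomic] at h4
    exact h4
  rw [h3, one_smul] at h2
  rw [Fin.sum_univ_eq_sum_range (fun i => ((-(Polynomial.cyclotomic m ℤ).coeff i : ℤ) : ℂ) * ze m u ^ i)]
  rw [eq_neg_of_add_eq_zero_right h2, ← Finset.sum_neg_distrib]
  refine Finset.sum_congr rfl fun i _ => ?_
  rw [zsmul_eq_mul]
  push_cast
  ring

theorem tN7 : S_N7 := by
  intro m r s b _ o v hv
  have hL : o.L = Submodule.span ℤ (Set.range o.w) := rfl
  rw [hL] at hv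
  induction hv using Submodule.span_induction with
  | mem v hv =>
    obtain ⟨⟨a, l⟩, rfl⟩ := hv
    have hm : 0 < m := Nat.totient_pos.1 (lt_of_le_of_lt (Nat.zero_le _) a.2)
    rcases Nat.lt_or_ge ((a : ℕ) + 1) m.totient with h | h
    · have h1 : (fun p => ze m (ch p) * o.w (a, l) p) = o.w (⟨(a : ℕ) + 1, h⟩, l) := by
        funext p
        change ze m (ch p) * (ze m (ch p) ^ (a : ℕ) * o.A l.castSucc p) =
          ze m (ch p) ^ ((a : ℕ) + 1) * o.A l.castSucc p
        rw [pow_succ]
        ring
      rw [h1]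
      exact Submodule.subset_span ⟨_, rfl⟩
    · have ha : (a : ℕ) + 1 = m.totient := le_antisymm a.2 h
      have h1 : (fun p => ze m (ch p) * o.w (a, l) p) = ∑ i : Fin m.totient,
          (-(Polynomial.cyclotomic m ℤ).coeff (i : ℕ) : ℤ) • o.w (i, l) := by
        funext p
        rw [Finset.sum_apply]
        have h2 : ze m (ch p) * o.w (a, l) p = ze m (ch p) ^ m.totient * o.A l.castSucc p := by
          change ze m (ch p) * (ze m (ch p) ^ (a : ℕ) * o.A l.castSucc p) = _
          have h3 : ze m (ch p) ^ m.totient = ze m (ch p) ^ (a : ℕ) * ze m (ch p) := by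
            rw [← pow_succ]
            exact congrArg (fun t => ze m (ch p) ^ t) ha.symm
          rw [h3]
          ring
        rw [h2, N7_rel m (ch p) hm p.2.1, Finset.sum_mul]
        refine Finset.sum_congr rfl fun i _ => ?_
        rw [Pi.smul_apply, zsmul_eq_mul]
        change _ = _ * (ze m (ch p) ^ (i : ℕ) * o.A l.castSucc p)
        rw [mul_assoc]
      rw [h1]
      exact Submodule.sum_mem _ fun i _ => Submodule.smul_mem _ _ (Submodule.subset_span ⟨_, rfl⟩)
  | zero =>
    have h1 : (fun p : Ix m b => ze m (ch p) * (0 : Ix m b → ℂ) p) = 0 := by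
      funext p
      exact mul_zero _
    rw [h1]
    exact Submodule.zero_mem _
  | add x y _ _ hx hy =>
    have h1 : (fun p : Ix m b => ze m (ch p) * (x + y) p) =
        (fun p => ze m (ch p) * x p) + fun p => ze m (ch p) * y p := by
      funext p
      exact mul_add _ _ _
    rw [h1]
    exact Submodule.add_mem _ hx hy
  | smul c x _ hx =>
    have h1 : (fun p : Ix m b => ze m (ch p) * (c • x) p) = c • fun p => ze m (ch p) * x p := by
      funext p
      rw [Pi.smul_apply, Pi.smul_apply, mul_smul_comm]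
    rw [h1]
    exact Submodule.smul_mem _ _ hx

end SEJ
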