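import Pool.Agent.Lib.SE.J.Spec2

/-! # SE/J/N8: the Riemann form is rational on the lattice -/

set_option autoImplicit false

open MeasureTheory Filter Topology HC HC.SE

noncomputable section

namespace SEJ

/-- The form `∑_p Im (v_p conj (v'_p))`. -/
private def N8_B {ι : Type} [Fintype ι] (v v' : ι → ℂ) : ℝ :=
  ∑ p, (v p * (starRingEnd ℂ) (v' p)).im

private theorem N8_add_left {ι : Type} [Fintype ι] (v w v' : ι → ℂ) :
    N8_B (v + w) v' = N8_B v v' + N8_B w v' := by
  unfold N8_B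
  rw [← Finset.sum_add_distrib]
  refine Finset.sum_congr rfl fun p _ => ?_
  rw [Pi.add_apply, add_mul, Complex.add_im]

private theorem N8_add_right {ι : Type} [Fintype ι] (v v' w : ι → ℂ) :
    N8_B v (v' + w) = N8_B v v' + N8_B v w := by
  unfold N8_B
  rw [← Finset.sum_add_distrib]
  refine Finset.sum_congr rfl fun p _ => ?_
  rw [Pi.add_apply, map_add, mul_add, Complex.add_im]

private theorem N8_zsmul_left {ι : Type} [Fintype ι] (k : ℤ) (v v' : ι → ℂ) :
    N8_B (k • v) v' = k * N8_B v v' := by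
  unfold N8_B
  rw [Finset.mul_sum]
  refine Finset.sum_congr rfl fun p _ => ?_
  rw [Pi.smul_apply, zsmul_eq_mul, mul_assoc]
  simp

private theorem N8_zsmul_right {ι : Type} [Fintype ι] (k : ℤ) (v v' : ι → ℂ) :
    N8_B v (k • v') = k * N8_B v v' := by
  unfold N8_B
  rw [Finset.mul_sum]
  refine Finset.sum_congr rfl fun p _ => ?_
  rw [Pi.smul_apply, zsmul_eq_mul, map_mul, mul_left_comm]
  simp

private theorem N8_zero_left {ι : Type} [Fintype ι] (v' : ι → ℂ) : N8_B 0 v' = 0 := by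
  unfold N8_B
  simp

private theorem N8_zero_right {ι : Type} [Fintype ι] (v : ι → ℂ) : N8_B v 0 = 0 := by
  unfold N8_B
  simp

private theorem N8_span {ι κ : Type} [Fintype ι] (w : κ → ι → ℂ) (D : ℝ)
    (h : ∀ a c : κ, ∃ n : ℤ, D * N8_B (w a) (w c) = n) :
    ∀ v ∈ Submodule.span ℤ (Set.range w), ∀ v' ∈ Submodule.span ℤ (Set.range w),
      ∃ n : ℤ, D * N8_B v v' = n := by
  have h1 : ∀ a : κ, ∀ v' ∈ Submodule.span ℤ (Set.range w), ∃ n : ℤ, D * N8_B (w a) v' = n := by
    intro a v' hv'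
    induction hv' using Submodule.span_induction with
    | mem x hx =>
      obtain ⟨c, rfl⟩ := hx
      exact h a c
    | zero => exact ⟨0, by rw [N8_zero_right, mul_zero, Int.cast_zero]⟩
    | add x y _ _ hx hy =>
      obtain ⟨n1, h1⟩ := hx
      obtain ⟨n2, h2⟩ := hy
      exact ⟨n1 + n2, by rw [N8_add_right, mul_add, h1, h2, Int.cast_add]⟩
    | smul k x _ hx =>
      obtain ⟨n1, h1⟩ := hx
      exact ⟨k * n1, by rw [N8_zsmul_right, mul_left_comm, h1, Int.cast_mul]⟩
  intro v hv v' hv'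
  induction hv using Submodule.span_induction with
  | mem x hx =>
    obtain ⟨a, rfl⟩ := hx
    exact h1 a v' hv'
  | zero => exact ⟨0, by rw [N8_zero_left, mul_zero, Int.cast_zero]⟩
  | add x y _ _ hx hy =>
    obtain ⟨n1, h1⟩ := hx
    obtain ⟨n2, h2⟩ := hy
    exact ⟨n1 + n2, by rw [N8_add_left, mul_add, h1, h2, Int.cast_add]⟩
  | smul k x _ hx =>
    obtain ⟨n1, h1⟩ := hx
    exact ⟨k * n1, by rw [N8_zsmul_left, mul_left_comm, h1, Int.cast_mul]⟩

private theorem N8_im (z : ℂ) :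
    ((z.im : ℝ) : ℂ) = (2 * Complex.I)⁻¹ * (z - (starRingEnd ℂ) z) := by
  rw [Complex.sub_conj]
  push_cast
  field_simp

theorem tN8 : S_N8 := by
  intro hN0 hN5 m r s b hcov o hM
  obtain ⟨D, hD, h⟩ := hN5 hN0 s b hcov o.Mm hM
  refine ⟨D, hD, ?_⟩
  refine N8_span o.w (D : ℝ) ?_
  rintro ⟨a, l⟩ ⟨c, j⟩
  obtain ⟨n, hn⟩ := h a c j l
  refine ⟨n, ?_⟩
  have hm : 3 ≤ m := hcov.1
  have key : ((N8_B (o.w (a, l)) (o.w (c, j)) : ℝ) : ℂ) =
      ∑ u ∈ (Finset.range m).filter (fun u => u.Coprime m),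
        ze m u ^ (a : ℕ) * (starRingEnd ℂ) (ze m u ^ (c : ℕ)) * o.Mm u j l := by
    unfold N8_B
    rw [Complex.ofReal_sum]
    have e1 : ∀ p : Ix m b, (((o.w (a, l) p * (starRingEnd ℂ) (o.w (c, j) p)).im : ℝ) : ℂ) =
        (2 * Complex.I)⁻¹ * (ze m (ch p) ^ (a : ℕ) * (starRingEnd ℂ) (ze m (ch p) ^ (c : ℕ)) *
          (o.A l.castSucc p * (starRingEnd ℂ) (o.A j.castSucc p)) -
          (starRingEnd ℂ) (ze m (ch p)) ^ (a : ℕ) *
            (starRingEnd ℂ) ((starRingEnd ℂ) (ze m (ch p)) ^ (c : ℕ)) *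
          ((starRingEnd ℂ) (o.A l.castSucc p) * o.A j.castSucc p)) := by
      intro p
      rw [N8_im]
      unfold ONB.w
      simp only [map_mul, map_pow, Complex.conj_conj]
      ring
    rw [Finset.sum_congr rfl fun p _ => e1 p]
    have e2 : ∀ u : ℕ, ze m u ^ (a : ℕ) * (starRingEnd ℂ) (ze m u ^ (c : ℕ)) * o.Mm u j l =
        (2 * Complex.I)⁻¹ * ((∑ p : Ix m b, if ch p = u then
          ze m (ch p) ^ (a : ℕ) * (starRingEnd ℂ) (ze m (ch p) ^ (c : ℕ)) *
          (o.A l.castSucc p * (starRingEnd ℂ) (o.A j.castSucc p)) else 0) -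
          ∑ p : Ix m b, if ch p + u = m then ze m u ^ (a : ℕ) *
            (starRingEnd ℂ) (ze m u ^ (c : ℕ)) *
          ((starRingEnd ℂ) (o.A l.castSucc p) * o.A j.castSucc p) else 0) := by
      intro u
      unfold ONB.Mm
      rw [mul_left_comm, mul_sub, Finset.mul_sum, Finset.mul_sum]
      congr 2
      · refine Finset.sum_congr rfl fun p _ => ?_
        split_ifs with hp
        · rw [← hp]
        · rw [mul_zero]
      · refine Finset.sum_congr rfl fun p _ => ?_
        split_ifs with hp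
        · rfl
        · rw [mul_zero]
    rw [Finset.sum_congr rfl fun u _ => e2 u, ← Finset.mul_sum, ← Finset.mul_sum,
      Finset.sum_sub_distrib, Finset.sum_sub_distrib]
    congr 2
    · rw [Finset.sum_comm]
      refine Finset.sum_congr rfl fun p _ => ?_
      have hp : ch p ∈ (Finset.range m).filter (fun u => u.Coprime m) :=
        Finset.mem_filter.2 ⟨Finset.mem_range.2 p.1.1.2, p.2.1⟩
      rw [Finset.sum_ite_eq, if_pos hp]
    · rw [Finset.sum_comm]
      refine Finset.sum_congr rfl fun p _ => ?_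
      obtain ⟨-, -, -, h4, h5, -, h7, -⟩ := hN0 s b hcov (ch p) p.1.1.2 p.2.1
      have hlt : ch p < m := p.1.1.2
      have hp : m - ch p ∈ (Finset.range m).filter (fun u => u.Coprime m) :=
        Finset.mem_filter.2 ⟨Finset.mem_range.2 h5, h4⟩
      rw [Finset.sum_eq_single_of_mem _ hp, if_pos (by lia), h7]
      intro u _ hu
      rw [if_neg]
      intro h9
      exact hu (by lia)
  have h2 : ((((D : ℝ) * N8_B (o.w (a, l)) (o.w (c, j)) : ℝ)) : ℂ) = ((n : ℝ) : ℂ) := by
    rw [Complex.ofReal_mul, key]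
    push_cast
    exact_mod_cast hn
  exact_mod_cast h2

end SEJ
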