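import Pool.Agent.Lib.SE.J.Spec2

/-! # SE/J, module N9: the periods are in the lattice -/

set_option autoImplicit false

open MeasureTheory Filter Topology HC HC.SE

noncomputable section

namespace SEJ

private theorem N9_ze_pow {m : ℕ} (hm : m ≠ 0) (u : ℕ) : ze m u ^ m = 1 := by
  unfold ze
  rw [← Complex.exp_nat_mul]
  have hm' : (m : ℂ) ≠ 0 := by exact_mod_cast hm
  have h1 : (m : ℂ) * (2 * Real.pi * Complex.I * u / m) = (u : ℂ) * (2 * Real.pi * Complex.I) := by
    field_simp
  rw [h1]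
  exact Complex.exp_nat_mul_two_pi_mul_I u

private theorem N9_ze_ne {m : ℕ} (u : ℕ) : ze m u ≠ 0 := Complex.exp_ne_zero _

/-- the periods are in the lattice -/
theorem tN9 : S_N9 := by
  intro h0 h7 hE1 hE2 m r s b hcov o j a
  have hm : m ≠ 0 := by
    have := hcov.1
    omega
  -- multiplication by the powers of `ze`
  have hT : ∀ (k : ℕ) (v : Ix m b → ℂ), v ∈ o.L → (fun p => ze m (ch p) ^ k * v p) ∈ o.L := by
    intro k
    induction k with
    | zero =>
      intro v hv
      simpa using hv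
    | succ k ih =>
      intro v hv
      have h1 := h7 s b hcov o _ (ih v hv)
      have h2 : (fun p : Ix m b => ze m (ch p) ^ (k + 1) * v p)
          = fun p => ze m (ch p) * (ze m (ch p) ^ k * v p) := by
        funext p
        ring
      rw [h2]
      exact h1
  have hinv : ∀ (k : ℕ) (p : Ix m b), (ze m (ch p) ^ k)⁻¹ = ze m (ch p) ^ ((m - 1) * k) := by
    intro k p
    have h1 : ze m (ch p) ^ ((m - 1) * k) * ze m (ch p) ^ k = 1 := by
      rw [← pow_add]
      have h2 : (m - 1) * k + k = m * k := by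
        obtain ⟨n, rfl⟩ := Nat.exists_eq_succ_of_ne_zero hm
        simp only [Nat.succ_eq_add_one, Nat.add_sub_cancel]
        ring
      rw [h2, pow_mul, N9_ze_pow hm, one_pow]
    exact (eq_inv_of_mul_eq_one_left h1).symm
  have hTi : ∀ (k : ℕ) (v : Ix m b → ℂ), v ∈ o.L →
      (fun p => (ze m (ch p) ^ k)⁻¹ * v p) ∈ o.L := by
    intro k v hv
    have h1 := hT ((m - 1) * k) v hv
    have h2 : (fun p : Ix m b => (ze m (ch p) ^ k)⁻¹ * v p)
        = fun p => ze m (ch p) ^ ((m - 1) * k) * v p := by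
      funext p
      rw [hinv k p]
    rw [h2]
    exact h1
  -- the monodromy
  have hlam : ∀ (p : Ix m b) (l : Fin (r + 1)),
      lam (mu m b (ch p)) l = (ze m (ch p) ^ b l)⁻¹ := fun p l =>
    (h0 s b hcov (ch p) p.1.1.2 p.2.1).2.1 l
  -- the `A_l`, `l < r`, are in the lattice
  have hA : ∀ l : Fin r, (fun p => o.A l.castSucc p) ∈ o.L := by
    intro l
    have hpos : 0 < m.totient := Nat.totient_pos.2 (Nat.pos_of_ne_zero hm)
    have h1 : o.w (⟨0, hpos⟩, l) ∈ o.L := Submodule.subset_span ⟨_, rfl⟩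
    have h2 : o.w (⟨0, hpos⟩, l) = fun p => o.A l.castSucc p := by
      funext p
      simp [ONB.w]
    rw [h2] at h1
    exact h1
  -- the `(1 - λ_l) A_l`
  have hD1 : ∀ l : Fin r,
      (fun p => (1 - lam (mu m b (ch p)) l.castSucc) * o.A l.castSucc p) ∈ o.L := by
    intro l
    have h1 := o.L.sub_mem (hA l) (hTi (b l.castSucc) _ (hA l))
    have h2 : (fun p : Ix m b => (1 - lam (mu m b (ch p)) l.castSucc) * o.A l.castSucc p)
        = (fun p => o.A l.castSucc p) -
          fun p => (ze m (ch p) ^ b l.castSucc)⁻¹ * o.A l.castSucc p := by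
      funext p
      rw [hlam p, Pi.sub_apply]
      ring
    rw [h2]
    exact h1
  have hE1' : ∀ p : Ix m b, ∑ l, (1 - lam (mu m b (ch p)) l) * o.A l p = 0 := fun p =>
    hE1 s _ _ (o.good p)
  have hD : ∀ l : Fin (r + 1), (fun p => (1 - lam (mu m b (ch p)) l) * o.A l p) ∈ o.L := by
    intro l
    refine Fin.lastCases ?_ (fun i => hD1 i) l
    have h1 : (fun p : Ix m b => (1 - lam (mu m b (ch p)) (Fin.last r)) * o.A (Fin.last r) p)
        = - ∑ i : Fin r,
          fun p => (1 - lam (mu m b (ch p)) i.castSucc) * o.A i.castSucc p := by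
      funext p
      have h2 := hE1' p
      rw [Fin.sum_univ_castSucc] at h2
      rw [Pi.neg_apply, Finset.sum_apply]
      linear_combination h2
    rw [h1]
    exact o.L.neg_mem (o.L.sum_mem fun i _ => hD1 i)
  -- the formula for `(ze ^ b_j - 1) B_j`
  have hB : (fun p : Ix m b => (ze m (ch p) ^ b j - 1) * o.B j p)
      = (fun p => ze m (ch p) ^ b j * ((1 - lam (mu m b (ch p)) j) * o.A j p)) +
        ∑ l ∈ Finset.Ioi j,
          ((fun p => ze m (ch p) ^ b j * ((1 - lam (mu m b (ch p)) l) * o.A l p)) -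
            fun p => (1 - lam (mu m b (ch p)) l) * o.A l p) := by
    funext p
    have h1 : o.B j p = o.A j p + ∑ l ∈ Finset.Ioi j, (1 - lam (mu m b (ch p)) l) * o.A l p :=
      hE2 s _ _ (o.good p) j
    rw [Pi.add_apply, Finset.sum_apply, h1, mul_add, Finset.mul_sum]
    congr 1
    · rw [hlam p j]
      have hne : ze m (ch p) ^ b j ≠ 0 := pow_ne_zero _ (N9_ze_ne _)
      field_simp
    · refine Finset.sum_congr rfl fun l _ => ?_
      rw [Pi.sub_apply]
      ring
  have hBm : (fun p : Ix m b => (ze m (ch p) ^ b j - 1) * o.B j p) ∈ o.L := by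
    rw [hB]
    exact o.L.add_mem (hT _ _ (hD j))
      (o.L.sum_mem fun l _ => o.L.sub_mem (hT _ _ (hD l)) (hD l))
  exact hT a _ hBm

end SEJ
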