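import Pool.Agent.Lib.SE.J.A1
import Pool.Agent.Lib.SE.J.A2
import Pool.Agent.Lib.SE.J.B1
import Pool.Agent.Lib.SE.J.B2
import Pool.Agent.Lib.SE.J.C1
import Pool.Agent.Lib.SE.J.C2
import Pool.Agent.Lib.SE.J.C3
import Pool.Agent.Lib.SE.J.C4
import Pool.Agent.Lib.SE.J.C5
import Pool.Agent.Lib.SE.J.D1
import Pool.Agent.Lib.SE.J.D2
import Pool.Agent.Lib.SE.J.D3
import Pool.Agent.Lib.SE.J.D4
import Pool.Agent.Lib.SE.J.E1
import Pool.Agent.Lib.SE.J.E2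
import Pool.Agent.Lib.SE.J.E3
import Pool.Agent.Lib.SE.J.E4
import Pool.Agent.Lib.SE.J.E5
import Pool.Agent.Lib.SE.J.N0
import Pool.Agent.Lib.SE.J.N1
import Pool.Agent.Lib.SE.J.N1b
import Pool.Agent.Lib.SE.J.N2
import Pool.Agent.Lib.SE.J.N3
import Pool.Agent.Lib.SE.J.N4
import Pool.Agent.Lib.SE.J.N5
import Pool.Agent.Lib.SE.J.N6
import Pool.Agent.Lib.SE.J.N7
import Pool.Agent.Lib.SE.J.N8
import Pool.Agent.Lib.SE.J.N9
import Pool.Agent.Lib.SE.J.N10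
import Pool.Agent.Lib.SE.J.N11
import Pool.Agent.Lib.SE.J.N12
import Pool.Agent.Lib.SE.J.N13
import Pool.Agent.Lib.SE.J.N14
import Pool.Agent.Lib.SE.J.N15

/-! # SE/J: the new part of the Jacobian of `y ^ m = ∏ (x - s_j) ^ b_j` exists -/

set_option autoImplicit false

open MeasureTheory Filter Topology HC HC.SE

noncomputable section

namespace SEJ

section facts

variable {k : ℕ} (s : Fin k → ℂ) (μ : Fin k → ℝ) (P Q : Polynomial ℂ)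

theorem xE1 (h : Good s μ P) : ∑ j, (1 - lam μ j) * Tp s (frm s μ P) j = 0 :=
  tE1 tA1 tA2 tB1 tB2 tC1 tC2 tC3 tC4 tC5 s μ P h

theorem xE2 (h : Good s μ P) (j : Fin k) : Pp s (frm s μ P) j = Tp s (frm s μ P) j +
    ∑ l ∈ Finset.Ioi j, (1 - lam μ l) * Tp s (frm s μ P) l :=
  tE2 tA1 tA2 tB1 tB2 tC1 tC2 tC3 tC4 tC5 s μ P h j

theorem xE3 (h : Good s μ P) (h' : Good s μ Q) :
    2 * Complex.I * ∫ x : ℂ, frm s μ P x * (starRingEnd ℂ) (frm s μ Q x) =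
      - ∑ j, (1 - (lam μ j)⁻¹) * Pp s (frm s μ P) j * (starRingEnd ℂ) (Tp s (frm s μ Q) j) :=
  tE3 tA1 tA2 tB1 tB2 tC1 tC2 tC3 tC4 tC5 tD1 tD2 tD3 tD4 s μ P Q h h'

theorem xE4 (h : Good s μ P) (h' : Good s (fun j => 1 - μ j) Q) :
    0 = ∑ j, (1 - (lam μ j)⁻¹) * Pp s (frm s μ P) j *
      Tp s (frm s (fun j => 1 - μ j) Q) j :=
  tE4 tA1 tA2 tB1 tB2 tC1 tC2 tC3 tC4 tC5 tD1 tD2 tD3 tD4 s μ P Q h h'

theorem xE5 (h : Good s μ P) :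
    Integrable (fun x => ‖frm s μ P x‖ ^ 2) ∧ (P ≠ 0 → 0 < ∫ x : ℂ, ‖frm s μ P x‖ ^ 2) :=
  tE5 tA1 tC1 tC2 s μ P h

theorem xD1 (h : Good s μ P) (x : ℂ) (hx : ∀ j, x.im = (s j).im → (s j).re < x.re) :
    HasDerivAt (prm (frm s μ P)) (frm s μ P x) x :=
  tD1 tC1 tC2 tC5 s μ P h x hx

theorem xN11 (h : Good s μ P) (j : Fin k) (x₀ : ℂ) (h1 : x₀.im = (s j).im)
    (h2 : x₀.re < (s j).re) :
    ∃ G : ℂ → ℂ, ∀ᶠ x in 𝓝 x₀,
      (if (s j).im ≤ x.im then G x = prm (frm s μ P) x ∧ HasDerivAt G (frm s μ P x) x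
        else lam μ j * G x = prm (frm s μ P) x - (1 - lam μ j) * Pp s (frm s μ P) j ∧
          HasDerivAt G ((lam μ j)⁻¹ * frm s μ P x) x) :=
  tN11 tC1 tC2 tC5 tD1 (fun {k} s μ P h => tD3 tA2 tC2 tC3 s μ P h)
    (fun {k} s μ P h => tD4 tA2 tC2 tC4 s μ P h) s μ P h j x₀ h1 h2

end facts

section onb

variable {m r : ℕ} (s : Fin (r + 1) → ℂ) (b : Fin (r + 1) → ℕ)

theorem onb_ex (hc : IsCov m s b) (hs : StrictMono fun j => (s j).im) : Nonempty (ONB m s b) :=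
  tN4 tN0 xE5 s b hc hs

theorem onb_inv (hc : IsCov m s b) (hs : StrictMono fun j => (s j).im) (o : ONB m s b) (u : ℕ)
    (hu : u < m) (hu' : u.Coprime m) : Nm (lam (mu m b u)) * o.Mm u = 1 :=
  tN3 tN0 tN1 tN2 xE1 xE2 xE3 xE4 s b hc hs o u hu hu'

theorem onb_li (hc : IsCov m s b) (hs : StrictMono fun j => (s j).im) (o : ONB m s b) :
    LinearIndependent ℝ o.w :=
  tN6 tN0 s b hc o (onb_inv s b hc hs o)

theorem onb_jac (hc : IsCov m s b) (hs : StrictMono fun j => (s j).im) (o : ONB m s b) :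
    Nonempty (Jac o) :=
  N14_jac hc o (onb_li s b hc hs o) (tN1b tN1 s b hc) (tN7 s b hc o)
    (tN8 tN0 tN5 s b hc o (onb_inv s b hc hs o))
    (tN12 tN0 tN10 xD1 xN11 s b hc hs o (tN9 tN0 tN7 xE1 xE2 s b hc o)) (tN13 tN10 xE5 s b hc o)

end onb

theorem tNewEx : S_NewEx := by
  intro m r s b hc
  refine tN15 (fun {m r} s b hc hs => ?_) s b hc
  obtain ⟨o⟩ := onb_ex s b hc hs
  obtain ⟨J⟩ := onb_jac s b hc hs o
  exact ⟨J.T, J.D, J.R, J.pol⟩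

end SEJ
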