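import Pool.Agent.Lib.SE.J.Spec

/-! # SE/J, module A1: integrability of the majorant -/

set_option autoImplicit false

open MeasureTheory Filter Topology

noncomputable section

namespace SEJ

/-- `|x|^(-ν)` is integrable near `0` in the plane for `ν < 2`. -/
lemma A1_ball0 {ν r : ℝ} (hν : ν < 2) (hr : 0 < r) :
    IntegrableOn (fun x : ℂ => ‖x‖ ^ (-ν)) (Metric.ball (0 : ℂ) r) := by
  have h := (integrableOn_fun_norm_addHaar (E := ℂ) (F := ℝ) (μ := volume)
    (f := fun y => y ^ (-ν)) (r := r)).2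
  refine h ?_
  have h2 : Module.finrank ℝ ℂ - 1 = 1 := by rw [Complex.finrank_real_complex]
  rw [h2]
  have h3 : IntegrableOn (fun y : ℝ => y ^ (1 - ν)) (Set.Ioo 0 r) :=
    (intervalIntegral.integrableOn_Ioo_rpow_iff hr).2 (by linarith)
  refine h3.congr_fun ?_ measurableSet_Ioo
  intro y hy
  have hy0 : 0 < y := hy.1
  simp only [pow_one, smul_eq_mul]
  rw [sub_eq_add_neg, Real.rpow_add hy0, Real.rpow_one]

lemma A1_ball {ν r : ℝ} (hν : ν < 2) (hr : 0 < r) (c : ℂ) :
    IntegrableOn (fun x : ℂ => ‖x - c‖ ^ (-ν)) (Metric.ball c r) := by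
  have h := A1_ball0 hν hr
  rw [← integrable_indicator_iff measurableSet_ball] at h ⊢
  have h2 := h.comp_sub_right c
  refine h2.congr (Filter.Eventually.of_forall fun x => ?_)
  by_cases hx : x ∈ Metric.ball c r
  · have hx' : x - c ∈ Metric.ball (0 : ℂ) r := by
      rw [mem_ball_zero_iff, ← dist_eq_norm]
      exact hx
    simp only [Set.indicator_of_mem hx, Set.indicator_of_mem hx']
  · have hx' : x - c ∉ Metric.ball (0 : ℂ) r := by
      rw [mem_ball_zero_iff, ← dist_eq_norm]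
      exact hx
    simp only [Set.indicator_of_notMem hx, Set.indicator_of_notMem hx']

lemma A1_meas {k : ℕ} (s : Fin k → ℂ) (ν : Fin k → ℝ) (d : ℝ) : Measurable (maj s ν d) := by
  unfold maj
  refine Measurable.mul ((measurable_const.add measurable_norm).pow_const _) ?_
  refine Finset.measurable_prod _ fun j _ => ?_
  exact ((measurable_id.sub_const _).norm).pow_const _

lemma A1_maj_nonneg {k : ℕ} (s : Fin k → ℂ) (ν : Fin k → ℝ) (d : ℝ) (x : ℂ) : 0 ≤ maj s ν d x := by
  unfold maj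
  positivity

/-- a positive radius which separates the `s_j` -/
lemma A1_sep {k : ℕ} (s : Fin k → ℂ) (hs : Function.Injective s) :
    ∃ r : ℝ, 0 < r ∧ ∀ j l, j ≠ l → 2 * r ≤ ‖s j - s l‖ := by
  classical
  by_cases hne : (Finset.univ.filter fun p : Fin k × Fin k => p.1 ≠ p.2).Nonempty
  · obtain ⟨p, hp, hmin⟩ := Finset.exists_min_image _ (fun p : Fin k × Fin k => ‖s p.1 - s p.2‖) hne
    have hp' : p.1 ≠ p.2 := (Finset.mem_filter.1 hp).2
    refine ⟨‖s p.1 - s p.2‖ / 2, ?_, ?_⟩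
    · have : s p.1 - s p.2 ≠ 0 := sub_ne_zero.2 fun h => hp' (hs h)
      have := norm_pos_iff.2 this
      linarith
    · intro j l hjl
      have := hmin (j, l) (Finset.mem_filter.2 ⟨Finset.mem_univ _, hjl⟩)
      simpa [mul_div_cancel₀] using this
  · refine ⟨1, one_pos, fun j l hjl => ?_⟩
    exact absurd ⟨(j, l), Finset.mem_filter.2 ⟨Finset.mem_univ _, hjl⟩⟩ hne

/-- bound for the factor of `s_l` away from the ball of radius `r` around `s_l` -/
lemma A1_far {c x : ℂ} {r ν : ℝ} (hr : 0 < r) (hν : 0 ≤ ν) (h : r ≤ ‖x - c‖) :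
    ‖x - c‖ ^ (-ν) ≤ (1 + (1 + ‖c‖) / r) ^ ν * (1 + ‖x‖) ^ (-ν) := by
  have hx0 : 0 < ‖x - c‖ := lt_of_lt_of_le hr h
  have h1 : 0 < 1 + ‖x‖ := by positivity
  have hK : 0 < 1 + (1 + ‖c‖) / r := by positivity
  have h2 : 1 + ‖x‖ ≤ (1 + (1 + ‖c‖) / r) * ‖x - c‖ := by
    have h3 : ‖x‖ ≤ ‖x - c‖ + ‖c‖ := by
      have := norm_add_le (x - c) c
      simpa using this
    have h4 : (1 + ‖c‖) ≤ (1 + ‖c‖) / r * ‖x - c‖ := by
      rw [div_mul_eq_mul_div, le_div_iff₀ hr]
      exact mul_le_mul_of_nonneg_left h (by positivity)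
    nlinarith
  rw [Real.rpow_neg hx0.le, Real.rpow_neg h1.le, ← div_eq_mul_inv, ← one_div,
    div_le_div_iff₀ (Real.rpow_pos_of_pos hx0 _) (Real.rpow_pos_of_pos h1 _), one_mul,
    ← Real.mul_rpow hK.le hx0.le]
  exact Real.rpow_le_rpow h1.le h2 hν

theorem tA1 : S_A1 := by
  intro k s ν d hs hd hν0 hν2 hsum
  classical
  obtain ⟨r, hr, hsep⟩ := A1_sep s hs
  -- constants
  set K : Fin k → ℝ := fun l => (1 + (1 + ‖s l‖) / r) ^ ν l with hK
  have hK0 : ∀ l, 0 ≤ K l := fun l => by positivity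
  have hK1 : ∀ l, 1 ≤ K l := fun l => Real.one_le_rpow (by
    have : 0 ≤ (1 + ‖s l‖) / r := by positivity
    linarith) (hν0 l)
  set C : ℝ := ∏ l, K l with hC
  have hC0 : 0 ≤ C := Finset.prod_nonneg fun l _ => hK0 l
  set D : Fin k → ℝ := fun j => (1 + (‖s j‖ + r)) ^ d * C with hD
  set g : ℂ → ℝ := fun x => (∑ j, D j * (Metric.ball (s j) r).indicator
    (fun x => ‖x - s j‖ ^ (-(ν j))) x) + C * (1 + ‖x‖) ^ (-(∑ j, ν j - d)) with hg
  have hgint : Integrable g := by
    refine Integrable.add (integrable_finsetSum _ fun j _ => ?_) ?_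
    · exact ((integrable_indicator_iff measurableSet_ball).2 (A1_ball (hν2 j) hr (s j))).const_mul _
    · refine (integrable_one_add_norm (E := ℂ) ?_).const_mul _
      rw [Complex.finrank_real_complex]
      push_cast
      linarith
  refine hgint.mono' (A1_meas s ν d).aestronglyMeasurable (Filter.Eventually.of_forall fun x => ?_)
  rw [Real.norm_of_nonneg (A1_maj_nonneg s ν d x)]
  have hx1 : 0 < 1 + ‖x‖ := by positivity
  have hterm : ∀ j, 0 ≤ D j * (Metric.ball (s j) r).indicator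
      (fun x => ‖x - s j‖ ^ (-(ν j))) x := by
    intro j
    refine mul_nonneg (by positivity) (Set.indicator_nonneg (fun y _ => by positivity) x)
  by_cases hex : ∃ j, x ∈ Metric.ball (s j) r
  · obtain ⟨j, hj⟩ := hex
    have hjd : ‖x - s j‖ < r := by rwa [Metric.mem_ball, dist_eq_norm] at hj
    have hfar : ∀ l, l ≠ j → r ≤ ‖x - s l‖ := by
      intro l hl
      have h1 := hsep j l (Ne.symm hl)
      have h2 : ‖s j - s l‖ ≤ ‖s j - x‖ + ‖x - s l‖ := by
        have := norm_add_le (s j - x) (x - s l)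
        simpa using this
      rw [norm_sub_rev (s j) x] at h2
      linarith
    have hle : maj s ν d x ≤ D j * ‖x - s j‖ ^ (-(ν j)) := by
      unfold maj
      have h1 : (1 + ‖x‖) ^ d ≤ (1 + (‖s j‖ + r)) ^ d := by
        refine Real.rpow_le_rpow hx1.le ?_ hd
        have : ‖x‖ ≤ ‖x - s j‖ + ‖s j‖ := by
          have := norm_add_le (x - s j) (s j)
          simpa using this
        linarith
      have h2 : ∏ l, ‖x - s l‖ ^ (-(ν l)) ≤ C * ‖x - s j‖ ^ (-(ν j)) := by
        rw [hC, ← Finset.mul_prod_erase _ _ (Finset.mem_univ j),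
          ← Finset.mul_prod_erase _ K (Finset.mem_univ j)]
        have h3 : ∏ l ∈ Finset.univ.erase j, ‖x - s l‖ ^ (-(ν l)) ≤
            ∏ l ∈ Finset.univ.erase j, K l := by
          refine Finset.prod_le_prod (fun l _ => by positivity) fun l hl => ?_
          refine (A1_far hr (hν0 l) (hfar l (Finset.ne_of_mem_erase hl))).trans ?_
          refine mul_le_of_le_one_right (hK0 l) ?_
          exact Real.rpow_le_one_of_one_le_of_nonpos (by linarith [norm_nonneg x])
            (by linarith [hν0 l])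
        have h4 : 0 ≤ ∏ l ∈ Finset.univ.erase j, K l := Finset.prod_nonneg fun l _ => hK0 l
        have h5 : 0 ≤ ‖x - s j‖ ^ (-(ν j)) := by positivity
        calc ‖x - s j‖ ^ (-(ν j)) * ∏ l ∈ Finset.univ.erase j, ‖x - s l‖ ^ (-(ν l))
            ≤ ‖x - s j‖ ^ (-(ν j)) * ∏ l ∈ Finset.univ.erase j, K l :=
              mul_le_mul_of_nonneg_left h3 h5
          _ = 1 * (∏ l ∈ Finset.univ.erase j, K l) * ‖x - s j‖ ^ (-(ν j)) := by ring
          _ ≤ K j * (∏ l ∈ Finset.univ.erase j, K l) * ‖x - s j‖ ^ (-(ν j)) := by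
              refine mul_le_mul_of_nonneg_right (mul_le_mul_of_nonneg_right (hK1 j) h4) h5
      calc (1 + ‖x‖) ^ d * ∏ l, ‖x - s l‖ ^ (-(ν l))
          ≤ (1 + (‖s j‖ + r)) ^ d * (C * ‖x - s j‖ ^ (-(ν j))) := by
            refine mul_le_mul h1 h2 (Finset.prod_nonneg fun l _ => by positivity) (by positivity)
        _ = D j * ‖x - s j‖ ^ (-(ν j)) := by rw [hD]; ring
    refine hle.trans ?_
    have h6 : D j * ‖x - s j‖ ^ (-(ν j)) = D j * (Metric.ball (s j) r).indicator
        (fun x => ‖x - s j‖ ^ (-(ν j))) x := by rw [Set.indicator_of_mem hj]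
    rw [h6, hg]
    have h7 := Finset.single_le_sum (fun l _ => hterm l) (Finset.mem_univ j)
    have h8 : 0 ≤ C * (1 + ‖x‖) ^ (-(∑ j, ν j - d)) := by positivity
    simp only at h7 ⊢
    linarith
  · push Not at hex
    have hfar : ∀ l, r ≤ ‖x - s l‖ := by
      intro l
      have := hex l
      rw [Metric.mem_ball, dist_eq_norm, not_lt] at this
      exact this
    have h0 : maj s ν d x ≤ C * (1 + ‖x‖) ^ (-(∑ j, ν j - d)) := by
      unfold maj
      have h1 : ∏ l, ‖x - s l‖ ^ (-(ν l)) ≤ ∏ l, (K l * (1 + ‖x‖) ^ (-(ν l))) :=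
        Finset.prod_le_prod (fun l _ => by positivity) fun l _ => A1_far hr (hν0 l) (hfar l)
      rw [Finset.prod_mul_distrib] at h1
      have h2 : ∏ l, (1 + ‖x‖) ^ (-(ν l)) = (1 + ‖x‖) ^ (∑ l, -(ν l)) :=
        (Real.rpow_sum_of_pos hx1 _ _).symm
      rw [h2] at h1
      calc (1 + ‖x‖) ^ d * ∏ l, ‖x - s l‖ ^ (-(ν l))
          ≤ (1 + ‖x‖) ^ d * (C * (1 + ‖x‖) ^ (∑ l, -(ν l))) :=
            mul_le_mul_of_nonneg_left h1 (by positivity)
        _ = C * ((1 + ‖x‖) ^ d * (1 + ‖x‖) ^ (∑ l, -(ν l))) := by ring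
        _ = C * (1 + ‖x‖) ^ (-(∑ j, ν j - d)) := by
            rw [← Real.rpow_add hx1]
            congr 2
            rw [Finset.sum_neg_distrib]
            ring
    refine h0.trans ?_
    rw [hg]
    have h9 : 0 ≤ ∑ j, D j * (Metric.ball (s j) r).indicator (fun x => ‖x - s j‖ ^ (-(ν j))) x :=
      Finset.sum_nonneg fun j _ => hterm j
    simp only
    linarith

end SEJ
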