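import Pool.Agent.Lib.SE.J.Spec

/-! # SE/J: module E2, the relation for `Pp` -/

set_option autoImplicit false

open MeasureTheory Filter Topology

noncomputable section

namespace SEJ

private lemma E2_meas_xi {k : ℕ} (s : Fin k → ℂ) (μ : Fin k → ℝ) : Measurable (xi s μ) := by
  unfold xi
  exact Finset.measurable_fun_prod _ fun j _ => (measurable_id.sub_const _).pow_const _

private lemma E2_meas_frm {k : ℕ} (s : Fin k → ℂ) (μ : Fin k → ℝ) (P : Polynomial ℂ) :
    Measurable (frm s μ P) := by
  unfold frm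
  exact P.continuous.measurable.mul (E2_meas_xi s μ)

private lemma E2_meas_dfrm {k : ℕ} (s : Fin k → ℂ) (μ : Fin k → ℝ) (P : Polynomial ℂ) :
    Measurable (dfrm s μ P) := by
  unfold dfrm
  refine Measurable.mul (Measurable.sub P.derivative.continuous.measurable
    (P.continuous.measurable.mul ?_)) (E2_meas_xi s μ)
  exact Finset.measurable_fun_sum _ fun j _ => measurable_const.div (measurable_id.sub_const _)

private lemma E2_int_dfrm (hA1 : S_A1) (hC2 : S_C2) {k : ℕ} (s : Fin k → ℂ) (μ : Fin k → ℝ)
    (P : Polynomial ℂ) (hG : Good s μ P) (hP : P ≠ 0) : Integrable (dfrm s μ P) := by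
  obtain ⟨C, d, hd, hds, hC, -, hb⟩ := hC2 s μ P hG hP
  have hinj : Function.Injective s := by
    intro i j hij
    exact hG.im.injective (by simp only [hij])
  have h1 : ∀ l : Fin k, Integrable (maj s (fun j => μ j + if j = l then 1 else 0) d) := by
    intro l
    refine hA1 s _ d hinj hd (fun j => ?_) (fun j => ?_) ?_
    · have := hG.pos j
      split_ifs <;> linarith
    · have := hG.lt j
      split_ifs <;> linarith
    · rw [Finset.sum_add_distrib, Finset.sum_ite_eq' Finset.univ l, if_pos (Finset.mem_univ l)]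
      linarith
  have h2 : Integrable (fun x => C * ∑ l, maj s (fun j => μ j + if j = l then 1 else 0) d x) :=
    (integrable_finsetSum _ fun l _ => h1 l).const_mul C
  refine h2.mono' (E2_meas_dfrm s μ P).aestronglyMeasurable ?_
  have h3 : ∀ᵐ x : ℂ, ∀ j, x ≠ s j := by
    rw [ae_all_iff]
    intro j
    exact (measure_eq_zero_iff_ae_notMem.mp (measure_singleton (s j))).mono
      fun x hx => by simpa using hx
  exact h3.mono fun x hx => hb x hx

private lemma E2_int_line (hA2 : S_A2) (hC2 : S_C2) {k : ℕ} (s : Fin k → ℂ) (μ : Fin k → ℝ)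
    (P : Polynomial ℂ) (hG : Good s μ P) (hP : P ≠ 0) (b : ℝ) :
    Integrable (fun a : ℝ => frm s μ P (pt a b)) := by
  obtain ⟨C, d, hd, hds, hC, hb, -⟩ := hC2 s μ P hG hP
  obtain ⟨F, hF, hFb⟩ := hA2 s μ d hG.im hd (fun j => (hG.pos j).le) hG.lt hds
  have hm : Measurable (fun a : ℝ => frm s μ P (pt a b)) := by
    refine (E2_meas_frm s μ P).comp ?_
    unfold pt
    exact (Complex.measurable_ofReal).add_const _
  refine (hF.const_mul C).mono' hm.aestronglyMeasurable ?_
  have h3 : ∀ᵐ a : ℝ, ∀ j, a ≠ (s j).re := by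
    rw [ae_all_iff]
    intro j
    exact (measure_eq_zero_iff_ae_notMem.mp (measure_singleton (s j).re)).mono
      fun x hx => by simpa using hx
  exact h3.mono fun a ha => (hb _).trans (mul_le_mul_of_nonneg_left (hFb a b ha) hC)

private lemma E2_pt_im (a b : ℝ) : (pt a b).im = b := by simp [pt]

private lemma E2_pt_re (a b : ℝ) : (pt a b).re = a := by simp [pt]

private lemma E2_cob_b (a : ℝ) (l : Filter ℝ) (hl : Tendsto (fun b : ℝ => |b|) l atTop) :
    Tendsto (fun b => pt a b) l (Bornology.cobounded ℂ) := by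
  rw [← tendsto_norm_atTop_iff_cobounded]
  refine tendsto_atTop_mono (fun b => ?_) hl
  have := Complex.abs_im_le_norm (pt a b)
  rwa [E2_pt_im] at this

private lemma E2_cob_a (b : ℝ) (l : Filter ℝ) (hl : Tendsto (fun a : ℝ => |a|) l atTop) :
    Tendsto (fun a => pt a b) l (Bornology.cobounded ℂ) := by
  rw [← tendsto_norm_atTop_iff_cobounded]
  refine tendsto_atTop_mono (fun a => ?_) hl
  have := Complex.abs_re_le_norm (pt a b)
  rwa [E2_pt_re] at this

theorem tE2 : S_E2 := by
  intro hA1 hA2 hB1 hB2 hC1 hC2 hC3 hC4 hC5 k s μ P hG j₀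
  by_cases hP : P = 0
  · subst hP
    simp [Pp, Tp, frm]
  set β : Fin k → ℝ := fun j => (s j).im with hβ
  have hmono : StrictMono β := hG.im
  set ρ : Finset ℝ := Finset.univ.image fun j => (s j).re with hρ
  have hρn : ∀ a ∉ ρ, ∀ j, a ≠ (s j).re := by
    intro a ha j h
    exact ha (Finset.mem_image.mpr ⟨j, Finset.mem_univ j, h.symm⟩)
  let H : ℝ → ℝ → ℂ := fun a b => if β j₀ < b then frm s μ P (pt a b) else 0
  let Ha : ℝ → ℝ → ℂ := fun a b => if β j₀ < b then dfrm s μ P (pt a b) else 0
  let u : Fin k → ℝ → ℂ := fun j a => if j₀ ≤ j then frm s μ P (pt a (s j).im) else 0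
  let l : Fin k → ℝ → ℂ := fun j a =>
    if j₀ < j then (if a < (s j).re then lam μ j else 1) * frm s μ P (pt a (s j).im) else 0
  have hslit : ∀ a b : ℝ, (∀ j, b ≠ β j) → ∀ j, pt a b - s j ∈ Complex.slitPlane := by
    intro a b hb j
    right
    rw [Complex.sub_im, E2_pt_im]
    exact sub_ne_zero.mpr (hb j)
  have hDb : ∀ a b : ℝ, (∀ j, b ≠ β j) → HasDerivAt (fun b => H a b) (Complex.I * Ha a b) b := by
    intro a b hb
    rcases lt_or_gt_of_ne (hb j₀) with h | h
    · have h1 : (fun b => H a b) =ᶠ[𝓝 b] fun _ => 0 := by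
        filter_upwards [Iio_mem_nhds h] with b' hb'
        exact if_neg (not_lt.mpr (le_of_lt hb'))
      have h2 : Complex.I * Ha a b = 0 := by
        have : Ha a b = 0 := if_neg (not_lt.mpr h.le)
        rw [this, mul_zero]
      rw [h2]
      exact (hasDerivAt_const b (0 : ℂ)).congr_of_eventuallyEq h1
    · have h1 : (fun b => H a b) =ᶠ[𝓝 b] fun b => frm s μ P (pt a b) := by
        filter_upwards [Ioi_mem_nhds h] with b' hb'
        exact if_pos hb'
      have h2 : Ha a b = dfrm s μ P (pt a b) := if_pos h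
      rw [h2]
      have h3 := hC1 s μ P (pt a b) (hslit a b hb)
      have h4 : HasDerivAt (fun b : ℝ => pt a b) Complex.I b := by
        have h5 := (((hasDerivAt_id b).ofReal_comp).mul_const Complex.I).const_add (a : ℂ)
        simpa [pt] using h5
      have h6 := HasDerivAt.comp b h3 h4
      rw [mul_comm] at h6
      exact h6.congr_of_eventuallyEq h1
  have hDa : ∀ b : ℝ, (∀ j, b ≠ β j) → ∀ a, HasDerivAt (fun a => H a b) (Ha a b) a := by
    intro b hb a
    rcases lt_or_gt_of_ne (hb j₀) with h | h
    · have h1 : (fun a => H a b) = fun _ => 0 := by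
        funext a'
        exact if_neg (not_lt.mpr h.le)
      have h2 : Ha a b = 0 := if_neg (not_lt.mpr h.le)
      rw [h2, h1]
      exact hasDerivAt_const a (0 : ℂ)
    · have h1 : (fun a => H a b) = fun a => frm s μ P (pt a b) := by
        funext a'
        exact if_pos h
      have h2 : Ha a b = dfrm s μ P (pt a b) := if_pos h
      rw [h2, h1]
      have h3 := hC1 s μ P (pt a b) (hslit a b hb)
      have h4 : HasDerivAt (fun a : ℝ => pt a b) 1 a := by
        have h5 := ((hasDerivAt_id a).ofReal_comp).add_const ((b : ℂ) * Complex.I)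
        simpa [pt] using h5
      have h6 := HasDerivAt.comp a h3 h4
      rw [mul_one] at h6
      exact h6
  have hint : Integrable (fun p : ℝ × ℝ => Ha p.1 p.2) := by
    have h1 := E2_int_dfrm hA1 hC2 s μ P hG hP
    have h2 : Integrable ((fun x : ℂ => dfrm s μ P x) ∘ Complex.measurableEquivRealProd.symm) :=
      (Complex.volume_preserving_equiv_real_prod.symm.integrable_comp_emb
        Complex.measurableEquivRealProd.symm.measurableEmbedding).mpr h1
    have h3 : MeasurableSet {p : ℝ × ℝ | β j₀ < p.2} := measurableSet_lt measurable_const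
      measurable_snd
    have h4 := h2.indicator h3
    refine h4.congr (Eventually.of_forall fun p => ?_)
    change Set.indicator {p : ℝ × ℝ | β j₀ < p.2} _ p = if β j₀ < p.2 then _ else _
    rw [Set.indicator_apply]
    refine if_congr Iff.rfl ?_ rfl
    change dfrm s μ P (Complex.measurableEquivRealProd.symm p) = _
    congr 1
    apply Complex.ext
    · rw [E2_pt_re]
      rfl
    · rw [E2_pt_im]
      rfl
  have hup : ∀ a ∉ ρ, ∀ j, Tendsto (fun b => H a b) (𝓝[>] (β j)) (𝓝 (u j a)) := by
    intro a ha j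
    by_cases hj : j₀ ≤ j
    · have h1 : u j a = frm s μ P (pt a (s j).im) := if_pos hj
      rw [h1]
      refine (hC3 s μ P hG j a (hρn a ha j)).congr' ?_
      filter_upwards [self_mem_nhdsWithin] with b hb
      exact (if_pos (lt_of_le_of_lt (hmono.monotone hj) hb)).symm
    · have h1 : u j a = 0 := if_neg hj
      rw [h1]
      refine tendsto_const_nhds.congr' ?_
      have h2 : β j < β j₀ := hmono (not_le.mp hj)
      filter_upwards [mem_nhdsWithin_of_mem_nhds (Iio_mem_nhds h2)] with b hb
      exact (if_neg (not_lt.mpr (le_of_lt hb))).symm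
  have hlo : ∀ a ∉ ρ, ∀ j, Tendsto (fun b => H a b) (𝓝[<] (β j)) (𝓝 (l j a)) := by
    intro a ha j
    by_cases hj : j₀ < j
    · have h1 : l j a = (if a < (s j).re then lam μ j else 1) * frm s μ P (pt a (s j).im) :=
        if_pos hj
      rw [h1]
      refine (hC4 s μ P hG j a (hρn a ha j)).congr' ?_
      have h2 : β j₀ < β j := hmono hj
      filter_upwards [mem_nhdsWithin_of_mem_nhds (Ioi_mem_nhds h2)] with b hb
      exact (if_pos hb).symm
    · have h1 : l j a = 0 := if_neg hj
      rw [h1]
      refine tendsto_const_nhds.congr' ?_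
      filter_upwards [self_mem_nhdsWithin] with b hb
      exact (if_neg (not_lt.mpr ((le_of_lt hb).trans (hmono.monotone (not_lt.mp hj))))).symm
  have hbot : ∀ a ∉ ρ, Tendsto (fun b => H a b) atBot (𝓝 0) := by
    intro a _
    refine tendsto_const_nhds.congr' ?_
    filter_upwards [Iio_mem_atBot (β j₀)] with b hb
    exact (if_neg (not_lt.mpr (le_of_lt hb))).symm
  have htop : ∀ a ∉ ρ, Tendsto (fun b => H a b) atTop (𝓝 0) := by
    intro a _
    refine ((hC5 hC2 s μ P hG).comp (E2_cob_b a atTop tendsto_abs_atTop_atTop)).congr' ?_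
    filter_upwards [Ioi_mem_atTop (β j₀)] with b hb
    exact (if_pos hb).symm
  have hab : ∀ (L : Filter ℝ), Tendsto (fun a : ℝ => |a|) L atTop →
      ∀ b, (∀ j, b ≠ β j) → Tendsto (fun a => H a b) L (𝓝 0) := by
    intro L hL b hb
    rcases lt_or_gt_of_ne (hb j₀) with h | h
    · refine tendsto_const_nhds.congr fun a => ?_
      exact (if_neg (not_lt.mpr h.le)).symm
    · refine ((hC5 hC2 s μ P hG).comp (E2_cob_a b L hL)).congr fun a => ?_
      exact (if_pos h).symm
  have key := hB2 hB1 β ρ H Ha (fun a b => Complex.I * Ha a b) (fun _ _ => 0) 0 Complex.I u l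
    hmono (fun a _ b hb => hDb a b hb) hDa (fun a b _ => by ring) hint
    (integrable_zero _ _ _) hup hlo hbot htop
    (hab atBot tendsto_abs_atBot_atTop) (hab atTop tendsto_abs_atTop_atTop)
  rw [zero_mul] at key
  -- evaluation of the right hand side
  set f : ℂ → ℂ := frm s μ P with hf
  have hline : ∀ b : ℝ, Integrable (fun a : ℝ => f (pt a b)) :=
    E2_int_line hA2 hC2 s μ P hG hP
  have hsum : ∀ a : ℝ, ∑ j, (l j a - u j a) = ∑ j ∈ Finset.Ioi j₀,
      (Set.Iio (s j).re).indicator (fun a => (lam μ j - 1) * f (pt a (s j).im)) a -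
      f (pt a (s j₀).im) := by
    intro a
    have h1 : ∀ j, l j a - u j a = (if j₀ < j then
        (Set.Iio (s j).re).indicator (fun a => (lam μ j - 1) * f (pt a (s j).im)) a else 0) -
        (if j₀ = j then f (pt a (s j₀).im) else 0) := by
      intro j
      rcases lt_trichotomy j₀ j with h | h | h
      · have e1 : l j a = (if a < (s j).re then lam μ j else 1) * f (pt a (s j).im) := if_pos h
        have e2 : u j a = f (pt a (s j).im) := if_pos h.le
        rw [e1, e2, if_pos h, if_neg h.ne, Set.indicator_apply]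
        simp only [Set.mem_Iio]
        split_ifs <;> ring
      · subst h
        have e1 : l j₀ a = 0 := if_neg (lt_irrefl _)
        have e2 : u j₀ a = f (pt a (s j₀).im) := if_pos le_rfl
        rw [e1, e2, if_neg (lt_irrefl _), if_pos rfl]
      · have e1 : l j a = 0 := if_neg (not_lt.mpr h.le)
        have e2 : u j a = 0 := if_neg (not_le.mpr h)
        rw [e1, e2, if_neg (not_lt.mpr h.le), if_neg h.ne']
    rw [Finset.sum_congr rfl fun j _ => h1 j, Finset.sum_sub_distrib, Finset.sum_ite_eq
      Finset.univ j₀, if_pos (Finset.mem_univ _), ← Finset.sum_filter]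
    congr 2
    ext j
    simp
  have hI1 : ∀ j ∈ Finset.Ioi j₀, Integrable
      ((Set.Iio (s j).re).indicator (fun a => (lam μ j - 1) * f (pt a (s j).im))) := fun j _ =>
    ((hline _).const_mul _).indicator measurableSet_Iio
  have hval : ∫ a, ∑ j, (l j a - u j a) =
      ∑ j ∈ Finset.Ioi j₀, (lam μ j - 1) * Tp s f j - (Tp s f j₀ - Pp s f j₀) := by
    have e0 : (fun a => ∑ j, (l j a - u j a)) = fun a => ∑ j ∈ Finset.Ioi j₀,
      (Set.Iio (s j).re).indicator (fun a => (lam μ j - 1) * f (pt a (s j).im)) a -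
      f (pt a (s j₀).im) := funext hsum
    rw [e0, integral_sub (integrable_finsetSum _ hI1) (hline _), integral_finsetSum _ hI1]
    congr 1
    · refine Finset.sum_congr rfl fun j _ => ?_
      rw [integral_indicator measurableSet_Iio, ← integral_Iic_eq_integral_Iio,
        integral_const_mul]
      rfl
    · unfold Tp Pp
      rw [sub_neg_eq_add]
      have h5 := integral_add_compl (μ := volume) (f := fun a : ℝ => f (pt a (s j₀).im))
        (s := Set.Iic (s j₀).re) measurableSet_Iic (hline _)
      rw [Set.compl_Iic] at h5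
      exact h5.symm
  rw [hval] at key
  have h7 : ∑ j ∈ Finset.Ioi j₀, (lam μ j - 1) * Tp s f j =
      - ∑ j ∈ Finset.Ioi j₀, (1 - lam μ j) * Tp s f j := by
    rw [← Finset.sum_neg_distrib]
    refine Finset.sum_congr rfl fun j _ => ?_
    ring
  rw [h7] at key
  linear_combination -key

end SEJ
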