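import Pool.Agent.Lib.SE.J.Def2

/-! # SE/J: statements of the algebraic modules. `IsCov m s b` and `StrictMono (Im s_j)` everywhere. -/

set_option autoImplicit false

open MeasureTheory Filter Topology HC HC.SE

noncomputable section

namespace SEJ

/-- N1: for every unit `u` there are `r` coordinates of the characters `u` and `- u` together.
PROOF: `S(u) = ∑ (u b_j % m)`, `S(u) + S(m - u) = m (r + 1)` as `m` does not divide `u b_j`;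
`#{i < r : m i + S(u) < m r} = r - S(u) / m` as `m` does not divide `S(u)`
(`S(u) = u ∑ b_j` modulo `m`). -/
def S_N1 : Prop := ∀ {m r : ℕ} (s : Fin (r + 1) → ℂ) (b : Fin (r + 1) → ℕ), IsCov m s b →
  ∀ u < m, u.Coprime m →
    Fintype.card {p : Ix m b // ch p = u} + Fintype.card {p : Ix m b // ch p + u = m} = r

/-- N1b: PROOF: sum N1 over all units `u`. -/
def S_N1b : Prop := S_N1 → ∀ {m r : ℕ} (s : Fin (r + 1) → ℂ) (b : Fin (r + 1) → ℕ), IsCov m s b →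
  2 * Fintype.card (Ix m b) = r * m.totient

/-- N2: elimination of the last coordinate. PROOF: put `X_l = (1 - λ_l) x_l`,
`Y_j = (1 - λ_j⁻¹) y_j`, `K = r` (last): `X_K = - ∑_(l < K) X_l`, `Y_K = - ∑_(j < K) Y_j`. The left hand
side is `- ∑_j Y_j (X_j / (1 - λ_j) + ∑_(l > j) X_l)`; for `j < K` the bracket is
`X_j / (1 - λ_j) - ∑_(l <= j) X_l`, for `j = K` it is `X_K / (1 - λ_K)`. -/
def S_N2 : Prop := ∀ {F : Type} [Field F] {r : ℕ} (la x y : Fin (r + 1) → F),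
  (∀ j, la j ≠ 0) → (∀ j, la j ≠ 1) → ∑ j, (1 - la j) * x j = 0 →
  ∑ j, (1 - (la j)⁻¹) * y j = 0 →
  - ∑ j, (1 - (la j)⁻¹) * (x j + ∑ l ∈ Finset.Ioi j, (1 - la l) * x l) * y j =
    ∑ l : Fin r, ∑ j : Fin r, x l.castSucc * Nm la l j * y j.castSucc

/-- N0: the monodromy and the exponents. `mu m b (m - u) = 1 - mu m b u`. -/
def S_N0 : Prop := ∀ {m r : ℕ} (s : Fin (r + 1) → ℂ) (b : Fin (r + 1) → ℕ), IsCov m s b →
  ∀ u < m, u.Coprime m →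
    (∀ j, 0 < mu m b u j ∧ mu m b u j < 1) ∧ (∀ j, lam (mu m b u) j = (ze m u ^ b j)⁻¹) ∧
    (∀ j, lam (mu m b u) j ≠ 1) ∧ (m - u).Coprime m ∧ m - u < m ∧
    (∀ j, mu m b (m - u) j = 1 - mu m b u j) ∧ ze m (m - u) = (starRingEnd ℂ) (ze m u) ∧
    (∀ j, lam (mu m b (m - u)) j = (lam (mu m b u) j)⁻¹) ∧
    (∀ j, (starRingEnd ℂ) (lam (mu m b u) j) = (lam (mu m b u) j)⁻¹) ∧
    ((StrictMono fun j => (s j).im) → ∀ i : ℕ, m * i + ∑ j, (u * b j) % m < m * r →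
      Good s (mu m b u) (Polynomial.X ^ i))

/-- N3: the inverse of the matrix of the bilinear relations. PROOF: rows `A_p = (o.A j p)_j`, `j < r`,
for `ch p = u` and `conj A_p` for `ch p + u = m`: together a matrix `Π` with `r` rows (N1). By E1, E2,
E3, E4 and N2 (with `la = lam (mu m b u)`, `x = A_p` or `conj A_p`, `y = conj A_q` or `A_q`):
`Π N Πᴴ = diag (2 i, - 2 i)` (for `(A_p, conj A_q)`: E3; `(A_p, A_q')`: E4; `(conj A_p', A_q')`: the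
conjugate of E3 for `m - u`; `(conj A_p', conj A_q)`: the conjugate of E4 for `m - u`; note
`conj λ_j = λ_j⁻¹`). So `Π (N Πᴴ D⁻¹) = 1`, square, hence `(N Πᴴ D⁻¹) Π = 1` and
`Πᴴ D⁻¹ Π = o.Mm u`. -/
def S_N3 : Prop := (S_N0) → (S_N1) → (S_N2) →
  (∀ {k : ℕ} (s : Fin k → ℂ) (μ : Fin k → ℝ) (P : Polynomial ℂ), Good s μ P →
    ∑ j, (1 - lam μ j) * Tp s (frm s μ P) j = 0) →
  (∀ {k : ℕ} (s : Fin k → ℂ) (μ : Fin k → ℝ) (P : Polynomial ℂ), Good s μ P →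
    ∀ j, Pp s (frm s μ P) j = Tp s (frm s μ P) j +
      ∑ l ∈ Finset.Ioi j, (1 - lam μ l) * Tp s (frm s μ P) l) →
  (∀ {k : ℕ} (s : Fin k → ℂ) (μ : Fin k → ℝ) (P Q : Polynomial ℂ), Good s μ P → Good s μ Q →
    2 * Complex.I * ∫ x : ℂ, frm s μ P x * (starRingEnd ℂ) (frm s μ Q x) =
      - ∑ j, (1 - (lam μ j)⁻¹) * Pp s (frm s μ P) j * (starRingEnd ℂ) (Tp s (frm s μ Q) j)) →
  (∀ {k : ℕ} (s : Fin k → ℂ) (μ : Fin k → ℝ) (P Q : Polynomial ℂ), Good s μ P →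
    Good s (fun j => 1 - μ j) Q →
    0 = ∑ j, (1 - (lam μ j)⁻¹) * Pp s (frm s μ P) j * Tp s (frm s (fun j => 1 - μ j) Q) j) →
  ∀ {m r : ℕ} (s : Fin (r + 1) → ℂ) (b : Fin (r + 1) → ℕ), IsCov m s b →
  (StrictMono fun j => (s j).im) → ∀ (o : ONB m s b), ∀ u < m, u.Coprime m →
    Nm (lam (mu m b u)) * o.Mm u = 1

/-- N4: an orthonormal system exists. PROOF: for fixed `u` the space of the polynomials of degree
`< d_u = #{i < r : m i + S(u) < m r}` (an initial segment `i < d_u`) with the hermitian form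
`⟨P, Q⟩ = ∫ frm P conj (frm Q)`, positive definite by E5 (`P ≠ 0`), has an orthonormal basis, indexed
by the `p` with `ch p = u` (`InnerProductSpace.Core`, `stdOrthonormalBasis`, or Gram-Schmidt, or
`Matrix.PosDef`). Integrability of `frm P * conj (frm Q)`: from E5. -/
def S_N4 : Prop := (S_N0) →
  (∀ {k : ℕ} (s : Fin k → ℂ) (μ : Fin k → ℝ) (P : Polynomial ℂ), Good s μ P →
    Integrable (fun x => ‖frm s μ P x‖ ^ 2) ∧ (P ≠ 0 → 0 < ∫ x : ℂ, ‖frm s μ P x‖ ^ 2)) →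
  ∀ {m r : ℕ} (s : Fin (r + 1) → ℂ) (b : Fin (r + 1) → ℕ), IsCov m s b →
  (StrictMono fun j => (s j).im) → Nonempty (ONB m s b)

/-- N5: rationality. PROOF: `K = CyclotomicField m ℚ` with the primitive root `ζ`; for `u` a unit
`σ_u : K → ℂ`, `ζ ↦ ze m u` (these are all the embeddings). `λ_j = (ζ ^ b_j)⁻¹ ≠ 1` in `K`,
`σ_u (Nm λ) = Nm (lam (mu m b u))` (N0), so `Nm λ` is invertible over `K`, `M u = σ_u (inverse)`.
`D` times all entries of the inverse are integral. So the sum is the trace of the algebraic integer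
`D ζ^a (ζ⁻¹)^c (Nm λ)⁻¹ j l`, an integer. -/
def S_N5 : Prop := (S_N0) → ∀ {m r : ℕ} (s : Fin (r + 1) → ℂ) (b : Fin (r + 1) → ℕ), IsCov m s b →
  ∀ M : ℕ → Matrix (Fin r) (Fin r) ℂ,
    (∀ u < m, u.Coprime m → Nm (lam (mu m b u)) * M u = 1) →
    ∃ D : ℕ, D ≠ 0 ∧ ∀ (a c : ℕ) (j l : Fin r), ∃ n : ℤ,
      (D : ℂ) * ∑ u ∈ (Finset.range m).filter (fun u => u.Coprime m),
        ze m u ^ a * (starRingEnd ℂ) (ze m u ^ c) * M u j l = n

/-- N6: the vectors of the lattice are linearly independent over `ℝ`. PROOF: let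
`∑ c_(l,j) w_(l,j) = 0`, `P_j(X) = ∑_l c_(l,j) X^l` real polynomials of degree `< φ(m)`. For `ch p = u`:
`∑_j A_j(p) P_j(ze m u) = 0`; for `ch p = m - u` conjugate: `∑_j conj (A_j(p)) P_j(ze m u) = 0`. So
`Mm u * (P_j(ze m u))_j = 0`, and by N3 all `P_j(ze m u) = 0`; `P_j` vanishes at the `φ(m)` primitive
roots of unity, so `P_j = 0`. -/
def S_N6 : Prop := (S_N0) → ∀ {m r : ℕ} (s : Fin (r + 1) → ℂ) (b : Fin (r + 1) → ℕ),
  IsCov m s b → ∀ (o : ONB m s b),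
    (∀ u < m, u.Coprime m → Nm (lam (mu m b u)) * o.Mm u = 1) → LinearIndependent ℝ o.w

/-- N7: the lattice is stable under `Z`. PROOF: `∑ c_i Z^i = 0` for the cyclotomic polynomial
(monic of degree `φ(m)` with integral coefficients; `ze m u` is a primitive root). -/
def S_N7 : Prop := ∀ {m r : ℕ} (s : Fin (r + 1) → ℂ) (b : Fin (r + 1) → ℕ), IsCov m s b →
  ∀ (o : ONB m s b), ∀ v ∈ o.L, (fun p => ze m (ch p) * v p) ∈ o.L

/-- N8: the Riemann form is rational on the lattice. PROOF: for the generators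
`∑_p Im (w_(a,l)(p) conj (w_(c,j)(p))) = ∑_u ze^a conj (ze^c) (Mm u)_(j,l)`: write
`Im z = (2 i)⁻¹ z + conj ((2 i)⁻¹ z)` and replace `u` by `m - u` in the second sum
(`ze m (m - u) = conj (ze m u)`). -/
def S_N8 : Prop := (S_N0) → (S_N5) → ∀ {m r : ℕ} (s : Fin (r + 1) → ℂ) (b : Fin (r + 1) → ℕ),
  IsCov m s b → ∀ (o : ONB m s b),
    (∀ u < m, u.Coprime m → Nm (lam (mu m b u)) * o.Mm u = 1) →
    ∃ D : ℕ, D ≠ 0 ∧ ∀ v ∈ o.L, ∀ v' ∈ o.L, ∃ n : ℤ,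
      (D : ℝ) * ∑ p, (v p * (starRingEnd ℂ) (v' p)).im = n

/-- N9: the periods are in the lattice. PROOF: by E2 `B_j = A_j + ∑_(l > j) (1 - λ_l) A_l`, by E1
`(1 - λ_r) A_r = - ∑_(l < r) (1 - λ_l) A_l` (`λ_l = ze^(-b_l)`, `ze^m = 1`); for `j = r`
`(ze^(b_r) - 1) A_r = ze^(b_r) (1 - λ_r) A_r`. All `ze^a A_l`, `l < r`, are in `L` by N7. -/
def S_N9 : Prop := (S_N0) → (S_N7) →
  (∀ {k : ℕ} (s : Fin k → ℂ) (μ : Fin k → ℝ) (P : Polynomial ℂ), Good s μ P →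
    ∑ j, (1 - lam μ j) * Tp s (frm s μ P) j = 0) →
  (∀ {k : ℕ} (s : Fin k → ℂ) (μ : Fin k → ℝ) (P : Polynomial ℂ), Good s μ P →
    ∀ j, Pp s (frm s μ P) j = Tp s (frm s μ P) j +
      ∑ l ∈ Finset.Ioi j, (1 - lam μ l) * Tp s (frm s μ P) l) →
  ∀ {m r : ℕ} (s : Fin (r + 1) → ℂ) (b : Fin (r + 1) → ℕ), IsCov m s b →
  ∀ (o : ONB m s b) (j : Fin (r + 1)) (a : ℕ),
    (fun p => ze m (ch p) ^ a * ((ze m (ch p) ^ b j - 1) * o.B j p)) ∈ o.L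

/-- N10: the forms in terms of the branches. PROOF: `z^(u b / m) z^(-1 - [u b / m]) = z^(-μ)`,
`z = x - s_j ≠ 0`, `μ = 1 - (u b % m) / m`. -/
def S_N10 : Prop := ∀ {m r : ℕ} (s : Fin (r + 1) → ℂ) (b : Fin (r + 1) → ℕ), IsCov m s b →
  ∀ (o : ONB m s b) (x y : ℂ), x ∉ Set.range s → ∀ p,
    o.om x y p = (y / y0 m s b x) ^ ch p * frm s (mu m b (ch p)) (o.Q p) x

/-- N11: the local structure of one primitive at a point of a ray. PROOF: let `f` be the function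
`P(x) ∏_(l ≠ j) (x - s_l)^(-μ_l) (-(x - s_j))^(-μ_j) exp (- i π μ_j)`, holomorphic near `x₀`, equal to
`frm` for `Im x ≥ Im s_j` and to `λ_j⁻¹ frm` for `Im x < Im s_j` (near `x₀`); `G` its primitive on a ball
around `x₀` with `G(x₀) = prm (frm) x₀`. On the upper half of the ball `G - prm` is constant (D1), and
tends to `0` at every point of the ray in the ball from above (D3), which gives `G = prm` also on the
ray; on the lower half `λ_j G - prm` is constant and equal to `- (1 - λ_j) Pp_j` (D4). -/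
def S_N11 : Prop := (S_C1) → (S_C2) → (S_C5) → (S_D1) →
  (∀ {k : ℕ} (s : Fin k → ℂ) (μ : Fin k → ℝ) (P : Polynomial ℂ), Good s μ P →
    ∀ (j : Fin k) (a : ℝ), a ≠ (s j).re →
    Tendsto (fun b => prm (frm s μ P) (pt a b)) (𝓝[>] (s j).im)
      (𝓝 (prm (frm s μ P) (pt a (s j).im)))) →
  (∀ {k : ℕ} (s : Fin k → ℂ) (μ : Fin k → ℝ) (P : Polynomial ℂ), Good s μ P →
    ∀ (j : Fin k) (a : ℝ), a ≠ (s j).re →
    Tendsto (fun b => prm (frm s μ P) (pt a b)) (𝓝[<] (s j).im)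
      (𝓝 (if a < (s j).re then lam μ j * prm (frm s μ P) (pt a (s j).im) +
        (1 - lam μ j) * Pp s (frm s μ P) j else prm (frm s μ P) (pt a (s j).im)))) →
  ∀ {k : ℕ} (s : Fin k → ℂ) (μ : Fin k → ℝ) (P : Polynomial ℂ), Good s μ P →
  ∀ (j : Fin k) (x₀ : ℂ), x₀.im = (s j).im → x₀.re < (s j).re →
    ∃ G : ℂ → ℂ, ∀ᶠ x in 𝓝 x₀,
      (if (s j).im ≤ x.im then G x = prm (frm s μ P) x ∧ HasDerivAt G (frm s μ P x) x
        else lam μ j * G x = prm (frm s μ P) x - (1 - lam μ j) * Pp s (frm s μ P) j ∧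
          HasDerivAt G ((lam μ j)⁻¹ * frm s μ P x) x)

/-- N12: the map of the curve (the field `map` of `Crv`). PROOF: if `x₀` is on no ray: `η = ε y0`,
`g = al x (η x)` near `x₀` (D1, N10). If `x₀` is on the ray `R_j`: `η = ε y0` for `Im x ≥ Im s_j`,
`η = ε exp (2 π i b_j / m) y0` for `Im x < Im s_j` (continuous: `(-(x - s_j))^(b_j / m) exp (π i b_j / m)`),
`g_p = ε^u G_p` (N11); above `al x (η x) = g x`; below `al x (η x) - g x` has the coordinates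
`ε^u ze^(b_j) (λ G + (1 - λ) B_j) - ε^u G = ε^u (ze^(b_j) - 1) B_j` (`λ = ze^(-b_j)`), `ε^u = ze^a` for
some `a` (`ε` is an `m`-th root of unity, `ze m u = (ze m 1)^u`), in `L` by N9. -/
def S_N12 : Prop := (S_N0) → (S_N10) →
  (∀ {k : ℕ} (s : Fin k → ℂ) (μ : Fin k → ℝ) (P : Polynomial ℂ), Good s μ P →
    ∀ x : ℂ, (∀ j, x.im = (s j).im → (s j).re < x.re) →
      HasDerivAt (prm (frm s μ P)) (frm s μ P x) x) →
  (∀ {k : ℕ} (s : Fin k → ℂ) (μ : Fin k → ℝ) (P : Polynomial ℂ), Good s μ P →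
    ∀ (j : Fin k) (x₀ : ℂ), x₀.im = (s j).im → x₀.re < (s j).re →
      ∃ G : ℂ → ℂ, ∀ᶠ x in 𝓝 x₀,
        (if (s j).im ≤ x.im then G x = prm (frm s μ P) x ∧ HasDerivAt G (frm s μ P x) x
          else lam μ j * G x = prm (frm s μ P) x - (1 - lam μ j) * Pp s (frm s μ P) j ∧
            HasDerivAt G ((lam μ j)⁻¹ * frm s μ P x) x)) →
  ∀ {m r : ℕ} (s : Fin (r + 1) → ℂ) (b : Fin (r + 1) → ℕ), IsCov m s b →
  (StrictMono fun j => (s j).im) → ∀ (o : ONB m s b),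
    (∀ (j : Fin (r + 1)) (a : ℕ),
      (fun p => ze m (ch p) ^ a * ((ze m (ch p) ^ b j - 1) * o.B j p)) ∈ o.L) →
    ∀ x₀ ∉ Set.range s, ∀ y₀ : ℂ, y₀ ^ m - ∏ j, (x₀ - s j) ^ b j = 0 →
      ∃ (η : ℂ → ℂ) (g : ℂ → Ix m b → ℂ), η x₀ = y₀ ∧ ContinuousAt η x₀ ∧
        ∀ᶠ x in 𝓝 x₀, (η x) ^ m - ∏ j, (x - s j) ^ b j = 0 ∧ o.al x (η x) - g x ∈ o.L ∧
          HasDerivAt g (o.om x (η x)) x

/-- N13: the area. PROOF: for `x ∉ range s` there are `m` points `y = ε y0`, and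
`‖om x y‖ ^ 2 <= ∑_p |frm_p x| ^ 2` (N10), integrable by E5; in fact the sum is
`m sup_p |frm_p x| ^ 2` (measurable). -/
def S_N13 : Prop := (S_N10) →
  (∀ {k : ℕ} (s : Fin k → ℂ) (μ : Fin k → ℝ) (P : Polynomial ℂ), Good s μ P →
    Integrable (fun x => ‖frm s μ P x‖ ^ 2) ∧ (P ≠ 0 → 0 < ∫ x : ℂ, ‖frm s μ P x‖ ^ 2)) →
  ∀ {m r : ℕ} (s : Fin (r + 1) → ℂ) (b : Fin (r + 1) → ℕ), IsCov m s b → ∀ (o : ONB m s b),
    Integrable fun x => ∑ᶠ y ∈ {y : ℂ | y ^ m - ∏ j, (x - s j) ^ b j = 0}, ‖o.om x y‖ ^ 2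

/-- N14: assembly for `StrictMono (Im s_j)`. PROOF: `V = Ix m b → ℂ`, `L = o.L` is spanned by an
`ℝ`-basis of `V` (linearly independent, `φ(m) r = 2 card (Ix m b)` vectors), so it is discrete and a
`ℤ`-lattice. `E v v' = D ∑_p Im (v_p conj (v'_p))`; `E (i v) v = D ∑ |v_p|^2`. `Z v = (ze m (ch p) v_p)_p`.
`γ` = the curve with `al`, `om`. `dif`: `B = ∑ c_q v_q` by `o.span`. -/
def S_N14 : Prop := ∀ {m r : ℕ} (s : Fin (r + 1) → ℂ) (b : Fin (r + 1) → ℕ), IsCov m s b →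
  ∀ (o : ONB m s b), LinearIndependent ℝ o.w → 2 * Fintype.card (Ix m b) = r * m.totient →
    (∀ v ∈ o.L, (fun p => ze m (ch p) * v p) ∈ o.L) →
    (∃ D : ℕ, D ≠ 0 ∧ ∀ v ∈ o.L, ∀ v' ∈ o.L, ∃ n : ℤ,
      (D : ℝ) * ∑ p, (v p * (starRingEnd ℂ) (v' p)).im = n) →
    (∀ x₀ ∉ Set.range s, ∀ y₀ : ℂ, y₀ ^ m - ∏ j, (x₀ - s j) ^ b j = 0 →
      ∃ (η : ℂ → ℂ) (g : ℂ → Ix m b → ℂ), η x₀ = y₀ ∧ ContinuousAt η x₀ ∧
        ∀ᶠ x in 𝓝 x₀, (η x) ^ m - ∏ j, (x - s j) ^ b j = 0 ∧ o.al x (η x) - g x ∈ o.L ∧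
          HasDerivAt g (o.om x (η x)) x) →
    (Integrable fun x => ∑ᶠ y ∈ {y : ℂ | y ^ m - ∏ j, (x - s j) ^ b j = 0}, ‖o.om x y‖ ^ 2) →
    ∃ (T : AV) (D : New T m s b) (E : T.V →ₗ[ℝ] T.V →ₗ[ℝ] ℝ), IsPol T D.Z E

/-- N15: reduction of the general case to `StrictMono (Im s_j)`. PROOF: choose `ρ`, `|ρ| = 1`, with
all `Im (ρ s_j)` different and a permutation `π` with `j ↦ Im (ρ s_(π j))` increasing; `s'_j = ρ s_(π j)`,
`b' = b ∘ π`. `(x, y) ↦ (ρ x, c y)`, `c ^ m = ρ ^ (∑ b_j)`, maps the curve of `(s, b)` to the curve of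
`(s', b')`; the same `T`, `Z`, `E`, `α x y = α' (ρ x) (c y)`, `ω x y = ρ ω' (ρ x) (c y)`. -/
def S_N15 : Prop :=
  (∀ {m r : ℕ} (s : Fin (r + 1) → ℂ) (b : Fin (r + 1) → ℕ), IsCov m s b →
    (StrictMono fun j => (s j).im) →
    ∃ (T : AV) (D : New T m s b) (E : T.V →ₗ[ℝ] T.V →ₗ[ℝ] ℝ), IsPol T D.Z E) →
  ∀ {m r : ℕ} (s : Fin (r + 1) → ℂ) (b : Fin (r + 1) → ℕ), IsCov m s b →
    ∃ (T : AV) (D : New T m s b) (E : T.V →ₗ[ℝ] T.V →ₗ[ℝ] ℝ), IsPol T D.Z E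

/-- THE RESULT: the new part of the Jacobian of `y ^ m = ∏ (x - s_j) ^ b_j` exists. -/
def S_NewEx : Prop := ∀ {m r : ℕ} (s : Fin (r + 1) → ℂ) (b : Fin (r + 1) → ℕ), IsCov m s b →
    ∃ (T : AV) (D : New T m s b) (E : T.V →ₗ[ℝ] T.V →ₗ[ℝ] ℝ), IsPol T D.Z E

end SEJ
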