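import Pool.Agent.Lib.SE.J.Main
import Pool.Agent.Lib.SE.S5.New
import Pool.Agent.Lib.SE.S4.Ty

/-!
# SE/J: explicit coordinates of the new part of the Jacobian (for THEOREM P)

For `o : ONB m s b`, `J : Jac o` (`J.T = ℂ^Ix / L`, `L` the span of the `ζ^a A_j`, `A_j` the vectors of the
periods of the orthonormal forms), `X` a Galois number field and `E = ℚ(ζ)`:
a block structure `B` with `v = ∑_j y_j A_j`, `y_j` the coordinates `B.b (·, j)`.

* `per`: `J.e v p = ∑_j A_j(p) * B.b (φ, j) v` for the label `φ` of the character of `p`.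
* `frmR`: the Riemann form is `d tr (∑ y_i G_(j i) conj y'_j)`, `G = (Nm la)⁻¹`, `la_j = (ζ ^ b_j)⁻¹`.
-/

set_option autoImplicit false

open scoped ComplexConjugate
open MeasureTheory Filter Topology HC HC.SE SE SE.S5 Module

noncomputable section

namespace SEJ

/-! ## Block structures from a given basis -/

section gen

variable {X : GF} {T : AV} {E : Type} [Field E] [NumberField E] (pb : PowerBasis ℚ E)
  (ρ : E →+* Module.End ℂ T.V) {r : ℕ} (W : Basis (Fin pb.dim × Fin r) ℝ T.V)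

/-- `exists_blk` with the given basis. -/
theorem blk_of (hL : ∀ v ∈ T.L, ρ pb.gen v ∈ T.L)
    (hdim : 2 * finrank ℂ T.V = r * pb.dim) (φ₀ : E →+* X.K) (e : Fin r → T.V)
    (he : ∀ j, e j ∈ T.L) (hsp : ∀ v ∈ T.L, ∃ y : Fin r → E, v = ∑ j, ρ (y j) (e j))
    (hW : ∀ s, W s = wv pb ρ e s) :
    ∃ B : Blk X T E r, B.ρ = ρ ∧ ∀ s, B.b s = b0 pb W s := by
  classical
  have hcard : Fintype.card ((E →+* X.K) × Fin r) = finrank ℂ (T.V →ₗ[ℝ] ℂ) := by
    rw [Fintype.card_prod, card_lab pb φ₀, Fintype.card_fin, finrank_forms,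
      finrank_real_of_complex, hdim, mul_comm]
  have : FiniteDimensional ℂ (T.V →ₗ[ℝ] ℂ) := Module.Finite.of_basis (bW T)
  let bb : Basis ((E →+* X.K) × Fin r) ℂ (T.V →ₗ[ℝ] ℂ) :=
    basisOfLinearIndependentOfCardEqFinrank' (fun s => b0 pb W s) (b0_li pb ρ W hW) hcard
  have hbb : ∀ s, bb s = b0 pb W s := by
    intro s
    show basisOfLinearIndependentOfCardEqFinrank' _ _ _ s = _
    rw [coe_basisOfLinearIndependentOfCardEqFinrank']
  refine ⟨⟨bb, ρ, ?_, ?_, ?_⟩, rfl, hbb⟩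
  · intro v hv
    obtain ⟨y, hy⟩ := hsp v hv
    refine ⟨y, fun φ i => ?_⟩
    rw [hbb, hy, map_sum, Finset.sum_eq_single i]
    · rw [b0_rho pb ρ W hW, if_pos rfl]
    · intro j _ hj
      rw [b0_rho pb ρ W hW, if_neg hj]
    · intro h
      exact absurd (Finset.mem_univ i) h
  · intro y
    choose q hq using fun j => pow_sum pb (y j)
    have h1 : ∀ s : Fin pb.dim × Fin r, ∃ z : ℤ,
        ((∏ s : Fin pb.dim × Fin r, (q s.2 s.1).den : ℕ) : ℚ) * q s.2 s.1 = z := by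
      intro s
      refine ⟨((∏ t ∈ Finset.univ.erase s, (q t.2 t.1).den : ℕ) : ℤ) * (q s.2 s.1).num, ?_⟩
      rw [← Finset.prod_erase_mul _ _ (Finset.mem_univ s)]
      push_cast
      rw [mul_assoc, Rat.den_mul_eq_num]
    choose z hz using h1
    refine ⟨∏ s : Fin pb.dim × Fin r, (q s.2 s.1).den,
      Finset.prod_ne_zero_iff.2 fun s _ => (q s.2 s.1).den_ne_zero,
      ∑ s : Fin pb.dim × Fin r, z s • wv pb ρ e s,
      T.L.sum_mem fun s _ => T.L.smul_mem _ (wv_mem pb ρ hL e he s), fun φ i => ?_⟩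
    rw [hbb, map_sum, Fintype.sum_prod_type]
    have h2 : ∀ (k : Fin pb.dim) (j : Fin r), b0 pb W (φ, i) (z (k, j) • wv pb ρ e (k, j)) =
        if j = i then (z (k, j) : ℂ) * X.τ (φ (pb.gen ^ (k : ℕ))) else 0 := by
      intro k j
      have h3 : b0 pb W (φ, i) (wv pb ρ e (k, j)) =
          if j = i then X.τ (φ (pb.gen ^ (k : ℕ))) else 0 := b0_rho pb ρ W hW (φ, i) _ j
      rw [map_zsmul, h3, zsmul_eq_mul]
      split_ifs
      · rfl
      · rw [mul_zero]
    simp only [h2, Finset.sum_ite_eq', Finset.mem_univ, if_true]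
    conv_rhs => rw [hq i, map_sum, map_sum, Finset.mul_sum]
    refine Finset.sum_congr rfl fun k _ => ?_
    rw [map_mul, map_mul, map_ratCast, map_ratCast, ← mul_assoc]
    congr 1
    have h4 := congrArg (Rat.cast : ℚ → ℂ) (hz (k, i))
    push_cast at h4 ⊢
    exact h4.symm
  · intro φ i x v
    rw [hbb]
    have h1 : (b0 pb W (φ, i)) ∘ₗ (ρ x).restrictScalars ℝ = X.τ (φ x) • b0 pb W (φ, i) := by
      refine W.ext fun s => ?_
      rw [LinearMap.comp_apply, LinearMap.smul_apply, hW]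
      show b0 pb W (φ, i) (ρ x (ρ (pb.gen ^ (s.1 : ℕ)) (e s.2))) =
        X.τ (φ x) • b0 pb W (φ, i) (ρ (pb.gen ^ (s.1 : ℕ)) (e s.2))
      have h2 : ρ x (ρ (pb.gen ^ (s.1 : ℕ)) (e s.2)) = ρ (x * pb.gen ^ (s.1 : ℕ)) (e s.2) := by
        rw [map_mul]
        rfl
      rw [h2, b0_rho pb ρ W hW, b0_rho pb ρ W hW]
      split_ifs
      · rw [map_mul, map_mul, smul_eq_mul]
      · rw [smul_zero]
    exact LinearMap.congr_fun h1 v

end gen

/-! ## Labels -/

section lab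

variable {m : ℕ} {E : Type} [Field E] [NumberField E] [IsCyclotomicExtension {m} ℚ E] {ζ : E}

theorem emb_ze (hm : 0 < m) (hζ : IsPrimitiveRoot ζ m) (u : ℕ) (hu : u.Coprime m) :
    ∃ χ : E →+* ℂ, χ ζ = ze m u := by
  have : NeZero m := ⟨hm.ne'⟩
  have hz : IsPrimitiveRoot (ze m u) m := N14_prim m u hm hu
  have h1 : Polynomial.aeval (ze m u) (minpoly ℚ (hζ.powerBasis ℚ).gen) = 0 := by
    rw [hζ.powerBasis_gen ℚ, ← Polynomial.cyclotomic_eq_minpoly_rat hζ hm,
      Polynomial.cyclotomic_eq_minpoly_rat hz hm]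
    exact minpoly.aeval ℚ _
  refine ⟨((hζ.powerBasis ℚ).lift (ze m u) h1).toRingHom, ?_⟩
  have h3 := (hζ.powerBasis ℚ).lift_gen (ze m u) h1
  rw [hζ.powerBasis_gen ℚ] at h3
  exact h3

theorem lab_ex (X : GF) (hm : 0 < m) (hζ : IsPrimitiveRoot ζ m) (φ₀ : E →+* X.K) (u : ℕ)
    (hu : u.Coprime m) : ∃ φ : E →+* X.K, X.τ (φ ζ) = ze m u := by
  obtain ⟨χ, hχ⟩ := emb_ze hm hζ u hu
  obtain ⟨φ, hφ⟩ := lift_emb φ₀ χ
  exact ⟨φ, by rw [← hχ, ← hφ]; rfl⟩

omit [NumberField E] [IsCyclotomicExtension {m} ℚ E] in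
theorem sg_ze (hm : 0 < m) (hζ : IsPrimitiveRoot ζ m) (χ : E →+* ℂ) :
    χ ζ = ze m (S4.sg m ζ χ) := by
  rw [← (S4.sg_spec hm hζ χ).2, ← N14_ze_pow]
  rfl

theorem ze_inj {u v : ℕ} (hu : u < m) (hv : v < m) (h : ze m u = ze m v) : u = v := by
  have hm : m ≠ 0 := by omega
  have hp := Complex.isPrimitiveRoot_exp m hm
  rw [← N14_ze_pow, ← N14_ze_pow] at h
  exact hp.pow_inj hu hv h

theorem lab_zeta' {X : GF} (hm : 0 < m) (hζ : IsPrimitiveRoot ζ m) (φ ψ : E →+* X.K)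
    (h : φ ζ = ψ ζ) : φ = ψ := by
  have : NeZero m := ⟨hm.ne'⟩
  have h1 : φ.toRatAlgHom = ψ.toRatAlgHom := by
    refine (hζ.powerBasis ℚ).algHom_ext ?_
    rw [hζ.powerBasis_gen ℚ]
    exact h
  ext z
  exact AlgHom.congr_fun h1 z

/-- sums over the labels -/
theorem sum_lab (X : GF) (hm : 0 < m) (hζ : IsPrimitiveRoot ζ m) (φ₀ : E →+* X.K)
    (f : (E →+* X.K) → ℂ) (g : ℕ → ℂ) (h : ∀ φ : E →+* X.K, ∀ u < m, u.Coprime m →
      X.τ (φ ζ) = ze m u → f φ = g u) :
    ∑ φ, f φ = ∑ u ∈ (Finset.range m).filter (fun u => u.Coprime m), g u := by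
  refine Finset.sum_bij (fun φ _ => S4.sg m ζ (X.τ.comp φ)) ?_ ?_ ?_ ?_
  · intro φ _
    exact Finset.mem_filter.2 ⟨Finset.mem_range.2 (S4.sg_spec hm hζ _).1, S4.sg_coprime hm hζ _⟩
  · intro φ _ ψ _ hh
    apply lab_zeta' hm hζ
    apply X.τ.injective
    have h1 := sg_ze hm hζ (X.τ.comp φ)
    have h2 := sg_ze hm hζ (X.τ.comp ψ)
    have hh' : S4.sg m ζ (X.τ.comp φ) = S4.sg m ζ (X.τ.comp ψ) := hh
    rw [hh', ← h2] at h1
    exact h1
  · intro u hu
    rw [Finset.mem_filter, Finset.mem_range] at hu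
    obtain ⟨φ, hφ⟩ := lab_ex X hm hζ φ₀ u hu.2
    refine ⟨φ, Finset.mem_univ _, ?_⟩
    have h1 := sg_ze hm hζ (X.τ.comp φ)
    refine ze_inj (S4.sg_spec hm hζ _).1 hu.1 ?_
    rw [← h1]
    exact hφ
  · intro φ _
    exact h φ _ (S4.sg_spec hm hζ _).1 (S4.sg_coprime hm hζ _) (sg_ze hm hζ (X.τ.comp φ))

end lab

/-! ## The matrix -/

section mat

variable {m r : ℕ} {s : Fin (r + 1) → ℂ} {b : Fin (r + 1) → ℕ} {E : Type} [Field E]

/-- the monodromies in `E` -/
def laE (ζ : E) (b : Fin (r + 1) → ℕ) (j : Fin (r + 1)) : E := (ζ ^ b j)⁻¹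

theorem Nm_map (hc : IsCov m s b) {ζ : E} (χ : E →+* ℂ) (u : ℕ) (hu : u < m) (hu' : u.Coprime m)
    (hχ : χ ζ = ze m u) : (Nm (laE ζ b)).map χ = Nm (lam (mu m b u)) := by
  have h1 := (tN0 s b hc u hu hu').2.1
  ext l j
  rw [Matrix.map_apply]
  have h2 := N5_map χ (laE ζ b) l j
  have h3 : (fun i => χ (laE ζ b i)) = lam (mu m b u) := by
    funext i
    rw [h1]
    simp [laE, hχ]
  rw [h3] at h2
  exact h2

theorem Nm_unit (hc : IsCov m s b) (hs : StrictMono fun j => (s j).im) (o : ONB m s b) {ζ : E}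
    (χ : E →+* ℂ) (u : ℕ) (hu : u < m) (hu' : u.Coprime m)
    (hχ : χ ζ = ze m u) : IsUnit (Nm (laE ζ b)).det := by
  have h1 := onb_inv s b hc hs o u hu hu'
  rw [← Nm_map hc χ u hu hu' hχ] at h1
  rw [isUnit_iff_ne_zero]
  intro h
  have h3 := χ.map_det (Nm (laE ζ b))
  rw [h, map_zero] at h3
  have h4 := congrArg Matrix.det h1
  rw [Matrix.det_mul, Matrix.det_one] at h4
  have h5 : ((Nm (laE ζ b)).map χ).det = 0 := h3.symm
  rw [h5, zero_mul] at h4
  exact zero_ne_one h4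

theorem Mm_map (hc : IsCov m s b) (hs : StrictMono fun j => (s j).im) (o : ONB m s b) {ζ : E}
    (χ : E →+* ℂ) (u : ℕ) (hu : u < m) (hu' : u.Coprime m)
    (hχ : χ ζ = ze m u) : o.Mm u = (Nm (laE ζ b))⁻¹.map χ := by
  have h1 := onb_inv s b hc hs o u hu hu'
  have h0 := Nm_unit hc hs o χ u hu hu' hχ
  rw [← Nm_map hc χ u hu hu' hχ] at h1
  have h2 : (Nm (laE ζ b))⁻¹.map χ * (Nm (laE ζ b)).map χ = 1 := by
    have h3 := congrArg (fun A : Matrix _ _ _ => A.map χ) (Matrix.nonsing_inv_mul _ h0)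
    rw [Matrix.map_mul] at h3
    rw [h3]
    exact Matrix.map_one _ (map_zero _) (map_one _)
  calc o.Mm u = ((Nm (laE ζ b))⁻¹.map χ * (Nm (laE ζ b)).map χ) * o.Mm u := by rw [h2, one_mul]
    _ = (Nm (laE ζ b))⁻¹.map χ := by rw [mul_assoc, h1, mul_one]

theorem frm_sum (hcov : IsCov m s b) (o : ONB m s b) (a c : Fin m.totient) (l j : Fin r) :
    ((∑ p, (o.w (a, l) p * (starRingEnd ℂ) (o.w (c, j) p)).im : ℝ) : ℂ) =
      ∑ u ∈ (Finset.range m).filter (fun u => u.Coprime m),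
        ze m u ^ (a : ℕ) * (starRingEnd ℂ) (ze m u ^ (c : ℕ)) * o.Mm u j l := by
  have hm : 3 ≤ m := hcov.1
  rw [Complex.ofReal_sum]
  have e1 : ∀ p : Ix m b, (((o.w (a, l) p * (starRingEnd ℂ) (o.w (c, j) p)).im : ℝ) : ℂ) =
      (2 * Complex.I)⁻¹ * (ze m (ch p) ^ (a : ℕ) * (starRingEnd ℂ) (ze m (ch p) ^ (c : ℕ)) *
        (o.A l.castSucc p * (starRingEnd ℂ) (o.A j.castSucc p)) -
        (starRingEnd ℂ) (ze m (ch p)) ^ (a : ℕ) *
          (starRingEnd ℂ) ((starRingEnd ℂ) (ze m (ch p)) ^ (c : ℕ)) *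
        ((starRingEnd ℂ) (o.A l.castSucc p) * o.A j.castSucc p)) := by
    intro p
    have him : ∀ z : ℂ, ((z.im : ℝ) : ℂ) = (2 * Complex.I)⁻¹ * (z - (starRingEnd ℂ) z) := by
      intro z
      rw [Complex.sub_conj]
      push_cast
      field_simp
    rw [him]
    unfold ONB.w
    simp only [map_mul, map_pow, Complex.conj_conj]
    ring
  rw [Finset.sum_congr rfl fun p _ => e1 p]
  have e2 : ∀ u : ℕ, ze m u ^ (a : ℕ) * (starRingEnd ℂ) (ze m u ^ (c : ℕ)) * o.Mm u j l =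
      (2 * Complex.I)⁻¹ * ((∑ p : Ix m b, if ch p = u then
        ze m (ch p) ^ (a : ℕ) * (starRingEnd ℂ) (ze m (ch p) ^ (c : ℕ)) *
        (o.A l.castSucc p * (starRingEnd ℂ) (o.A j.castSucc p)) else 0) -
        ∑ p : Ix m b, if ch p + u = m then ze m u ^ (a : ℕ) *
          (starRingEnd ℂ) (ze m u ^ (c : ℕ)) *
        ((starRingEnd ℂ) (o.A l.castSucc p) * o.A j.castSucc p) else 0) := by
    intro u
    unfold ONB.Mm
    rw [mul_left_comm, mul_sub, Finset.mul_sum, Finset.mul_sum]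
    congr 2
    · refine Finset.sum_congr rfl fun p _ => ?_
      split_ifs with hp
      · rw [← hp]
      · rw [mul_zero]
    · refine Finset.sum_congr rfl fun p _ => ?_
      split_ifs with hp
      · rfl
      · rw [mul_zero]
  rw [Finset.sum_congr rfl fun u _ => e2 u, ← Finset.mul_sum, ← Finset.mul_sum,
    Finset.sum_sub_distrib, Finset.sum_sub_distrib]
  congr 2
  · rw [Finset.sum_comm]
    refine Finset.sum_congr rfl fun p _ => ?_
    have hp : ch p ∈ (Finset.range m).filter (fun u => u.Coprime m) :=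
      Finset.mem_filter.2 ⟨Finset.mem_range.2 p.1.1.2, p.2.1⟩
    rw [Finset.sum_ite_eq, if_pos hp]
  · rw [Finset.sum_comm]
    refine Finset.sum_congr rfl fun p _ => ?_
    obtain ⟨-, -, -, h4, h5, -, h7, -⟩ := tN0 s b hcov (ch p) p.1.1.2 p.2.1
    have hlt : ch p < m := p.1.1.2
    have hp : m - ch p ∈ (Finset.range m).filter (fun u => u.Coprime m) :=
      Finset.mem_filter.2 ⟨Finset.mem_range.2 h5, h4⟩
    rw [Finset.sum_eq_single_of_mem _ hp, if_pos (by lia), h7]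
    intro u _ hu
    rw [if_neg]
    intro h9
    exact hu (by lia)

end mat

/-! ## The block -/

section main

variable {m r : ℕ} {s : Fin (r + 1) → ℂ} {b : Fin (r + 1) → ℕ} {o : ONB m s b}

/-- the vector of the periods `A_j` -/
def Jac.a (J : Jac o) (j : Fin r) : J.T.V := J.e.symm fun p => o.A j.castSucc p

/-- The block structure with the coordinates with respect to the `A_j`, and the Riemann form. -/
structure JBlk (J : Jac o) (X : GF) (E : Type) [Field E] [NumberField E] (ζ : E) where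
  B : Blk X J.T E r
  inv : E ≃+* E
  rho : B.ρ ζ = J.D.Z
  hinv : ∀ (φ : E →+* X.K) (x : E), φ (inv x) = X.c (φ x)
  tc : ∃ x, inv x ≠ x
  adj : ∀ x u v, J.R (B.ρ x u) v = J.R u (B.ρ (inv x) v)
  co : ∀ φ i x j, B.b (φ, i) (B.ρ x (J.a j)) = if j = i then X.τ (φ x) else 0
  per : ∀ (φ : E →+* X.K) (p : Ix m b), X.τ (φ ζ) = ze m (ch p) → ∀ v,
    J.e v p = ∑ j : Fin r, o.A j.castSucc p * B.b (φ, j) v
  cnj : ∀ φ i v, B.b (gl X.c φ, i) v = conj (B.b (φ, i) v)
  frmR : ∀ u v, ((J.R u v : ℝ) : ℂ) = J.d * ∑ φ : E →+* X.K, ∑ i, ∑ j,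
    B.b (φ, i) u * X.τ (φ ((Nm (laE ζ b))⁻¹ j i)) * B.b (gl X.c φ, j) v

/-- The type. -/
def JBlk.t {J : Jac o} {X : GF} {E : Type} [Field E] [NumberField E] {ζ : E}
    (P : JBlk J X E ζ) : _root_.SE.Tp X where
  T := J.T
  E := E
  r := r
  B := P.B
  inv := P.inv
  hinv := P.hinv
  tc := P.tc
  R := J.R
  rat := J.pol.1
  alt := J.pol.2.1
  herm := J.pol.2.2.1
  pos := J.pol.2.2.2.1
  adj := P.adj

theorem jblk (hc : IsCov m s b) (hs : StrictMono fun j => (s j).im) (J : Jac o) (X : GF)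
    {E : Type} [Field E] [NumberField E] [IsCyclotomicExtension {m} ℚ E] {ζ : E}
    (hζ : IsPrimitiveRoot ζ m) (φ₀ : E →+* X.K) : Nonempty (JBlk J X E ζ) := by
  classical
  have hm3 : 3 ≤ m := hc.1
  have hm : 0 < m := by omega
  have : NeZero m := ⟨by omega⟩
  have hirr : Irreducible (Polynomial.cyclotomic m ℚ) := Polynomial.cyclotomic.irreducible_rat hm
  have hdim : (hζ.powerBasis ℚ).dim = m.totient := by
    rw [← (hζ.powerBasis ℚ).finrank, IsCyclotomicExtension.finrank E hirr]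
  obtain ⟨ρ, hρ⟩ := exists_rho hζ J.D.Z J.D.cyc
  obtain ⟨inv, hinv1, hinv2, hinv3⟩ := exists_inv (E := E) (m := m) (by omega) X
  -- powers of `ζ`
  have hpow : ∀ (k : ℕ) v p, J.e (ρ (ζ ^ k) v) p = ze m (ch p) ^ k * J.e v p := by
    intro k
    induction k with
    | zero =>
      intro v p
      rw [pow_zero, map_one, pow_zero, one_mul]
      rfl
    | succ k ih =>
      intro v p
      have h1 : ρ (ζ ^ (k + 1)) v = ρ (ζ ^ k) (J.D.Z v) := by
        rw [pow_succ, map_mul, hρ]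
        rfl
      rw [h1, ih, J.eZ, pow_succ]
      ring
  have hwv : ∀ q : Fin (hζ.powerBasis ℚ).dim × Fin r, wv (hζ.powerBasis ℚ) ρ J.a q =
      J.e.symm (o.w (Fin.cast hdim q.1, q.2)) := by
    intro q
    rw [LinearEquiv.eq_symm_apply]
    funext p
    show J.e (ρ ((hζ.powerBasis ℚ).gen ^ (q.1 : ℕ)) (J.a q.2)) p = _
    rw [hζ.powerBasis_gen ℚ, hpow]
    have h1 : J.e (J.a q.2) = fun p => o.A q.2.castSucc p := J.e.apply_symm_apply _
    rw [h1]
    rfl
  have hli : LinearIndependent ℝ (wv (hζ.powerBasis ℚ) ρ J.a) := by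
    have h1 := (onb_li s b hc hs o).map' ((J.e.symm : (Ix m b → ℂ) →ₗ[ℂ] J.T.V).restrictScalars ℝ)
      (by
        rw [LinearMap.ker_eq_bot]
        exact J.e.symm.injective)
    have h2 := h1.comp (fun q : Fin (hζ.powerBasis ℚ).dim × Fin r => (Fin.cast hdim q.1, q.2))
      (fun q q' h => by
        have h3 := congrArg Prod.fst h
        have h4 := congrArg Prod.snd h
        exact Prod.ext (Fin.cast_injective hdim h3) h4)
    have h3 : wv (hζ.powerBasis ℚ) ρ J.a = fun q => J.e.symm (o.w (Fin.cast hdim q.1, q.2)) :=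
      funext hwv
    rw [h3]
    exact h2
  have hcard : Fintype.card (Fin (hζ.powerBasis ℚ).dim × Fin r) = finrank ℝ J.T.V := by
    rw [Fintype.card_prod, Fintype.card_fin, Fintype.card_fin, finrank_real_of_complex, J.D.dim,
      hdim, mul_comm]
  obtain ⟨W, hW⟩ : ∃ W : Basis (Fin (hζ.powerBasis ℚ).dim × Fin r) ℝ J.T.V,
      ∀ q, W q = wv (hζ.powerBasis ℚ) ρ J.a q :=
    ⟨basisOfLinearIndependentOfCardEqFinrank' _ hli hcard, fun q => by
      rw [coe_basisOfLinearIndependentOfCardEqFinrank']⟩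
  have ha : ∀ j, J.a j ∈ J.T.L := by
    intro j
    have h0 : 0 < m.totient := Nat.totient_pos.2 hm
    rw [J.lat]
    refine Submodule.subset_span ⟨(⟨0, h0⟩, j), ?_⟩
    have h1 : J.e (J.a j) = fun p => o.A j.castSucc p := J.e.apply_symm_apply _
    rw [h1]
    funext p
    show ze m (ch p) ^ 0 * o.A j.castSucc p = _
    rw [pow_zero, one_mul]
  have hsp : ∀ v ∈ J.T.L, ∃ y : Fin r → E, v = ∑ j, ρ (y j) (J.a j) := by
    have h1 : ∀ x ∈ o.L, ∃ y : Fin r → E, x = J.e (∑ j, ρ (y j) (J.a j)) := by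
      intro x hx
      have hx' : x ∈ Submodule.span ℤ (Set.range o.w) := hx
      clear hx
      induction hx' using Submodule.span_induction with
      | mem x hx =>
        obtain ⟨⟨a, l⟩, rfl⟩ := hx
        refine ⟨Pi.single l (ζ ^ (a : ℕ)), ?_⟩
        rw [Finset.sum_eq_single l]
        · rw [Pi.single_eq_same]
          funext p
          rw [hpow]
          have h1 : J.e (J.a l) = fun p => o.A l.castSucc p := J.e.apply_symm_apply _
          rw [h1]
          rfl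
        · intro j _ hj
          rw [Pi.single_eq_of_ne hj, map_zero]
          rfl
        · intro h
          exact absurd (Finset.mem_univ l) h
      | zero => exact ⟨0, by simp⟩
      | add x x' hx hx' h h' =>
        obtain ⟨y, hy⟩ := h
        obtain ⟨y', hy'⟩ := h'
        refine ⟨y + y', ?_⟩
        rw [hy, hy', ← map_add, ← Finset.sum_add_distrib]
        congr 1
        refine Finset.sum_congr rfl fun j _ => ?_
        rw [Pi.add_apply, map_add]
        rfl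
      | smul n x hx h =>
        obtain ⟨y, hy⟩ := h
        refine ⟨fun j => (n : E) * y j, ?_⟩
        rw [hy, ← map_zsmul, Finset.smul_sum]
        congr 1
        refine Finset.sum_congr rfl fun j _ => ?_
        rw [map_mul, map_intCast]
        rfl
    intro v hv
    obtain ⟨y, hy⟩ := h1 (J.e v) ((J.lat v).1 hv)
    exact ⟨y, J.e.injective hy⟩
  obtain ⟨B, hB, hBb⟩ := blk_of (hζ.powerBasis ℚ) ρ W
    (fun v hv => by
      rw [hζ.powerBasis_gen ℚ, hρ]
      exact J.D.lat v hv) (by rw [hdim, J.D.dim]) φ₀ J.a ha hsp hW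
  have hco : ∀ φ i x j, B.b (φ, i) (B.ρ x (J.a j)) = if j = i then X.τ (φ x) else 0 := by
    intro φ i x j
    rw [hBb, hB]
    exact b0_rho (hζ.powerBasis ℚ) ρ W hW (φ, i) x j
  have hcoW : ∀ φ i q, B.b (φ, i) (W q) = if q.2 = i then X.τ (φ ζ) ^ (q.1 : ℕ) else 0 := by
    intro φ i q
    have h1 : W q = B.ρ (ζ ^ (q.1 : ℕ)) (J.a q.2) := by
      rw [hW, hB, wv, hζ.powerBasis_gen ℚ]
    rw [h1, hco, map_pow, map_pow]
  have heW : ∀ q p, J.e (W q) p = ze m (ch p) ^ (q.1 : ℕ) * o.A q.2.castSucc p := by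
    intro q p
    rw [hW, hwv, LinearEquiv.apply_symm_apply]
    rfl
  have hcnj : ∀ φ i v, B.b (gl X.c φ, i) v = conj (B.b (φ, i) v) := by
    intro φ i v
    have h1 : B.b (gl X.c φ, i) = (Complex.conjLIE.toLinearEquiv : ℂ →ₗ[ℝ] ℂ) ∘ₗ B.b (φ, i) := by
      refine W.ext fun q => ?_
      rw [hcoW]
      show _ = conj (B.b (φ, i) (W q))
      rw [hcoW]
      split_ifs
      · rw [map_pow]
        congr 1
        exact X.hc _
      · rw [map_zero]
    rw [h1]
    rfl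
  refine ⟨⟨B, inv, by rw [hB, hρ], hinv1, hinv2, fun x u v => ?_, hco, ?_, hcnj, ?_⟩⟩
  · refine adj_of (ζ := ζ) (hζ.powerBasis ℚ) (hζ.powerBasis_gen ℚ) B.ρ inv
      (inv_zeta (by omega) hζ inv hinv3) J.R (fun u v => ?_) x u v
    rw [hB, hρ]
    exact J.pol.2.2.2.2 u v
  · intro φ p hφ v
    have h1 : ((LinearMap.proj p ∘ₗ (J.e : J.T.V →ₗ[ℂ] (Ix m b → ℂ))).restrictScalars ℝ :
        J.T.V →ₗ[ℝ] ℂ) = ∑ j : Fin r, o.A j.castSucc p • B.b (φ, j) := by
      refine W.ext fun q => ?_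
      show J.e (W q) p = _
      rw [heW, LinearMap.sum_apply, Finset.sum_eq_single q.2]
      · rw [LinearMap.smul_apply, hcoW, if_pos rfl, hφ, smul_eq_mul, mul_comm]
      · intro j _ hj
        rw [LinearMap.smul_apply, hcoW, if_neg (fun h => hj h.symm), smul_zero]
      · intro h
        exact absurd (Finset.mem_univ _) h
    have h2 := LinearMap.congr_fun h1 v
    rw [LinearMap.sum_apply] at h2
    exact h2
  · -- the Riemann form
    set G : Matrix (Fin r) (Fin r) E := (Nm (laE ζ b))⁻¹ with hG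
    have hbas : ∀ q q', ((J.R (W q) (W q') : ℝ) : ℂ) = J.d * ∑ φ : E →+* X.K, ∑ i, ∑ j,
        B.b (φ, i) (W q) * X.τ (φ (G j i)) * B.b (gl X.c φ, j) (W q') := by
      intro q q'
      rw [J.form, Complex.ofReal_mul, Complex.ofReal_natCast]
      congr 1
      have h1 : ∀ q : Fin (hζ.powerBasis ℚ).dim × Fin r, J.e (W q) =
          o.w (Fin.cast hdim q.1, q.2) := by
        intro q
        rw [hW, hwv, LinearEquiv.apply_symm_apply]
      rw [h1, h1, frm_sum hc o]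
      symm
      refine sum_lab X hm hζ φ₀ _ _ fun φ u hu hu' hφ => ?_
      have h2 : ∀ i j, B.b (φ, i) (W q) * X.τ (φ (G j i)) * B.b (gl X.c φ, j) (W q') =
          if q.2 = i then (if q'.2 = j then X.τ (φ ζ) ^ (q.1 : ℕ) * X.τ (φ (G j i)) *
            conj (X.τ (φ ζ) ^ (q'.1 : ℕ)) else 0) else 0 := by
        intro i j
        rw [hcnj, hcoW, hcoW]
        split_ifs
        · rfl
        · rw [map_zero, mul_zero]
        · rw [zero_mul, zero_mul]
        · rw [zero_mul, zero_mul]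
      simp only [h2]
      have h3 : ∀ i : Fin r, (∑ j : Fin r, if q.2 = i then (if q'.2 = j then
          X.τ (φ ζ) ^ (q.1 : ℕ) * X.τ (φ (G j i)) * conj (X.τ (φ ζ) ^ (q'.1 : ℕ)) else 0) else 0) =
          if q.2 = i then X.τ (φ ζ) ^ (q.1 : ℕ) * X.τ (φ (G q'.2 i)) *
            conj (X.τ (φ ζ) ^ (q'.1 : ℕ)) else 0 := by
        intro i
        split_ifs
        · rw [Finset.sum_ite_eq, if_pos (Finset.mem_univ _)]
        · rw [Finset.sum_const_zero]
      rw [Finset.sum_congr rfl fun i _ => h3 i, Finset.sum_ite_eq, if_pos (Finset.mem_univ _)]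
      have h4 : o.Mm u q'.2 q.2 = X.τ (φ (G q'.2 q.2)) := by
        rw [Mm_map hc hs o (X.τ.comp φ) u hu hu' hφ]
        rfl
      rw [h4, hφ]
      show ze m u ^ (q.1 : ℕ) * X.τ (φ (G q'.2 q.2)) * conj (ze m u ^ (q'.1 : ℕ)) =
        ze m u ^ (q.1 : ℕ) * conj (ze m u ^ (q'.1 : ℕ)) * X.τ (φ (G q'.2 q.2))
      ring
    have h5 : ∀ q v, ((J.R (W q) v : ℝ) : ℂ) = J.d * ∑ φ : E →+* X.K, ∑ i, ∑ j,
        B.b (φ, i) (W q) * X.τ (φ (G j i)) * B.b (gl X.c φ, j) v := by
      intro q v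
      have h6 : (Complex.ofRealCLM.toLinearMap ∘ₗ J.R (W q) : J.T.V →ₗ[ℝ] ℂ) =
          (J.d : ℂ) • ∑ φ : E →+* X.K, ∑ i, ∑ j,
          (B.b (φ, i) (W q) * X.τ (φ (G j i))) • B.b (gl X.c φ, j) := by
        refine W.ext fun q' => ?_
        rw [LinearMap.smul_apply, smul_eq_mul]
        simp only [LinearMap.sum_apply, LinearMap.smul_apply, smul_eq_mul]
        exact hbas q q'
      have h7 := LinearMap.congr_fun h6 v
      rw [LinearMap.smul_apply, smul_eq_mul] at h7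
      simp only [LinearMap.sum_apply, LinearMap.smul_apply, smul_eq_mul] at h7
      exact h7
    intro u v
    have h6 : (Complex.ofRealCLM.toLinearMap ∘ₗ J.R.flip v : J.T.V →ₗ[ℝ] ℂ) =
        (J.d : ℂ) • ∑ φ : E →+* X.K, ∑ i, ∑ j,
        (X.τ (φ (G j i)) * B.b (gl X.c φ, j) v) • B.b (φ, i) := by
      refine W.ext fun q => ?_
      rw [LinearMap.smul_apply, smul_eq_mul]
      simp only [LinearMap.sum_apply, LinearMap.smul_apply, smul_eq_mul]
      refine (h5 q v).trans ?_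
      congr 1
      refine Finset.sum_congr rfl fun φ _ => Finset.sum_congr rfl fun i _ =>
        Finset.sum_congr rfl fun j _ => ?_
      ring
    have h7 := LinearMap.congr_fun h6 u
    rw [LinearMap.smul_apply, smul_eq_mul] at h7
    simp only [LinearMap.sum_apply, LinearMap.smul_apply, smul_eq_mul] at h7
    refine h7.trans ?_
    congr 1
    refine Finset.sum_congr rfl fun φ _ => Finset.sum_congr rfl fun i _ =>
      Finset.sum_congr rfl fun j _ => ?_
    ring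

/-- If the character has exactly one form, it is a multiple of `∏ (x - s_j)^(-μ_j) dx`. -/
theorem one_form (o : ONB m s b) (p : Ix m b) (h : ∀ q : Ix m b, ch q = ch p → q = p) :
    ∃ c : ℂ, c ≠ 0 ∧ ∀ j, o.A j p = c * Tp s (xi s (mu m b (ch p))) j := by
  have hex : ex p = 0 := by
    have h1 : ∃ q : Ix m b, ch q = ch p ∧ ex q = 0 := by
      have hr : 0 < r := lt_of_le_of_lt (Nat.zero_le _) p.1.2.2
      refine ⟨⟨(p.1.1, ⟨0, hr⟩), p.2.1, ?_⟩, rfl, rfl⟩
      have h2 := p.2.2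
      show m * 0 + _ < _
      refine lt_of_le_of_lt (Nat.add_le_add_right (Nat.mul_le_mul_left m (Nat.zero_le _)) _) h2
    obtain ⟨q, hq1, hq2⟩ := h1
    rw [← h q hq1]
    exact hq2
  obtain ⟨c, hc0, hc1⟩ := o.span p
  rw [hex, pow_zero, Finset.sum_eq_single p] at hc1
  · have hc : c p ≠ 0 := by
      intro h0
      rw [h0, map_zero, zero_mul] at hc1
      exact one_ne_zero hc1
    have hQ : o.Q p = Polynomial.C (c p)⁻¹ := by
      have h2 : Polynomial.C (c p)⁻¹ * (Polynomial.C (c p) * o.Q p) = Polynomial.C (c p)⁻¹ := by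
        rw [← hc1, mul_one]
      rw [← mul_assoc, ← Polynomial.C_mul, inv_mul_cancel₀ hc, Polynomial.C_1, one_mul] at h2
      exact h2
    refine ⟨(c p)⁻¹, inv_ne_zero hc, fun j => ?_⟩
    have h3 : ∀ x, frm s (mu m b (ch p)) (o.Q p) x = (c p)⁻¹ * xi s (mu m b (ch p)) x := by
      intro x
      rw [frm, hQ, Polynomial.eval_C]
    show ∫ a in Set.Iic (s j).re, frm s (mu m b (ch p)) (o.Q p) (pt a (s j).im) = _
    rw [Tp, ← integral_const_mul]
    refine integral_congr_ae (Eventually.of_forall fun a => ?_)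
    exact h3 _
  · intro q _ hq
    by_cases hh : ch q = ch p
    · exact absurd (h q hh) hq
    · rw [hc0 q hh, map_zero, zero_mul]
  · intro hh
    exact absurd (Finset.mem_univ p) hh

end main

end SEJ
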