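import Mathlib

/-!
# SE/J: periods of the new part of `y^m = ∏ (x - s_j)^b_j` -- definitions

`frm s μ P x dx = P(x) ∏ (x - s_j)^(-μ_j) dx` with principal branches; the cuts are the horizontal
rays `R_j = s_j - [0, ∞)`. All `s_j` have different imaginary parts.
-/

set_option autoImplicit false

open MeasureTheory Filter Topology

noncomputable section

namespace SEJ

variable {k : ℕ}

/-- `∏ (x - s_j) ^ (-μ_j)` -/
def xi (s : Fin k → ℂ) (μ : Fin k → ℝ) (x : ℂ) : ℂ := ∏ j, (x - s j) ^ (-(μ j : ℂ))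

/-- the coefficient of the form `P(x) ∏ (x - s_j)^(-μ_j) dx` -/
def frm (s : Fin k → ℂ) (μ : Fin k → ℝ) (P : Polynomial ℂ) (x : ℂ) : ℂ := P.eval x * xi s μ x

/-- its derivative -/
def dfrm (s : Fin k → ℂ) (μ : Fin k → ℝ) (P : Polynomial ℂ) (x : ℂ) : ℂ :=
  (P.derivative.eval x - P.eval x * ∑ j, (μ j : ℂ) / (x - s j)) * xi s μ x

/-- the form is of the first kind -/
structure Good (s : Fin k → ℂ) (μ : Fin k → ℝ) (P : Polynomial ℂ) : Prop where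
  im : StrictMono fun j => (s j).im
  pos : ∀ j, 0 < μ j
  lt : ∀ j, μ j < 1
  deg : ∀ i, P.coeff i ≠ 0 → (i : ℝ) + 1 < ∑ j, μ j

/-- the monodromy at `s_j` -/
def lam (μ : Fin k → ℝ) (j : Fin k) : ℂ := Complex.exp (2 * Real.pi * Complex.I * μ j)

/-- `a + i b` -/
def pt (a b : ℝ) : ℂ := (a : ℂ) + (b : ℂ) * Complex.I

/-- `∫_{R_j} f` -/
def Tp (s : Fin k → ℂ) (f : ℂ → ℂ) (j : Fin k) : ℂ := ∫ a in Set.Iic (s j).re, f (pt a (s j).im)

/-- minus the integral to the right of `s_j`: the value at `s_j` of the primitive of `f` which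
vanishes at `+ ∞` -/
def Pp (s : Fin k → ℂ) (f : ℂ → ℂ) (j : Fin k) : ℂ := - ∫ a in Set.Ioi (s j).re, f (pt a (s j).im)

/-- the primitive of `f` which vanishes at `+ ∞` -/
def prm (f : ℂ → ℂ) (x : ℂ) : ℂ := - ∫ t in Set.Ioi (0 : ℝ), f (x + (t : ℂ))

/-- `(1 + |x|)^d ∏ |x - s_j|^(-ν_j)` -/
def maj (s : Fin k → ℂ) (ν : Fin k → ℝ) (d : ℝ) (x : ℂ) : ℝ :=
  (1 + ‖x‖) ^ d * ∏ j, ‖x - s j‖ ^ (-(ν j))

end SEJ
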