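import Pool.Agent.Lib.SE.J.Spec2

/-! # SE/J, module N10: the forms in terms of the branches -/

set_option autoImplicit false

open MeasureTheory Filter Topology HC HC.SE

noncomputable section

namespace SEJ

private theorem N10_fac {m : ℕ} (hm : m ≠ 0) (z : ℂ) (hz : z ≠ 0) (u b : ℕ) :
    (z ^ ((b : ℂ) / m)) ^ u / z ^ (1 + u * b / m) =
      z ^ (-((1 - (((u * b) % m : ℕ) : ℝ) / m : ℝ) : ℂ)) := by
  rw [← Complex.cpow_nat_mul, ← Complex.cpow_natCast z (1 + u * b / m), ← Complex.cpow_sub _ _ hz]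
  congr 1
  have hm' : (m : ℂ) ≠ 0 := by exact_mod_cast hm
  have h := Nat.div_add_mod (u * b) m
  have h' : (m : ℂ) * ((u * b / m : ℕ) : ℂ) + ((u * b % m : ℕ) : ℂ) = (u : ℂ) * b := by
    exact_mod_cast h
  push_cast
  field_simp
  linear_combination -h'

/-- the forms in terms of the branches -/
theorem tN10 : S_N10 := by
  intro m r s b hcov o x y hx p
  have hm : m ≠ 0 := by
    have := hcov.1
    omega
  have hz : ∀ j, x - s j ≠ 0 := fun j h => hx ⟨j, (sub_eq_zero.mp h).symm⟩
  have h1 : xi s (mu m b (ch p)) x =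
      y0 m s b x ^ ch p / ∏ j, (x - s j) ^ (1 + ch p * b j / m) := by
    unfold xi y0 mu
    rw [← Finset.prod_pow, ← Finset.prod_div_distrib]
    refine Finset.prod_congr rfl fun j _ => ?_
    exact (N10_fac hm (x - s j) (hz j) (ch p) (b j)).symm
  have h2 : y0 m s b x ≠ 0 := by
    unfold y0
    refine Finset.prod_ne_zero_iff.mpr fun j _ => ?_
    intro h
    exact hz j ((Complex.cpow_eq_zero_iff _ _).mp h).1
  have h3 : ∏ j, (x - s j) ^ (1 + ch p * b j / m) ≠ 0 :=
    Finset.prod_ne_zero_iff.mpr fun j _ => pow_ne_zero _ (hz j)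
  unfold ONB.om frm
  rw [h1, div_pow]
  field_simp

end SEJ
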