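import Pool.Agent.Lib.SE.J.Def

/-! # SE/J: statements of the analytic modules -/

set_option autoImplicit false

open MeasureTheory Filter Topology

noncomputable section

namespace SEJ

/-! ## A. Integrability -/

/-- A1. PROOF: the `s_j` have distance `>= 3 r`. Near `s_j` (distance `< r`) the function is
`<= C |x - s_j|^(-ν_j)`, which is integrable on the disc as `ν_j < 2`
(`Complex.integral_rpow_mul_exp_neg_rpow`: the integral of `|x|^q exp (-|x|)` is `≠ 0`, so this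
function is integrable, and `exp (-|x|)` is bounded below on the disc; then translate). Outside the
discs `|x - s_j| >= c (1 + |x|)`, so it is `<= C (1 + |x|)^(d - ∑ ν_j)`, integrable as the exponent
is `< - 2` (`integrable_one_add_norm`). Measurability: continuity off the `s_j` or
`Measurable` of rpow of norms. -/
def S_A1 : Prop := ∀ {k : ℕ} (s : Fin k → ℂ) (ν : Fin k → ℝ) (d : ℝ), Function.Injective s →
  0 ≤ d → (∀ j, 0 ≤ ν j) → (∀ j, ν j < 2) → d + 2 < ∑ j, ν j → Integrable (maj s ν d)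

/-- A2 (`F` does not depend on `b`). PROOF: let `3 r <= |Im s_j - Im s_l|`. For `x = a + i b` at most
one `j` has `|b - Im s_j| < r`. For the other `l`: `|x - s_l| >= c (1 + |x|) >= c (1 + |a|)`. For `j`:
`|x - s_j| >= |a - Re s_j|`. Write `|x - s_j|^(-ν_j) <= |a - Re s_j|^(-ν_j)` and
`1 + |x| <= C (1 + |a|)` in this case; so
`F a = C ∑_j (1 + |a|)^(d - ∑_(l ≠ j) ν_l) |a - Re s_j|^(-ν_j) + C (1 + |a|)^(d - ∑ ν_l)`.
Integrable: near `Re s_j` as `ν_j < 1`, at infinity the exponent is `< - 1`. -/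
def S_A2 : Prop := ∀ {k : ℕ} (s : Fin k → ℂ) (ν : Fin k → ℝ) (d : ℝ),
  (StrictMono fun j => (s j).im) → 0 ≤ d → (∀ j, 0 ≤ ν j) → (∀ j, ν j < 1) →
  d + 1 < ∑ j, ν j → ∃ F : ℝ → ℝ, Integrable F ∧
    ∀ a b : ℝ, (∀ j, a ≠ (s j).re) → maj s ν d (pt a b) ≤ F a

/-! ## B. Integration by parts with jumps -/

/-- B1: the fundamental theorem of calculus on the line with jumps at the `β_j`. PROOF: let
`h b = f b + ∑_(j : β_j < b) (l_j - u_j)` for `b` different from all `β_j` and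
`h (β_j) = l_j + ∑_(i < j) (l_i - u_i)`: `h` is continuous, differentiable off the `β_j` with
derivative `f'` (`intervalIntegral.integral_eq_of_hasDerivWithinAt_off_countable_of_le` or
`MeasureTheory.integral_eq_of_hasDerivAt_off_countable`), tends to `0` at `- ∞` and to
`∑ (l_j - u_j)` at `+ ∞`. (Or: induction on `k` with
`intervalIntegral.integral_eq_sub_of_hasDerivAt_of_tendsto` between consecutive `β_j`.) -/
def S_B1 : Prop := ∀ {k : ℕ} (β : Fin k → ℝ) (f f' : ℝ → ℂ) (u l : Fin k → ℂ), StrictMono β →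
  (∀ b, (∀ j, b ≠ β j) → HasDerivAt f (f' b) b) → Integrable f' →
  (∀ j, Tendsto f (𝓝[>] (β j)) (𝓝 (u j))) → (∀ j, Tendsto f (𝓝[<] (β j)) (𝓝 (l j))) →
  Tendsto f atBot (𝓝 0) → Tendsto f atTop (𝓝 0) → ∫ b, f' b = ∑ j, (l j - u j)

/-- B2: Stokes on the plane with jumps along the horizontal lines `Im = β_j`. PROOF (uses B1):
`Hb = c K + e Ha` almost everywhere, so `Hb` is integrable on the plane. For almost all `a`
(`∉ ρ`, `Hb a` integrable) B1: `∫ Hb a b db = ∑ (l_j a - u_j a)`. So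
`∫∫ Hb = ∫ ∑ (l_j a - u_j a) da` (Fubini). For almost all `b` (`Ha · b` integrable, `b` not a `β_j`):
`∫ Ha a b da = 0` (`MeasureTheory.integral_of_hasDerivAt_of_tendsto`), so `∫∫ Ha = 0`. -/
def S_B2 : Prop := S_B1 → ∀ {k : ℕ} (β : Fin k → ℝ) (ρ : Finset ℝ) (H Ha Hb K : ℝ → ℝ → ℂ) (c e : ℂ)
  (u l : Fin k → ℝ → ℂ), StrictMono β →
  (∀ a ∉ ρ, ∀ b, (∀ j, b ≠ β j) → HasDerivAt (fun b => H a b) (Hb a b) b) →
  (∀ b, (∀ j, b ≠ β j) → ∀ a, HasDerivAt (fun a => H a b) (Ha a b) a) →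
  (∀ a b, (∀ j, b ≠ β j) → Hb a b = c * K a b + e * Ha a b) →
  Integrable (fun p : ℝ × ℝ => Ha p.1 p.2) → Integrable (fun p : ℝ × ℝ => K p.1 p.2) →
  (∀ a ∉ ρ, ∀ j, Tendsto (fun b => H a b) (𝓝[>] (β j)) (𝓝 (u j a))) →
  (∀ a ∉ ρ, ∀ j, Tendsto (fun b => H a b) (𝓝[<] (β j)) (𝓝 (l j a))) →
  (∀ a ∉ ρ, Tendsto (fun b => H a b) atBot (𝓝 0)) →
  (∀ a ∉ ρ, Tendsto (fun b => H a b) atTop (𝓝 0)) →
  (∀ b, (∀ j, b ≠ β j) → Tendsto (fun a => H a b) atBot (𝓝 0)) →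
  (∀ b, (∀ j, b ≠ β j) → Tendsto (fun a => H a b) atTop (𝓝 0)) →
  c * ∫ p : ℝ × ℝ, K p.1 p.2 = ∫ a, ∑ j, (l j a - u j a)

/-! ## C. The forms -/

/-- C1: the derivative (`HasDerivAt.cpow_const`, `HasDerivAt.finset_prod`, `HasDerivAt.mul`) -/
def S_C1 : Prop := ∀ {k : ℕ} (s : Fin k → ℂ) (μ : Fin k → ℝ) (P : Polynomial ℂ) (x : ℂ),
  (∀ j, x - s j ∈ Complex.slitPlane) → HasDerivAt (frm s μ P) (dfrm s μ P x) x

/-- C2: bounds. PROOF: `d = natDegree P` (the leading coefficient is `≠ 0`, use `deg`),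
`|P x| <= C (1 + |x|)^d`, `|P' x| <= C (1 + |x|)^(d - 1)` (and `P' = 0` if `d = 0`),
`|(x - s_j) ^ (-μ_j)| = |x - s_j| ^ (-μ_j)` for `x ≠ s_j` (`Complex.norm_cpow_eq_rpow_re_of_pos` is
for positive base; `Complex.norm_cpow_real`), `1 / (1 + |x|) <= C / |x - s_l|`; `μ_j / (x - s_j)`
times `ξ` gives the exponent `μ_j + 1`. At `x = s_j` both sides of the first bound: `0 ^ (-μ_j) = 0`
on the left (complex) and on the right (real), as `μ_j ≠ 0`. `Σ μ_j > 1 > 0` gives `k ≠ 0`. -/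
def S_C2 : Prop := ∀ {k : ℕ} (s : Fin k → ℂ) (μ : Fin k → ℝ) (P : Polynomial ℂ),
  Good s μ P → P ≠ 0 → ∃ (C d : ℝ), 0 ≤ d ∧ d + 1 < ∑ j, μ j ∧ 0 ≤ C ∧
    (∀ x, ‖frm s μ P x‖ ≤ C * maj s μ d x) ∧
    ∀ x, (∀ j, x ≠ s j) →
      ‖dfrm s μ P x‖ ≤ C * ∑ l, maj s (fun j => μ j + if j = l then 1 else 0) d x

/-- C3: values from above. PROOF: for `l ≠ j` the factor is continuous (`Im (x - s_l) ≠ 0`); for
`l = j`, `a > Re s_j` also; `a < Re s_j`: `x - s_j` is a negative real number and `log` is continuous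
from above (`Complex.continuousWithinAt_log_of_re_neg_of_im_zero`). -/
def S_C3 : Prop := ∀ {k : ℕ} (s : Fin k → ℂ) (μ : Fin k → ℝ) (P : Polynomial ℂ), Good s μ P →
  ∀ (j : Fin k) (a : ℝ), a ≠ (s j).re →
  Tendsto (fun b => frm s μ P (pt a b)) (𝓝[>] (s j).im) (𝓝 (frm s μ P (pt a (s j).im)))

/-- C4: values from below. As C3, with
`Complex.tendsto_log_nhdsWithin_im_neg_of_re_neg_of_im_zero`: from below `log` tends to
`log |·| - π i` instead of `log |·| + π i`, and `exp (-μ (-2 π i)) = lam`. -/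
def S_C4 : Prop := ∀ {k : ℕ} (s : Fin k → ℂ) (μ : Fin k → ℝ) (P : Polynomial ℂ), Good s μ P →
  ∀ (j : Fin k) (a : ℝ), a ≠ (s j).re →
  Tendsto (fun b => frm s μ P (pt a b)) (𝓝[<] (s j).im)
    (𝓝 ((if a < (s j).re then lam μ j else 1) * frm s μ P (pt a (s j).im)))

/-- C5: decay. PROOF (uses C2): `maj s μ d x <= C (1 + |x|)^(d - ∑ μ_j)` for large `|x|`;
trivial for `P = 0`. -/
def S_C5 : Prop := S_C2 → ∀ {k : ℕ} (s : Fin k → ℂ) (μ : Fin k → ℝ) (P : Polynomial ℂ), Good s μ P →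
  Tendsto (frm s μ P) (Bornology.cobounded ℂ) (𝓝 0)

/-! ## D. The primitive -/

/-- D1: the derivative of the primitive. PROOF (uses C1, C2): for `x'` in a small ball around `x`
all points `x' + t`, `t >= 0`, stay away from the rays `R_j` (distance `>= c`), so
`frm` is holomorphic there and `|dfrm (x' + t)| <= C (1 + t)^(-1-δ)`,
`hasDerivAt_integral_of_dominated_loc_of_deriv_le`; the derivative is
`- ∫_0^∞ dfrm (x + t) dt = frm x` (`MeasureTheory.integral_Ioi_of_hasDerivAt_of_tendsto`, `frm → 0` at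
infinity). `P = 0` is trivial. -/
def S_D1 : Prop := S_C1 → S_C2 → S_C5 → ∀ {k : ℕ} (s : Fin k → ℂ) (μ : Fin k → ℝ) (P : Polynomial ℂ), Good s μ P →
  ∀ x : ℂ, (∀ j, x.im = (s j).im → (s j).re < x.re) →
    HasDerivAt (prm (frm s μ P)) (frm s μ P x) x

/-- D2: the primitive is bounded: `|prm x| <= ∫_0^∞ C maj (x + t) dt <= C ∫ F` (A2, C2). -/
def S_D2 : Prop := S_A2 → S_C2 → ∀ {k : ℕ} (s : Fin k → ℂ) (μ : Fin k → ℝ) (P : Polynomial ℂ), Good s μ P →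
  ∃ C : ℝ, ∀ x : ℂ, ‖prm (frm s μ P) x‖ ≤ C

/-- D3: values from above: dominated convergence (`F` of A2 as bound, C3 for almost all `t`). -/
def S_D3 : Prop := S_A2 → S_C2 → S_C3 → ∀ {k : ℕ} (s : Fin k → ℂ) (μ : Fin k → ℝ) (P : Polynomial ℂ), Good s μ P →
  ∀ (j : Fin k) (a : ℝ), a ≠ (s j).re →
  Tendsto (fun b => prm (frm s μ P) (pt a b)) (𝓝[>] (s j).im)
    (𝓝 (prm (frm s μ P) (pt a (s j).im)))

/-- D4: values from below: dominated convergence (A2, C2, C4): for `a < Re s_j` the limit is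
`- λ_j ∫_a^(Re s_j) - ∫_(Re s_j)^∞`. -/
def S_D4 : Prop := S_A2 → S_C2 → S_C4 → ∀ {k : ℕ} (s : Fin k → ℂ) (μ : Fin k → ℝ) (P : Polynomial ℂ), Good s μ P →
  ∀ (j : Fin k) (a : ℝ), a ≠ (s j).re →
  Tendsto (fun b => prm (frm s μ P) (pt a b)) (𝓝[<] (s j).im)
    (𝓝 (if a < (s j).re then lam μ j * prm (frm s μ P) (pt a (s j).im) +
      (1 - lam μ j) * Pp s (frm s μ P) j else prm (frm s μ P) (pt a (s j).im)))

/-! ## E. The period relations -/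

/-- E1: B2 with `H = frm`, `Ha = dfrm`, `Hb = i dfrm`, `K = 0`, `c = 0`, `e = i`,
`u_j = frm (pt a β_j)`, `l_j = λ_j frm` resp. `frm` (C4); `ρ` = the `Re s_j`; `dfrm` is integrable by A1
(with `ν_j = μ_j + [j = l] < 2` and `d + 2 < ∑ ν_j`). Identify `ℂ` with `ℝ × ℝ` by
`Complex.volume_preserving_equiv_real_prod`. -/
def S_E1 : Prop := S_A1 → S_A2 → S_B1 → S_B2 → S_C1 → S_C2 → S_C3 → S_C4 → S_C5 → ∀ {k : ℕ} (s : Fin k → ℂ) (μ : Fin k → ℝ) (P : Polynomial ℂ), Good s μ P →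
  ∑ j, (1 - lam μ j) * Tp s (frm s μ P) j = 0

/-- E2: the same with `H = frm` for `b > Im s_j0` and `H = 0` for `b <= Im s_j0` (`u`, `l` are `0` for
`j < j0`, `l_(j0) = 0`): `0 = ∑_(l > j0) (λ_l - 1) T_l - ∫_ℝ frm (pt a β_(j0)) da`, and
`∫_ℝ = T_(j0) - Pp_(j0)`. -/
def S_E2 : Prop := S_A1 → S_A2 → S_B1 → S_B2 → S_C1 → S_C2 → S_C3 → S_C4 → S_C5 → ∀ {k : ℕ} (s : Fin k → ℂ) (μ : Fin k → ℝ) (P : Polynomial ℂ), Good s μ P →
  ∀ j, Pp s (frm s μ P) j = Tp s (frm s μ P) j +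
    ∑ l ∈ Finset.Ioi j, (1 - lam μ l) * Tp s (frm s μ P) l

/-- E3: B2 with `H = prm (frm P) * conj (frm Q)`, `K = frm P * conj (frm Q)`, `c = 2 i`, `e = - i`:
`Ha = frm P conj (frm Q) + prm conj (dfrm Q)`, `Hb = i frm P conj (frm Q) - i prm conj (dfrm Q)`.
For `a < Re s_j`: `u = g w`, `l = (λ g + (1 - λ) π_j) conj λ w`, so `l - u = (λ⁻¹ - 1) π_j w`,
`w = conj (frm Q (pt a β_j))`; for `a > Re s_j`: `l = u`. Integrability: A1 (exponents `2 μ_j`;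
`g` bounded by D2, `dfrm Q`), decay: C5 and D2. -/
def S_E3 : Prop := S_A1 → S_A2 → S_B1 → S_B2 → S_C1 → S_C2 → S_C3 → S_C4 → S_C5 →
  S_D1 → S_D2 → S_D3 → S_D4 → ∀ {k : ℕ} (s : Fin k → ℂ) (μ : Fin k → ℝ) (P Q : Polynomial ℂ), Good s μ P →
  Good s μ Q →
  2 * Complex.I * ∫ x : ℂ, frm s μ P x * (starRingEnd ℂ) (frm s μ Q x) =
    - ∑ j, (1 - (lam μ j)⁻¹) * Pp s (frm s μ P) j * (starRingEnd ℂ) (Tp s (frm s μ Q) j)

/-- E4: the same with `H = prm (frm P) * frm Q`, `Q` with the exponents `1 - μ_j`, `c = 0`, `e = i`;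
the monodromy of `frm Q` is `λ_j⁻¹`. Integrability: exponents `1` resp. as in E3. -/
def S_E4 : Prop := S_A1 → S_A2 → S_B1 → S_B2 → S_C1 → S_C2 → S_C3 → S_C4 → S_C5 →
  S_D1 → S_D2 → S_D3 → S_D4 → ∀ {k : ℕ} (s : Fin k → ℂ) (μ : Fin k → ℝ) (P Q : Polynomial ℂ), Good s μ P →
  Good s (fun j => 1 - μ j) Q →
  0 = ∑ j, (1 - (lam μ j)⁻¹) * Pp s (frm s μ P) j * Tp s (frm s (fun j => 1 - μ j) Q) j

/-- E5: positivity (A1 with `ν_j = 2 μ_j`, C2); `frm ≠ 0` off the zeros of `P` and the `s_j`,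
continuous off the horizontal lines. -/
def S_E5 : Prop := S_A1 → S_C1 → S_C2 → ∀ {k : ℕ} (s : Fin k → ℂ) (μ : Fin k → ℝ) (P : Polynomial ℂ), Good s μ P →
  Integrable (fun x => ‖frm s μ P x‖ ^ 2) ∧ (P ≠ 0 → 0 < ∫ x : ℂ, ‖frm s μ P x‖ ^ 2)

end SEJ
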